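import Pool.Agent.H56.UD.Small

/-!
# Uniserial dimension (MP_404602_al): invariance under equivalences
-/

open CategoryTheory

namespace Pool.Agent.H56.UDs

universe w v u₁ u₂

section Bij

variable {C : Type u₁} [Category.{v} C] [Preadditive C] {F G : C ⥤ AddCommGrpCat.{v}}

theorem additive_of_bij (φ : F ⟶ G) (hφ : ∀ M, Function.Bijective (φ.app M).hom)
    (h : F.Additive) : G.Additive where
  map_add {X Y f g} := by
    apply AddCommGrpCat.hom_ext
    apply AddMonoidHom.ext
    intro y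
    obtain ⟨x, rfl⟩ := (hφ X).2 y
    change (G.map (f + g)).hom ((φ.app X).hom x) =
      (G.map f).hom ((φ.app X).hom x) + (G.map g).hom ((φ.app X).hom x)
    rw [← nat_ap, ← nat_ap, ← nat_ap, map_add_ap, map_add]

theorem additive_of_bij' (φ : F ⟶ G) (hφ : ∀ M, Function.Bijective (φ.app M).hom)
    (h : G.Additive) : F.Additive where
  map_add {X Y f g} := by
    apply AddCommGrpCat.hom_ext
    apply AddMonoidHom.ext
    intro x
    apply (hφ Y).1
    change (φ.app Y).hom ((F.map (f + g)).hom x) =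
      (φ.app Y).hom ((F.map f).hom x + (F.map g).hom x)
    rw [map_add, nat_ap, nat_ap, nat_ap, map_add_ap]

theorem fp_bij (φ : F ⟶ G) (hφ : ∀ M, Function.Bijective (φ.app M).hom) (h : IsFP F) :
    IsFP G := by
  obtain ⟨h0, X, Y, r, ξ, h1, h2⟩ := h
  refine ⟨additive_of_bij φ hφ h0, X, Y, r, (φ.app X).hom ξ, fun M y => ?_, fun M f => ?_⟩
  · obtain ⟨x, rfl⟩ := (hφ M).2 y
    obtain ⟨f, rfl⟩ := h1 M x
    exact ⟨f, (nat_ap φ f ξ).symm⟩
  · rw [← h2 M f, ← nat_ap]
    constructor
    · intro h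
      exact (hφ M).1 (by rw [h, map_zero])
    · intro h
      rw [h, map_zero]

theorem fp_bij' (φ : F ⟶ G) (hφ : ∀ M, Function.Bijective (φ.app M).hom) (h : IsFP G) :
    IsFP F := by
  obtain ⟨h0, X, Y, r, η, h1, h2⟩ := h
  obtain ⟨ξ, rfl⟩ := (hφ X).2 η
  refine ⟨additive_of_bij' φ hφ h0, X, Y, r, ξ, fun M y => ?_, fun M f => ?_⟩
  · obtain ⟨f, hf⟩ := h1 M ((φ.app M).hom y)
    refine ⟨f, (hφ M).1 ?_⟩
    rw [← hf, nat_ap]
  · rw [← h2 M f, ← nat_ap]
    constructor
    · intro h
      rw [h, map_zero]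
    · intro h
      exact (hφ M).1 (by rw [h, map_zero])

theorem serre_bij {S : (C ⥤ AddCommGrpCat.{v}) → Prop} (hS : IsSerre S) (φ : F ⟶ G)
    (hφ : ∀ M, Function.Bijective (φ.app M).hom) (h : S F) : S G :=
  hS.quo F G φ (fun M => (hφ M).2) (fp_bij φ hφ (hS.fp F h)) h

theorem serre_bij' {S : (C ⥤ AddCommGrpCat.{v}) → Prop} (hS : IsSerre S) (φ : F ⟶ G)
    (hφ : ∀ M, Function.Bijective (φ.app M).hom) (h : S G) : S F :=
  hS.sub G F φ (fun M => (hφ M).1) (fp_bij' φ hφ (hS.fp G h)) h

end Bij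

variable {C : Type u₁} [Category.{v} C] [Preadditive C]
  {D : Type u₂} [Category.{v} D] [Preadditive D]

set_option linter.unusedSectionVars false

theorem bij_of_iso {X Y : C} (F : C ⥤ AddCommGrpCat.{v}) (i : X ≅ Y) :
    Function.Bijective (F.map i.hom).hom := by
  constructor
  · intro x y h
    have h1 := congrArg (F.map i.inv).hom h
    rw [← map_comp_ap, ← map_comp_ap, i.hom_inv_id, map_id_ap, map_id_ap] at h1
    exact h1
  · intro y
    exact ⟨(F.map i.inv).hom y, by rw [← map_comp_ap, i.inv_hom_id, map_id_ap]⟩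

theorem fp_pull (E : C ≌ D) [E.functor.Additive] {F : D ⥤ AddCommGrpCat.{v}} (hF : IsFP F) :
    IsFP (E.functor ⋙ F) := by
  obtain ⟨h0, X, Y, r, ξ, h1, h2⟩ := hF
  refine ⟨inferInstance, E.inverse.obj X, E.inverse.obj Y, E.inverse.map r,
    (F.map (E.counitInv.app X)).hom ξ, fun M y => ?_, fun M f => ?_⟩
  · obtain ⟨f, hf⟩ := h1 (E.functor.obj M) y
    refine ⟨E.functor.preimage (E.counit.app X ≫ f), ?_⟩
    change (F.map (E.functor.map (E.functor.preimage (E.counit.app X ≫ f)))).hom
      ((F.map (E.counitInv.app X)).hom ξ) = y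
    rw [E.functor.map_preimage, ← map_comp_ap, ← hf]
    simp
  · change (F.map (E.functor.map f)).hom ((F.map (E.counitInv.app X)).hom ξ) = 0 ↔ _
    rw [← map_comp_ap, h2]
    constructor
    · rintro ⟨g, hg⟩
      refine ⟨E.functor.preimage (E.counit.app Y ≫ g), E.functor.map_injective ?_⟩
      rw [E.functor.map_comp, E.functor.map_preimage]
      have h3 := E.counit.naturality r
      simp only [Functor.comp_map, Functor.id_map] at h3
      rw [← Category.assoc, h3, Category.assoc]
      have h4 : E.counit.app X ≫ E.counitInv.app X ≫ E.functor.map f = E.functor.map f := by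
        simp
      rw [← h4, ← hg]
    · rintro ⟨g, rfl⟩
      refine ⟨E.counitInv.app Y ≫ E.functor.map g, ?_⟩
      have h3 := E.counitInv.naturality r
      simp only [Functor.comp_map, Functor.id_map] at h3
      rw [E.functor.map_comp, ← Category.assoc, h3, Category.assoc]

instance symm_add (E : C ≌ D) [E.functor.Additive] : E.symm.functor.Additive :=
  (inferInstance : E.inverse.Additive)

/-- transport of classes of functors -/
def pS (E : C ≌ D) (S : (D ⥤ AddCommGrpCat.{v}) → Prop) (G : C ⥤ AddCommGrpCat.{v}) : Prop :=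
  S (E.inverse ⋙ G)

/-- the natural transformation `G ⟶ E.functor ⋙ E.inverse ⋙ G` -/
def unitN (E : C ≌ D) (G : C ⥤ AddCommGrpCat.{v}) : G ⟶ E.functor ⋙ E.inverse ⋙ G where
  app M := G.map (E.unit.app M)
  naturality M N f := by
    have h3 := E.unit.naturality f
    simp only [Functor.comp_map, Functor.id_map] at h3
    simp only [Functor.comp_map]
    rw [← G.map_comp, ← G.map_comp, h3]

theorem unitN_bij (E : C ≌ D) (G : C ⥤ AddCommGrpCat.{v}) (M : C) :
    Function.Bijective ((unitN E G).app M).hom :=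
  bij_of_iso G (E.unitIso.app M)

/-- the natural transformation `E.inverse ⋙ E.functor ⋙ F ⟶ F` -/
def counitN (E : C ≌ D) (F : D ⥤ AddCommGrpCat.{v}) : E.inverse ⋙ E.functor ⋙ F ⟶ F where
  app M := F.map (E.counit.app M)
  naturality M N f := by
    have h3 := E.counit.naturality f
    simp only [Functor.comp_map, Functor.id_map] at h3
    simp only [Functor.comp_map]
    rw [← F.map_comp, ← F.map_comp, h3]

theorem counitN_bij (E : C ≌ D) (F : D ⥤ AddCommGrpCat.{v}) (M : D) :
    Function.Bijective ((counitN E F).app M).hom :=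
  bij_of_iso F (E.counitIso.app M)

theorem pS_serre (E : C ≌ D) [E.functor.Additive] {S : (D ⥤ AddCommGrpCat.{v}) → Prop}
    (hS : IsSerre S) : IsSerre (pS E S) where
  fp F h := fp_bij' (unitN E F) (unitN_bij E F) (fp_pull E (hS.fp _ h))
  zero F hF h := hS.zero _ (fp_pull E.symm hF) fun M x => h _ x
  sub F G i hi hG h := hS.sub (E.inverse ⋙ F) (E.inverse ⋙ G) (Functor.whiskerLeft E.inverse i)
    (fun M => hi _) (fp_pull E.symm hG) h
  quo F G p hp hG h := hS.quo (E.inverse ⋙ F) (E.inverse ⋙ G) (Functor.whiskerLeft E.inverse p)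
    (fun M => hp _) (fp_pull E.symm hG) h
  ext F G H i p hi hp hex hG hF hH := hS.ext (E.inverse ⋙ F) (E.inverse ⋙ G) (E.inverse ⋙ H)
    (Functor.whiskerLeft E.inverse i) (Functor.whiskerLeft E.inverse p) (fun M => hi _)
    (fun M => hp _) (fun M x => hex _ x) (fp_pull E.symm hG) hF hH

/-- transport of subfunctors -/
def shp (E : C ≌ D) {G : C ⥤ AddCommGrpCat.{v}} (A : Sub (E.inverse ⋙ G)) : Sub G where
  car M := (A.car (E.functor.obj M)).comap (G.map (E.unit.app M)).hom
  map_mem {M N} f x hx := by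
    rw [AddSubgroup.mem_comap] at hx ⊢
    have h1 := A.map_mem (E.functor.map f) _ hx
    have h2 : (G.map (E.unit.app N)).hom ((G.map f).hom x) =
        ((E.inverse ⋙ G).map (E.functor.map f)).hom ((G.map (E.unit.app M)).hom x) :=
      nat_ap (unitN E G) f x
    rw [h2]
    exact h1

theorem mem_shp (E : C ≌ D) {G : C ⥤ AddCommGrpCat.{v}} (A : Sub (E.inverse ⋙ G)) (M : C)
    (x : G.obj M) : x ∈ (shp E A).car M ↔ (G.map (E.unit.app M)).hom x ∈
      A.car (E.functor.obj M) := Iff.rfl

theorem mem_shp_inv (E : C ≌ D) {G : C ⥤ AddCommGrpCat.{v}} (A : Sub (E.inverse ⋙ G)) (N : D)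
    (x : G.obj (E.inverse.obj N)) : x ∈ (shp E A).car (E.inverse.obj N) ↔ x ∈ A.car N := by
  rw [mem_shp]
  have key : ∀ y : G.obj (E.inverse.obj (E.functor.obj (E.inverse.obj N))),
      (G.map (E.inverse.map (E.counit.app N))).hom y = x →
      (G.map (E.unit.app (E.inverse.obj N))).hom x = y := by
    rintro y rfl
    rw [← map_comp_ap]
    have : E.inverse.map (E.counit.app N) ≫ E.unit.app (E.inverse.obj N) = 𝟙 _ := by
      have h1 : E.unit.app (E.inverse.obj N) ≫ E.inverse.map (E.counit.app N) = 𝟙 _ := by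
        simp
      have h2 : IsIso (E.inverse.map (E.counit.app N)) := inferInstance
      rw [← cancel_mono (E.inverse.map (E.counit.app N)), Category.assoc, h1]
      simp
    rw [this, map_id_ap]
  constructor
  · intro h
    have h1 := A.map_mem (E.counit.app N) _ h
    have h2 : ((E.inverse ⋙ G).map (E.counit.app N)).hom
        ((G.map (E.unit.app (E.inverse.obj N))).hom x) = x := by
      change (G.map (E.inverse.map (E.counit.app N))).hom _ = x
      rw [← map_comp_ap]
      simp
    rw [h2] at h1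
    exact h1
  · intro h
    have h1 := A.map_mem (E.counitInv.app N) x h
    have h2 : (G.map (E.inverse.map (E.counit.app N))).hom
        (((E.inverse ⋙ G).map (E.counitInv.app N)).hom x) = x := by
      change (G.map (E.inverse.map (E.counit.app N))).hom
        ((G.map (E.inverse.map (E.counitInv.app N))).hom x) = x
      rw [← map_comp_ap, ← E.inverse.map_comp]
      simp
    rw [key _ h2]
    exact h1

/-- `(shp A).quot (shp B)`, composed with `E.inverse`, is `A.quot B` -/
def shq (E : C ≌ D) {G : C ⥤ AddCommGrpCat.{v}} (A B : Sub (E.inverse ⋙ G)) :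
    E.inverse ⋙ (shp E A).quot (shp E B) ⟶ A.quot B where
  app N := AddCommGrpCat.ofHom (QuotientAddGroup.map
    (((shp E B).car (E.inverse.obj N)).addSubgroupOf ((shp E A).car (E.inverse.obj N)))
    ((B.car N).addSubgroupOf (A.car N))
    ((AddSubgroup.subtype ((shp E A).car (E.inverse.obj N))).codRestrict (A.car N)
      fun x => (mem_shp_inv E A N x).1 x.2)
    fun x hx => (mem_shp_inv E B N x).1 hx)
  naturality M N f := by
    apply AddCommGrpCat.hom_ext
    apply AddMonoidHom.ext
    intro z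
    obtain ⟨x, rfl⟩ := QuotientAddGroup.mk_surjective z
    rfl

theorem shq_bij (E : C ≌ D) {G : C ⥤ AddCommGrpCat.{v}} (A B : Sub (E.inverse ⋙ G)) (N : D) :
    Function.Bijective ((shq E A B).app N).hom := by
  constructor
  · rw [injective_iff_map_eq_zero]
    intro z hz
    obtain ⟨x, rfl⟩ := QuotientAddGroup.mk_surjective z
    have h1 := (quot_mk_zero (A := A) (B := B) (M := N)
      ⟨x.1, (mem_shp_inv E A N x.1).1 x.2⟩).1 hz
    exact (quot_mk_zero (A := shp E A) (B := shp E B) x).2 ((mem_shp_inv E B N x.1).2 h1)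
  · intro z
    obtain ⟨x, rfl⟩ := QuotientAddGroup.mk_surjective z
    exact ⟨(QuotientAddGroup.mk (⟨x.1, (mem_shp_inv E A N x.1).2 x.2⟩ :
      (shp E A).car (E.inverse.obj N)) : (shp E A).car (E.inverse.obj N) ⧸
      ((shp E B).car (E.inverse.obj N)).addSubgroupOf ((shp E A).car (E.inverse.obj N))), rfl⟩

/-- `shp A` is `A`, composed with `E.functor` -/
def shf (E : C ≌ D) {G : C ⥤ AddCommGrpCat.{v}} (A : Sub (E.inverse ⋙ G)) :
    (shp E A).fn ⟶ E.functor ⋙ A.fn where
  app M := AddCommGrpCat.ofHom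
    (((G.map (E.unit.app M)).hom.comp (AddSubgroup.subtype ((shp E A).car M))).codRestrict
      (A.car (E.functor.obj M)) fun x => x.2)
  naturality M N f := by
    apply AddCommGrpCat.hom_ext
    apply AddMonoidHom.ext
    intro x
    exact Subtype.ext (nat_ap (unitN E G) f (x : (shp E A).car M).1)

theorem shf_bij (E : C ≌ D) {G : C ⥤ AddCommGrpCat.{v}} (A : Sub (E.inverse ⋙ G)) (M : C) :
    Function.Bijective ((shf E A).app M).hom := by
  constructor
  · intro x y h
    have h1 : (G.map (E.unit.app M)).hom (x : (shp E A).car M).1 =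
      (G.map (E.unit.app M)).hom (y : (shp E A).car M).1 := congrArg Subtype.val h
    exact Subtype.ext ((unitN_bij E G M).1 h1)
  · intro y
    obtain ⟨x, hx⟩ := (unitN_bij E G M).2 (y : A.car (E.functor.obj M)).1
    have hx' : (G.map (E.unit.app M)).hom x = (y : A.car (E.functor.obj M)).1 := hx
    refine ⟨(⟨x, ?_⟩ : (shp E A).car M), Subtype.ext hx⟩
    rw [mem_shp, hx']
    exact (y : A.car (E.functor.obj M)).2

theorem uni_pull (E : C ≌ D) [E.functor.Additive] {S : (C ⥤ AddCommGrpCat.{v}) → Prop}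
    {S' : (D ⥤ AddCommGrpCat.{v}) → Prop} (hS' : IsSerre S')
    (h : ∀ G, S G → S' (E.inverse ⋙ G)) {G : C ⥤ AddCommGrpCat.{v}} (hG : Uni S G) :
    Uni S' (E.inverse ⋙ G) := by
  refine ⟨fp_pull E.symm hG.1, fun A B hA hB => ?_⟩
  have hA' : IsFP (shp E A).fn := fp_bij' (shf E A) (shf_bij E A) (fp_pull E hA)
  have hB' : IsFP (shp E B).fn := fp_bij' (shf E B) (shf_bij E B) (fp_pull E hB)
  rcases hG.2 _ _ hA' hB' with h1 | h1
  · exact Or.inl (serre_bij hS' (shq E A B) (shq_bij E A B) (h _ h1))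
  · exact Or.inr (serre_bij hS' (shq E B A) (shq_bij E B A) (h _ h1))

theorem stage_pull (E : C ≌ D) [E.functor.Additive] (α : Ordinal.{w}) :
    ∀ G : C ⥤ AddCommGrpCat.{v}, Stage α G → Stage α (E.inverse ⋙ G) := by
  induction α using WellFoundedLT.induction with
  | ind α ih =>
    intro G hG
    rw [stage_iff]
    intro S hS h1
    refine (stage_iff α G).1 hG (pS E S) (pS_serre E hS) fun β hβ H hH => ?_
    exact h1 β hβ _ (uni_pull E (stage_serre β) (ih β hβ) hH)

theorem stage_pull' (E : C ≌ D) [E.functor.Additive] (α : Ordinal.{w})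
    (F : D ⥤ AddCommGrpCat.{v}) (h : Stage α (E.functor ⋙ F)) : Stage α F :=
  serre_bij (stage_serre α) (counitN E F) (counitN_bij E F) (stage_pull E α _ h)

theorem all_stage (E : C ≌ D) [E.functor.Additive] (α : Ordinal.{w})
    (h : ∀ G : C ⥤ AddCommGrpCat.{v}, IsFP G → Stage α G) (F : D ⥤ AddCommGrpCat.{v})
    (hF : IsFP F) : Stage α F :=
  stage_pull' E α F (h _ (fp_pull E hF))

/-- the uniserial dimension is invariant under equivalences -/
theorem udim_eqv (E : C ≌ D) [E.functor.Additive] : UDim.{w} C = UDim.{w} D := by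
  have h : ∀ α : Ordinal.{w}, (∀ F : C ⥤ AddCommGrpCat.{v}, IsFP F → Stage (α + 1) F) ↔
      ∀ F : D ⥤ AddCommGrpCat.{v}, IsFP F → Stage (α + 1) F := fun α =>
    ⟨fun h F hF => all_stage E _ h F hF, fun h F hF => all_stage E.symm _ h F hF⟩
  unfold UDim
  by_cases hex : ∃ α : Ordinal.{w}, ∀ F : C ⥤ AddCommGrpCat.{v}, IsFP F → Stage (α + 1) F
  · have hex' : ∃ α : Ordinal.{w}, ∀ F : D ⥤ AddCommGrpCat.{v}, IsFP F → Stage (α + 1) F := by
      obtain ⟨α, hα⟩ := hex
      exact ⟨α, (h α).1 hα⟩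
    rw [if_pos hex, if_pos hex']
    have hs : {α : Ordinal.{w} | ∀ F : C ⥤ AddCommGrpCat.{v}, IsFP F → Stage (α + 1) F} =
        {α : Ordinal.{w} | ∀ F : D ⥤ AddCommGrpCat.{v}, IsFP F → Stage (α + 1) F} := by
      ext α
      exact h α
    rw [hs]
  · have hex' : ¬ ∃ α : Ordinal.{w}, ∀ F : D ⥤ AddCommGrpCat.{v}, IsFP F → Stage (α + 1) F := by
      rintro ⟨α, hα⟩
      exact hex ⟨α, (h α).2 hα⟩
    rw [if_neg hex, if_neg hex']

end Pool.Agent.H56.UDs
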