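import Pool.Agent.H56.UD.Rep
import Pool.Agent.H56.UD.Eqv

/-!
# Uniserial dimension (MP_404602_al): the algebra of a gentle quiver
-/

open CategoryTheory

namespace Pool.Agent.H56.UDs

/-- the relations of the algebra of the gentle quiver `G` -/
inductive PRel (k : Type) [Field k] (G : Gentle) :
    FreeAlgebra k (G.V ⊕ G.A) → FreeAlgebra k (G.V ⊕ G.A) → Prop
  | idem (v : G.V) : PRel k G
      (FreeAlgebra.ι k (Sum.inl v) * FreeAlgebra.ι k (Sum.inl v)) (FreeAlgebra.ι k (Sum.inl v))
  | orth (u v : G.V) (h : u ≠ v) : PRel k G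
      (FreeAlgebra.ι k (Sum.inl u) * FreeAlgebra.ι k (Sum.inl v)) 0
  | one : PRel k G (∑ v : G.V, FreeAlgebra.ι k (Sum.inl v)) 1
  | src (α : G.A) : PRel k G
      (FreeAlgebra.ι k (Sum.inr α) * FreeAlgebra.ι k (Sum.inl (G.src α)))
      (FreeAlgebra.ι k (Sum.inr α))
  | tgt (α : G.A) : PRel k G
      (FreeAlgebra.ι k (Sum.inl (G.tgt α)) * FreeAlgebra.ι k (Sum.inr α))
      (FreeAlgebra.ι k (Sum.inr α))
  | rel (α β : G.A) (h1 : G.tgt α = G.src β) (h2 : G.si α = G.so β) : PRel k G
      (FreeAlgebra.ι k (Sum.inr β) * FreeAlgebra.ι k (Sum.inr α)) 0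

/-- the algebra of the gentle quiver `G` over the field `k` -/
abbrev PAlg (k : Type) [Field k] (G : Gentle) : Type := RingQuot (PRel k G)

variable {k : Type} [Field k] {G : Gentle}

/-- the idempotents of the algebra -/
def pe (k : Type) [Field k] {G : Gentle} (v : G.V) : PAlg k G :=
  RingQuot.mkAlgHom k (PRel k G) (FreeAlgebra.ι k (Sum.inl v))

/-- the arrows in the algebra -/
def pr (k : Type) [Field k] {G : Gentle} (α : G.A) : PAlg k G :=
  RingQuot.mkAlgHom k (PRel k G) (FreeAlgebra.ι k (Sum.inr α))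

theorem pe_idem (v : G.V) : pe k v * pe k v = pe k v := by
  unfold pe
  rw [← map_mul]
  exact RingQuot.mkAlgHom_rel k (PRel.idem v)

theorem pe_orth (u v : G.V) (h : u ≠ v) : pe k u * pe k v = 0 := by
  unfold pe
  rw [← map_mul, RingQuot.mkAlgHom_rel k (PRel.orth u v h), map_zero]

theorem pe_sum : ∑ v : G.V, pe k v = 1 := by
  unfold pe
  rw [← map_sum, RingQuot.mkAlgHom_rel k PRel.one, map_one]

theorem pr_src (α : G.A) : pr k α * pe k (G.src α) = pr k α := by
  unfold pe pr
  rw [← map_mul]
  exact RingQuot.mkAlgHom_rel k (PRel.src α)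

theorem pr_tgt (α : G.A) : pe k (G.tgt α) * pr k α = pr k α := by
  unfold pe pr
  rw [← map_mul]
  exact RingQuot.mkAlgHom_rel k (PRel.tgt α)

theorem pr_rel (α β : G.A) (h1 : G.tgt α = G.src β) (h2 : G.si α = G.so β) :
    pr k β * pr k α = 0 := by
  unfold pr
  rw [← map_mul, RingQuot.mkAlgHom_rel k (PRel.rel α β h1 h2), map_zero]

theorem palg_induction {P : PAlg k G → Prop} (h0 : ∀ c : k, P (algebraMap k _ c))
    (h1 : ∀ v, P (pe k v)) (h2 : ∀ α, P (pr k α)) (h3 : ∀ a b, P a → P b → P (a * b))
    (h4 : ∀ a b, P a → P b → P (a + b)) (a : PAlg k G) : P a := by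
  obtain ⟨x, rfl⟩ := RingQuot.mkAlgHom_surjective k (PRel k G) a
  induction x using FreeAlgebra.induction with
  | grade0 c =>
    rw [AlgHom.commutes]
    exact h0 c
  | grade1 x =>
    rcases x with v | α
    · exact h1 v
    · exact h2 α
  | mul a b ha hb =>
    rw [map_mul]
    exact h3 _ _ ha hb
  | add a b ha hb =>
    rw [map_add]
    exact h4 _ _ ha hb

/-- the action of the algebra on a representation -/
noncomputable def actHom (M : Rep k G) : PAlg k G →ₐ[k] Module.End k M.X :=
  RingQuot.liftAlgHom k ⟨FreeAlgebra.lift k (Sum.elim M.e M.r), by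
    intro x y h
    cases h with
    | idem v =>
      ext x
      simp [M.e_idem]
    | orth u v h =>
      ext x
      simp [M.e_orth u v h]
    | one =>
      ext x
      simp [M.e_sum]
    | src α =>
      ext x
      simp [M.r_src]
    | tgt α =>
      ext x
      simp [M.e_tgt]
    | rel α β h1 h2 =>
      ext x
      simp [M.rel α β h1 h2]⟩

theorem actHom_pe (M : Rep k G) (v : G.V) : actHom M (pe k v) = M.e v := by
  unfold actHom pe
  rw [RingQuot.liftAlgHom_mkAlgHom_apply, FreeAlgebra.lift_ι_apply]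
  rfl

theorem actHom_pr (M : Rep k G) (α : G.A) : actHom M (pr k α) = M.r α := by
  unfold actHom pr
  rw [RingQuot.liftAlgHom_mkAlgHom_apply, FreeAlgebra.lift_ι_apply]
  rfl

/-- morphisms commute with the action -/
theorem actHom_comm {M N : Rep k G} (f : M ⟶ N) (a : PAlg k G) (x : M.X) :
    f.f (actHom M a x) = actHom N a (f.f x) := by
  revert x
  refine palg_induction (P := fun a => ∀ x, f.f (actHom M a x) = actHom N a (f.f x))
    ?_ ?_ ?_ ?_ ?_ a
  · intro c x
    rw [AlgHom.commutes, AlgHom.commutes]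
    simp [Algebra.algebraMap_eq_smul_one]
  · intro v x
    rw [actHom_pe, actHom_pe, f.e_comm]
  · intro α x
    rw [actHom_pr, actHom_pr, f.r_comm]
  · intro a b ha hb x
    rw [map_mul, map_mul, Module.End.mul_apply, Module.End.mul_apply, ha, hb]
  · intro a b ha hb x
    rw [map_add, map_add, LinearMap.add_apply, LinearMap.add_apply, map_add, ha, hb]

theorem alg_ext {B : Type} [Ring B] [Algebra k B] (f g : PAlg k G →ₐ[k] B)
    (h1 : ∀ v, f (pe k v) = g (pe k v)) (h2 : ∀ α, f (pr k α) = g (pr k α)) : f = g := by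
  apply AlgHom.ext
  intro a
  refine palg_induction (P := fun a => f a = g a) ?_ h1 h2 ?_ ?_ a
  · intro c
    rw [AlgHom.commutes, AlgHom.commutes]
  · intro a b ha hb
    rw [map_mul, map_mul, ha, hb]
  · intro a b ha hb
    rw [map_add, map_add, ha, hb]

/-- the representation defined by an action of the algebra -/
noncomputable def repOf (X : Type) [AddCommGroup X] [Module k X] [Module.Finite k X]
    (φ : PAlg k G →ₐ[k] Module.End k X) : Rep k G where
  X := X
  e v := φ (pe k v)
  r α := φ (pr k α)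
  e_idem v x := by rw [← Module.End.mul_apply, ← map_mul, pe_idem]
  e_orth u v h x := by rw [← Module.End.mul_apply, ← map_mul, pe_orth u v h, map_zero]; rfl
  e_sum x := by
    rw [← LinearMap.sum_apply, ← map_sum, pe_sum, map_one]
    rfl
  r_src α x := by rw [← Module.End.mul_apply, ← map_mul, pr_src]
  e_tgt α x := by rw [← Module.End.mul_apply, ← map_mul, pr_tgt]
  rel α β h1 h2 x := by rw [← Module.End.mul_apply, ← map_mul, pr_rel α β h1 h2, map_zero]; rfl

theorem actHom_repOf (X : Type) [AddCommGroup X] [Module k X] [Module.Finite k X]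
    (φ : PAlg k G →ₐ[k] Module.End k X) : actHom (repOf X φ) = φ := by
  apply alg_ext
  · intro v
    rw [actHom_pe]
    rfl
  · intro α
    rw [actHom_pr]
    rfl

/-! ## The algebra is finite-dimensional -/

/-- products of `n` arrows -/
def pathsp (k : Type) [Field k] (G : Gentle) : ℕ → Submodule k (PAlg k G)
  | 0 => Submodule.span k (Set.range (pe k (G := G)))
  | n + 1 => ⨆ α : G.A, (pathsp k G n).map (LinearMap.mulLeft k (pr k α))

theorem pathsp_fg (n : ℕ) : (pathsp k G n).FG := by
  induction n with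
  | zero => exact Submodule.fg_span (Set.finite_range _)
  | succ n ih => exact Submodule.fg_iSup _ fun α => ih.map _

theorem pe_pathsp (n : ℕ) (v : G.V) (x : PAlg k G) (hx : x ∈ pathsp k G n) :
    pe k v * x ∈ pathsp k G n := by
  cases n with
  | zero =>
    refine Submodule.span_induction ?_ ?_ ?_ ?_ hx
    · rintro _ ⟨u, rfl⟩
      by_cases h : v = u
      · subst h
        rw [pe_idem]
        exact Submodule.subset_span ⟨v, rfl⟩
      · rw [pe_orth _ _ h]
        exact zero_mem _
    · rw [mul_zero]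
      exact zero_mem _
    · intro a b _ _ ha hb
      rw [mul_add]
      exact add_mem ha hb
    · intro c a _ ha
      rw [mul_smul_comm]
      exact Submodule.smul_mem _ c ha
  | succ n =>
    refine Submodule.iSup_induction _ (motive := fun x => pe k v * x ∈ pathsp k G (n + 1))
      hx ?_ ?_ ?_
    · rintro α _ ⟨y, hy, rfl⟩
      rw [LinearMap.mulLeft_apply, ← mul_assoc]
      by_cases h : v = G.tgt α
      · subst h
        rw [pr_tgt]
        exact Submodule.mem_iSup_of_mem α ⟨y, hy, rfl⟩
      · rw [← pr_tgt, ← mul_assoc, pe_orth _ _ h, zero_mul, zero_mul]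
        exact zero_mem _
    · rw [mul_zero]
      exact zero_mem _
    · intro a b ha hb
      rw [mul_add]
      exact add_mem ha hb

theorem pr_pathsp (n : ℕ) (α : G.A) (x : PAlg k G) (hx : x ∈ pathsp k G n) :
    pr k α * x ∈ pathsp k G (n + 1) :=
  Submodule.mem_iSup_of_mem α ⟨x, hx, rfl⟩

theorem pathsp_zero (n : ℕ) : ∀ (v : G.V) (x : PAlg k G), x ∈ pathsp k G n → G.rank v < n →
    pe k v * x = 0 := by
  induction n with
  | zero => exact fun v x _ h => absurd h (Nat.not_lt_zero _)
  | succ n ih =>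
    intro v x hx hv
    refine Submodule.iSup_induction _ (motive := fun x => pe k v * x = 0) hx ?_ ?_ ?_
    · rintro α _ ⟨y, hy, rfl⟩
      rw [LinearMap.mulLeft_apply, ← mul_assoc]
      by_cases h : v = G.tgt α
      · subst h
        rw [pr_tgt, ← pr_src, mul_assoc, ih (G.src α) y hy, mul_zero]
        have := G.rank_lt α
        omega
      · rw [← pr_tgt, ← mul_assoc, pe_orth _ _ h, zero_mul, zero_mul]
    · rw [mul_zero]
    · intro a b ha hb
      rw [mul_add, ha, hb, add_zero]

instance palg_finite : Module.Finite k (PAlg k G) := by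
  obtain ⟨N, hN⟩ : ∃ N : ℕ, ∀ v : G.V, G.rank v < N := by
    refine ⟨(Finset.univ.sup G.rank) + 1, fun v => ?_⟩
    exact Nat.lt_succ_of_le (Finset.le_sup (f := G.rank) (Finset.mem_univ v))
  have hz : ∀ x ∈ pathsp k G N, x = 0 := by
    intro x hx
    rw [← one_mul x, ← pe_sum, Finset.sum_mul]
    exact Finset.sum_eq_zero fun v _ => pathsp_zero N v x hx (hN v)
  set W : Submodule k (PAlg k G) := ⨆ n : Fin N, pathsp k G n with hW
  have hWfg : W.FG := Submodule.fg_iSup _ fun n => pathsp_fg _
  have hle : ∀ n x, x ∈ pathsp k G n → n ≤ N → x ∈ W := by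
    intro n x hx hn
    rcases hn.lt_or_eq with h | h
    · exact Submodule.mem_iSup_of_mem (⟨n, h⟩ : Fin N) hx
    · subst h
      rw [hz x hx]
      exact zero_mem _
  have h1 : (1 : PAlg k G) ∈ W := by
    refine hle 0 1 ?_ (Nat.zero_le _)
    rw [← pe_sum]
    exact Submodule.sum_mem _ fun v _ => Submodule.subset_span ⟨v, rfl⟩
  have h2 : ∀ (a x : PAlg k G), x ∈ W → a * x ∈ W := by
    intro a
    refine palg_induction (P := fun a => ∀ x, x ∈ W → a * x ∈ W) ?_ ?_ ?_ ?_ ?_ a
    · intro c x hx
      rw [← Algebra.smul_def]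
      exact Submodule.smul_mem _ c hx
    · intro v x hx
      refine Submodule.iSup_induction _ (motive := fun x => pe k v * x ∈ W) hx ?_ ?_ ?_
      · intro n x hx
        exact hle n _ (pe_pathsp n v x hx) n.2.le
      · rw [mul_zero]
        exact zero_mem _
      · intro a b ha hb
        rw [mul_add]
        exact add_mem ha hb
    · intro α x hx
      refine Submodule.iSup_induction _ (motive := fun x => pr k α * x ∈ W) hx ?_ ?_ ?_
      · intro n x hx
        exact hle (n + 1) _ (pr_pathsp n α x hx) n.2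
      · rw [mul_zero]
        exact zero_mem _
      · intro a b ha hb
        rw [mul_add]
        exact add_mem ha hb
    · intro a b ha hb x hx
      rw [mul_assoc]
      exact ha _ (hb _ hx)
    · intro a b ha hb x hx
      rw [add_mul]
      exact add_mem (ha _ hx) (hb _ hx)
  have h3 : W = ⊤ := by
    rw [eq_top_iff]
    intro a _
    have := h2 a 1 h1
    rwa [mul_one] at this
  exact ⟨h3 ▸ hWfg⟩

end Pool.Agent.H56.UDs
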