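import Pool.Agent.H56.UD.ModEq

/-!
# Uniserial dimension (MP_404602_al): the forgetful functor generates
-/

open CategoryTheory

namespace Pool.Agent.H56.UDs

variable {k : Type} [Field k] {G : Gentle}

/-- the regular representation -/
noncomputable def regRep (k : Type) [Field k] (G : Gentle) : Rep k G :=
  repOf (PAlg k G) (Algebra.lsmul k k (PAlg k G))

/-- the unit of the algebra -/
noncomputable def regOne (k : Type) [Field k] (G : Gentle) : (regRep k G).X := (1 : PAlg k G)

/-- the morphism from the regular representation determined by an element -/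
noncomputable def fromReg {M : Rep k G} (x : M.X) : regRep k G ⟶ M :=
  mkHom (M := regRep k G) (N := M)
    ((LinearMap.applyₗ x).comp (actHom M).toLinearMap)
    (fun v a => by
      change actHom M (pe k v * (show PAlg k G from a)) x = M.e v (actHom M (show PAlg k G from a) x)
      rw [map_mul, actHom_pe]
      rfl)
    (fun α a => by
      change actHom M (pr k α * (show PAlg k G from a)) x = M.r α (actHom M (show PAlg k G from a) x)
      rw [map_mul, actHom_pr]
      rfl)

theorem fromReg_one {M : Rep k G} (x : M.X) : (fromReg x).f (regOne k G) = x := by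
  change actHom M (1 : PAlg k G) x = x
  rw [map_one]
  rfl

theorem reg_zero {M : Rep k G} (f : regRep k G ⟶ M) (h : f.f (regOne k G) = 0) : f = 0 := by
  apply hom_ext
  intro a
  have h1 := actHom_comm f (show PAlg k G from a) (regOne k G)
  have h2 : actHom (regRep k G) = Algebra.lsmul k k (PAlg k G) := actHom_repOf _ _
  rw [h, map_zero, h2] at h1
  have h3 : (Algebra.lsmul k k (PAlg k G)) (show PAlg k G from a) (regOne k G) = a := by
    change (show PAlg k G from a) * 1 = a
    rw [mul_one]
  have h4 : f.f a = 0 := by
    rw [← h1]
    exact congrArg f.f h3.symm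
  rw [h4]
  rfl

theorem U_fp : IsFP (U k G) := by
  refine ⟨inferInstance, regRep k G, regRep k G, 0, regOne k G, fun M y => ?_, fun M f => ?_⟩
  · exact ⟨fromReg (M := M) y, fromReg_one (M := M) y⟩
  · constructor
    · intro h
      refine ⟨0, ?_⟩
      rw [reg_zero f h]
      apply hom_ext
      intro x
      rfl
    · rintro ⟨g, rfl⟩
      change g.f ((0 : regRep k G ⟶ regRep k G).f (regOne k G)) = 0
      rw [zero_f, map_zero]

/-- the functor `Hom(M, -)` -/
def homF (M : Rep k G) : Rep k G ⥤ AddCommGrpCat.{0} where
  obj N := AddCommGrpCat.of (M ⟶ N)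
  map {N L} g := AddCommGrpCat.ofHom
    { toFun := fun f => f ≫ g
      map_zero' := Limits.zero_comp
      map_add' := fun f f' => Preadditive.add_comp _ _ _ f f' g }
  map_id N := by
    apply AddCommGrpCat.hom_ext
    apply AddMonoidHom.ext
    intro f
    exact Category.comp_id f
  map_comp f g := by
    apply AddCommGrpCat.hom_ext
    apply AddMonoidHom.ext
    intro h
    exact (Category.assoc h f g).symm

instance (M : Rep k G) : (homF M).Additive where
  map_add {N L f g} := by
    apply AddCommGrpCat.hom_ext
    apply AddMonoidHom.ext
    intro h
    exact Preadditive.comp_add _ _ _ h f g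

theorem homF_fp (M : Rep k G) : IsFP (homF M) := by
  refine ⟨inferInstance, M, M, 0, (𝟙 M : M ⟶ M), fun N y => ?_, fun N f => ?_⟩
  · exact ⟨y, Category.id_comp y⟩
  · constructor
    · intro h
      have h' : f = 0 := by
        have : (𝟙 M ≫ f : M ⟶ N) = 0 := h
        rwa [Category.id_comp] at this
      exact ⟨0, by rw [h']; exact Limits.comp_zero⟩
    · rintro ⟨g, rfl⟩
      change (𝟙 M ≫ (0 ≫ g) : M ⟶ N) = 0
      rw [Limits.zero_comp, Limits.comp_zero]

theorem homF_mem {S : (Rep k G ⥤ AddCommGrpCat.{0}) → Prop} (hS : IsSerre S) (hU : S (U k G)) :
    ∀ (n : ℕ) (M : Rep k G), Module.finrank k M.X < n → S (homF M) := by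
  intro n
  induction n with
  | zero => exact fun M h => absurd h (Nat.not_lt_zero _)
  | succ n ih =>
    intro M hM
    by_cases h0 : ∃ m : M.X, m ≠ 0
    · obtain ⟨m, hm⟩ := h0
      set h := fromReg m with hh
      have hZ : Module.finrank k (cokRep h).X < n := by
        have h1 : Module.finrank k (cokRep h).X + Module.finrank k (LinearMap.range h.f) =
            Module.finrank k M.X :=
          Submodule.finrank_quotient_add_finrank (LinearMap.range h.f)
        have h2 : 0 < Module.finrank k (LinearMap.range h.f) := by
          have : Nontrivial (LinearMap.range h.f) := by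
            refine ⟨⟨⟨m, ⟨regOne k G, fromReg_one m⟩⟩, 0, ?_⟩⟩
            intro h3
            exact hm (congrArg Subtype.val h3)
          exact Module.finrank_pos
        omega
      have h1 := ih (cokRep h) hZ
      -- the image of evaluation at `m`
      have h2 : S (gen (F := U k G) (X := M) m).fn :=
        hS.sub _ _ (gen (F := U k G) (X := M) m).ι (Sub.ι_inj _)
          (fn_fp U_fp (gen_fg _)) hU
      let i : homF (cokRep h) ⟶ homF M :=
        { app := fun N => AddCommGrpCat.ofHom
            { toFun := fun f => cokPi h ≫ f
              map_zero' := Limits.comp_zero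
              map_add' := fun f f' => Preadditive.comp_add _ _ _ _ f f' }
          naturality := fun N L g => by
            apply AddCommGrpCat.hom_ext
            apply AddMonoidHom.ext
            intro f
            exact (Category.assoc (cokPi h) f g).symm }
      let p : homF M ⟶ (gen (F := U k G) (X := M) m).fn :=
        { app := fun N => AddCommGrpCat.ofHom
            { toFun := fun f => (⟨f.f m, ⟨f, rfl⟩⟩ : (gen (F := U k G) (X := M) m).car N)
              map_zero' := rfl
              map_add' := fun f f' => rfl }
          naturality := fun N L g => by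
            apply AddCommGrpCat.hom_ext
            apply AddMonoidHom.ext
            intro f
            rfl }
      refine hS.ext _ _ _ i p ?_ ?_ ?_ (homF_fp M) h1 h2
      · intro N f g hfg
        apply hom_ext
        intro x
        obtain ⟨y, rfl⟩ := cokPi_surj h x
        exact congrArg (fun t => RHom.f t y) hfg
      · intro N y
        obtain ⟨f, hf⟩ := Subtype.property (p := (· ∈ (gen (F := U k G) (X := M) m).car N)) y
        exact ⟨f, Subtype.ext hf⟩
      · intro N f
        constructor
        · intro hf
          have hf' : RHom.f f m = 0 := congrArg Subtype.val hf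
          have hz : h ≫ (f : M ⟶ N) = 0 := by
            apply reg_zero
            change RHom.f f (h.f (regOne k G)) = 0
            rw [hh, fromReg_one]
            exact hf'
          refine ⟨cokLift h (f : M ⟶ N) fun x => congrArg (fun t => RHom.f t x) hz, ?_⟩
          rfl
        · rintro ⟨g, rfl⟩
          apply Subtype.ext
          change RHom.f g ((cokPi h).f m) = 0
          have : (cokPi h).f m = 0 := (cokPi_zero h m).2 ⟨regOne k G, fromReg_one m⟩
          rw [this, map_zero]
    · push Not at h0
      refine hS.zero _ (homF_fp M) fun N f => ?_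
      apply hom_ext
      intro x
      change RHom.f f x = 0
      rw [h0 x, map_zero]

/-- a Serre subcategory containing the forgetful functor contains everything -/
theorem all_of_U {S : (Rep k G ⥤ AddCommGrpCat.{0}) → Prop} (hS : IsSerre S) (hU : S (U k G))
    (F : Rep k G ⥤ AddCommGrpCat.{0}) (hF : IsFP F) : S F := by
  obtain ⟨hadd, M, _, _, ξ, h1, _⟩ := id hF
  have h2 := homF_mem hS hU _ M (Nat.lt_succ_self _)
  let p : homF M ⟶ F :=
    { app := fun N => AddCommGrpCat.ofHom
        { toFun := fun f => (F.map f).hom ξ
          map_zero' := map_zero_ap F ξ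
          map_add' := fun f f' => map_add_ap F f f' ξ }
      naturality := fun N L g => by
        apply AddCommGrpCat.hom_ext
        apply AddMonoidHom.ext
        intro f
        exact map_comp_ap F f g ξ }
  exact hS.quo _ _ p (fun N y => h1 N y) hF h2

end Pool.Agent.H56.UDs
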