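import Pool.Agent.H56.UD.Gdd

/-!
# Uniserial dimension (MP_404602_al): the words `(a⁻¹ b)^r a⁻¹` and chains
-/

open CategoryTheory

namespace Pool.Agent.H56.UDs

variable {m : ℕ} {k : Type} [Field k] {s : Bool} {j : Fin m}

/-- the words `(a⁻¹ b)^r a⁻¹` -/
def CC (s : Bool) (j : Fin m) : ℕ → Word (GM m) (MV.P s j) true
  | 0 => Word.inv (G := GM m) (MA.a s j) (Word.nil (G := GM m) (MV.Q s j) false)
  | r + 1 => Word.inv (G := GM m) (MA.a s j) (Word.dir (G := GM m) (MA.b s j) (CC s j r))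

theorem cc_mi (X : Rep k (GM m)) (r : ℕ) : sat (mi k (CC s j r)) X ≤
    (stp (ra X s j) (rb X s j) (VP X s j))^[r + 1] (VP X s j) := by
  induction r with
  | zero =>
    intro x hx
    have h1 := (mem_mi_inv (G := GM m) (α := MA.a s j)
      (w := Word.nil (G := GM m) (MV.Q s j) false)).1 hx
    obtain ⟨y, hy⟩ := nilQf_mi.1 h1.1
    exact ⟨⟨X.e (MV.P s j) y, e_memP y, (rb_e y).trans hy⟩, mem_Ev.2 h1.2⟩
  | succ r ih =>
    intro x hx
    have h1 := (mem_mi_inv (G := GM m) (α := MA.a s j)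
      (w := Word.dir (G := GM m) (MA.b s j) (CC s j r))).1 hx
    obtain ⟨y, hy, hyx⟩ := h1.1
    rw [Function.iterate_succ_apply']
    exact ⟨⟨y, ih hy, hyx⟩, mem_Ev.2 h1.2⟩

/-- the polynomial of a vector of the representation of `(a⁻¹ b)^r a⁻¹` -/
noncomputable def polc (k : Type) [Field k] (s : Bool) (j : Fin m) :
    ∀ r : ℕ, (germ k (CC s j r)).N.X → Polynomial k
  | 0, n => Polynomial.C (show k × k from n).2
  | r + 1, n => Polynomial.C (show ((germ k (CC s j r)).N.X × k) × k from n).2 +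
      polc k s j r (show ((germ k (CC s j r)).N.X × k) × k from n).1.1 * Polynomial.X

theorem polc_coeff (r : ℕ) (n : (germ k (CC s j r)).N.X) :
    (polc k s j r n).coeff 0 = (germ k (CC s j r)).ζ n := by
  cases r with
  | zero => exact Polynomial.coeff_C_zero
  | succ r =>
    obtain ⟨⟨ν, t⟩, u⟩ := (show ((germ k (CC s j r)).N.X × k) × k from n)
    change (Polynomial.C u + polc k s j r ν * Polynomial.X).coeff 0 = u
    rw [Polynomial.coeff_add, Polynomial.coeff_C_zero, Polynomial.mul_coeff_zero,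
      Polynomial.coeff_X_zero, mul_zero, add_zero]

/-- the shift of sequences -/
def shT (k : Type) [Field k] (E : Type) [AddCommGroup E] [Module k E] : Module.End k (ℕ → E) :=
  LinearMap.funLeft k E Nat.succ

theorem shT_apply {E : Type} [AddCommGroup E] [Module k E] (v : ℕ → E) (i : ℕ) :
    shT k E v i = v (i + 1) := rfl

theorem aeval_C_shT {E : Type} [AddCommGroup E] [Module k E] (u : k) (v : ℕ → E) :
    (Polynomial.aeval (shT k E) (Polynomial.C u)) v = u • v := by
  rw [Polynomial.aeval_C]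
  rfl

theorem invBf_z {G : Gentle} {X : Rep k G} (α : G.A) (P : PRep k G (G.tgt α) (!G.si α))
    (f : P.N.X →ₗ[k] X.X) (x : X.X) : invBf α P f x (invP α P).z = x := by
  change f 0 + (1 : k) • x = x
  rw [map_zero, zero_add, one_smul]

/-- chains give maps from the representations of the words `(a⁻¹ b)^r a⁻¹` -/
theorem chain_tw (r : ℕ) : ∀ (Y : Rep k (GM m)) (v : ℕ → Y.X), (∀ i, v i ∈ VP Y s j) →
    (∀ i < r, ra Y s j (v i) = rb Y s j (v (i + 1))) →
    ∃ f : (germ k (CC s j r)).N.X →ₗ[k] Y.X, TwB (germ k (CC s j r)) Y f ∧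
      f (germ k (CC s j r)).z = v 0 ∧
      ∀ n, (germ k (CC s j r)).N.e (MV.P s j) n = n →
        f n = (Polynomial.aeval (shT k Y.X) (polc k s j r n)) v 0 := by
  induction r with
  | zero =>
    intro Y v hv _
    have hx : Y.e (MV.Q s j) (ra Y s j (v 0)) = ra Y s j (v 0) := Y.e_tgt (MA.a s j) _
    have h1 := nilB (G := GM m) (v := (MV.Q s j : MV m)) (s := false) hx (by
      intro γ hγ hs
      obtain rfl := src_Q hγ
      exact absurd hs (by simp [GM, MA.so]))
    have h2 := invB (G := GM m) (MA.a s j) (nilP k (G := GM m) (MV.Q s j) false) _ h1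
      (x := v 0) (mem_Ev.1 (hv 0)) (one_smul k _).symm
    refine ⟨_, h2, ?_, ?_⟩
    · exact invBf_z (G := GM m) (MA.a s j) (nilP k (G := GM m) (MV.Q s j) false) _ (v 0)
    · rintro ⟨ν, u⟩ hn
      have h3 := nilP_fix (invP_fix (G := GM m) (α := MA.a s j)
        (P := nilP k (G := GM m) (MV.Q s j) false) hn).1 (P_ne_Q s s j j)
      subst h3
      have h4 : (Polynomial.aeval (shT k Y.X) (Polynomial.C u)) v 0 = u • v 0 :=
        congrArg (fun t : ℕ → Y.X => t 0) (aeval_C_shT u v)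
      refine Eq.trans ?_ h4.symm
      change (LinearMap.toSpanSingleton k Y.X (ra Y s j (v 0))) (0 : k) + u • v 0 = u • v 0
      rw [map_zero, zero_add]
  | succ r ih =>
    intro Y v hv hc
    obtain ⟨f, hf, hfz, hfn⟩ := ih Y (fun i => v (i + 1)) (fun i => hv (i + 1))
      (fun i hi => hc (i + 1) (Nat.succ_lt_succ hi))
    have h1 := dirB (G := GM m) (MA.b s j) (germ k (CC s j r)) f hf
    have h2 := invB (G := GM m) (MA.a s j) (dirP (G := GM m) (MA.b s j) (germ k (CC s j r))) _ h1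
      (x := v 0) (mem_Ev.1 (hv 0)) (by
        change ra Y s j (v 0) = f 0 + (1 : k) • Y.r (MA.b s j) (f (germ k (CC s j r)).z)
        rw [map_zero, zero_add, one_smul, hfz]
        exact hc 0 (Nat.succ_pos r))
    refine ⟨_, h2, ?_, ?_⟩
    · exact invBf_z (G := GM m) (MA.a s j) (dirP (G := GM m) (MA.b s j) (germ k (CC s j r))) _ (v 0)
    · rintro ⟨⟨ν, t⟩, u⟩ hn
      have h3 := dirP_fix (G := GM m) (α := MA.b s j) (P := germ k (CC s j r))
        (invP_fix (G := GM m) (α := MA.a s j)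
        (P := dirP (G := GM m) (MA.b s j) (germ k (CC s j r))) hn).1
      have ht := h3.2 (P_ne_Q s s j j)
      subst ht
      change (f ν + (0 : k) • Y.r (MA.b s j) (f (germ k (CC s j r)).z)) + u • v 0 =
        (Polynomial.aeval (shT k Y.X) (Polynomial.C u + polc k s j r ν * Polynomial.X)) v 0
      rw [zero_smul, add_zero, hfn ν h3.1, map_add, map_mul, Polynomial.aeval_X,
        LinearMap.add_apply, Module.End.mul_apply, aeval_C_shT, add_comm]
      rfl

/-- chains starting in `(a⁻¹ b)^r` -/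
theorem exists_chain (Y : Rep k (GM m)) (r : ℕ) : ∀ y ∈
    (stp (ra Y s j) (rb Y s j) (VP Y s j))^[r] (VP Y s j), ∃ w : ℕ → Y.X,
      (∀ i, w i ∈ VP Y s j) ∧ (∀ i < r, ra Y s j (w i) = rb Y s j (w (i + 1))) ∧ w 0 = y := by
  induction r with
  | zero => exact fun y hy => ⟨fun _ => y, fun _ => hy, fun i hi => absurd hi (Nat.not_lt_zero i),
      rfl⟩
  | succ r ih =>
    intro y hy
    rw [Function.iterate_succ_apply'] at hy
    obtain ⟨⟨z, hz, hzy⟩, hyV⟩ := hy
    obtain ⟨w, h1, h2, h3⟩ := ih z hz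
    refine ⟨fun i => Nat.casesOn i y w, ?_, ?_, rfl⟩
    · rintro (_ | i)
      · exact hyV
      · exact h1 i
    · rintro (_ | i) hi
      · change ra Y s j y = rb Y s j (w 0)
        rw [h3, hzy]
      · exact h2 i (Nat.lt_of_succ_lt_succ hi)

end Pool.Agent.H56.UDs
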