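import Pool.Agent.H56.UD.Defs

/-!
# Uniserial dimension (MP_404602_al): coherence of finitely presented functors
-/

open CategoryTheory

namespace Pool.Agent.H56.UDs

universe w v u

variable {C : Type u} [Category.{v} C] [Preadditive C]

set_option linter.unusedSectionVars false

section Basic

variable {F G : C ⥤ AddCommGrpCat.{v}}

theorem map_comp_ap (F : C ⥤ AddCommGrpCat.{v}) {X Y Z : C} (f : X ⟶ Y) (g : Y ⟶ Z)
    (x : F.obj X) : (F.map (f ≫ g)).hom x = (F.map g).hom ((F.map f).hom x) := by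
  simp

theorem map_id_ap (F : C ⥤ AddCommGrpCat.{v}) {X : C} (x : F.obj X) :
    (F.map (𝟙 X)).hom x = x := by
  simp

theorem map_add_ap (F : C ⥤ AddCommGrpCat.{v}) [F.Additive] {X Y : C} (f g : X ⟶ Y)
    (x : F.obj X) : (F.map (f + g)).hom x = (F.map f).hom x + (F.map g).hom x := by
  rw [F.map_add]
  rfl

theorem map_zero_ap (F : C ⥤ AddCommGrpCat.{v}) [F.Additive] {X Y : C}
    (x : F.obj X) : (F.map (0 : X ⟶ Y)).hom x = 0 := by
  rw [F.map_zero]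
  rfl

theorem nat_ap (φ : F ⟶ G) {X Y : C} (f : X ⟶ Y) (x : F.obj X) :
    (φ.app Y).hom ((F.map f).hom x) = (G.map f).hom ((φ.app X).hom x) := by
  exact congrArg (fun t => t.hom x) (φ.naturality f)

instance : Lattice (Sub F) where
  le A B := ∀ M, A.car M ≤ B.car M
  le_refl A M := le_refl _
  le_trans A B D h1 h2 M := (h1 M).trans (h2 M)
  le_antisymm A B h1 h2 := Sub.ext (funext fun M => le_antisymm (h1 M) (h2 M))
  inf A B := ⟨fun M => A.car M ⊓ B.car M, fun f x hx => ⟨A.map_mem f x hx.1, B.map_mem f x hx.2⟩⟩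
  sup A B := ⟨fun M => A.car M ⊔ B.car M, fun f x hx => by
    obtain ⟨a, ha, b, hb, rfl⟩ := AddSubgroup.mem_sup.1 hx
    rw [map_add]
    exact AddSubgroup.add_mem_sup (A.map_mem f a ha) (B.map_mem f b hb)⟩
  inf_le_left A B M := inf_le_left
  inf_le_right A B M := inf_le_right
  le_inf A B D h1 h2 M := le_inf (h1 M) (h2 M)
  le_sup_left A B M := le_sup_left
  le_sup_right A B M := le_sup_right
  sup_le A B D h1 h2 M := sup_le (h1 M) (h2 M)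

instance : BoundedOrder (Sub F) where
  top := ⟨fun _ => ⊤, fun _ _ _ => AddSubgroup.mem_top _⟩
  bot := ⟨fun _ => ⊥, fun f x hx => by
    rw [AddSubgroup.mem_bot] at hx ⊢
    rw [hx, map_zero]⟩
  le_top A M := le_top
  bot_le A M := bot_le

theorem Sub.le_iff {A B : Sub F} : A ≤ B ↔ ∀ M x, x ∈ A.car M → x ∈ B.car M := Iff.rfl

theorem Sub.mem_inf {A B : Sub F} {M : C} {x : F.obj M} :
    x ∈ (A ⊓ B).car M ↔ x ∈ A.car M ∧ x ∈ B.car M := Iff.rfl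

theorem Sub.mem_sup {A B : Sub F} {M : C} {x : F.obj M} :
    x ∈ (A ⊔ B).car M ↔ ∃ a ∈ A.car M, ∃ b ∈ B.car M, a + b = x := AddSubgroup.mem_sup

theorem Sub.mem_top {M : C} {x : F.obj M} : x ∈ (⊤ : Sub F).car M := AddSubgroup.mem_top _

theorem Sub.mem_bot {M : C} {x : F.obj M} : x ∈ (⊥ : Sub F).car M ↔ x = 0 :=
  AddSubgroup.mem_bot

/-- image of a subfunctor -/
def Sub.map (φ : F ⟶ G) (A : Sub F) : Sub G where
  car M := (A.car M).map (φ.app M).hom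
  map_mem := by
    rintro M N f x ⟨y, hy, rfl⟩
    exact ⟨(F.map f).hom y, A.map_mem f y hy, nat_ap φ f y⟩

/-- preimage of a subfunctor -/
def Sub.comap (φ : F ⟶ G) (B : Sub G) : Sub F where
  car M := (B.car M).comap (φ.app M).hom
  map_mem := by
    intro M N f x hx
    rw [AddSubgroup.mem_comap] at hx ⊢
    rw [nat_ap]
    exact B.map_mem f _ hx

theorem Sub.mem_map {φ : F ⟶ G} {A : Sub F} {M : C} {x : G.obj M} :
    x ∈ (A.map φ).car M ↔ ∃ a ∈ A.car M, (φ.app M).hom a = x := Iff.rfl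

theorem Sub.mem_comap {φ : F ⟶ G} {B : Sub G} {M : C} {x : F.obj M} :
    x ∈ (B.comap φ).car M ↔ (φ.app M).hom x ∈ B.car M := Iff.rfl

/-- finitely generated subfunctors -/
def Sub.FG (A : Sub F) : Prop :=
  ∃ (Y : C) (η : F.obj Y), η ∈ A.car Y ∧
    ∀ (M : C) (x : F.obj M), x ∈ A.car M → ∃ f : Y ⟶ M, (F.map f).hom η = x

instance fn_additive (A : Sub F) [F.Additive] : A.fn.Additive where
  map_add {X Y f g} := by
    apply AddCommGrpCat.hom_ext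
    apply AddMonoidHom.ext
    intro z
    exact Subtype.ext (map_add_ap F f g (Subtype.val (p := (· ∈ A.car X)) z))

theorem quot_mk_zero {A B : Sub F} {M : C} (x : A.car M) :
    (QuotientAddGroup.mk x : A.car M ⧸ (B.car M).addSubgroupOf (A.car M)) = 0 ↔
      (x : F.obj M) ∈ B.car M := by
  rw [QuotientAddGroup.eq_zero_iff, AddSubgroup.mem_addSubgroupOf]

instance quot_additive (A B : Sub F) [F.Additive] : (A.quot B).Additive where
  map_add {X Y f g} := by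
    ext z
    obtain ⟨x, rfl⟩ := QuotientAddGroup.mk_surjective z
    have h : A.res (f + g) x = A.res f x + A.res g x := Subtype.ext (map_add_ap F f g x)
    change (QuotientAddGroup.mk (A.res (f + g) x) : A.car Y ⧸ (B.car Y).addSubgroupOf (A.car Y)) =
      QuotientAddGroup.mk (A.res f x) + QuotientAddGroup.mk (A.res g x)
    rw [h]
    rfl

end Basic

/-- weak cokernels and direct sums exist in `C` -/
class Coh (C : Type u) [Category.{v} C] [Preadditive C] : Prop where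
  sum : ∀ X Y : C, ∃ (S : C) (i : X ⟶ S) (j : Y ⟶ S) (p : S ⟶ X) (q : S ⟶ Y),
    i ≫ p = 𝟙 X ∧ j ≫ q = 𝟙 Y ∧ i ≫ q = 0 ∧ j ≫ p = 0
  wcok : ∀ {X Y : C} (h : X ⟶ Y), ∃ (Z : C) (c : Y ⟶ Z), h ≫ c = 0 ∧
    ∀ {M : C} (u : Y ⟶ M), h ≫ u = 0 → ∃ t : Z ⟶ M, c ≫ t = u

section Coherence

variable [Coh C] {F G : C ⥤ AddCommGrpCat.{v}}

/-- weak pushouts -/
theorem wpo {X Y Z : C} (f : X ⟶ Y) (g : X ⟶ Z) : ∃ (W : C) (i : Y ⟶ W) (j : Z ⟶ W),
    f ≫ i = g ≫ j ∧ ∀ {M : C} (a : Y ⟶ M) (b : Z ⟶ M), f ≫ a = g ≫ b →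
      ∃ t : W ⟶ M, i ≫ t = a ∧ j ≫ t = b := by
  obtain ⟨S, i, j, p, q, h1, h2, h3, h4⟩ := Coh.sum Y Z
  obtain ⟨W, c, hc, hu⟩ := Coh.wcok (f ≫ i - g ≫ j)
  refine ⟨W, i ≫ c, j ≫ c, ?_, fun {M} a b hab => ?_⟩
  · rw [Preadditive.sub_comp, sub_eq_zero, Category.assoc, Category.assoc] at hc
    exact hc
  · obtain ⟨t, ht⟩ := hu (p ≫ a + q ≫ b) (by
      simp only [Preadditive.comp_add, Preadditive.sub_comp, Category.assoc]
      rw [reassoc_of% h1, reassoc_of% h2, reassoc_of% h3, reassoc_of% h4]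
      simp [hab])
    refine ⟨t, ?_, ?_⟩
    · rw [Category.assoc, ht, Preadditive.comp_add, reassoc_of% h1, reassoc_of% h3]
      simp
    · rw [Category.assoc, ht, Preadditive.comp_add, reassoc_of% h4, reassoc_of% h2]
      simp

/-- annihilators of elements of finitely presented functors -/
theorem ann (hF : IsFP F) {Y : C} (η : F.obj Y) : ∃ (Z : C) (c : Y ⟶ Z),
    ∀ (M : C) (f : Y ⟶ M), (F.map f).hom η = 0 ↔ ∃ g : Z ⟶ M, c ≫ g = f := by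
  obtain ⟨_, X, X1, r, ξ, h1, h2⟩ := hF
  obtain ⟨h, rfl⟩ := h1 Y η
  obtain ⟨W, i, j, hij, hu⟩ := wpo r h
  refine ⟨W, j, fun M f => ?_⟩
  rw [← map_comp_ap, h2]
  constructor
  · rintro ⟨g, hg⟩
    obtain ⟨t, _, ht⟩ := hu g f hg
    exact ⟨t, ht⟩
  · rintro ⟨t, rfl⟩
    exact ⟨i ≫ t, by rw [← Category.assoc, hij, Category.assoc]⟩

/-- the pairs `f, g` with `F(f) ξ = F(g) η` are given by one object -/
theorem pair (hF : IsFP F) {X Y : C} (ξ : F.obj X) (η : F.obj Y) :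
    ∃ (Z : C) (s : X ⟶ Z) (t : Y ⟶ Z), (F.map s).hom ξ = (F.map t).hom η ∧
      ∀ (M : C) (f : X ⟶ M) (g : Y ⟶ M), (F.map f).hom ξ = (F.map g).hom η →
        ∃ h : Z ⟶ M, s ≫ h = f ∧ t ≫ h = g := by
  have hadd := hF.1
  obtain ⟨S, i, j, p, q, h1, h2, h3, h4⟩ := Coh.sum X Y
  obtain ⟨Z, c, hc⟩ := ann hF ((F.map i).hom ξ - (F.map j).hom η)
  refine ⟨Z, i ≫ c, j ≫ c, ?_, fun M f g hfg => ?_⟩
  · have := (hc Z c).2 ⟨𝟙 Z, Category.comp_id c⟩
    rw [map_sub, sub_eq_zero] at this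
    rw [map_comp_ap, map_comp_ap, this]
  · obtain ⟨h, hh⟩ := (hc M (p ≫ f + q ≫ g)).1 (by
      rw [map_sub, ← map_comp_ap, ← map_comp_ap, Preadditive.comp_add, Preadditive.comp_add,
        reassoc_of% h1, reassoc_of% h2, reassoc_of% h3, reassoc_of% h4]
      simp [hfg])
    refine ⟨h, ?_, ?_⟩
    · rw [Category.assoc, hh, Preadditive.comp_add, reassoc_of% h1, reassoc_of% h3]
      simp
    · rw [Category.assoc, hh, Preadditive.comp_add, reassoc_of% h4, reassoc_of% h2]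
      simp

omit [Coh C] in
theorem bot_fg (hF : IsFP F) : (⊥ : Sub F).FG := by
  obtain ⟨_, X, _, _, _, _, _⟩ := hF
  refine ⟨X, 0, AddSubgroup.mem_bot.2 rfl, fun M x hx => ?_⟩
  rw [Sub.mem_bot] at hx
  exact ⟨0, by rw [hx, map_zero]⟩

omit [Coh C] in
theorem top_fg (hF : IsFP F) : (⊤ : Sub F).FG := by
  obtain ⟨_, X, _, _, ξ, h, _⟩ := hF
  exact ⟨X, ξ, Sub.mem_top, fun M x _ => h M x⟩

theorem sup_fg [F.Additive] {A B : Sub F} (hA : A.FG) (hB : B.FG) : (A ⊔ B).FG := by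
  obtain ⟨X, ξ, hξ, hX⟩ := hA
  obtain ⟨Y, η, hη, hY⟩ := hB
  obtain ⟨S, i, j, p, q, h1, h2, h3, h4⟩ := Coh.sum X Y
  refine ⟨S, (F.map i).hom ξ + (F.map j).hom η, ?_, fun M x hx => ?_⟩
  · exact AddSubgroup.add_mem_sup (A.map_mem i ξ hξ) (B.map_mem j η hη)
  · obtain ⟨a, ha, b, hb, rfl⟩ := Sub.mem_sup.1 hx
    obtain ⟨f, rfl⟩ := hX M a ha
    obtain ⟨g, rfl⟩ := hY M b hb
    refine ⟨p ≫ f + q ≫ g, ?_⟩
    rw [map_add, ← map_comp_ap, ← map_comp_ap, Preadditive.comp_add, Preadditive.comp_add,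
      reassoc_of% h1, reassoc_of% h2, reassoc_of% h3, reassoc_of% h4]
    simp

omit [Coh C] in
theorem map_fg {φ : F ⟶ G} {A : Sub F} (hA : A.FG) : (A.map φ).FG := by
  obtain ⟨X, ξ, hξ, hX⟩ := hA
  refine ⟨X, (φ.app X).hom ξ, ⟨ξ, hξ, rfl⟩, ?_⟩
  rintro M x ⟨a, ha, rfl⟩
  obtain ⟨f, rfl⟩ := hX M a ha
  exact ⟨f, (nat_ap φ f ξ).symm⟩

theorem comap_fg (hF : IsFP F) (hG : IsFP G) {φ : F ⟶ G} {B : Sub G} (hB : B.FG) :
    (B.comap φ).FG := by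
  obtain ⟨_, X, _, _, ξ, hX, _⟩ := hF
  obtain ⟨Y, η, hη, hY⟩ := hB
  obtain ⟨Z, s, t, hst, hu⟩ := pair hG ((φ.app X).hom ξ) η
  refine ⟨Z, (F.map s).hom ξ, ?_, fun M x hx => ?_⟩
  · rw [Sub.mem_comap, nat_ap, hst]
    exact B.map_mem t η hη
  · obtain ⟨f, rfl⟩ := hX M x
    rw [Sub.mem_comap, nat_ap] at hx
    obtain ⟨g, hg⟩ := hY M _ hx
    obtain ⟨h, hh, _⟩ := hu M f g hg.symm
    exact ⟨h, by rw [← map_comp_ap, hh]⟩

theorem inf_fg (hF : IsFP F) {A B : Sub F} (hA : A.FG) (hB : B.FG) : (A ⊓ B).FG := by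
  obtain ⟨X, ξ, hξ, hX⟩ := hA
  obtain ⟨Y, η, hη, hY⟩ := hB
  obtain ⟨Z, s, t, hst, hu⟩ := pair hF ξ η
  refine ⟨Z, (F.map s).hom ξ, ⟨A.map_mem s ξ hξ, ?_⟩, fun M x hx => ?_⟩
  · rw [hst]
    exact B.map_mem t η hη
  · obtain ⟨f, rfl⟩ := hX M x hx.1
    obtain ⟨g, hg⟩ := hY M _ hx.2
    obtain ⟨h, hh, _⟩ := hu M f g hg.symm
    exact ⟨h, by rw [← map_comp_ap, hh]⟩

theorem quot_fp (hF : IsFP F) {A B : Sub F} (hA : A.FG) (hB : B.FG) : IsFP (A.quot B) := by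
  have hadd := hF.1
  refine ⟨inferInstance, ?_⟩
  obtain ⟨X, ξ, hξ, hX⟩ := hA
  obtain ⟨Y, η, hη, hY⟩ := hB
  obtain ⟨Z, s, t, hst, hu⟩ := pair hF ξ η
  refine ⟨X, Z, s, (QuotientAddGroup.mk (⟨ξ, hξ⟩ : A.car X) :
    A.car X ⧸ (B.car X).addSubgroupOf (A.car X)), fun M y => ?_, fun M f => ?_⟩
  · obtain ⟨a, rfl⟩ := QuotientAddGroup.mk_surjective y
    obtain ⟨f, hf⟩ := hX M a a.2
    refine ⟨f, ?_⟩
    change (QuotientAddGroup.mk (A.res f ⟨ξ, hξ⟩) : A.car M ⧸ (B.car M).addSubgroupOf (A.car M)) = _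
    congr 1
    exact Subtype.ext hf
  · change (QuotientAddGroup.mk (A.res f ⟨ξ, hξ⟩) :
      A.car M ⧸ (B.car M).addSubgroupOf (A.car M)) = 0 ↔ _
    rw [quot_mk_zero]
    change (F.map f).hom ξ ∈ B.car M ↔ _
    constructor
    · intro h
      obtain ⟨g, hg⟩ := hY M _ h
      obtain ⟨k, hk, _⟩ := hu M f g hg.symm
      exact ⟨k, hk⟩
    · rintro ⟨g, rfl⟩
      rw [map_comp_ap, hst, ← map_comp_ap]
      exact B.map_mem _ η hη

theorem fn_fp (hF : IsFP F) {A : Sub F} (hA : A.FG) : IsFP A.fn := by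
  have hadd := hF.1
  refine ⟨inferInstance, ?_⟩
  obtain ⟨X, ξ, hξ, hX⟩ := hA
  obtain ⟨Z, c, hc⟩ := ann hF ξ
  refine ⟨X, Z, c, (⟨ξ, hξ⟩ : A.car X), fun M y => ?_, fun M f => ?_⟩
  · obtain ⟨f, hf⟩ := hX M _ y.2
    exact ⟨f, Subtype.ext hf⟩
  · rw [← hc M f]
    constructor
    · intro h
      exact congrArg Subtype.val h
    · intro h
      exact Subtype.ext h

omit [Coh C] in
theorem fg_of_fp {A : Sub F} (hA : IsFP A.fn) : A.FG := by
  obtain ⟨_, X, _, _, ξ, h, _⟩ := hA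
  refine ⟨X, (ξ : A.car X).1, (ξ : A.car X).2, fun M x hx => ?_⟩
  obtain ⟨f, hf⟩ := h M (⟨x, hx⟩ : A.car M)
  exact ⟨f, congrArg Subtype.val hf⟩

end Coherence

end Pool.Agent.H56.UDs
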