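import Pool.Agent.H56.UD.Struct

/-!
# Uniserial dimension (MP_404602_al): completeness of the outer words
-/

open CategoryTheory

namespace Pool.Agent.H56.UDs

variable {m : ℕ} {k : Type} [Field k]

/-- the space of the vertex `P s j` -/
abbrev VP (X : Rep k (GM m)) (s : Bool) (j : Fin m) : Submodule k X.X :=
  sat (Ev k (G := GM m) (MV.P s j)) X

/-- the space of the vertex `Q s j` -/
abbrev VQ (X : Rep k (GM m)) (s : Bool) (j : Fin m) : Submodule k X.X :=
  sat (Ev k (G := GM m) (MV.Q s j)) X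

/-- the arrow `a` -/
abbrev ra (X : Rep k (GM m)) (s : Bool) (j : Fin m) : X.X →ₗ[k] X.X := X.r (MA.a s j)

/-- the arrow `b` -/
abbrev rb (X : Rep k (GM m)) (s : Bool) (j : Fin m) : X.X →ₗ[k] X.X := X.r (MA.b s j)

/-- the arrow `c` -/
abbrev rc (X : Rep k (GM m)) (s : Bool) (j : Fin m) : X.X →ₗ[k] X.X := X.r (MA.c s j)

variable {X : Rep k (GM m)} {s : Bool} {j : Fin m}

theorem ra_mem (x : X.X) : ra X s j x ∈ VQ X s j := mem_Ev.2 (X.e_tgt (MA.a s j) x)

theorem rb_mem (x : X.X) : rb X s j x ∈ VQ X s j := mem_Ev.2 (X.e_tgt (MA.b s j) x)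

theorem ra_e (x : X.X) : ra X s j (X.e (MV.P s j) x) = ra X s j x := X.r_src (MA.a s j) x

theorem rb_e (x : X.X) : rb X s j (X.e (MV.P s j) x) = rb X s j x := X.r_src (MA.b s j) x

theorem rc_e (x : X.X) : rc X s j (X.e (MV.Q s j) x) = rc X s j x := X.r_src (MA.c s j) x

theorem rc_ra (x : X.X) : rc X s j (ra X s j x) = 0 :=
  X.rel (MA.a s j) (MA.c s j) rfl rfl x

theorem e_memP (x : X.X) : X.e (MV.P s j) x ∈ VP X s j := mem_Ev.2 (X.e_idem _ x)

theorem e_memQ (x : X.X) : X.e (MV.Q s j) x ∈ VQ X s j := mem_Ev.2 (X.e_idem _ x)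

theorem ra_range (x : X.X) : ra X s j x ∈ (VP X s j).map (ra X s j) :=
  ⟨_, e_memP x, ra_e x⟩

theorem rb_range (x : X.X) : rb X s j x ∈ (VP X s j).map (rb X s j) :=
  ⟨_, e_memP x, rb_e x⟩

theorem pc_top {v : (GM m).V} {x : Bool} {W : Word (GM m) v x → Prop} {Z : Submodule k X.X}
    (h : PC W X (sat (Ev k v) X) Z) : PC W X ⊤ Z := by
  intro N q hN hq _ hZ
  exact h N q hN hq ⟨q, hq, by rw [sub_self]; exact zero_mem _⟩ hZ

theorem not_rch_bot {N : Submodule k X.X} {q : X.X} (h : q ∉ N) : ¬ Rch N q (⊥ : Submodule k X.X) := by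
  rintro ⟨z, hz, hzN⟩
  rw [Submodule.mem_bot] at hz
  subst hz
  rw [zero_sub, neg_mem_iff] at hzN
  exact h hzN

/-- the step `b a⁻¹` -/
theorem pc_R {W : Word (GM m) (MV.Q s j) false → Prop} {Z Z' : Submodule k X.X}
    (h : PC W X Z Z') : PC (fun _ => True) X (rtp (rb X s j) (ra X s j) (VP X s j) Z)
      (rtp (rb X s j) (ra X s j) (VP X s j) Z') (v := (MV.Q s j : MV m)) (s := false) := by
  have h1 : PC (G := GM m) (v := (MV.P s j : MV m)) (s := true) (fun _ => True) X
      (Z.comap (ra X s j) ⊓ VP X s j) (Z'.comap (ra X s j) ⊓ VP X s j) :=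
    pc_inv (G := GM m) (α := MA.a s j) (W' := fun _ => True) h fun _ _ => trivial
  exact pc_dir (G := GM m) (α := MA.b s j) (W' := fun _ => True) h1 inf_le_right
    fun _ _ => trivial

/-- the step `a⁻¹ b` -/
theorem pc_K {W : Word (GM m) (MV.P s j) true → Prop} {Z Z' : Submodule k X.X}
    (hZ : Z ≤ VP X s j)
    (h : PC W X Z Z') : PC (fun _ => True) X (stp (ra X s j) (rb X s j) (VP X s j) Z)
      (stp (ra X s j) (rb X s j) (VP X s j) Z') (v := (MV.P s j : MV m)) (s := true) := by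
  have h1 : PC (G := GM m) (v := (MV.Q s j : MV m)) (s := false) (fun _ => True) X
      (Z.map (rb X s j)) (Z'.map (rb X s j)) :=
    pc_dir (G := GM m) (α := MA.b s j) (W' := fun _ => True) h hZ fun _ _ => trivial
  exact pc_inv (G := GM m) (α := MA.a s j) (W' := fun _ => True) h1 fun _ _ => trivial

/-- completeness at `(Q s j, false)` -/
def OutQ (k : Type) [Field k] (s : Bool) (j : Fin m) : Prop :=
  ∀ (X : Rep k (GM m)) (N : Submodule k X.X) (q : X.X), N ≤ VQ X s j →
    (∀ x, ra X s j x ∈ N) → q ∈ VQ X s j → q ∉ N →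
    ∃ w : Word (GM m) (MV.Q s j) false, Cpl X N q w

/-- passage through an arrow `c` -/
theorem through_c {s : Bool} {j : Fin m} (h : OutQ k s j) {N : Submodule k X.X} {q y : X.X}
    (hy : rc X s j y - q ∈ N) (hq : q ∉ N) :
    ∃ w : Word (GM m) (MV.Q s j) false,
      Cpl X N q (Word.dir (G := GM m) (MA.c s j) w) := by
  obtain ⟨w, hw⟩ := h X (N.comap (rc X s j) ⊓ VQ X s j) (X.e (MV.Q s j) y) inf_le_right
    (fun x => ⟨by
      change rc X s j (ra X s j x) ∈ N
      rw [rc_ra]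
      exact zero_mem _, ra_mem x⟩) (e_memQ y) (by
      rintro ⟨h1, _⟩
      change rc X s j (X.e (MV.Q s j) y) ∈ N at h1
      rw [rc_e] at h1
      apply hq
      have : q = rc X s j y - (rc X s j y - q) := by abel
      rw [this]
      exact sub_mem h1 hy)
  refine ⟨w, cpl_dir (G := GM m) (α := MA.c s j) (e_memQ y) ?_ hw⟩
  have h2 : rc X s j (X.e (MV.Q s j) y) - q ∈ N := by
    rw [rc_e]
    exact hy
  exact h2

/-- completeness of the words `(ker a, 0)` at `(P s j, true)` -/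
theorem pc_A (s : Bool) (j : Fin m)
    (h : ∀ h : j.val + 1 < m, OutQ k s (⟨j.val + 1, h⟩ : Fin m)) :
    PC (G := GM m) (v := (MV.P s j : MV m)) (s := true) (fun _ => True) X
      (LinearMap.ker (ra X s j) ⊓ VP X s j) ⊥ := by
  have h1 : PC (G := GM m) (v := (MV.P s j : MV m)) (s := true) (fun _ => True) X
      (LinearMap.ker (ra X s j) ⊓ VP X s j)
      (sat (mi k (Word.nil (G := GM m) (MV.P s j) true)) X) := by
    refine (pc_word (W := fun _ => True) (G := GM m) (Word.nil (G := GM m) (MV.P s j) true) trivial).mono (fun _ _ => trivial)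
      ?_ le_rfl
    rintro x ⟨hx1, hx2⟩
    refine mem_pl_nil.2 ⟨mem_Ev.1 hx2, fun α hα hs => ?_⟩
    rcases src_P hα with rfl | rfl
    · exact hx1
    · exact absurd hs (by simp [GM, MA.so])
  refine h1.trans ?_
  intro N q hN hq hR hR0
  obtain ⟨z, hz, hzN⟩ := hR
  have hqN : q ∉ N := fun h => hR0 ⟨0, zero_mem _, by rw [zero_sub]; exact neg_mem h⟩
  rcases mem_mi_nil.1 hz with rfl | ⟨α, hα, _, y, rfl⟩
  · exact absurd ⟨0, zero_mem _, hzN⟩ hR0
  · obtain ⟨hj, rfl⟩ := tgt_P hα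
    obtain ⟨w, hw⟩ := through_c (h hj) hzN hqN
    exact ⟨_, trivial, hw⟩

theorem pc_Qf (X : Rep k (GM m)) (s : Bool) (j : Fin m) :
    PC (G := GM m) (v := (MV.Q s j : MV m)) (s := false) (fun _ => True) X
      (VQ X s j) ((VP X s j).map (rb X s j)) := by
  refine (pc_word (W := fun _ => True) (G := GM m) (Word.nil (G := GM m) (MV.Q s j) false) trivial).mono (fun _ _ => trivial) ?_ ?_
  · intro x hx
    refine mem_pl_nil.2 ⟨mem_Ev.1 hx, fun α hα hs => ?_⟩
    obtain rfl := src_Q hα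
    exact absurd hs (by simp [GM, MA.so])
  · intro x hx
    rcases mem_mi_nil.1 hx with rfl | ⟨α, hα, hs, y, rfl⟩
    · exact zero_mem _
    · rcases tgt_Q hα with rfl | rfl
      · exact absurd hs (by simp [GM, MA.si])
      · exact rb_range y

theorem outQ_step (s : Bool) (j : Fin m)
    (h : ∀ h : j.val + 1 < m, OutQ k s (⟨j.val + 1, h⟩ : Fin m)) : OutQ k s j := by
  intro X N q hN ha hq hqN
  set V := VP X s j with hV
  set R := rtp (rb X s j) (ra X s j) V with hR
  -- the upper part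
  have hup0 : PC (G := GM m) (v := (MV.Q s j : MV m)) (s := false) (fun _ => True) X ⊤ (R ⊤) := by
    refine (pc_top (pc_Qf X s j)).mono (fun _ _ => trivial) le_rfl ?_
    rintro _ ⟨x, hx, rfl⟩
    exact ⟨x, ⟨trivial, hx⟩, rfl⟩
  have hup1 : ∀ n, PC (G := GM m) (v := (MV.Q s j : MV m)) (s := false) (fun _ => True) X
      (R^[n] ⊤) (R^[n + 1] ⊤) := by
    intro n
    induction n with
    | zero => exact hup0
    | succ n ih =>
      have h2 := pc_R ih
      rw [← hV, ← hR, ← Function.iterate_succ_apply' R n,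
        ← Function.iterate_succ_apply' R (n + 1)] at h2
      exact h2
  have hup : ∀ n, PC (G := GM m) (v := (MV.Q s j : MV m)) (s := false) (fun _ => True) X
      ⊤ (R^[n] ⊤) := by
    intro n
    induction n with
    | zero => exact PC.refl
    | succ n ih => exact ih.trans (hup1 n)
  -- the lower part
  have hlo0 : PC (G := GM m) (v := (MV.Q s j : MV m)) (s := false) (fun _ => True) X
      (R ⊥) ⊥ := by
    have h1 := pc_dir (G := GM m) (α := MA.b s j) (W' := fun _ => True)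
      (pc_A (X := X) s j h) inf_le_right fun _ _ => trivial
    refine h1.mono (fun _ _ => trivial) ?_ ?_
    · rintro _ ⟨x, ⟨hx1, hx2⟩, rfl⟩
      exact ⟨x, ⟨hx1, hx2⟩, rfl⟩
    · rw [Submodule.map_bot]
  have hlo1 : ∀ n, PC (G := GM m) (v := (MV.Q s j : MV m)) (s := false) (fun _ => True) X
      (R^[n + 1] ⊥) (R^[n] ⊥) := by
    intro n
    induction n with
    | zero => exact hlo0
    | succ n ih =>
      have h2 := pc_R ih
      rw [← hV, ← hR, ← Function.iterate_succ_apply' R n,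
        ← Function.iterate_succ_apply' R (n + 1)] at h2
      exact h2
  have hlo : ∀ n, PC (G := GM m) (v := (MV.Q s j : MV m)) (s := false) (fun _ => True) X
      (R^[n] ⊥) ⊥ := by
    intro n
    induction n with
    | zero => exact PC.refl
    | succ n ih => exact (hlo1 n).trans ih
  obtain ⟨r, n, hrn⟩ := gap1 (rb X s j) (ra X s j) V
  by_cases hr : Rch N q (R^[r] ⊤)
  · obtain ⟨z, hz, hzN⟩ := hr
    obtain ⟨y, hy, _, ⟨p, hp, rfl⟩, hyp⟩ := Submodule.mem_sup.1 (hrn hz)
    obtain ⟨w, _, hw⟩ := hlo n N q hN hq ⟨y, hy, by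
      have h1 : y - q = (z - q) - ra X s j p := by
        rw [← hyp]
        abel
      rw [h1]
      exact sub_mem hzN (ha p)⟩ (not_rch_bot hqN)
    exact ⟨w, hw⟩
  · obtain ⟨w, _, hw⟩ := hup r N q hN hq ⟨q, trivial, by rw [sub_self]; exact zero_mem _⟩ hr
    exact ⟨w, hw⟩

theorem outQ (s : Bool) : ∀ j : Fin m, OutQ k s j := by
  have key : ∀ (n : ℕ) (j : Fin m), m - j.val = n + 1 → OutQ k s j := by
    intro n
    induction n with
    | zero => exact fun j hj => outQ_step s j fun h => absurd h (by omega)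
    | succ n ih => exact fun j hj => outQ_step s j fun h => ih _ (by simp only; omega)
  intro j
  exact key (m - j.val - 1) j (by have := j.2; omega)

/-- completeness at `w` -/
theorem inn_w (s : Bool) (X : Rep k (GM m)) (N : Submodule k X.X) (q : X.X)
    (hq : q ∈ sat (Ev k (G := GM m) MV.w) X) (hqN : q ∉ N) : ∃ w : Word (GM m) MV.w s, Cpl X N q w := by
  by_cases h : Rch N q (sat (mi k (Word.nil (G := GM m) MV.w s)) X)
  · obtain ⟨z, hz, hzN⟩ := h
    rcases mem_mi_nil.1 hz with rfl | ⟨α, hα, hs, y, rfl⟩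
    · rw [zero_sub, neg_mem_iff] at hzN
      exact absurd hzN hqN
    · obtain ⟨s', h0, rfl⟩ := tgt_w hα
      have hs' : s' = s := hs
      subst hs'
      obtain ⟨w, hw⟩ := through_c (outQ s' ⟨0, h0⟩) hzN hqN
      exact ⟨_, hw⟩
  · refine ⟨Word.nil (G := GM m) MV.w s, ⟨q, ?_, ?_⟩, h⟩
    · exact mem_pl_nil.2 ⟨mem_Ev.1 hq, fun α hα _ => absurd hα fun h => src_w h⟩
    · rw [sub_self]
      exact zero_mem _

end Pool.Agent.H56.UDs
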