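import Pool.Agent.H56.UD.Comp1

/-!
# Uniserial dimension (MP_404602_al): completeness of the inner words
-/

open CategoryTheory

namespace Pool.Agent.H56.UDs

variable {m : ℕ} {k : Type} [Field k]

/-- the words at `(Q s j, true)` which leave the block at once -/
def Short {s : Bool} {j : Fin m} (Z : Word (GM m) (MV.Q s j) true) : Prop :=
  Z = Word.nil (G := GM m) (MV.Q s j) true ∨
    ∃ w' : Word (GM m) ((GM m).tgt (MA.c s j)) (!(GM m).si (MA.c s j)),
      Z = Word.inv (G := GM m) (MA.c s j) w'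

/-- completeness for the elements of the image of `c` -/
def InnC (k : Type) [Field k] (s : Bool) (j : Fin m) : Prop :=
  ∀ (X : Rep k (GM m)) (N : Submodule k X.X) (x : X.X), N ≤ LinearMap.range (rc X s j) →
    x ∈ LinearMap.range (rc X s j) → x ∉ N →
    ∃ w : Word (GM m) ((GM m).tgt (MA.c s j)) (!(GM m).si (MA.c s j)), Cpl X N x w

/-- completeness at `(P s j, false)` for the elements of the kernel of `a` -/
def InnK (k : Type) [Field k] (s : Bool) (j : Fin m) : Prop :=
  ∀ (X : Rep k (GM m)) (N : Submodule k X.X) (x : X.X),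
    N ≤ LinearMap.ker (ra X s j) ⊓ VP X s j → x ∈ LinearMap.ker (ra X s j) ⊓ VP X s j → x ∉ N →
    ∃ w : Word (GM m) (MV.P s j) false, Cpl X N x w

theorem pc_Qt {s : Bool} {j : Fin m} (h : InnC k s j) (X : Rep k (GM m)) :
    PC (G := GM m) (v := (MV.Q s j : MV m)) (s := true) Short X
      (VQ X s j) ((VP X s j).map (ra X s j)) := by
  intro N q hN hq _ hR
  by_cases h1 : Rch N q (LinearMap.ker (rc X s j) ⊓ VQ X s j)
  · refine ⟨Word.nil (G := GM m) (MV.Q s j) true, Or.inl rfl, h1.mono ?_,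
      fun h2 => hR (h2.mono ?_)⟩
    · rintro x ⟨hx1, hx2⟩
      refine mem_pl_nil.2 ⟨mem_Ev.1 hx2, fun α hα _ => ?_⟩
      obtain rfl := src_Q hα
      exact hx1
    · intro x hx
      rcases mem_mi_nil.1 hx with rfl | ⟨α, hα, hs, y, rfl⟩
      · exact zero_mem _
      · rcases tgt_Q hα with rfl | rfl
        · exact ra_range y
        · exact absurd hs (by simp [GM, MA.si])
  · obtain ⟨w, hw⟩ := h X (N.map (rc X s j)) (rc X s j q)
      (by rintro _ ⟨y, _, rfl⟩; exact ⟨y, rfl⟩) ⟨q, rfl⟩ (by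
        rintro ⟨ν, hν, hνq⟩
        refine h1 ⟨q - ν, ⟨?_, sub_mem hq (hN hν)⟩, ?_⟩
        · change rc X s j (q - ν) = 0
          rw [map_sub, hνq, sub_self]
        · rw [sub_sub_cancel_left]
          exact neg_mem hν)
    exact ⟨_, Or.inr ⟨w, rfl⟩, cpl_inv (G := GM m) (α := MA.c s j) hN hq hw⟩

variable {X : Rep k (GM m)} {s : Bool} {j : Fin m}

/-- the step `b⁻¹ a` -/
theorem pc_L {W W' : Word (GM m) (MV.P s j) false → Prop} {Z Z' : Submodule k X.X}
    (hZ : Z ≤ VP X s j) (h : PC W X Z Z')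
    (hW : ∀ w, W w → W' (Word.inv (G := GM m) (MA.b s j)
      (Word.dir (G := GM m) (MA.a s j) w))) :
    PC (G := GM m) (v := (MV.P s j : MV m)) (s := false) W' X
      (stp (rb X s j) (ra X s j) (VP X s j) Z) (stp (rb X s j) (ra X s j) (VP X s j) Z') := by
  have h1 : PC (G := GM m) (v := (MV.Q s j : MV m)) (s := true)
      (fun z => ∃ w, W w ∧ z = Word.dir (G := GM m) (MA.a s j) w) X
      (Z.map (ra X s j)) (Z'.map (ra X s j)) :=
    pc_dir (G := GM m) (α := MA.a s j) (W' := fun z => ∃ w, W w ∧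
      z = Word.dir (G := GM m) (MA.a s j) w) h hZ fun w hw => ⟨w, hw, rfl⟩
  exact pc_inv (G := GM m) (α := MA.b s j) (W' := W') h1 (by
    rintro _ ⟨w, hw, rfl⟩
    exact hW w hw)

/-- the words `(b⁻¹ a)^n b⁻¹ Z` -/
def DD (s : Bool) (j : Fin m) (Z : Word (GM m) (MV.Q s j) true) :
    ℕ → Word (GM m) (MV.P s j) false
  | 0 => Word.inv (G := GM m) (MA.b s j) Z
  | n + 1 => Word.inv (G := GM m) (MA.b s j) (Word.dir (G := GM m) (MA.a s j) (DD s j Z n))

/-- the words of the form `(b⁻¹ a)^n b⁻¹ Z` with `Z` short -/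
def IsDD {s : Bool} {j : Fin m} (w : Word (GM m) (MV.P s j) false) : Prop :=
  ∃ (n : ℕ) (Z : Word (GM m) (MV.Q s j) true), Short Z ∧ w = DD s j Z n

theorem pc_DD (h : InnC k s j) (X : Rep k (GM m)) (n : ℕ) :
    PC (G := GM m) (v := (MV.P s j : MV m)) (s := false) IsDD X (VP X s j)
      ((stp (rb X s j) (ra X s j) (VP X s j))^[n] (VP X s j)) := by
  set V := VP X s j with hV
  set L := stp (rb X s j) (ra X s j) V with hL
  have hup0 : PC (G := GM m) (v := (MV.P s j : MV m)) (s := false) IsDD X V (L V) := by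
    have h1 := pc_inv (G := GM m) (α := MA.b s j) (W' := IsDD) (pc_Qt h X)
      fun Z hZ => ⟨0, Z, hZ, rfl⟩
    refine h1.mono (fun _ h => h) ?_ le_rfl
    exact fun x hx => ⟨rb_mem x, hx⟩
  have hup1 : ∀ n, PC (G := GM m) (v := (MV.P s j : MV m)) (s := false) IsDD X
      (L^[n] V) (L^[n + 1] V) := by
    intro n
    induction n with
    | zero => exact hup0
    | succ n ih =>
      have h2 := pc_L (W' := IsDD) (stp_it_le n) ih (by
        rintro w ⟨n, Z, hZ, rfl⟩
        exact ⟨n + 1, Z, hZ, rfl⟩)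
      rw [← hV, ← hL, ← Function.iterate_succ_apply' L n,
        ← Function.iterate_succ_apply' L (n + 1)] at h2
      exact h2
  induction n with
  | zero => exact PC.refl
  | succ n ih => exact ih.trans (hup1 n)

theorem pc_Lbot (X : Rep k (GM m)) (s : Bool) (j : Fin m) (n : ℕ) :
    PC (G := GM m) (v := (MV.P s j : MV m)) (s := false) (fun _ => True) X
      ((stp (rb X s j) (ra X s j) (VP X s j))^[n] ⊥) ⊥ := by
  set V := VP X s j with hV
  set L := stp (rb X s j) (ra X s j) V with hL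
  have hlo0 : PC (G := GM m) (v := (MV.P s j : MV m)) (s := false) (fun _ => True) X (L ⊥) ⊥ := by
    refine (pc_word (W := fun _ => True) (G := GM m)
      (Word.nil (G := GM m) (MV.P s j) false) trivial).mono (fun _ _ => trivial) ?_ ?_
    · rintro x ⟨⟨y, hy, hyx⟩, hx⟩
      refine mem_pl_nil.2 ⟨mem_Ev.1 hx, fun α hα hs => ?_⟩
      rcases src_P hα with rfl | rfl
      · exact absurd hs (by simp [GM, MA.so])
      · rw [(Submodule.mem_bot k).1 hy, map_zero] at hyx
        exact hyx.symm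
    · intro x hx
      rcases mem_mi_nil.1 hx with rfl | ⟨α, hα, hs, y, rfl⟩
      · exact zero_mem _
      · obtain ⟨hj, rfl⟩ := tgt_P hα
        exact absurd hs (by simp [GM, MA.si])
  have hlo1 : ∀ n, PC (G := GM m) (v := (MV.P s j : MV m)) (s := false) (fun _ => True) X
      (L^[n + 1] ⊥) (L^[n] ⊥) := by
    intro n
    induction n with
    | zero => exact hlo0
    | succ n ih =>
      have h2 := pc_L (W' := fun _ => True) (by
        rw [Function.iterate_succ_apply']
        exact stp_le) ih fun _ _ => trivial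
      rw [← hV, ← hL, ← Function.iterate_succ_apply' L n,
        ← Function.iterate_succ_apply' L (n + 1)] at h2
      exact h2
  induction n with
  | zero => exact PC.refl
  | succ n ih => exact (hlo1 n).trans ih

theorem innK_of (h : InnC k s j) : InnK k s j := by
  intro X N x hN hx hxN
  set V := VP X s j with hV
  set L := stp (rb X s j) (ra X s j) V with hL
  have hNV : N ≤ V := hN.trans inf_le_right
  by_cases hr : ∀ n, Rch N x (L^[n] V)
  · obtain ⟨n, hn⟩ := anti_stab _ (stp_anti (φ := rb X s j) (ψ := ra X s j) (V := V))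
    obtain ⟨z, hz, hzN⟩ := hr n
    have hz' : ∀ i, z ∈ L^[i] V := by
      intro i
      rcases le_total n i with h1 | h1
      · have := hn i h1
        simp only [← hL] at this
        rw [this]
        exact hz
      · exact stp_anti h1 hz
    have hz0 : ra X s j z = 0 := by
      have h1 : ra X s j (z - x) = 0 := (hN hzN).1
      have h2 : ra X s j x = 0 := hx.1
      rw [map_sub, h2, sub_zero] at h1
      exact h1
    obtain ⟨i, hi⟩ := gap2 (rb X s j) (ra X s j) V z hz' hz0
    obtain ⟨w, _, hw⟩ := pc_Lbot X s j i N x hNV hx.2 ⟨z, hi, hzN⟩ (not_rch_bot hxN)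
    exact ⟨w, hw⟩
  · push Not at hr
    obtain ⟨n, hn⟩ := hr
    obtain ⟨w, _, hw⟩ := pc_DD h X n N x hNV hx.2 ⟨x, hx.2, by rw [sub_self]; exact zero_mem _⟩ hn
    exact ⟨w, hw⟩

theorem innC (s : Bool) : ∀ j : Fin m, InnC k s j := by
  rintro ⟨n, hn⟩
  induction n with
  | zero =>
    intro X N x hN hx hxN
    refine inn_w (!s) X N x ?_ hxN
    obtain ⟨y, rfl⟩ := hx
    exact mem_Ev.2 (X.e_tgt (MA.c s ⟨0, hn⟩) y)
  | succ n ih =>
    intro X N x hN hx hxN
    have h1 : LinearMap.range (rc X s ⟨n + 1, hn⟩) ≤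
        LinearMap.ker (ra X s ⟨n, Nat.lt_of_succ_lt hn⟩) ⊓ VP X s ⟨n, Nat.lt_of_succ_lt hn⟩ := by
      rintro _ ⟨y, rfl⟩
      exact ⟨X.rel (MA.c s ⟨n + 1, hn⟩) (MA.a s ⟨n, Nat.lt_of_succ_lt hn⟩) rfl rfl y,
        mem_Ev.2 (X.e_tgt (MA.c s ⟨n + 1, hn⟩) y)⟩
    exact innK_of (ih (Nat.lt_of_succ_lt hn)) X N x (hN.trans h1) (h1 hx) hxN

theorem innK (s : Bool) (j : Fin m) : InnK k s j := innK_of (innC s j)

end Pool.Agent.H56.UDs
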