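import Pool.Agent.H56.UD.Two

/-!
# Uniserial dimension (MP_404602_al): completeness of the words, uniserial functors
-/

open CategoryTheory

namespace Pool.Agent.H56.UDs

variable {k : Type} [Field k] {G : Gentle}

/-- `q ∈ N + Z` -/
def Rch {X : Rep k G} (N : Submodule k X.X) (q : X.X) (Z : Submodule k X.X) : Prop :=
  ∃ z ∈ Z, z - q ∈ N

/-- `q ∈ N + w⁺`, `q ∉ N + w⁻` -/
def Cpl {v : G.V} {s : Bool} (X : Rep k G) (N : Submodule k X.X) (q : X.X) (w : Word G v s) :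
    Prop :=
  Rch N q (sat (pl k w) X) ∧ ¬ Rch N q (sat (mi k w) X)

/-- if `q ∈ N + Z`, `q ∉ N + Z'` then there is a word `w` with `q ∈ N + w⁺`, `q ∉ N + w⁻` -/
def PC {v : G.V} {s : Bool} (W : Word G v s → Prop) (X : Rep k G) (Z Z' : Submodule k X.X) :
    Prop :=
  ∀ (N : Submodule k X.X) (q : X.X), N ≤ sat (Ev k v) X → q ∈ sat (Ev k v) X →
    Rch N q Z → ¬ Rch N q Z' → ∃ w, W w ∧ Cpl X N q w

theorem Rch.mono {X : Rep k G} {N : Submodule k X.X} {q : X.X} {Z Z' : Submodule k X.X}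
    (h : Rch N q Z) (hZ : Z ≤ Z') : Rch N q Z' := by
  obtain ⟨z, hz, h⟩ := h
  exact ⟨z, hZ hz, h⟩

theorem PC.mono {v : G.V} {s : Bool} {W W' : Word G v s → Prop} {X : Rep k G}
    {Z Z' Y Y' : Submodule k X.X} (h : PC W X Z Z') (hW : ∀ w, W w → W' w) (h1 : Y ≤ Z)
    (h2 : Z' ≤ Y') : PC W' X Y Y' := by
  intro N q hN hq hY hY'
  obtain ⟨w, hw, hc⟩ := h N q hN hq (hY.mono h1) fun h => hY' (h.mono h2)
  exact ⟨w, hW w hw, hc⟩

theorem PC.trans {v : G.V} {s : Bool} {W : Word G v s → Prop} {X : Rep k G}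
    {Z Z' Z'' : Submodule k X.X} (h : PC W X Z Z') (h' : PC W X Z' Z'') : PC W X Z Z'' := by
  intro N q hN hq hY hY'
  by_cases hh : Rch N q Z'
  · exact h' N q hN hq hh hY'
  · exact h N q hN hq hY hh

theorem PC.refl {v : G.V} {s : Bool} {W : Word G v s → Prop} {X : Rep k G}
    {Z : Submodule k X.X} : PC W X Z Z := fun _ _ _ _ h h' => absurd h h'

theorem pc_word {v : G.V} {s : Bool} {W : Word G v s → Prop} {X : Rep k G} (w : Word G v s)
    (hw : W w) : PC W X (sat (pl k w) X) (sat (mi k w) X) := fun _ _ _ _ h h' =>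
  ⟨w, hw, h, h'⟩

theorem Ev_le_e {v : G.V} {X : Rep k G} {x : X.X} (h : x ∈ sat (Ev k v) X) : X.e v x = x :=
  mem_Ev.1 h

theorem cpl_inv {α : G.A} {X : Rep k G} {N : Submodule k X.X} {q : X.X}
    (hN : N ≤ sat (Ev k (G.src α)) X) (hq : q ∈ sat (Ev k (G.src α)) X)
    {w : Word G (G.tgt α) (!G.si α)} (h : Cpl X (N.map (X.r α)) (X.r α q) w) :
    Cpl X N q (Word.inv α w) := by
  obtain ⟨⟨y, hy, ν, hν, hyν⟩, h2⟩ := h
  constructor
  · refine ⟨q + ν, ?_, ?_⟩
    · rw [mem_pl_inv, map_add, map_add, mem_Ev.1 hq, mem_Ev.1 (hN hν), hyν, add_sub_cancel]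
      exact ⟨hy, rfl⟩
    · rw [add_sub_cancel_left]
      exact hν
  · rintro ⟨z, hz, hzN⟩
    rw [mem_mi_inv] at hz
    exact h2 ⟨_, hz.1, z - q, hzN, map_sub _ _ _⟩

theorem pc_inv {α : G.A} {W : Word G (G.tgt α) (!G.si α) → Prop}
    {W' : Word G (G.src α) (G.so α) → Prop} {X : Rep k G}
    {Z Z' : Submodule k X.X} (h : PC W X Z Z') (hW : ∀ w, W w → W' (Word.inv α w)) :
    PC W' X (Z.comap (X.r α) ⊓ sat (Ev k (G.src α)) X)
      (Z'.comap (X.r α) ⊓ sat (Ev k (G.src α)) X) := by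
  intro N q hN hq hZ hZ'
  obtain ⟨w, hw, hc⟩ := h (N.map (X.r α)) (X.r α q) (by
      rintro _ ⟨x, _, rfl⟩
      exact mem_Ev.2 (X.e_tgt α x)) (mem_Ev.2 (X.e_tgt α q)) (by
      obtain ⟨z, hz, hzN⟩ := hZ
      exact ⟨X.r α z, hz.1, z - q, hzN, map_sub _ _ _⟩) (by
      rintro ⟨z, hz, ν, hν, hzν⟩
      refine hZ' ⟨q + ν, ⟨?_, add_mem hq (hN hν)⟩, ?_⟩
      · change X.r α (q + ν) ∈ Z'
        rw [map_add, hzν, add_sub_cancel]
        exact hz
      · rw [add_sub_cancel_left]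
        exact hν)
  exact ⟨_, hW w hw, cpl_inv hN hq hc⟩

theorem cpl_dir {α : G.A} {X : Rep k G} {N : Submodule k X.X} {q p : X.X}
    (hp : p ∈ sat (Ev k (G.src α)) X) (hpq : X.r α p - q ∈ N)
    {w : Word G (G.src α) (!G.so α)}
    (h : Cpl X (N.comap (X.r α) ⊓ sat (Ev k (G.src α)) X) p w) :
    Cpl X N q (Word.dir α w) := by
  obtain ⟨⟨y, hy, hyN⟩, h2⟩ := h
  constructor
  · refine ⟨X.r α y, ⟨y, hy, rfl⟩, ?_⟩
    have h3 : X.r α (y - p) ∈ N := hyN.1
    have h4 : X.r α y - q = X.r α (y - p) + (X.r α p - q) := by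
      rw [map_sub]
      abel
    rw [h4]
    exact add_mem h3 hpq
  · rintro ⟨z, hz, hzN⟩
    obtain ⟨y, hy, rfl⟩ := mem_mi_dir.1 hz
    refine h2 ⟨y, hy, ?_, ?_⟩
    · change X.r α (y - p) ∈ N
      have h4 : X.r α (y - p) = (X.r α y - q) - (X.r α p - q) := by
        rw [map_sub]
        abel
      rw [h4]
      exact sub_mem hzN hpq
    · exact sub_mem (mem_Ev.2 (mi_e w hy)) hp

theorem pc_dir {α : G.A} {W : Word G (G.src α) (!G.so α) → Prop}
    {W' : Word G (G.tgt α) (G.si α) → Prop} {X : Rep k G}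
    {Z Z' : Submodule k X.X} (h : PC W X Z Z') (hZE : Z ≤ sat (Ev k (G.src α)) X)
    (hW : ∀ w, W w → W' (Word.dir α w)) :
    PC W' X (Z.map (X.r α)) (Z'.map (X.r α)) := by
  rintro N q hN hq ⟨_, ⟨p, hp, rfl⟩, hpq⟩ hZ'
  obtain ⟨w, hw, hc⟩ := h (N.comap (X.r α) ⊓ sat (Ev k (G.src α)) X) p inf_le_right (hZE hp)
    ⟨p, hp, by rw [sub_self]; exact zero_mem _⟩ (by
      rintro ⟨z, hz, hzN⟩
      refine hZ' ⟨X.r α z, ⟨z, hz, rfl⟩, ?_⟩
      have h3 : X.r α (z - p) ∈ N := hzN.1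
      have h4 : X.r α z - q = X.r α (z - p) + (X.r α p - q) := by
        rw [map_sub]
        abel
      rw [h4]
      exact add_mem h3 hpq)
  exact ⟨_, hW w hw, cpl_dir (hZE hp) hpq hc⟩

/-- comparison of words -/
theorem tri {v : G.V} {s : Bool} (w : Word G v s) : ∀ {v' : G.V} {s' : Bool} (w' : Word G v' s'),
    v = v' → s = s' → (∀ X, sat (pl k w) X ≤ sat (mi k w') X) ∨
      (∀ X, sat (pl k w') X ≤ sat (mi k w) X) ∨
      (∀ X, sat (pl k w) X = sat (pl k w') X ∧ sat (mi k w) X = sat (mi k w') X) := by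
  induction w with
  | nil v s =>
    intro v' s' w' hv hs
    cases w' with
    | nil =>
      subst hv hs
      exact Or.inr (Or.inr fun X => ⟨rfl, rfl⟩)
    | dir α w =>
      refine Or.inr (Or.inl fun X => ?_)
      rintro x ⟨y, _, rfl⟩
      exact mem_mi_nil.2 (Or.inr ⟨α, hv.symm, hs.symm, y, rfl⟩)
    | inv α w =>
      refine Or.inl fun X x hx => ?_
      rw [mem_pl_nil] at hx
      rw [mem_mi_inv, hx.2 α hv.symm hs.symm, ← hv]
      exact ⟨zero_mem _, hx.1⟩
  | dir α w ih =>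
    intro v' s' w' hv hs
    cases w' with
    | nil =>
      refine Or.inl fun X => ?_
      rintro x ⟨y, _, rfl⟩
      exact mem_mi_nil.2 (Or.inr ⟨α, hv, hs, y, rfl⟩)
    | dir β w' =>
      obtain rfl := G.inj_i _ _ hv hs
      rcases ih w' rfl rfl with h | h | h
      · refine Or.inl fun X => ?_
        rintro x ⟨y, hy, rfl⟩
        exact ⟨y, h X hy, rfl⟩
      · refine Or.inr (Or.inl fun X => ?_)
        rintro x ⟨y, hy, rfl⟩
        exact ⟨y, h X hy, rfl⟩
      · refine Or.inr (Or.inr fun X => ⟨?_, ?_⟩)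
        · ext x
          rw [mem_pl_dir, mem_pl_dir, (h X).1]
        · ext x
          rw [mem_mi_dir, mem_mi_dir, (h X).2]
    | inv β w' =>
      refine Or.inl fun X => ?_
      rintro x ⟨y, _, rfl⟩
      rw [mem_mi_inv]
      change X.r β (X.r α y) ∈ _ ∧ X.e (G.src β) (X.r α y) = X.r α y
      rw [X.rel α β hv hs, ← hv]
      exact ⟨zero_mem _, X.e_tgt α y⟩
  | inv α w ih =>
    intro v' s' w' hv hs
    cases w' with
    | nil =>
      refine Or.inr (Or.inl fun X x hx => ?_)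
      rw [mem_pl_nil] at hx
      rw [mem_mi_inv, hx.2 α hv hs, hv]
      exact ⟨zero_mem _, hx.1⟩
    | dir β w' =>
      refine Or.inr (Or.inl fun X => ?_)
      rintro x ⟨y, _, rfl⟩
      rw [mem_mi_inv]
      change X.r α (X.r β y) ∈ _ ∧ X.e (G.src α) (X.r β y) = X.r β y
      rw [X.rel β α hv.symm hs.symm, hv]
      exact ⟨zero_mem _, X.e_tgt β y⟩
    | inv β w' =>
      obtain rfl := G.inj_o _ _ hv hs
      rcases ih w' rfl rfl with h | h | h
      · refine Or.inl fun X x hx => ?_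
        rw [mem_pl_inv] at hx
        exact mem_mi_inv.2 ⟨h X hx.1, hx.2⟩
      · refine Or.inr (Or.inl fun X x hx => ?_)
        rw [mem_pl_inv] at hx
        exact mem_mi_inv.2 ⟨h X hx.1, hx.2⟩
      · refine Or.inr (Or.inr fun X => ⟨?_, ?_⟩)
        · ext x
          rw [mem_pl_inv, mem_pl_inv, (h X).1]
        · ext x
          rw [mem_mi_inv, mem_mi_inv, (h X).2]

theorem pl_total {v : G.V} {s : Bool} (w w' : Word G v s) :
    (pl k w ≤ pl k w') ∨ (pl k w' ≤ pl k w) := by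
  rcases tri (k := k) w w' rfl rfl with h | h | h
  · exact Or.inl (le_of_sat fun X => (h X).trans (mi_le_pl w' X))
  · exact Or.inr (le_of_sat fun X => (h X).trans (mi_le_pl w X))
  · exact Or.inl (le_of_sat fun X => (h X).1.le)

/-- functionals separating a vector from a subspace of a vertex space -/
theorem exists_sep {X : Rep k G} {v : G.V} {W : Submodule k X.X} (hW : W ≤ sat (Ev k v) X)
    {y : X.X} (hy : X.e v y = y) (hyW : y ∉ W) :
    ∃ g : X.X →ₗ[k] k, (∀ x, g (X.e v x) = g x) ∧ (∀ x ∈ W, g x = 0) ∧ g y = 1 := by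
  obtain ⟨g0, h1, h2⟩ := Submodule.exists_le_ker_of_notMem hyW
  refine ⟨(g0 y)⁻¹ • (g0.comp (X.e v)), fun x => ?_, fun x hx => ?_, ?_⟩
  · simp [X.e_idem]
  · have h3 : X.e v x = x := mem_Ev.1 (hW hx)
    have h4 : g0 x = 0 := h2 hx
    simp [h3, h4]
  · simp [hy, h1]

/-- the functor `ker / im` of the other side is uniserial -/
theorem uni_nil {S : (Rep k G ⥤ AddCommGrpCat.{0}) → Prop} (hS : IsSerre S) (v : G.V) (s : Bool)
    (h1 : ∀ (X : Rep k G) (x : X.X), x ∈ sat (pl k (Word.nil v (!s))) X →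
      x ∉ sat (mi k (Word.nil v (!s))) X →
      ∃ w : Word G v s, Cpl X (sat (mi k (Word.nil v (!s))) X) x w)
    (h2 : ∀ (w : Word G v s) (n : (germ k w).N.X),
      n ∈ sat (pl k (Word.nil v (!s))) (germ k w).N →
      ∃ c : k, n - c • (germ k w).z ∈ sat (mi k (Word.nil v (!s))) (germ k w).N) :
    Uni S ((pl k (Word.nil v (!s))).quot (mi k (Word.nil v (!s)))) := by
  set P := pl k (Word.nil v (!s)) with hP
  set Q := mi k (Word.nil v (!s)) with hQ
  have hPfg : P.FG := pl_fg _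
  have hQfg : Q.FG := mi_fg _
  have hQP : Q ≤ P := le_of_sat fun X => mi_le_pl _ X
  have hQζ : ∀ (w : Word G v s) (n : (germ k w).N.X), n ∈ sat Q (germ k w).N →
      (germ k w).ζ n = 0 := by
    intro w n hn
    rcases mem_mi_nil.1 hn with rfl | ⟨γ, h3, h4, y, rfl⟩
    · exact map_zero _
    · exact (germ k w).ζ_in γ h3 (fun h => bool_self_ne_not s (h.symm.trans h4)) y
  -- the subfunctor generated by an element
  have key : ∀ (X : Rep k G) (x : X.X), x ∈ sat P X → x ∉ sat Q X → ∃ w : Word G v s,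
      (gen (F := U k G) (X := X) x ≤ pl k w ⊓ P ⊔ Q) ∧
      (pl k w ⊓ P ≤ gen (F := U k G) (X := X) x ⊔ Q) := by
    intro X x hx hxQ
    obtain ⟨w, ⟨y, hy, hyx⟩, hw⟩ := h1 X x hx hxQ
    have hyP : y ∈ sat P X := by
      have : y = (y - x) + x := by abel
      rw [this]
      exact add_mem (hQP X hyx) hx
    refine ⟨w, ?_, ?_⟩
    · rw [gen_le_sat, mem_sat_sup]
      refine ⟨y, ⟨hy, hyP⟩, -(y - x), neg_mem hyx, by abel⟩
    · refine le_of_sat fun Y y' hy' => ?_
      have hye : X.e v y = y := pl_e _ hy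
      obtain ⟨g, hg1, hg2, hg3⟩ := exists_sep (W := sat (mi k w) X ⊔ sat Q X) (v := v)
        (sup_le (fun x hx => mem_Ev.2 (mi_e _ hx)) (fun x hx => mem_Ev.2 (mi_e _ hx))) hye (by
          intro h
          obtain ⟨a, ha, b, hb, hab⟩ := Submodule.mem_sup.1 h
          refine hw ⟨a, ha, ?_⟩
          have : a - x = (y - x) - b := by rw [← hab]; abel
          rw [this]
          exact sub_mem hyx hb)
      obtain ⟨f, hf, hfg⟩ := exC w g hg1 fun x hx => hg2 x (Submodule.mem_sup_left hx)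
      -- `f` is a morphism
      let φ : X ⟶ (germ k w).N := mkHom f hf.1 (fun γ x => by
        rw [hf.2]
        split_ifs with h
        · rw [hfg, hg2, zero_smul, add_zero]
          refine Submodule.mem_sup_right (mem_mi_nil.2 (Or.inr ⟨γ, h.1, ?_, x, rfl⟩))
          cases s <;> cases hh : G.si γ <;> simp_all
        · rw [add_zero])
      have hφy : φ.f y ∈ sat P (germ k w).N := sat_hom φ hyP
      obtain ⟨c, hc⟩ := h2 w _ hφy
      have hc1 : c = 1 := by
        have h3 := hQζ w _ hc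
        rw [map_sub, map_smul, (germ k w).ζ_z, smul_eq_mul, mul_one, sub_eq_zero] at h3
        rw [← h3, ← hg3]
        exact hfg y
      subst hc1
      rw [one_smul] at hc
      -- the morphism to `Y`
      obtain ⟨f', hf', hfz⟩ := exB w y' hy'.1
      have hy'2 : y' ∈ sat P Y := hy'.2
      let ψ : (germ k w).N ⟶ Y := mkHom f' hf'.1 (fun γ n => by
        rw [hf'.2]
        split_ifs with h
        · have h5 : Y.r γ y' = 0 := (mem_pl_nil.1 hy'2).2 γ h.1 (by
            cases s <;> cases hh : G.so γ <;> simp_all)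
          rw [hfz, h5, smul_zero, sub_zero]
        · rw [sub_zero])
      have hψ : ψ.f (φ.f y) - y' ∈ sat Q Y := by
        have h3 := sat_hom ψ hc
        rw [map_sub] at h3
        have h4 : ψ.f (germ k w).z = y' := hfz
        rw [h4] at h3
        exact h3
      have hgy : y ∈ sat (gen (F := U k G) (X := X) x ⊔ Q) X :=
        mem_sat_sup.2 ⟨x, ⟨𝟙 X, rfl⟩, y - x, hyx, by abel⟩
      have h5 := sat_hom ψ (sat_hom φ hgy)
      have h6 : y' = ψ.f (φ.f y) - (ψ.f (φ.f y) - y') := by abel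
      rw [h6]
      exact sub_mem h5 (sat_mono le_sup_right Y hψ)
  refine uni_crit hS U_fp hPfg hQfg hQP ?_
  intro X Y x y hx hy
  have hfgx : (gen (F := U k G) (X := X) x).FG := gen_fg _
  have hfgy : (gen (F := U k G) (X := Y) y).FG := gen_fg _
  by_cases hxQ : x ∈ sat Q X
  · exact Or.inl (sm_of_le hS U_fp hfgx (sup_fg hfgy hQfg)
      ((gen_le_sat.2 hxQ).trans le_sup_right))
  by_cases hyQ : y ∈ sat Q Y
  · exact Or.inr (sm_of_le hS U_fp hfgy (sup_fg hfgx hQfg)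
      ((gen_le_sat.2 hyQ).trans le_sup_right))
  obtain ⟨w, hw1, hw2⟩ := key X x hx hxQ
  obtain ⟨w', hw1', hw2'⟩ := key Y y hy hyQ
  rcases pl_total (k := k) w w' with h | h
  · refine Or.inl (sm_of_le hS U_fp hfgx (sup_fg hfgy hQfg) ?_)
    refine hw1.trans (sup_le ?_ le_sup_right)
    exact (inf_le_inf_right P h).trans hw2'
  · refine Or.inr (sm_of_le hS U_fp hfgy (sup_fg hfgx hQfg) ?_)
    refine hw1'.trans (sup_le ?_ le_sup_right)
    exact (inf_le_inf_right P h).trans hw2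

end Pool.Agent.H56.UDs
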