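import Mathlib

/-!
# Uniserial dimension (MP_404602_al): definitions

`C` is a preadditive category (for a ring `R` it will be the category of finitely presented right
`R`-modules), functors `C ⥤ Ab` are additive functors to abelian groups.
-/

open CategoryTheory

namespace Pool.Agent.H56.UDs

universe w v u

section

variable {C : Type u} [Category.{v} C] [Preadditive C]

/-- `F` is additive and finitely presented: it is the cokernel of `Hom(r, -)` for a morphism
`r : X ⟶ Y`, that is, there is an element `ξ` of `F X` such that `Hom(X, -) → F`, `f ↦ F(f) ξ`,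
is surjective with kernel the image of `Hom(Y, -)` -/
def IsFP (F : C ⥤ AddCommGrpCat.{v}) : Prop :=
  F.Additive ∧ ∃ (X Y : C) (r : X ⟶ Y) (ξ : F.obj X),
    (∀ (M : C) (y : F.obj M), ∃ f : X ⟶ M, (F.map f).hom ξ = y) ∧
    ∀ (M : C) (f : X ⟶ M), (F.map f).hom ξ = 0 ↔ ∃ g : Y ⟶ M, r ≫ g = f

/-- subfunctors (of abelian groups) of `F` -/
@[ext]
structure Sub (F : C ⥤ AddCommGrpCat.{v}) where
  /-- the subgroup of `F M` -/
  car : ∀ M : C, AddSubgroup (F.obj M)
  map_mem : ∀ {M N : C} (f : M ⟶ N) (x : F.obj M), x ∈ car M → (F.map f).hom x ∈ car N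

variable {F : C ⥤ AddCommGrpCat.{v}}

/-- the restriction of `F f` -/
def Sub.res (A : Sub F) {M N : C} (f : M ⟶ N) : A.car M →+ A.car N :=
  ((F.map f).hom.comp (A.car M).subtype).codRestrict (A.car N) fun x => A.map_mem f x x.2

/-- a subfunctor as a functor -/
def Sub.fn (A : Sub F) : C ⥤ AddCommGrpCat.{v} where
  obj M := AddCommGrpCat.of (A.car M)
  map f := AddCommGrpCat.ofHom (A.res f)
  map_id M := by
    ext x
    simp [Sub.res]
  map_comp f g := by
    ext x
    simp [Sub.res]

/-- the functor `A / (A ∩ B)`, isomorphic to `(A + B) / B` -/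
def Sub.quot (A B : Sub F) : C ⥤ AddCommGrpCat.{v} where
  obj M := AddCommGrpCat.of (A.car M ⧸ (B.car M).addSubgroupOf (A.car M))
  map f := AddCommGrpCat.ofHom (QuotientAddGroup.map _ _ (A.res f) fun x hx =>
    B.map_mem f _ hx)
  map_id M := by
    ext x
    have : A.res (𝟙 M) x = x := Subtype.ext (by simp [Sub.res])
    simp [this]
  map_comp f g := by
    ext x
    have : A.res (f ≫ g) x = A.res g (A.res f x) := Subtype.ext (by simp [Sub.res])
    simp [this]

/-- `F` is finitely presented and uniserial modulo the class `S` of functors: for finitely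
presented subfunctors `A`, `B` of `F`, one of `(A + B) / B`, `(A + B) / A` belongs to `S`. If `S`
is a Serre subcategory of the category of finitely presented functors, this says that the image of
`F` in the localisation at `S` is uniserial. -/
def Uni (S : (C ⥤ AddCommGrpCat.{v}) → Prop) (F : C ⥤ AddCommGrpCat.{v}) : Prop :=
  IsFP F ∧ ∀ A B : Sub F, IsFP A.fn → IsFP B.fn → S (A.quot B) ∨ S (B.quot A)

/-- `S` is a Serre subcategory of the (abelian) category of finitely presented functors: it
contains the zero functors and is closed under subfunctors, quotients and extensions -/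
structure IsSerre (S : (C ⥤ AddCommGrpCat.{v}) → Prop) : Prop where
  fp : ∀ F, S F → IsFP F
  zero : ∀ F, IsFP F → (∀ (M : C) (x : F.obj M), x = 0) → S F
  sub : ∀ (F G : C ⥤ AddCommGrpCat.{v}) (i : G ⟶ F),
    (∀ M, Function.Injective (i.app M).hom) → IsFP G → S F → S G
  quo : ∀ (F G : C ⥤ AddCommGrpCat.{v}) (p : F ⟶ G),
    (∀ M, Function.Surjective (p.app M).hom) → IsFP G → S F → S G
  ext : ∀ (F G H : C ⥤ AddCommGrpCat.{v}) (i : F ⟶ G) (p : G ⟶ H),
    (∀ M, Function.Injective (i.app M).hom) → (∀ M, Function.Surjective (p.app M).hom) →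
    (∀ (M : C) (x : G.obj M), (p.app M).hom x = 0 ↔ ∃ y, (i.app M).hom y = x) →
    IsFP G → S F → S H → S G

/-- `Stage α F`: `F` belongs to the Serre subcategory `S_α` of the category of finitely presented
functors generated by the functors which are uniserial modulo `S_β` for some `β < α`. So `S_0` is
the class of zero functors, `S_(α+1)` is generated by the functors uniserial modulo `S_α`, and
`S_α` is the union of the `S_β`, `β < α`, for limit ordinals `α`. The category `C_α` of the problem
is the localisation of `(C, Ab)` at the torsion class generated by `S_α`. -/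
def Stage (α : Ordinal.{w}) (F : C ⥤ AddCommGrpCat.{v}) : Prop :=
  ∀ S : (C ⥤ AddCommGrpCat.{v}) → Prop, IsSerre S →
    (∀ β, β < α → ∀ G : C ⥤ AddCommGrpCat.{v}, Uni (Stage β) G → S G) → S F
termination_by α

end

open Classical in
/-- the uniserial dimension of the functor category `(C, Ab)`: the least ordinal `α` such that all
finitely presented functors belong to `S_(α+1)`, or `⊤` if there is none -/
noncomputable def UDim (C : Type u) [Category.{v} C] [Preadditive C] : WithTop Ordinal.{w} :=
  if ∃ α : Ordinal.{w}, ∀ F : C ⥤ AddCommGrpCat.{v}, IsFP F → Stage (α + 1) F then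
    ((sInf {α : Ordinal.{w} | ∀ F : C ⥤ AddCommGrpCat.{v}, IsFP F → Stage (α + 1) F} :
      Ordinal.{w}) : WithTop Ordinal.{w})
  else ⊤

/-- the uniserial dimension `UD(R)` of an artin algebra `R` (finitely generated right modules are
the finitely presented ones) -/
noncomputable def UD (R : Type) [Ring R] : WithTop Ordinal.{0} :=
  UDim.{0} (FGModuleCat.{0} Rᵐᵒᵖ)

end Pool.Agent.H56.UDs
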