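import Mathlib

/-!
# Uniserial dimension (MP_404602_al): linear algebra of pairs of maps
-/

namespace Pool.Agent.H56.UDs

section

variable {k : Type*} [Field k] {E E' : Type*} [AddCommGroup E] [Module k E] [AddCommGroup E']
  [Module k E']

/-- `φ⁻¹ (ψ Z) ∩ V` -/
def stp (φ ψ : E →ₗ[k] E') (V Z : Submodule k E) : Submodule k E := (Z.map ψ).comap φ ⊓ V

/-- `φ (ψ⁻¹ Z ∩ V)` -/
def rtp (φ ψ : E →ₗ[k] E') (V : Submodule k E) (Z : Submodule k E') : Submodule k E' :=
  (Z.comap ψ ⊓ V).map φ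

theorem mem_stp {φ ψ : E →ₗ[k] E'} {V Z : Submodule k E} {x : E} :
    x ∈ stp φ ψ V Z ↔ (∃ y ∈ Z, ψ y = φ x) ∧ x ∈ V := Iff.rfl

theorem mem_rtp {φ ψ : E →ₗ[k] E'} {V : Submodule k E} {Z : Submodule k E'} {y : E'} :
    y ∈ rtp φ ψ V Z ↔ ∃ x, (ψ x ∈ Z ∧ x ∈ V) ∧ φ x = y := Iff.rfl

theorem stp_mono {φ ψ : E →ₗ[k] E'} {V Z Z' : Submodule k E} (h : Z ≤ Z') :
    stp φ ψ V Z ≤ stp φ ψ V Z' := by
  rintro x ⟨⟨y, hy, hyx⟩, hx⟩
  exact ⟨⟨y, h hy, hyx⟩, hx⟩

theorem rtp_mono {φ ψ : E →ₗ[k] E'} {V : Submodule k E} {Z Z' : Submodule k E'} (h : Z ≤ Z') :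
    rtp φ ψ V Z ≤ rtp φ ψ V Z' := by
  rintro x ⟨y, hy, rfl⟩
  exact ⟨y, ⟨h hy.1, hy.2⟩, rfl⟩

theorem stp_le {φ ψ : E →ₗ[k] E'} {V Z : Submodule k E} : stp φ ψ V Z ≤ V := inf_le_right

theorem stp_it_le {φ ψ : E →ₗ[k] E'} {V : Submodule k E} (n : ℕ) :
    (stp φ ψ V)^[n] V ≤ V := by
  cases n with
  | zero => exact le_rfl
  | succ n =>
    rw [Function.iterate_succ_apply']
    exact stp_le

theorem stp_it_mono {φ ψ : E →ₗ[k] E'} {V Z Z' : Submodule k E} (h : Z ≤ Z') (n : ℕ) :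
    (stp φ ψ V)^[n] Z ≤ (stp φ ψ V)^[n] Z' := by
  induction n with
  | zero => exact h
  | succ n ih =>
    rw [Function.iterate_succ_apply', Function.iterate_succ_apply']
    exact stp_mono ih

theorem rtp_it_mono {φ ψ : E →ₗ[k] E'} {V : Submodule k E} {Z Z' : Submodule k E'} (h : Z ≤ Z')
    (n : ℕ) : (rtp φ ψ V)^[n] Z ≤ (rtp φ ψ V)^[n] Z' := by
  induction n with
  | zero => exact h
  | succ n ih =>
    rw [Function.iterate_succ_apply', Function.iterate_succ_apply']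
    exact rtp_mono ih

theorem stp_anti {φ ψ : E →ₗ[k] E'} {V : Submodule k E} :
    Antitone fun n : ℕ => (stp φ ψ V)^[n] V := by
  apply antitone_nat_of_succ_le
  intro n
  rw [Function.iterate_succ_apply]
  exact stp_it_mono stp_le n

theorem stp_bot_mono {φ ψ : E →ₗ[k] E'} {V : Submodule k E} :
    Monotone fun n : ℕ => (stp φ ψ V)^[n] ⊥ := by
  apply monotone_nat_of_le_succ
  intro n
  rw [Function.iterate_succ_apply]
  exact stp_it_mono bot_le n

theorem rtp_anti {φ ψ : E →ₗ[k] E'} {V : Submodule k E} :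
    Antitone fun n : ℕ => (rtp φ ψ V)^[n] ⊤ := by
  apply antitone_nat_of_succ_le
  intro n
  rw [Function.iterate_succ_apply]
  exact rtp_it_mono le_top n

theorem rtp_bot_mono {φ ψ : E →ₗ[k] E'} {V : Submodule k E} :
    Monotone fun n : ℕ => (rtp φ ψ V)^[n] ⊥ := by
  apply monotone_nat_of_le_succ
  intro n
  rw [Function.iterate_succ_apply]
  exact rtp_it_mono bot_le n

/-- descending sequences of subspaces of a finite-dimensional space stabilise -/
theorem anti_stab [Module.Finite k E] (f : ℕ → Submodule k E) (hf : Antitone f) :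
    ∃ n, ∀ m, n ≤ m → f m = f n := by
  obtain ⟨n, hn⟩ := IsArtinian.monotone_stabilizes
    (⟨fun n => OrderDual.toDual (f n), fun a b h => hf h⟩ : ℕ →o (Submodule k E)ᵒᵈ)
  exact ⟨n, fun m hm => (hn m hm).symm⟩

theorem mono_stab [Module.Finite k E] (f : ℕ → Submodule k E) (hf : Monotone f) :
    ∃ n, ∀ m, n ≤ m → f m = f n := by
  obtain ⟨n, hn⟩ := monotone_stabilizes_iff_noetherian.2 (inferInstance : IsNoetherian k E)
    (⟨f, hf⟩ : ℕ →o Submodule k E)
  exact ⟨n, fun m hm => (hn m hm).symm⟩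

/-- a linear section of a relation -/
theorem exists_sec {φ ψ : E →ₗ[k] E'} {V D : Submodule k E} (hD : D ≤ stp φ ψ V D) :
    ∃ τ : D →ₗ[k] D, ∀ x : D, ψ (τ x) = φ x := by
  let ψD : D →ₗ[k] D.map ψ := (ψ.domRestrict D).codRestrict (D.map ψ) fun x => ⟨x, x.2, rfl⟩
  have hψ : LinearMap.range ψD = ⊤ := by
    rw [LinearMap.range_eq_top]
    rintro ⟨_, y, hy, rfl⟩
    exact ⟨⟨y, hy⟩, rfl⟩
  obtain ⟨s, hs⟩ := ψD.exists_rightInverse_of_surjective hψ
  let φD : D →ₗ[k] D.map ψ := (φ.domRestrict D).codRestrict (D.map ψ) fun x => (hD x.2).1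
  refine ⟨s.comp φD, fun x => ?_⟩
  have h1 := congrArg (fun t => ((t (φD x) : D.map ψ) : E')) hs
  exact h1

/-- a linear section, second version -/
theorem exists_sec' {φ ψ : E →ₗ[k] E'} {V : Submodule k E} {D : Submodule k E'}
    (hD : D ≤ rtp φ ψ V D) :
    ∃ σ : D →ₗ[k] E, ∀ x : D, φ (σ x) = x ∧ ψ (σ x) ∈ D ∧ σ x ∈ V := by
  let D' : Submodule k E := (D.comap ψ ⊓ V) ⊓ D.comap φ
  let φD : D' →ₗ[k] D := (φ.domRestrict D').codRestrict D fun x => x.2.2
  have hφ : LinearMap.range φD = ⊤ := by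
    rw [LinearMap.range_eq_top]
    rintro ⟨y, hy⟩
    obtain ⟨x, hx, rfl⟩ := hD hy
    exact ⟨⟨x, hx, hy⟩, rfl⟩
  obtain ⟨s, hs⟩ := φD.exists_rightInverse_of_surjective hφ
  refine ⟨D'.subtype.comp s, fun x => ⟨?_, (s x).2.1.1, (s x).2.1.2⟩⟩
  have h1 := congrArg (fun t => ((t x : D) : E')) hs
  exact h1

/-- `ker ψ ∩ (φ⁻¹ψ)^∞ V ⊆ (φ⁻¹ψ)^∞ 0` -/
theorem gap2 [Module.Finite k E] (φ ψ : E →ₗ[k] E') (V : Submodule k E) (x : E)
    (hx : ∀ n, x ∈ (stp φ ψ V)^[n] V) (h0 : ψ x = 0) : ∃ n, x ∈ (stp φ ψ V)^[n] ⊥ := by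
  obtain ⟨N, hN⟩ := anti_stab _ (stp_anti (φ := φ) (ψ := ψ) (V := V))
  set D := (stp φ ψ V)^[N] V with hD
  have hDV : D ≤ V := stp_it_le N
  have hDD : D ≤ stp φ ψ V D := by
    have := hN (N + 1) (Nat.le_succ N)
    simp only [Function.iterate_succ_apply'] at this
    rw [← hD] at this
    exact this.ge
  obtain ⟨τ, hτ⟩ := exists_sec hDD
  let Kr : Submodule k D := LinearMap.ker (ψ.comp D.subtype)
  let S : ℕ → Submodule k D := fun n => Nat.rec ⊥ (fun m Sm => Sm ⊔ Kr.map (τ ^ m)) n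
  have hS1 : ∀ m, S (m + 1) = S m ⊔ Kr.map (τ ^ m) := fun _ => rfl
  have hSm : Monotone S := monotone_nat_of_le_succ fun n => by
    rw [hS1]
    exact le_sup_left
  obtain ⟨n, hn⟩ := mono_stab S hSm
  have key : ∀ (m : ℕ) (y : D), (τ ^ m) y ∈ S m → (y : E) ∈ (stp φ ψ V)^[m] ⊥ := by
    intro m
    induction m with
    | zero =>
      intro y hy
      have h1 : y = 0 := by
        simpa [S] using hy
      rw [h1]
      exact zero_mem _
    | succ m ih =>
      intro y hy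
      rw [hS1] at hy
      obtain ⟨σ, hσ, _, ⟨κ, hκ, rfl⟩, hsum⟩ := Submodule.mem_sup.1 hy
      have h1 : (τ ^ m) (τ y - κ) ∈ S m := by
        have h2 : (τ ^ m) (τ y) = (τ ^ (m + 1)) y := by
          rw [pow_succ, Module.End.mul_apply]
        rw [map_sub, h2, ← hsum, add_sub_cancel_right]
        exact hσ
      have h3 := ih _ h1
      rw [Function.iterate_succ_apply']
      refine ⟨⟨_, h3, ?_⟩, hDV y.2⟩
      have h4 : ψ ((κ : D) : E) = 0 := hκ
      rw [← hτ y]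
      change ψ ((τ y : E) - (κ : E)) = ψ (τ y)
      rw [map_sub, h4, sub_zero]
  refine ⟨n, key n ⟨x, hx N⟩ ?_⟩
  have h5 : (τ ^ n) ⟨x, hx N⟩ ∈ S (n + 1) := by
    rw [hS1]
    exact Submodule.mem_sup_right ⟨⟨x, hx N⟩, h0, rfl⟩
  rw [hn (n + 1) (Nat.le_succ n)] at h5
  exact h5

/-- `(ψ⁻¹φ)^∞ V ⊆ (ψ⁻¹φ)^∞ 0 + (φ⁻¹ψ)^∞ V` -/
theorem gap3 [Module.Finite k E] (φ ψ : E →ₗ[k] E') (V : Submodule k E) (N : ℕ) :
    ∃ r n, (stp ψ φ V)^[r] V ≤ (stp ψ φ V)^[n] ⊥ ⊔ (stp φ ψ V)^[N] V := by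
  obtain ⟨r, hr⟩ := anti_stab _ (stp_anti (φ := ψ) (ψ := φ) (V := V))
  set D := (stp ψ φ V)^[r] V with hD
  have hDV : D ≤ V := stp_it_le r
  have hDD : D ≤ stp ψ φ V D := by
    have := hr (r + 1) (Nat.le_succ r)
    simp only [Function.iterate_succ_apply'] at this
    rw [← hD] at this
    exact this.ge
  obtain ⟨τ, hτ⟩ := exists_sec hDD
  obtain ⟨n, hn, hnN⟩ : ∃ n, IsCompl (LinearMap.ker (τ ^ n)) (LinearMap.range (τ ^ n)) ∧ N ≤ n := by
    have := (LinearMap.eventually_isCompl_ker_pow_range_pow τ).and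
      (Filter.eventually_ge_atTop N)
    exact this.exists
  refine ⟨r, n, fun x hx => ?_⟩
  have h1 : (⟨x, hx⟩ : D) ∈ LinearMap.ker (τ ^ n) ⊔ LinearMap.range (τ ^ n) := by
    rw [hn.sup_eq_top]
    exact Submodule.mem_top
  obtain ⟨y, hy, _, ⟨u, rfl⟩, hxy⟩ := Submodule.mem_sup.1 h1
  have hk : ∀ (m : ℕ) (y : D), (τ ^ m) y = 0 → (y : E) ∈ (stp ψ φ V)^[m] ⊥ := by
    intro m
    induction m with
    | zero =>
      intro y hy
      have h1 : y = 0 := hy
      rw [h1]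
      exact zero_mem _
    | succ m ih =>
      intro y hy
      have h2 : (τ ^ m) (τ y) = 0 := by
        rw [← hy, pow_succ, Module.End.mul_apply]
      rw [Function.iterate_succ_apply']
      exact ⟨⟨_, ih _ h2, hτ y⟩, hDV y.2⟩
  have hi : ∀ (m : ℕ) (u : D), (((τ ^ m) u : D) : E) ∈ (stp φ ψ V)^[m] V := by
    intro m
    induction m with
    | zero => exact fun u => hDV u.2
    | succ m ih =>
      intro u
      rw [Function.iterate_succ_apply']
      refine ⟨⟨_, ih u, ?_⟩, hDV (Subtype.property _)⟩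
      rw [pow_succ', Module.End.mul_apply]
      exact (hτ _).symm
  have h3 : x = (y : E) + (((τ ^ n) u : D) : E) := (congrArg Subtype.val hxy).symm
  rw [h3]
  exact Submodule.add_mem_sup (hk n y hy) (stp_anti hnN (hi n u))

/-- `(φψ⁻¹)^∞ ⊆ (φψ⁻¹)^∞ 0 + ψ V` -/
theorem gap1 [Module.Finite k E'] (φ ψ : E →ₗ[k] E') (V : Submodule k E) :
    ∃ r n, (rtp φ ψ V)^[r] ⊤ ≤ (rtp φ ψ V)^[n] ⊥ ⊔ V.map ψ := by
  obtain ⟨r, hr⟩ := anti_stab _ (rtp_anti (φ := φ) (ψ := ψ) (V := V))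
  set D := (rtp φ ψ V)^[r] ⊤ with hD
  have hDD : D ≤ rtp φ ψ V D := by
    have := hr (r + 1) (Nat.le_succ r)
    simp only [Function.iterate_succ_apply'] at this
    rw [← hD] at this
    exact this.ge
  obtain ⟨σ, hσ⟩ := exists_sec' hDD
  let τ : D →ₗ[k] D := (ψ.comp σ).codRestrict D fun x => (hσ x).2.1
  have hτ : ∀ x : D, ((τ x : D) : E') = ψ (σ x) := fun x => rfl
  obtain ⟨n, hn, hnN⟩ : ∃ n, IsCompl (LinearMap.ker (τ ^ n)) (LinearMap.range (τ ^ n)) ∧ 1 ≤ n := by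
    have := (LinearMap.eventually_isCompl_ker_pow_range_pow τ).and
      (Filter.eventually_ge_atTop 1)
    exact this.exists
  refine ⟨r, n, fun x hx => ?_⟩
  have h1 : (⟨x, hx⟩ : D) ∈ LinearMap.ker (τ ^ n) ⊔ LinearMap.range (τ ^ n) := by
    rw [hn.sup_eq_top]
    exact Submodule.mem_top
  obtain ⟨y, hy, _, ⟨u, rfl⟩, hxy⟩ := Submodule.mem_sup.1 h1
  have hk : ∀ (m : ℕ) (y : D), (τ ^ m) y = 0 → (y : E') ∈ (rtp φ ψ V)^[m] ⊥ := by
    intro m
    induction m with
    | zero =>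
      intro y hy
      have h1 : y = 0 := hy
      rw [h1]
      exact zero_mem _
    | succ m ih =>
      intro y hy
      have h2 : (τ ^ m) (τ y) = 0 := by
        rw [← hy, pow_succ, Module.End.mul_apply]
      rw [Function.iterate_succ_apply']
      have h3 := ih _ h2
      rw [hτ] at h3
      exact ⟨σ y, ⟨h3, (hσ y).2.2⟩, (hσ y).1⟩
  have h3 : x = (y : E') + (((τ ^ n) u : D) : E') := (congrArg Subtype.val hxy).symm
  rw [h3]
  refine Submodule.add_mem_sup (hk n y hy) ?_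
  obtain ⟨n', rfl⟩ := Nat.exists_eq_add_of_le hnN
  rw [pow_add, pow_one, Module.End.mul_apply, hτ]
  exact ⟨_, (hσ _).2.2, rfl⟩

end

/-! ## Algebraically closed fields -/

section

variable {k : Type*} [Field k] [IsAlgClosed k]

/-- iterated shifts -/
def shl {D : Type*} [AddCommGroup D] [Module k D] (τ : D →ₗ[k] D) : List k → D → D
  | [], x => x
  | c :: l, x => shl τ l (τ x - c • x)

theorem exists_shl {D : Type*} [AddCommGroup D] [Module k D] (τ : D →ₗ[k] D) :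
    ∀ (n : ℕ) (p : Polynomial k) (x : D), p.natDegree ≤ n → p ≠ 0 →
      Polynomial.aeval τ p x = 0 → ∃ l : List k, shl τ l x = 0 := by
  intro n
  induction n with
  | zero =>
    intro p x hp hp0 hx
    rw [Polynomial.eq_C_of_natDegree_le_zero hp] at hx hp0
    refine ⟨[], ?_⟩
    rw [Polynomial.aeval_C] at hx
    have h0 : p.coeff 0 ≠ 0 := fun h => hp0 (by rw [h, map_zero])
    have h1 : p.coeff 0 • x = 0 := hx
    exact (smul_eq_zero.1 h1).resolve_left h0
  | succ n ih =>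
    intro p x hp hp0 hx
    by_cases hd : p.natDegree ≤ n
    · exact ih p x hd hp0 hx
    have hdeg : p.degree ≠ 0 := by
      intro h
      have := Polynomial.natDegree_eq_zero_iff_degree_le_zero.2 h.le
      omega
    obtain ⟨c, hc⟩ := IsAlgClosed.exists_root p hdeg
    obtain ⟨q, hq⟩ := Polynomial.dvd_iff_isRoot.2 hc
    have hq0 : q ≠ 0 := by
      rintro rfl
      exact hp0 (by rw [hq, mul_zero])
    have hqd : q.natDegree ≤ n := by
      have h1 : p.natDegree = 1 + q.natDegree := by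
        rw [hq, Polynomial.natDegree_mul (Polynomial.X_sub_C_ne_zero c) hq0,
          Polynomial.natDegree_X_sub_C]
      omega
    obtain ⟨l, hl⟩ := ih q (τ x - c • x) hqd hq0 (by
      rw [hq, mul_comm, map_mul, Module.End.mul_apply] at hx
      rw [← hx]
      simp [Algebra.algebraMap_eq_smul_one])
    exact ⟨c :: l, hl⟩

/-- every vector is killed by a product of shifts -/
theorem exists_shl' {D : Type*} [AddCommGroup D] [Module k D] [Module.Finite k D]
    (τ : D →ₗ[k] D) (x : D) : ∃ l : List k, shl τ l x = 0 := by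
  refine exists_shl τ _ (LinearMap.charpoly τ) x le_rfl (LinearMap.charpoly_monic τ).ne_zero ?_
  rw [LinearMap.aeval_self_charpoly]
  rfl

/-- polynomials with constant term `1` are products of polynomials `1 - c X` -/
theorem poly_factor (M : Polynomial k → Prop) (h1 : M 1)
    (h2 : ∀ (c : k) (q : Polynomial k), c ≠ 0 → M q → M ((1 - Polynomial.C c * Polynomial.X) * q)) :
    ∀ (n : ℕ) (p : Polynomial k), p.natDegree ≤ n → p.coeff 0 = 1 → M p := by
  intro n
  induction n with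
  | zero =>
    intro p hp h0
    rw [Polynomial.eq_C_of_natDegree_le_zero hp, h0, map_one]
    exact h1
  | succ n ih =>
    intro p hp h0
    by_cases hd : p.natDegree ≤ n
    · exact ih p hd h0
    have hdeg : p.degree ≠ 0 := by
      intro h
      have := Polynomial.natDegree_eq_zero_iff_degree_le_zero.2 h.le
      omega
    obtain ⟨c, hc⟩ := IsAlgClosed.exists_root p hdeg
    obtain ⟨q, hq⟩ := Polynomial.dvd_iff_isRoot.2 hc
    have hc0 : c ≠ 0 := by
      rintro rfl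
      have h3 : p.eval 0 = 0 := hc
      rw [← Polynomial.coeff_zero_eq_eval_zero, h0] at h3
      exact one_ne_zero h3
    have hp0 : p ≠ 0 := by
      rintro rfl
      simp at h0
    have hq0 : q ≠ 0 := by
      rintro rfl
      exact hp0 (by rw [hq, mul_zero])
    have hqd : q.natDegree ≤ n := by
      have h1 : p.natDegree = 1 + q.natDegree := by
        rw [hq, Polynomial.natDegree_mul (Polynomial.X_sub_C_ne_zero c) hq0,
          Polynomial.natDegree_X_sub_C]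
      omega
    have e1 : p = (1 - Polynomial.C c⁻¹ * Polynomial.X) * (Polynomial.C (-c) * q) := by
      rw [hq]
      have e2 : (Polynomial.C c⁻¹ * Polynomial.C c : Polynomial k) = 1 := by
        rw [← map_mul, inv_mul_cancel₀ hc0, map_one]
      have e3 : (Polynomial.C (-c) : Polynomial k) = - Polynomial.C c := map_neg _ _
      rw [e3]
      linear_combination (-Polynomial.X * q) * e2
    have h3 : (Polynomial.C (-c) * q).coeff 0 = 1 := by
      have h4 : p.coeff 0 = (Polynomial.C (-c) * q).coeff 0 := by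
        rw [e1, sub_mul, one_mul, Polynomial.coeff_sub]
        simp [mul_assoc]
      rw [← h4, h0]
    rw [e1]
    refine h2 _ _ (inv_ne_zero hc0) (ih _ ?_ h3)
    exact (Polynomial.natDegree_C_mul_le _ _).trans hqd

end

end Pool.Agent.H56.UDs
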