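import Pool.Agent.H56.UD.Supp
import Pool.Agent.H56.UD.LinAlg

/-!
# Uniserial dimension (MP_404602_al): the quivers with finite uniserial dimension
-/

open CategoryTheory

namespace Pool.Agent.H56.UDs

/-- the vertices: a sink `w` and two arms of `m` Kronecker quivers `P s j ⇉ Q s j` -/
inductive MV (m : ℕ)
  | w
  | P (s : Bool) (j : Fin m)
  | Q (s : Bool) (j : Fin m)
  deriving DecidableEq, Fintype

/-- the arrows `a, b : P s j → Q s j` and `c : Q s j → P s (j - 1)` (or `w`, if `j = 0`) -/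
inductive MA (m : ℕ)
  | a (s : Bool) (j : Fin m)
  | b (s : Bool) (j : Fin m)
  | c (s : Bool) (j : Fin m)
  deriving DecidableEq, Fintype

variable {m : ℕ}

/-- the source of an arrow -/
def MA.src : MA m → MV m
  | .a s j => .P s j
  | .b s j => .P s j
  | .c s j => .Q s j

/-- the target of an arrow -/
def MA.tgt : MA m → MV m
  | .a s j => .Q s j
  | .b s j => .Q s j
  | .c _ ⟨0, _⟩ => .w
  | .c s ⟨i + 1, h⟩ => .P s ⟨i, Nat.lt_of_succ_lt h⟩

/-- the side at which an arrow leaves -/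
def MA.so : MA m → Bool
  | .a _ _ => true
  | .b _ _ => false
  | .c _ _ => true

/-- the side at which an arrow enters -/
def MA.si : MA m → Bool
  | .a _ _ => true
  | .b _ _ => false
  | .c s ⟨0, _⟩ => s
  | .c _ ⟨_ + 1, _⟩ => true

/-- a rank function on the vertices -/
def MV.rank : MV m → ℕ
  | .P _ j => 2 * (m - j.val)
  | .Q _ j => 2 * (m - j.val) + 1
  | .w => 2 * m + 2

/-- The gentle quiver with `2 m` Kronecker quivers and the relations `c a = 0`, `a c = 0` -/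
def GM (m : ℕ) : Gentle where
  V := MV m
  A := MA m
  src := MA.src
  tgt := MA.tgt
  so := MA.so
  si := MA.si
  inj_o := by
    rintro (⟨s, j⟩ | ⟨s, j⟩ | ⟨s, j⟩) (⟨s', j'⟩ | ⟨s', j'⟩ | ⟨s', j'⟩) h1 h2 <;>
      simp_all [MA.src, MA.so]
  inj_i := by
    rintro (⟨s, j⟩ | ⟨s, j⟩ | ⟨s, ⟨_ | i, hi⟩⟩) (⟨s', j'⟩ | ⟨s', j'⟩ | ⟨s', ⟨_ | i', hi'⟩⟩) h1 h2 <;>
      simp_all [MA.tgt, MA.si]
  rank := MV.rank
  rank_lt := by
    rintro (⟨s, j⟩ | ⟨s, j⟩ | ⟨s, ⟨_ | i, hi⟩⟩) <;> simp only [MA.src, MA.tgt, MV.rank] <;> omega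

variable {k : Type} [Field k]

/-! ## Arrows at the vertices -/

theorem src_P {α : MA m} {s : Bool} {j : Fin m} (h : (GM m).src α = MV.P s j) :
    α = MA.a s j ∨ α = MA.b s j := by
  rcases α with ⟨s', j'⟩ | ⟨s', j'⟩ | ⟨s', j'⟩ <;> simp_all [GM, MA.src]

theorem src_Q {α : MA m} {s : Bool} {j : Fin m} (h : (GM m).src α = MV.Q s j) :
    α = MA.c s j := by
  rcases α with ⟨s', j'⟩ | ⟨s', j'⟩ | ⟨s', j'⟩ <;> simp_all [GM, MA.src]

theorem src_w {α : MA m} (h : (GM m).src α = MV.w) : False := by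
  rcases α with ⟨s', j'⟩ | ⟨s', j'⟩ | ⟨s', j'⟩ <;> simp_all [GM, MA.src]

theorem tgt_Q {α : MA m} {s : Bool} {j : Fin m} (h : (GM m).tgt α = MV.Q s j) :
    α = MA.a s j ∨ α = MA.b s j := by
  rcases α with ⟨s', j'⟩ | ⟨s', j'⟩ | ⟨s', ⟨_ | i, hi⟩⟩ <;> simp_all [GM, MA.tgt]

theorem tgt_P {α : MA m} {s : Bool} {j : Fin m} (h : (GM m).tgt α = MV.P s j) :
    ∃ h : j.val + 1 < m, α = MA.c s ⟨j.val + 1, h⟩ := by
  rcases α with ⟨s', j'⟩ | ⟨s', j'⟩ | ⟨s', ⟨_ | i, hi⟩⟩
  · simp [GM, MA.tgt] at h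
  · simp [GM, MA.tgt] at h
  · simp [GM, MA.tgt] at h
  · simp only [GM, MA.tgt, MV.P.injEq] at h
    obtain ⟨rfl, rfl⟩ := h
    exact ⟨hi, rfl⟩

theorem tgt_w {α : MA m} (h : (GM m).tgt α = MV.w) :
    ∃ (s : Bool) (h : 0 < m), α = MA.c s ⟨0, h⟩ := by
  rcases α with ⟨s', j'⟩ | ⟨s', j'⟩ | ⟨s', ⟨_ | i, hi⟩⟩
  · simp [GM, MA.tgt] at h
  · simp [GM, MA.tgt] at h
  · exact ⟨s', hi, rfl⟩
  · simp [GM, MA.tgt] at h

/-! ## Case distinctions for words -/

theorem cases_Pf {s : Bool} {j : Fin m} (M : Word (GM m) (MV.P s j) false → Prop)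
    (h1 : M (Word.nil _ _))
    (h2 : ∀ Z : Word (GM m) (MV.Q s j) true, M (Word.inv (G := GM m) (MA.b s j) Z))
    (w : Word (GM m) (MV.P s j) false) : M w := by
  have key : ∀ (v : (GM m).V) (x : Bool) (w : Word (GM m) v x) (hv : v = MV.P s j) (hx : x = false),
      M (hv ▸ hx ▸ w) := by
    intro v x w hv hx
    cases w with
    | nil =>
      subst hv hx
      exact h1
    | dir α w =>
      exfalso
      obtain ⟨h, rfl⟩ := tgt_P hv
      exact absurd hx (by simp [GM, MA.si])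
    | inv α w =>
      rcases src_P hv with rfl | rfl
      · exact absurd hx (by simp [GM, MA.so])
      · exact h2 w
  exact key _ _ w rfl rfl

theorem cases_Pt {s : Bool} {j : Fin m} (M : Word (GM m) (MV.P s j) true → Prop)
    (h1 : M (Word.nil _ _))
    (h2 : ∀ Z : Word (GM m) (MV.Q s j) false, M (Word.inv (G := GM m) (MA.a s j) Z))
    (h3 : ∀ (h : j.val + 1 < m) (Z : Word (GM m) (MV.Q s ⟨j.val + 1, h⟩) false),
      M (Word.dir (G := GM m) (MA.c s ⟨j.val + 1, h⟩) Z))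
    (w : Word (GM m) (MV.P s j) true) : M w := by
  have key : ∀ (v : (GM m).V) (x : Bool) (w : Word (GM m) v x) (hv : v = MV.P s j) (hx : x = true),
      M (hv ▸ hx ▸ w) := by
    intro v x w hv hx
    cases w with
    | nil =>
      subst hv hx
      exact h1
    | dir α w =>
      obtain ⟨h, rfl⟩ := tgt_P hv
      exact h3 h w
    | inv α w =>
      rcases src_P hv with rfl | rfl
      · exact h2 w
      · exact absurd hx (by simp [GM, MA.so])
  exact key _ _ w rfl rfl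

theorem cases_Qt {s : Bool} {j : Fin m} (M : Word (GM m) (MV.Q s j) true → Prop)
    (h1 : M (Word.nil _ _))
    (h2 : ∀ Z : Word (GM m) (MV.P s j) false, M (Word.dir (G := GM m) (MA.a s j) Z))
    (h3 : ∀ Z : Word (GM m) ((GM m).tgt (MA.c s j)) (!(GM m).si (MA.c s j)),
      M (Word.inv (G := GM m) (MA.c s j) Z))
    (w : Word (GM m) (MV.Q s j) true) : M w := by
  have key : ∀ (v : (GM m).V) (x : Bool) (w : Word (GM m) v x) (hv : v = MV.Q s j) (hx : x = true),
      M (hv ▸ hx ▸ w) := by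
    intro v x w hv hx
    cases w with
    | nil =>
      subst hv hx
      exact h1
    | dir α w =>
      rcases tgt_Q hv with rfl | rfl
      · exact h2 w
      · exact absurd hx (by simp [GM, MA.si])
    | inv α w =>
      obtain rfl := src_Q hv
      exact h3 w
  exact key _ _ w rfl rfl

theorem cases_Qf {s : Bool} {j : Fin m} (M : Word (GM m) (MV.Q s j) false → Prop)
    (h1 : M (Word.nil _ _))
    (h2 : ∀ Z : Word (GM m) (MV.P s j) true, M (Word.dir (G := GM m) (MA.b s j) Z))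
    (w : Word (GM m) (MV.Q s j) false) : M w := by
  have key : ∀ (v : (GM m).V) (x : Bool) (w : Word (GM m) v x) (hv : v = MV.Q s j) (hx : x = false),
      M (hv ▸ hx ▸ w) := by
    intro v x w hv hx
    cases w with
    | nil =>
      subst hv hx
      exact h1
    | dir α w =>
      rcases tgt_Q hv with rfl | rfl
      · exact absurd hx (by simp [GM, MA.si])
      · exact h2 w
    | inv α w =>
      obtain rfl := src_Q hv
      exact absurd hx (by simp [GM, MA.so])
  exact key _ _ w rfl rfl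

theorem cases_w {s : Bool} (M : Word (GM m) MV.w s → Prop)
    (h1 : M (Word.nil _ _))
    (h2 : ∀ (h : 0 < m) (Z : Word (GM m) (MV.Q s ⟨0, h⟩) false),
      M (Word.dir (G := GM m) (MA.c s ⟨0, h⟩) Z))
    (w : Word (GM m) MV.w s) : M w := by
  have key : ∀ (v : (GM m).V) (x : Bool) (w : Word (GM m) v x) (hv : v = MV.w) (hx : x = s),
      M (hv ▸ hx ▸ w) := by
    intro v x w hv hx
    cases w with
    | nil =>
      subst hv hx
      exact h1
    | dir α w₀ =>
      obtain ⟨s', h, rfl⟩ := tgt_w hv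
      have hs : s' = s := hx
      subst hs
      exact h2 h w₀
    | inv α w₀ => exact absurd hv (fun h => src_w h)
  exact key _ _ w rfl rfl

/-! ## Supports -/

/-- the states which are reachable in the outer direction from `(Q s i, false)`, `i ≥ j` -/
def OutSt (s : Bool) (j : ℕ) : MV m → Bool → Prop
  | .w, _ => False
  | .P s' i, x => s' = s ∧ j ≤ i.val ∧ x = true
  | .Q s' i, x => s' = s ∧ j ≤ i.val ∧ x = false

/-- the states which are reachable in the inner direction from the target of `c s j` -/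
def InnSt (s : Bool) (j : ℕ) : MV m → Bool → Prop
  | .w, x => x = !s
  | .P s' i, x => (s' = s ∧ i.val < j ∧ x = false) ∨ (s' = !s ∧ x = true)
  | .Q s' i, x => (s' = s ∧ i.val < j ∧ x = true) ∨ (s' = !s ∧ x = false)

theorem outSt1 (s : Bool) (j : ℕ) (α : (GM m).A) (h : OutSt s j ((GM m).tgt α) ((GM m).si α)) :
    OutSt s j ((GM m).src α) (!(GM m).so α) := by
  rcases α with ⟨s', i⟩ | ⟨s', i⟩ | ⟨s', ⟨_ | i, hi⟩⟩
  · simp [OutSt, GM, MA.tgt, MA.si] at h
  · simpa [OutSt, GM, MA.tgt, MA.si, MA.src, MA.so] using h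
  · simp [OutSt, GM, MA.tgt, MA.si] at h
  · simp only [OutSt, GM, MA.tgt, MA.si, MA.src, MA.so] at h ⊢
    exact ⟨h.1, by omega, rfl⟩

theorem outSt2 (s : Bool) (j : ℕ) (α : (GM m).A) (h : OutSt s j ((GM m).src α) ((GM m).so α)) :
    OutSt s j ((GM m).tgt α) (!(GM m).si α) := by
  rcases α with ⟨s', i⟩ | ⟨s', i⟩ | ⟨s', ⟨_ | i, hi⟩⟩
  · simpa [OutSt, GM, MA.tgt, MA.si, MA.src, MA.so] using h
  · simp [OutSt, GM, MA.src, MA.so] at h
  · simp [OutSt, GM, MA.src, MA.so] at h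
  · simp [OutSt, GM, MA.src, MA.so] at h

theorem innSt1 (s : Bool) (j : ℕ) (α : (GM m).A) (h : InnSt s j ((GM m).tgt α) ((GM m).si α)) :
    InnSt s j ((GM m).src α) (!(GM m).so α) := by
  rcases α with ⟨s', i⟩ | ⟨s', i⟩ | ⟨s', ⟨_ | i, hi⟩⟩
  · simp only [InnSt, GM, MA.tgt, MA.si, MA.src, MA.so] at h ⊢
    rcases h with h | h
    · exact Or.inl ⟨h.1, h.2.1, rfl⟩
    · exact absurd h.2 (by simp)
  · simp only [InnSt, GM, MA.tgt, MA.si, MA.src, MA.so] at h ⊢
    rcases h with h | h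
    · exact absurd h.2.2 (by simp)
    · exact Or.inr ⟨h.1, rfl⟩
  · simp only [InnSt, GM, MA.tgt, MA.si, MA.src, MA.so] at h ⊢
    exact Or.inr ⟨h, rfl⟩
  · simp only [InnSt, GM, MA.tgt, MA.si, MA.src, MA.so] at h ⊢
    rcases h with h | h
    · exact absurd h.2.2 (by simp)
    · exact Or.inr ⟨h.1, rfl⟩

theorem innSt2 (s : Bool) (j : ℕ) (α : (GM m).A) (h : InnSt s j ((GM m).src α) ((GM m).so α)) :
    InnSt s j ((GM m).tgt α) (!(GM m).si α) := by
  rcases α with ⟨s', i⟩ | ⟨s', i⟩ | ⟨s', ⟨_ | i, hi⟩⟩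
  · simp only [InnSt, GM, MA.tgt, MA.si, MA.src, MA.so] at h ⊢
    rcases h with h | h
    · exact absurd h.2.2 (by simp)
    · exact Or.inr ⟨h.1, rfl⟩
  · simp only [InnSt, GM, MA.tgt, MA.si, MA.src, MA.so] at h ⊢
    rcases h with h | h
    · exact Or.inl ⟨h.1, h.2.1, rfl⟩
    · exact absurd h.2 (by simp)
  · simp only [InnSt, GM, MA.tgt, MA.si, MA.src, MA.so] at h ⊢
    rcases h with h | h
    · rw [h.1]
    · exact absurd h.2 (by simp)
  · simp only [InnSt, GM, MA.tgt, MA.si, MA.src, MA.so] at h ⊢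
    rcases h with h | h
    · exact Or.inl ⟨h.1, by omega, rfl⟩
    · exact absurd h.2 (by simp)

/-- outer words live on the outer part -/
theorem out_supp (s : Bool) (j : ℕ) (u : MV m)
    (hu : u = MV.w ∨ (∃ i : Fin m, i.val < j ∧ (u = MV.P s i ∨ u = MV.Q s i)))
    {v : MV m} {x : Bool} (w : Word (GM m) v x) (hw : OutSt s j v x) (n : (germ k w).N.X) :
    (germ k w).N.e u n = 0 := by
  refine germ_supp (G := GM m) (OutSt s j) (outSt1 s j) (outSt2 s j) u ?_ w hw n
  rintro v x hx rfl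
  rcases hu with rfl | ⟨i, hi, rfl | rfl⟩
  · exact hx
  · have := hx.2.1
    omega
  · have := hx.2.1
    omega

/-- inner words do not return to the block -/
theorem inn_supp (s : Bool) (j : Fin m) {v : MV m} {x : Bool} (w : Word (GM m) v x)
    (hw : InnSt s j.val v x) (n : (germ k w).N.X) :
    (germ k w).N.e (MV.P s j) n = 0 ∧ (germ k w).N.e (MV.Q s j) n = 0 := by
  constructor
  · refine germ_supp (G := GM m) (InnSt s j.val) (innSt1 s j.val) (innSt2 s j.val) _ ?_ w hw n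
    rintro v x hx rfl
    rcases hx with h | h
    · exact lt_irrefl _ h.2.1
    · exact absurd h.1 (by cases s <;> simp)
  · refine germ_supp (G := GM m) (InnSt s j.val) (innSt1 s j.val) (innSt2 s j.val) _ ?_ w hw n
    rintro v x hx rfl
    rcases hx with h | h
    · exact lt_irrefl _ h.2.1
    · exact absurd h.1 (by cases s <;> simp)

end Pool.Agent.H56.UDs
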