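import Pool.Agent.H56.UD.Stp

/-!
# Uniserial dimension (MP_404602_al): the words `(b⁻¹ a)^n b⁻¹ Z`
-/

open CategoryTheory

namespace Pool.Agent.H56.UDs

variable {m : ℕ} {k : Type} [Field k] {s : Bool} {j : Fin m}

/-- linear maps commuting with `a` and `b` -/
theorem stp_it_map {X Y : Rep k (GM m)} (f : X.X →ₗ[k] Y.X)
    (he : ∀ x, f (X.e (MV.P s j) x) = Y.e (MV.P s j) (f x))
    (ha : ∀ x, f (ra X s j x) = ra Y s j (f x)) (hb : ∀ x, f (rb X s j x) = rb Y s j (f x))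
    (n : ℕ) : ∀ x ∈ (stp (rb X s j) (ra X s j) (VP X s j))^[n] (VP X s j),
      f x ∈ (stp (rb Y s j) (ra Y s j) (VP Y s j))^[n] (VP Y s j) := by
  have hV : ∀ x ∈ VP X s j, f x ∈ VP Y s j := by
    intro x hx
    refine mem_Ev.2 ?_
    have h1 : X.e (MV.P s j) x = x := mem_Ev.1 hx
    exact (he x).symm.trans (congrArg f h1)
  induction n with
  | zero => exact hV
  | succ n ih =>
    intro x hx
    rw [Function.iterate_succ_apply'] at hx ⊢
    obtain ⟨⟨y, hy, hyx⟩, hxV⟩ := hx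
    refine ⟨⟨f y, ih y hy, ?_⟩, hV x hxV⟩
    rw [← ha, ← hb, hyx]

theorem short_mi {Z : Word (GM m) (MV.Q s j) true} (hZ : Short Z) (X : Rep k (GM m)) (x : X.X) :
    ra X s j x ∈ sat (mi k Z) X := by
  rcases hZ with rfl | ⟨w', rfl⟩
  · exact mem_mi_nil.2 (Or.inr ⟨MA.a s j, rfl, rfl, x, rfl⟩)
  · refine (mem_mi_inv (G := GM m)).2 ⟨?_, X.e_tgt (MA.a s j) x⟩
    have h1 : X.r (MA.c s j) (ra X s j x) = 0 := rc_ra x
    rw [h1]
    exact zero_mem _

theorem short_pl {Z : Word (GM m) (MV.Q s j) true} (hZ : Short Z) (X : Rep k (GM m)) (x : X.X) :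
    ra X s j x ∈ sat (pl k Z) X := mi_le_pl Z X (short_mi hZ X x)

theorem mem_dd0 {Z : Word (GM m) (MV.Q s j) true} {X : Rep k (GM m)} {x : X.X} :
    x ∈ sat (pl k (DD s j Z 0)) X ↔ rb X s j x ∈ sat (pl k Z) X ∧ x ∈ VP X s j := Iff.rfl

theorem mem_dds {Z : Word (GM m) (MV.Q s j) true} {n : ℕ} {X : Rep k (GM m)} {x : X.X} :
    x ∈ sat (pl k (DD s j Z (n + 1))) X ↔
      (∃ y ∈ sat (pl k (DD s j Z n)) X, ra X s j y = rb X s j x) ∧ x ∈ VP X s j := Iff.rfl

theorem dd_mi_ge {Z : Word (GM m) (MV.Q s j) true} (hZ : Short Z) (X : Rep k (GM m)) (n : ℕ) :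
    (stp (rb X s j) (ra X s j) (VP X s j))^[n + 1] (VP X s j) ≤
      sat (mi k (DD s j Z n)) X := by
  induction n with
  | zero =>
    rintro x ⟨⟨y, _, hyx⟩, hx⟩
    refine (mem_mi_inv (G := GM m)).2 ⟨?_, mem_Ev.1 hx⟩
    have h1 : rb X s j x ∈ sat (mi k Z) X := by
      rw [← hyx]
      exact short_mi hZ X y
    exact h1
  | succ n ih =>
    intro x hx
    rw [Function.iterate_succ_apply'] at hx
    obtain ⟨⟨y, hy, hyx⟩, hxV⟩ := hx
    exact (mem_mi_inv (G := GM m)).2 ⟨⟨y, ih hy, hyx⟩, mem_Ev.1 hxV⟩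

theorem dd_pl_le (Z : Word (GM m) (MV.Q s j) true) (X : Rep k (GM m)) (n : ℕ) :
    sat (pl k (DD s j Z n)) X ≤ (stp (rb X s j) (ra X s j) (VP X s j))^[n] (VP X s j) := by
  induction n with
  | zero => exact fun x hx => hx.2
  | succ n ih =>
    intro x hx
    rw [Function.iterate_succ_apply']
    obtain ⟨⟨y, hy, hyx⟩, hxV⟩ := mem_dds.1 hx
    exact ⟨⟨y, ih hy, hyx⟩, hxV⟩

theorem dd_pl_anti {Z : Word (GM m) (MV.Q s j) true} (hZ : Short Z) (X : Rep k (GM m)) (n : ℕ) :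
    sat (pl k (DD s j Z (n + 1))) X ≤ sat (pl k (DD s j Z n)) X := by
  induction n with
  | zero =>
    intro x hx
    obtain ⟨⟨y, _, hyx⟩, hxV⟩ := mem_dds.1 hx
    refine mem_dd0.2 ⟨?_, hxV⟩
    rw [← hyx]
    exact short_pl hZ X y
  | succ n ih =>
    intro x hx
    obtain ⟨⟨y, hy, hyx⟩, hxV⟩ := mem_dds.1 hx
    exact mem_dds.2 ⟨⟨y, ih hy, hyx⟩, hxV⟩

theorem dd_shift {Z : Word (GM m) (MV.Q s j) true} (hZ : Short Z) (X : Rep k (GM m)) (c : k)
    {v : X.X} (hv : v ∈ VP X s j) (n : ℕ) : ∀ {w : X.X}, w ∈ sat (pl k (DD s j Z n)) X →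
      rb X s j v - c • ra X s j v = rb X s j w → v ∈ sat (pl k (DD s j Z n)) X := by
  induction n with
  | zero =>
    intro w hw hvw
    refine mem_dd0.2 ⟨?_, hv⟩
    have h1 : rb X s j v = rb X s j w + c • ra X s j v := by
      rw [← hvw, sub_add_cancel]
    rw [h1]
    exact add_mem (mem_dd0.1 hw).1 (Submodule.smul_mem _ c (short_pl hZ X v))
  | succ n ih =>
    intro w hw hvw
    obtain ⟨⟨u, hu, huw⟩, hwV⟩ := mem_dds.1 hw
    have h2 := ih (dd_pl_anti hZ X n hw) hvw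
    refine mem_dds.2 ⟨⟨u + c • v, add_mem hu (Submodule.smul_mem _ c h2), ?_⟩, hv⟩
    rw [map_add, map_smul, huw, ← hvw, sub_add_cancel]

/-! ## Vectors in the representations of these words -/

/-- the vectors in `(b⁻¹ a)^n` are multiples of `z` -/
def GCP (n : ℕ) (R : PRep k (GM m) (MV.P s j) false) : Prop :=
  ∀ p ∈ (stp (rb R.N s j) (ra R.N s j) (VP R.N s j))^[n] (VP R.N s j), ∃ c : k, p = c • R.z

theorem gc_zero {Z : Word (GM m) (MV.Q s j) true} (hZ : Short Z) :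
    GCP (k := k) 0 (invP (G := GM m) (MA.b s j) (germ k Z)) := by
  rintro ⟨ν, t⟩ hp
  have hp' := (invP_fix (G := GM m) (α := MA.b s j) (P := germ k Z) (mem_Ev.1 hp)).1
  have h0 : ν = 0 := by
    rcases hZ with rfl | ⟨w', rfl⟩
    · exact nilP_fix hp' (P_ne_Q s s j j)
    · obtain ⟨ν', t'⟩ := ν
      obtain ⟨h1, h2⟩ := invP_fix (G := GM m) (α := MA.c s j) (P := germ k w') hp'
      rw [(inn_supp (k := k) s j w' (inn_start s j) _).1] at h1
      exact Prod.ext h1.symm (h2 (P_ne_Q s s j j))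
  subst h0
  exact ⟨t, invP_z_eq (G := GM m) t⟩

theorem gc_step (n : ℕ) (R : PRep k (GM m) (MV.P s j) false) (hR : GCP n R)
    (hb : rb R.N s j R.z ≠ 0) :
    GCP (n + 1) (invP (G := GM m) (MA.b s j) (dirP (G := GM m) (MA.a s j) R)) := by
  have hab : (MA.b s j : MA m) ≠ MA.a s j := by intro h; cases h
  set R' := invP (G := GM m) (MA.b s j) (dirP (G := GM m) (MA.a s j) R) with hR'
  let π : R'.N.X →ₗ[k] R.N.X := ((LinearMap.fst k R.N.X k).comp
    (LinearMap.fst k (R.N.X × k) k) : ((R.N.X × k) × k) →ₗ[k] R.N.X)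
  have fe : ∀ (ν : R.N.X) (t u : k), R'.N.e (MV.P s j) (((ν, t), u) : (R.N.X × k) × k) =
      (((R.N.e (MV.P s j) ν, 0), u) : (R.N.X × k) × k) := by
    intro ν t u
    have h1 := invP_e (G := GM m) (MA.b s j) (dirP (G := GM m) (MA.a s j) R) (MV.P s j)
      (((ν, t), u) : (R.N.X × k) × k)
    refine h1.trans (Prod.ext ?_ ?_)
    · refine (dirP_e (G := GM m) (MA.a s j) R (MV.P s j) ((ν, t) : R.N.X × k)).trans ?_
      refine Prod.ext rfl ?_
      change (if (MV.P s j : MV m) = MV.Q s j then t else 0) = 0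
      exact if_neg (P_ne_Q s s j j)
    · exact if_pos rfl
  have fa : ∀ (ν : R.N.X) (t u : k), ra R'.N s j (((ν, t), u) : (R.N.X × k) × k) =
      (((ra R.N s j ν, R.ζ ν), 0) : (R.N.X × k) × k) := by
    intro ν t u
    have h1 := invP_r_ne (G := GM m) (MA.b s j) (dirP (G := GM m) (MA.a s j) R)
      (γ := MA.a s j) hab.symm (((ν, t), u) : (R.N.X × k) × k)
    refine h1.trans (Prod.ext ?_ rfl)
    exact dirP_r_self (G := GM m) (MA.a s j) R ((ν, t) : R.N.X × k)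
  have fb : ∀ (ν : R.N.X) (t u : k), rb R'.N s j (((ν, t), u) : (R.N.X × k) × k) =
      (((rb R.N s j ν, u), 0) : (R.N.X × k) × k) := by
    intro ν t u
    have h1 := invP_r_self (G := GM m) (MA.b s j) (dirP (G := GM m) (MA.a s j) R)
      (((ν, t), u) : (R.N.X × k) × k)
    refine h1.trans (Prod.ext ?_ rfl)
    have h2 := dirP_r_ne (G := GM m) (MA.a s j) R (γ := MA.b s j) hab ((ν, t) : R.N.X × k)
    change (dirP (G := GM m) (MA.a s j) R).N.r (MA.b s j) ((ν, t) : R.N.X × k) +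
      u • (dirP (G := GM m) (MA.a s j) R).z = _
    rw [h2]
    refine Prod.ext ?_ ?_
    · change R.N.r (MA.b s j) ν + u • (0 : R.N.X) = R.N.r (MA.b s j) ν
      rw [smul_zero, add_zero]
    · change (0 : k) + u * 1 = u
      rw [zero_add, mul_one]
  have hπ := stp_it_map (s := s) (j := j) π (fun x => by
      obtain ⟨⟨ν, t⟩, u⟩ := x
      exact congrArg (fun y : (R.N.X × k) × k => y.1.1) (fe ν t u))
    (fun x => by
      obtain ⟨⟨ν, t⟩, u⟩ := x
      exact congrArg (fun y : (R.N.X × k) × k => y.1.1) (fa ν t u))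
    (fun x => by
      obtain ⟨⟨ν, t⟩, u⟩ := x
      exact congrArg (fun y : (R.N.X × k) × k => y.1.1) (fb ν t u)) n
  rintro ⟨⟨ν, t⟩, u⟩ hp
  have hp1 := hπ _ (stp_anti (Nat.le_succ n) hp)
  rw [Function.iterate_succ_apply'] at hp
  obtain ⟨⟨⟨⟨ν', t'⟩, u'⟩, hq, hqp⟩, hpV⟩ := hp
  have hq1 := hπ _ hq
  obtain ⟨c, hc⟩ := hR ν hp1
  obtain ⟨c', hc'⟩ := hR ν' hq1
  have hν' : ra R.N s j ν' = 0 := by
    rw [hc', map_smul]
    have h1 : ra R.N s j R.z = 0 := R.z_out (MA.a s j) rfl (by simp [GM, MA.so])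
    rw [h1, smul_zero]
  have h2 : (((ra R.N s j ν', R.ζ ν'), 0) : (R.N.X × k) × k) =
      (((rb R.N s j ν, u), 0) : (R.N.X × k) × k) := (fa ν' t' u').symm.trans (hqp.trans (fb ν t u))
  have h3 : rb R.N s j ν = 0 := by
    rw [← hν']
    exact (congrArg (fun y : (R.N.X × k) × k => y.1.1) h2).symm
  have h4 : c = 0 := by
    rw [hc, map_smul] at h3
    exact (smul_eq_zero.1 h3).resolve_right hb
  have h5 : t = 0 := by
    have h6 := (fe ν t u).symm.trans (mem_Ev.1 hpV)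
    exact (congrArg (fun y : (R.N.X × k) × k => y.1.2) h6).symm
  rw [h4, zero_smul] at hc
  subst hc h5
  refine ⟨u, ?_⟩
  exact invP_z_eq (G := GM m) (α := MA.b s j) (P := dirP (G := GM m) (MA.a s j) R) u

theorem rb_inv_z (R : PRep k (GM m) (MV.Q s j) true) :
    rb (invP (G := GM m) (MA.b s j) R).N s j (invP (G := GM m) (MA.b s j) R).z ≠ 0 := by
  intro h
  have h1 := invP_r_self (G := GM m) (MA.b s j) R (((0, 1) : R.N.X × k))
  have h2 : (((R.N.r (MA.b s j) 0 + (1 : k) • R.z, 0) : R.N.X × k)) = (0 : R.N.X × k) :=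
    h1.symm.trans h
  have h3 : R.N.r (MA.b s j) 0 + (1 : k) • R.z = 0 := congrArg Prod.fst h2
  rw [map_zero, zero_add, one_smul] at h3
  exact R.z_ne h3

theorem gc {Z : Word (GM m) (MV.Q s j) true} (hZ : Short Z) (n : ℕ) :
    GCP (k := k) n (germ k (DD s j Z n)) := by
  have hb : ∀ n, rb (germ k (DD s j Z n)).N s j (germ k (DD s j Z n)).z ≠ 0 := by
    intro n
    cases n with
    | zero => exact rb_inv_z (germ k Z)
    | succ n => exact rb_inv_z (dirP (G := GM m) (MA.a s j) (germ k (DD s j Z n)))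
  induction n with
  | zero => exact gc_zero hZ
  | succ n ih => exact gc_step n _ ih (hb n)

end Pool.Agent.H56.UDs
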