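import Pool.Agent.H56.UD.Coh

/-!
# Uniserial dimension (MP_404602_al): generated Serre subcategories, filtrations
-/

open CategoryTheory

namespace Pool.Agent.H56.UDs

universe w v u

variable {C : Type u} [Category.{v} C] [Preadditive C]

set_option linter.unusedSectionVars false

section Maps

variable {F G H : C ⥤ AddCommGrpCat.{v}}

/-- the inclusion of a subfunctor -/
def Sub.ι (A : Sub F) : A.fn ⟶ F where
  app M := AddCommGrpCat.ofHom (A.car M).subtype
  naturality M N f := by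
    apply AddCommGrpCat.hom_ext
    apply AddMonoidHom.ext
    intro x
    rfl

theorem Sub.ι_inj (A : Sub F) (M : C) : Function.Injective (A.ι.app M).hom :=
  Subtype.val_injective

/-- inclusion of subfunctors -/
def Sub.incl {A B : Sub F} (h : A ≤ B) : A.fn ⟶ B.fn where
  app M := AddCommGrpCat.ofHom (AddSubgroup.inclusion (h M))
  naturality M N f := by
    apply AddCommGrpCat.hom_ext
    apply AddMonoidHom.ext
    intro x
    rfl

/-- the projection to the quotient functor -/
def Sub.π (A B : Sub F) : A.fn ⟶ A.quot B where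
  app M := AddCommGrpCat.ofHom (QuotientAddGroup.mk' ((B.car M).addSubgroupOf (A.car M)))
  naturality M N f := by
    apply AddCommGrpCat.hom_ext
    apply AddMonoidHom.ext
    intro x
    rfl

theorem Sub.π_surj (A B : Sub F) (M : C) : Function.Surjective ((A.π B).app M).hom :=
  QuotientAddGroup.mk_surjective

theorem Sub.π_zero (A B : Sub F) (M : C) (x : A.fn.obj M) :
    ((A.π B).app M).hom x = 0 ↔ (Subtype.val (p := (· ∈ A.car M)) x) ∈ B.car M :=
  quot_mk_zero (A := A) (B := B) (M := M) x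

/-- maps into `⊤.fn` -/
def toTop (F : C ⥤ AddCommGrpCat.{v}) : F ⟶ (⊤ : Sub F).fn where
  app M := AddCommGrpCat.ofHom ((AddMonoidHom.id (F.obj M)).codRestrict ((⊤ : Sub F).car M)
    fun _ => Sub.mem_top)
  naturality M N f := by
    apply AddCommGrpCat.hom_ext
    apply AddMonoidHom.ext
    intro x
    rfl

theorem toTop_surj (F : C ⥤ AddCommGrpCat.{v}) (M : C) :
    Function.Surjective ((toTop F).app M).hom := fun y =>
  ⟨Subtype.val (p := (· ∈ (⊤ : Sub F).car M)) y, rfl⟩

/-- maps between quotients induced by a natural transformation -/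
def qmap (φ : F ⟶ G) (A B : Sub F) (A' B' : Sub G)
    (hA : ∀ M x, x ∈ A.car M → (φ.app M).hom x ∈ A'.car M)
    (hB : ∀ M x, x ∈ A.car M → x ∈ B.car M → (φ.app M).hom x ∈ B'.car M) :
    A.quot B ⟶ A'.quot B' where
  app M := AddCommGrpCat.ofHom (QuotientAddGroup.map ((B.car M).addSubgroupOf (A.car M))
    ((B'.car M).addSubgroupOf (A'.car M))
    (((φ.app M).hom.comp (A.car M).subtype).codRestrict (A'.car M) fun x => hA M x x.2)
    fun x hx => hB M x x.2 hx)
  naturality M N f := by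
    apply AddCommGrpCat.hom_ext
    apply AddMonoidHom.ext
    intro z
    obtain ⟨x, rfl⟩ := QuotientAddGroup.mk_surjective z
    change (QuotientAddGroup.mk (_ : A'.car N) :
      A'.car N ⧸ (B'.car N).addSubgroupOf (A'.car N)) = QuotientAddGroup.mk _
    congr 1
    exact Subtype.ext (nat_ap φ f (x : F.obj M))

theorem qmap_inj (φ : F ⟶ G) (A B : Sub F) (A' B' : Sub G)
    (hA : ∀ M x, x ∈ A.car M → (φ.app M).hom x ∈ A'.car M)
    (hB : ∀ M x, x ∈ A.car M → x ∈ B.car M → (φ.app M).hom x ∈ B'.car M)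
    (h : ∀ M x, x ∈ A.car M → (φ.app M).hom x ∈ B'.car M → x ∈ B.car M) (M : C) :
    Function.Injective ((qmap φ A B A' B' hA hB).app M).hom := by
  rw [injective_iff_map_eq_zero]
  intro z hz
  obtain ⟨x, rfl⟩ := QuotientAddGroup.mk_surjective z
  have h1 := (quot_mk_zero (A := A') (B := B') (M := M)
    ⟨(φ.app M).hom (x : F.obj M), hA M x x.2⟩).1 hz
  exact (quot_mk_zero x).2 (h M x x.2 h1)

theorem qmap_surj (φ : F ⟶ G) (A B : Sub F) (A' B' : Sub G)
    (hA : ∀ M x, x ∈ A.car M → (φ.app M).hom x ∈ A'.car M)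
    (hB : ∀ M x, x ∈ A.car M → x ∈ B.car M → (φ.app M).hom x ∈ B'.car M)
    (h : ∀ M y, y ∈ A'.car M → ∃ x ∈ A.car M, (φ.app M).hom x - y ∈ B'.car M) (M : C) :
    Function.Surjective ((qmap φ A B A' B' hA hB).app M).hom := by
  intro z
  obtain ⟨y, rfl⟩ := QuotientAddGroup.mk_surjective z
  obtain ⟨x, hx, hxy⟩ := h M y y.2
  refine ⟨(QuotientAddGroup.mk (⟨x, hx⟩ : A.car M) :
    A.car M ⧸ (B.car M).addSubgroupOf (A.car M)), ?_⟩
  change (QuotientAddGroup.mk (_ : A'.car M) :
      A'.car M ⧸ (B'.car M).addSubgroupOf (A'.car M)) = QuotientAddGroup.mk _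
  rw [QuotientAddGroup.eq, AddSubgroup.mem_addSubgroupOf]
  have h1 : (y : G.obj M) - (φ.app M).hom x ∈ B'.car M := by
    rw [← neg_sub]
    exact neg_mem hxy
  rw [sub_eq_neg_add] at h1
  exact h1

end Maps

/-! ## Filtrations -/

/-- one step of a filtration with factors in `T` -/
def Step (T : (C ⥤ AddCommGrpCat.{v}) → Prop) {F : C ⥤ AddCommGrpCat.{v}} (A B : Sub F) : Prop :=
  A ≤ B ∧ A.FG ∧ B.FG ∧ T (B.quot A)

/-- functors with a finite filtration with factors in `T` -/
def Filt (T : (C ⥤ AddCommGrpCat.{v}) → Prop) (F : C ⥤ AddCommGrpCat.{v}) : Prop :=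
  IsFP F ∧ Relation.ReflTransGen (Step T) (⊥ : Sub F) ⊤

/-- classes of finitely presented functors closed under finitely presented subfunctors and
quotients -/
structure SQ (T : (C ⥤ AddCommGrpCat.{v}) → Prop) : Prop where
  fp : ∀ F, T F → IsFP F
  sub : ∀ (F G : C ⥤ AddCommGrpCat.{v}) (i : G ⟶ F),
    (∀ M, Function.Injective (i.app M).hom) → IsFP G → T F → T G
  quo : ∀ (F G : C ⥤ AddCommGrpCat.{v}) (p : F ⟶ G),
    (∀ M, Function.Surjective (p.app M).hom) → IsFP G → T F → T G

section Filtr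

variable [Coh C] {T : (C ⥤ AddCommGrpCat.{v}) → Prop} {F G H : C ⥤ AddCommGrpCat.{v}}

theorem step_map (hT : SQ T) (hG : IsFP G) (i : F ⟶ G) {A B : Sub F} (h : Step T A B) :
    Step T (A.map i) (B.map i) := by
  obtain ⟨h1, h2, h3, h4⟩ := h
  refine ⟨fun M x hx => ?_, map_fg h2, map_fg h3, ?_⟩
  · obtain ⟨a, ha, rfl⟩ := hx
    exact ⟨a, h1 M ha, rfl⟩
  · refine hT.quo _ _ (qmap i B A (B.map i) (A.map i) (fun M x hx => ⟨x, hx, rfl⟩)
      fun M x _ hx => ⟨x, hx, rfl⟩) (qmap_surj _ _ _ _ _ _ _ ?_)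
      (quot_fp hG (map_fg h3) (map_fg h2)) h4
    rintro M y ⟨b, hb, rfl⟩
    exact ⟨b, hb, by rw [sub_self]; exact zero_mem _⟩

theorem step_comap (hT : SQ T) (hF : IsFP F) (hG : IsFP G) (p : F ⟶ G) {A B : Sub G}
    (h : Step T A B) : Step T (A.comap p) (B.comap p) := by
  obtain ⟨h1, h2, h3, h4⟩ := h
  refine ⟨fun M x hx => h1 M hx, comap_fg hF hG h2, comap_fg hF hG h3, ?_⟩
  exact hT.sub _ _ (qmap p (B.comap p) (A.comap p) B A (fun M x hx => hx)
      fun M x _ hx => hx) (qmap_inj _ _ _ _ _ _ _ fun M x _ hx => hx)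
      (quot_fp hF (comap_fg hF hG h3) (comap_fg hF hG h2)) h4

theorem filt_serre (hT : SQ T) : IsSerre (Filt T) where
  fp F h := h.1
  zero F hF h := by
    refine ⟨hF, ?_⟩
    have : (⊥ : Sub F) = ⊤ := Sub.ext (funext fun M => by
      ext x
      constructor
      · intro _
        exact AddSubgroup.mem_top _
      · intro _
        exact AddSubgroup.mem_bot.2 (h M x))
    rw [this]
  sub F G i hi hG h := by
    obtain ⟨hF, h⟩ := h
    refine ⟨hG, ?_⟩
    have h1 := Relation.ReflTransGen.lift (fun A : Sub F => A.comap i)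
      (fun A B hAB => step_comap hT hG hF i hAB) _ _ h
    have e1 : (⊥ : Sub F).comap i = ⊥ := Sub.ext (funext fun M => by
      ext x
      rw [Sub.mem_comap, Sub.mem_bot, Sub.mem_bot]
      constructor
      · intro hx
        exact hi M (by rw [hx, map_zero])
      · intro hx
        rw [hx, map_zero])
    have e2 : (⊤ : Sub F).comap i = ⊤ := Sub.ext (funext fun M => by
      ext x
      rw [Sub.mem_comap]
      exact ⟨fun _ => Sub.mem_top, fun _ => Sub.mem_top⟩)
    simp only [Function.onFun, e1, e2] at h1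
    exact h1
  quo F G p hp hG h := by
    obtain ⟨hF, h⟩ := h
    refine ⟨hG, ?_⟩
    have h1 := Relation.ReflTransGen.lift (fun A : Sub F => A.map p)
      (fun A B hAB => step_map hT hG p hAB) _ _ h
    have e1 : (⊥ : Sub F).map p = ⊥ := Sub.ext (funext fun M => by
      ext x
      rw [Sub.mem_map, Sub.mem_bot]
      constructor
      · rintro ⟨a, ha, rfl⟩
        rw [Sub.mem_bot] at ha
        rw [ha, map_zero]
      · intro hx
        exact ⟨0, Sub.mem_bot.2 rfl, by rw [hx, map_zero]⟩)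
    have e2 : (⊤ : Sub F).map p = ⊤ := Sub.ext (funext fun M => by
      ext x
      rw [Sub.mem_map]
      obtain ⟨a, rfl⟩ := hp M x
      exact ⟨fun _ => Sub.mem_top, fun _ => ⟨a, Sub.mem_top, rfl⟩⟩)
    simp only [Function.onFun, e1, e2] at h1
    exact h1
  ext F G H i p hi hp hex hG hF hH := by
    obtain ⟨hF, h⟩ := hF
    obtain ⟨hH, h'⟩ := hH
    refine ⟨hG, ?_⟩
    have h1 := Relation.ReflTransGen.lift (fun A : Sub F => A.map i)
      (fun A B hAB => step_map hT hG i hAB) _ _ h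
    have h2 := Relation.ReflTransGen.lift (fun A : Sub H => A.comap p)
      (fun A B hAB => step_comap hT hG hH p hAB) _ _ h'
    have e1 : (⊥ : Sub F).map i = ⊥ := Sub.ext (funext fun M => by
      ext x
      rw [Sub.mem_map, Sub.mem_bot]
      constructor
      · rintro ⟨a, ha, rfl⟩
        rw [Sub.mem_bot] at ha
        rw [ha, map_zero]
      · intro hx
        exact ⟨0, Sub.mem_bot.2 rfl, by rw [hx, map_zero]⟩)
    have e2 : (⊤ : Sub H).comap p = ⊤ := Sub.ext (funext fun M => by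
      ext x
      rw [Sub.mem_comap]
      exact ⟨fun _ => Sub.mem_top, fun _ => Sub.mem_top⟩)
    have e3 : (⊤ : Sub F).map i = (⊥ : Sub H).comap p := Sub.ext (funext fun M => by
      ext x
      rw [Sub.mem_comap, Sub.mem_bot, Sub.mem_map, hex]
      constructor
      · rintro ⟨a, _, rfl⟩
        exact ⟨a, rfl⟩
      · rintro ⟨a, rfl⟩
        exact ⟨a, Sub.mem_top, rfl⟩)
    simp only [Function.onFun, e1, e3] at h1
    simp only [Function.onFun, e2] at h2
    exact h1.trans h2

theorem filt_of (hT : SQ T) (h : T F) : Filt T F := by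
  have hF := hT.fp F h
  refine ⟨hF, Relation.ReflTransGen.single ⟨bot_le, bot_fg hF, top_fg hF, ?_⟩⟩
  refine hT.quo F _ (toTop F ≫ (⊤ : Sub F).π ⊥) (fun M => ?_)
    (quot_fp hF (top_fg hF) (bot_fg hF)) h
  exact (Sub.π_surj _ _ M).comp (toTop_surj F M)

theorem filt_le {S : (C ⥤ AddCommGrpCat.{v}) → Prop} (hS : IsSerre S) (hTS : ∀ F, T F → S F)
    (h : Filt T F) : S F := by
  obtain ⟨hF, h⟩ := h
  have key : ∀ A : Sub F, Relation.ReflTransGen (Step T) ⊥ A → S A.fn := by
    intro A hA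
    induction hA with
    | refl =>
      exact hS.zero _ (fn_fp hF (bot_fg hF)) fun M x => Subtype.ext (AddSubgroup.mem_bot.1 x.2)
    | @tail A B _ hAB ih =>
      obtain ⟨h1, h2, h3, h4⟩ := hAB
      refine hS.ext A.fn B.fn (B.quot A) (Sub.incl h1) (B.π A) (fun M => ?_) (Sub.π_surj _ _)
        (fun M x => ?_) (fn_fp hF h3) ih (hTS _ h4)
      · exact AddSubgroup.inclusion_injective (h1 M)
      · rw [Sub.π_zero]
        constructor
        · intro hx
          exact ⟨(⟨_, hx⟩ : A.car M), Subtype.ext rfl⟩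
        · rintro ⟨y, rfl⟩
          exact Subtype.property (p := (· ∈ A.car M)) y
  exact hS.quo _ F (⊤ : Sub F).ι (fun M x => ⟨(⟨x, Sub.mem_top⟩ : (⊤ : Sub F).car M), rfl⟩) hF
    (key ⊤ h)

/-- functors uniserial modulo a Serre subcategory are closed under subfunctors and quotients -/
theorem uni_sq {S : (C ⥤ AddCommGrpCat.{v}) → Prop} (hS : IsSerre S) : SQ (Uni S) where
  fp F h := h.1
  sub F G i hi hG h := by
    obtain ⟨hF, h⟩ := h
    refine ⟨hG, fun A B hA hB => ?_⟩
    have hA' := fg_of_fp hA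
    have hB' := fg_of_fp hB
    have key : ∀ A B : Sub G, A.FG → B.FG → S ((A.map i).quot (B.map i)) → S (A.quot B) := by
      intro A B hA hB hAB
      refine hS.sub _ _ (qmap i A B (A.map i) (B.map i) (fun M x hx => ⟨x, hx, rfl⟩)
        fun M x _ hx => ⟨x, hx, rfl⟩) (qmap_inj _ _ _ _ _ _ _ ?_) (quot_fp hG hA hB) hAB
      rintro M x hx ⟨y, hy, hyx⟩
      rw [← hi M hyx]
      exact hy
    rcases h (A.map i) (B.map i) (fn_fp hF (map_fg hA')) (fn_fp hF (map_fg hB')) with h1 | h1
    · exact Or.inl (key A B hA' hB' h1)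
    · exact Or.inr (key B A hB' hA' h1)
  quo F G p hp hG h := by
    obtain ⟨hF, h⟩ := h
    refine ⟨hG, fun A B hA hB => ?_⟩
    have hA' := fg_of_fp hA
    have hB' := fg_of_fp hB
    have key : ∀ A B : Sub G, A.FG → B.FG → S ((A.comap p).quot (B.comap p)) →
        S (A.quot B) := by
      intro A B hA hB hAB
      refine hS.quo _ _ (qmap p (A.comap p) (B.comap p) A B (fun M x hx => hx)
        fun M x _ hx => hx) (qmap_surj _ _ _ _ _ _ _ ?_) (quot_fp hG hA hB) hAB
      intro M y hy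
      obtain ⟨x, rfl⟩ := hp M y
      exact ⟨x, hy, by rw [sub_self]; exact zero_mem _⟩
    rcases h (A.comap p) (B.comap p) (fn_fp hF (comap_fg hF hG hA'))
      (fn_fp hF (comap_fg hF hG hB')) with h1 | h1
    · exact Or.inl (key A B hA' hB' h1)
    · exact Or.inr (key B A hB' hA' h1)

end Filtr

/-! ## Stages -/

theorem fp_serre : IsSerre (IsFP : (C ⥤ AddCommGrpCat.{v}) → Prop) where
  fp _ h := h
  zero _ h _ := h
  sub _ _ _ _ h _ := h
  quo _ _ _ _ h _ := h
  ext _ _ _ _ _ _ _ _ h _ _ := h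

theorem stage_iff (α : Ordinal.{w}) (F : C ⥤ AddCommGrpCat.{v}) :
    Stage α F ↔ ∀ S : (C ⥤ AddCommGrpCat.{v}) → Prop, IsSerre S →
      (∀ β, β < α → ∀ G : C ⥤ AddCommGrpCat.{v}, Uni (Stage β) G → S G) → S F := by
  rw [Stage]

theorem stage_serre (α : Ordinal.{w}) :
    IsSerre (Stage α : (C ⥤ AddCommGrpCat.{v}) → Prop) where
  fp F h := (stage_iff α F).1 h IsFP fp_serre fun β _ G hG => hG.1
  zero F hF h := (stage_iff α F).2 fun S hS _ => hS.zero F hF h
  sub F G i hi hG h := (stage_iff α G).2 fun S hS h1 =>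
    hS.sub F G i hi hG ((stage_iff α F).1 h S hS h1)
  quo F G p hp hG h := (stage_iff α G).2 fun S hS h1 =>
    hS.quo F G p hp hG ((stage_iff α F).1 h S hS h1)
  ext F G H i p hi hp hex hG hF hH := (stage_iff α G).2 fun S hS h1 =>
    hS.ext F G H i p hi hp hex hG ((stage_iff α F).1 hF S hS h1) ((stage_iff α H).1 hH S hS h1)

theorem stage_of_uni {α β : Ordinal.{w}} (h : β < α) {F : C ⥤ AddCommGrpCat.{v}}
    (hF : Uni (Stage β) F) : Stage α F :=
  (stage_iff α F).2 fun _ _ h1 => h1 β h F hF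

theorem stage_mono {α β : Ordinal.{w}} (h : β ≤ α) {F : C ⥤ AddCommGrpCat.{v}}
    (hF : Stage β F) : Stage α F :=
  (stage_iff α F).2 fun S hS h1 => (stage_iff β F).1 hF S hS fun γ hγ => h1 γ (hγ.trans_le h)

/-- the functors uniserial modulo a lower stage -/
def LowUni (α : Ordinal.{w}) (F : C ⥤ AddCommGrpCat.{v}) : Prop :=
  ∃ β, β < α ∧ Uni (Stage β) F

theorem lowUni_sq [Coh C] (α : Ordinal.{w}) :
    SQ (LowUni α : (C ⥤ AddCommGrpCat.{v}) → Prop) where
  fp F h := h.choose_spec.2.1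
  sub F G i hi hG h := by
    obtain ⟨β, hβ, h⟩ := h
    exact ⟨β, hβ, (uni_sq (stage_serre β)).sub F G i hi hG h⟩
  quo F G p hp hG h := by
    obtain ⟨β, hβ, h⟩ := h
    exact ⟨β, hβ, (uni_sq (stage_serre β)).quo F G p hp hG h⟩

/-- `S_α` consists of the functors with a finite filtration whose factors are uniserial modulo
lower stages -/
theorem stage_filt [Coh C] (α : Ordinal.{w}) (F : C ⥤ AddCommGrpCat.{v}) :
    Stage α F ↔ Filt (LowUni α) F := by
  constructor
  · intro h
    exact (stage_iff α F).1 h _ (filt_serre (lowUni_sq α)) fun β hβ G hG =>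
      filt_of (lowUni_sq α) ⟨β, hβ, hG⟩
  · intro h
    rw [stage_iff]
    intro S hS h1
    refine filt_le hS ?_ h
    rintro G ⟨β, hβ, hG⟩
    exact h1 β hβ G hG

end Pool.Agent.H56.UDs
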