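import Pool.Agent.H56.UD.Words

/-!
# Uniserial dimension (MP_404602_al): the representation of a word
-/

open CategoryTheory

namespace Pool.Agent.H56.UDs

/-- a representation with a vector at the vertex `v` and a covector -/
structure PRep (k : Type) [Field k] (G : Gentle) (v : G.V) (s : Bool) where
  /-- the representation -/
  N : Rep k G
  /-- the vector -/
  z : N.X
  /-- the covector -/
  ζ : N.X →ₗ[k] k
  e_z : N.e v z = z
  ζ_z : ζ z = 1
  z_out : ∀ β, G.src β = v → G.so β ≠ s → N.r β z = 0
  ζ_e : ∀ x, ζ (N.e v x) = ζ x
  ζ_in : ∀ γ, G.tgt γ = v → G.si γ ≠ s → ∀ x, ζ (N.r γ x) = 0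

variable {k : Type} [Field k] {G : Gentle}

theorem PRep.ζ_e_ne {v : G.V} {s : Bool} (P : PRep k G v s) {u : G.V} (h : u ≠ v) (x : P.N.X) :
    P.ζ (P.N.e u x) = 0 := by
  rw [← P.ζ_e, P.N.e_orth v u (Ne.symm h), map_zero]

theorem PRep.ζ_r_ne {v : G.V} {s : Bool} (P : PRep k G v s) {γ : G.A} (h : G.tgt γ ≠ v)
    (x : P.N.X) : P.ζ (P.N.r γ x) = 0 := by
  rw [← P.N.e_tgt, P.ζ_e_ne h]

theorem PRep.r_z_ne {v : G.V} {s : Bool} (P : PRep k G v s) {γ : G.A} (h : G.src γ ≠ v) :
    P.N.r γ P.z = 0 := r_other h P.e_z

theorem PRep.z_ne {v : G.V} {s : Bool} (P : PRep k G v s) : P.z ≠ 0 := by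
  intro h
  have := P.ζ_z
  rw [h, map_zero] at this
  exact zero_ne_one this

/-- the simple representation -/
def nilP (k : Type) [Field k] {G : Gentle} (v : G.V) (s : Bool) : PRep k G v s where
  N :=
    { X := k
      e := fun u => if u = v then LinearMap.id else 0
      r := fun _ => 0
      e_idem := fun u x => by
        split_ifs <;> simp
      e_orth := fun u u' h x => by
        by_cases h1 : u = v
        · have h2 : u' ≠ v := fun h3 => h (h1.trans h3.symm)
          rw [if_neg h2]
          simp
        · rw [if_neg h1]
          simp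
      e_sum := fun x => by
        rw [Finset.sum_eq_single v]
        · simp
        · intro u _ hu
          rw [if_neg hu]
          rfl
        · intro h
          exact absurd (Finset.mem_univ _) h
      r_src := fun _ _ => rfl
      e_tgt := fun α x => by simp
      rel := fun _ _ _ _ _ => rfl }
  z := (1 : k)
  ζ := LinearMap.id
  e_z := by simp
  ζ_z := rfl
  z_out := fun _ _ _ => rfl
  ζ_e := fun x => by simp
  ζ_in := fun _ _ _ _ => rfl

/-- an arrow from the source of `P` to the new vector -/
def dirP (α : G.A) (P : PRep k G (G.src α) (!G.so α)) : PRep k G (G.tgt α) (G.si α) where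
  N :=
    { X := P.N.X × k
      e := fun u => (P.N.e u).prodMap (if u = G.tgt α then LinearMap.id else 0)
      r := fun γ => if γ = α then
        ((P.N.r γ).comp (LinearMap.fst k P.N.X k)).prod (P.ζ.comp (LinearMap.fst k P.N.X k))
        else ((P.N.r γ).comp (LinearMap.fst k P.N.X k)).prod 0
      e_idem := fun u x => by
        refine Prod.ext (P.N.e_idem u x.1) ?_
        simp only [LinearMap.prodMap_apply]
        split_ifs <;> simp
      e_orth := fun u u' h x => by
        refine Prod.ext (P.N.e_orth u u' h x.1) ?_
        simp only [LinearMap.prodMap_apply]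
        by_cases h1 : u = G.tgt α
        · have h2 : u' ≠ G.tgt α := fun h3 => h (h1.trans h3.symm)
          rw [if_neg h2]
          simp
        · rw [if_neg h1]
          simp
      e_sum := fun x => by
        refine Prod.ext ?_ ?_
        · rw [Prod.fst_sum]
          exact P.N.e_sum x.1
        · rw [Prod.snd_sum]
          simp only [LinearMap.prodMap_apply]
          rw [Finset.sum_eq_single (G.tgt α)]
          · simp
          · intro u _ hu
            rw [if_neg hu]
            rfl
          · intro h
            exact absurd (Finset.mem_univ _) h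
      r_src := fun γ x => by
        by_cases h : γ = α
        · subst h
          simp only [if_true]
          refine Prod.ext (P.N.r_src _ x.1) (P.ζ_e x.1)
        · simp only [if_neg h]
          exact Prod.ext (P.N.r_src _ x.1) rfl
      e_tgt := fun γ x => by
        by_cases h : γ = α
        · subst h
          simp only [if_true]
          exact Prod.ext (P.N.e_tgt _ x.1) rfl
        · simp only [if_neg h]
          refine Prod.ext (P.N.e_tgt _ x.1) ?_
          simp only [LinearMap.prodMap_apply, LinearMap.prod_apply]
          split_ifs <;> simp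
      rel := fun γ β h1 h2 x => by
        by_cases hβ : β = α
        · subst hβ
          have h : γ ≠ β := by
            rintro rfl
            exact src_ne_tgt _ h1.symm
          simp only [if_true, if_neg h]
          refine Prod.ext (P.N.rel γ β h1 h2 x.1) ?_
          refine P.ζ_in γ h1 ?_ x.1
          rw [h2]
          exact (Bool.not_ne_self _).symm
        · simp only [if_neg hβ]
          by_cases h : γ = α
          · subst h
            simp only [if_true]
            exact Prod.ext (P.N.rel γ β h1 h2 x.1) rfl
          · simp only [if_neg h]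
            exact Prod.ext (P.N.rel γ β h1 h2 x.1) rfl }
  z := ((0 : P.N.X), (1 : k))
  ζ := LinearMap.snd k P.N.X k
  e_z := Prod.ext (map_zero (P.N.e _)) (by simp)
  ζ_z := rfl
  z_out := fun β h1 _ => by
    have hβ : β ≠ α := by
      rintro rfl
      exact src_ne_tgt _ h1
    simp only [if_neg hβ]
    exact Prod.ext (map_zero (P.N.r β)) rfl
  ζ_e := fun x => by simp
  ζ_in := fun γ h1 h2 x => by
    have hγ : γ ≠ α := by
      rintro rfl
      exact h2 rfl
    simp only [if_neg hγ]
    rfl

/-- an arrow from the new vector to the vector of `P` -/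
def invP (α : G.A) (P : PRep k G (G.tgt α) (!G.si α)) : PRep k G (G.src α) (G.so α) where
  N :=
    { X := P.N.X × k
      e := fun u => (P.N.e u).prodMap (if u = G.src α then LinearMap.id else 0)
      r := fun γ => if γ = α then
        ((P.N.r γ).comp (LinearMap.fst k P.N.X k) +
          (LinearMap.snd k P.N.X k).smulRight P.z).prod 0
        else ((P.N.r γ).comp (LinearMap.fst k P.N.X k)).prod 0
      e_idem := fun u x => by
        refine Prod.ext (P.N.e_idem u x.1) ?_
        simp only [LinearMap.prodMap_apply]
        split_ifs <;> simp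
      e_orth := fun u u' h x => by
        refine Prod.ext (P.N.e_orth u u' h x.1) ?_
        simp only [LinearMap.prodMap_apply]
        by_cases h1 : u = G.src α
        · have h2 : u' ≠ G.src α := fun h3 => h (h1.trans h3.symm)
          rw [if_neg h2]
          simp
        · rw [if_neg h1]
          simp
      e_sum := fun x => by
        refine Prod.ext ?_ ?_
        · rw [Prod.fst_sum]
          exact P.N.e_sum x.1
        · rw [Prod.snd_sum]
          simp only [LinearMap.prodMap_apply]
          rw [Finset.sum_eq_single (G.src α)]
          · simp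
          · intro u _ hu
            rw [if_neg hu]
            rfl
          · intro h
            exact absurd (Finset.mem_univ _) h
      r_src := fun γ x => by
        by_cases h : γ = α
        · subst h
          simp only [if_true]
          refine Prod.ext ?_ rfl
          simp [P.N.r_src]
        · simp only [if_neg h]
          exact Prod.ext (P.N.r_src _ x.1) rfl
      e_tgt := fun γ x => by
        by_cases h : γ = α
        · subst h
          simp only [if_true]
          refine Prod.ext ?_ ?_
          · simp [P.N.e_tgt, P.e_z]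
          · simp only [LinearMap.prodMap_apply, LinearMap.prod_apply]
            split_ifs <;> simp
        · simp only [if_neg h]
          refine Prod.ext (P.N.e_tgt _ x.1) ?_
          simp only [LinearMap.prodMap_apply, LinearMap.prod_apply]
          split_ifs <;> simp
      rel := fun γ β h1 h2 x => by
        by_cases hγ : γ = α
        · subst hγ
          have h : β ≠ γ := by
            rintro rfl
            exact src_ne_tgt _ h1.symm
          simp only [if_true, if_neg h]
          refine Prod.ext ?_ rfl
          have hz : P.N.r β P.z = 0 := by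
            refine P.z_out β h1.symm ?_
            rw [h2]
            exact (Bool.not_ne_self _).symm
          simp [hz, P.N.rel γ β h1 h2]
        · simp only [if_neg hγ]
          by_cases h : β = α
          · subst h
            simp only [if_true]
            refine Prod.ext ?_ rfl
            simp [P.N.rel γ β h1 h2]
          · simp only [if_neg h]
            exact Prod.ext (P.N.rel γ β h1 h2 x.1) rfl }
  z := ((0 : P.N.X), (1 : k))
  ζ := LinearMap.snd k P.N.X k
  e_z := Prod.ext (map_zero (P.N.e _)) (by simp)
  ζ_z := rfl
  z_out := fun β _ h2 => by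
    have hβ : β ≠ α := by
      rintro rfl
      exact h2 rfl
    simp only [if_neg hβ]
    exact Prod.ext (map_zero (P.N.r β)) rfl
  ζ_e := fun x => by simp
  ζ_in := fun γ h1 h2 x => by
    by_cases h : γ = α
    · subst h
      exact absurd h1.symm (src_ne_tgt _)
    · simp only [if_neg h]
      rfl

/-- the representation of a word -/
def germ (k : Type) [Field k] {G : Gentle} : ∀ {v : G.V} {s : Bool}, Word G v s → PRep k G v s
  | _, _, .nil v s => nilP k v s
  | _, _, .dir α w => dirP α (germ k w)
  | _, _, .inv α w => invP α (germ k w)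

/-! ## Formulas -/

theorem nilP_r (v : G.V) (s : Bool) (γ : G.A) (x : (nilP k v s).N.X) :
    (nilP k v s).N.r γ x = 0 := rfl

theorem dirP_r_self (α : G.A) (P : PRep k G (G.src α) (!G.so α)) (x : (dirP α P).N.X) :
    (dirP α P).N.r α x = ((P.N.r α x.1, P.ζ x.1) : P.N.X × k) := by
  change (if α = α then
        ((P.N.r α).comp (LinearMap.fst k P.N.X k)).prod (P.ζ.comp (LinearMap.fst k P.N.X k))
        else ((P.N.r α).comp (LinearMap.fst k P.N.X k)).prod 0) x = _
  rw [if_pos rfl]
  rfl

theorem dirP_r_ne (α : G.A) (P : PRep k G (G.src α) (!G.so α)) {γ : G.A} (h : γ ≠ α)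
    (x : (dirP α P).N.X) :
    (dirP α P).N.r γ x = ((P.N.r γ x.1, 0) : P.N.X × k) := by
  change (if γ = α then
        ((P.N.r γ).comp (LinearMap.fst k P.N.X k)).prod (P.ζ.comp (LinearMap.fst k P.N.X k))
        else ((P.N.r γ).comp (LinearMap.fst k P.N.X k)).prod 0) x = _
  rw [if_neg h]
  rfl

theorem invP_r_self (α : G.A) (P : PRep k G (G.tgt α) (!G.si α)) (x : (invP α P).N.X) :
    (invP α P).N.r α x = ((P.N.r α x.1 + x.2 • P.z, 0) : P.N.X × k) := by
  change (if α = α then
        ((P.N.r α).comp (LinearMap.fst k P.N.X k) +
          (LinearMap.snd k P.N.X k).smulRight P.z).prod 0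
        else ((P.N.r α).comp (LinearMap.fst k P.N.X k)).prod 0) x = _
  rw [if_pos rfl]
  rfl

theorem invP_r_ne (α : G.A) (P : PRep k G (G.tgt α) (!G.si α)) {γ : G.A} (h : γ ≠ α)
    (x : (invP α P).N.X) :
    (invP α P).N.r γ x = ((P.N.r γ x.1, 0) : P.N.X × k) := by
  change (if γ = α then
        ((P.N.r γ).comp (LinearMap.fst k P.N.X k) +
          (LinearMap.snd k P.N.X k).smulRight P.z).prod 0
        else ((P.N.r γ).comp (LinearMap.fst k P.N.X k)).prod 0) x = _
  rw [if_neg h]
  rfl

theorem dirP_e (α : G.A) (P : PRep k G (G.src α) (!G.so α)) (u : G.V) (x : (dirP α P).N.X) :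
    (dirP α P).N.e u x = ((P.N.e u x.1, if u = G.tgt α then x.2 else 0) : P.N.X × k) := by
  refine Prod.ext rfl ?_
  change (if u = G.tgt α then LinearMap.id else (0 : k →ₗ[k] k)) x.2 = _
  split_ifs <;> rfl

theorem invP_e (α : G.A) (P : PRep k G (G.tgt α) (!G.si α)) (u : G.V) (x : (invP α P).N.X) :
    (invP α P).N.e u x = ((P.N.e u x.1, if u = G.src α then x.2 else 0) : P.N.X × k) := by
  refine Prod.ext rfl ?_
  change (if u = G.src α then LinearMap.id else (0 : k →ₗ[k] k)) x.2 = _
  split_ifs <;> rfl

theorem nilP_e (v : G.V) (s : Bool) (u : G.V) (x : (nilP k v s).N.X) :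
    (nilP k v s).N.e u x = if u = v then x else 0 := by
  change (if u = v then LinearMap.id else (0 : k →ₗ[k] k)) x = _
  split_ifs <;> rfl

end Pool.Agent.H56.UDs
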