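import Pool.Agent.H56.UD.Supp

/-!
# Uniserial dimension (MP_404602_al): an algebra with undefined uniserial dimension
-/

open CategoryTheory

namespace Pool.Agent.H56.UDs

/-- the vertices: the sink `w` and two arms `p → q → r → w` -/
inductive IV
  | w
  | p (s : Bool)
  | q (s : Bool)
  | r (s : Bool)
  deriving DecidableEq, Fintype

/-- the arrows: `a₁, b₁ : p → q`, `a₂, b₂ : q → r`, `c : r → w` -/
inductive IA
  | a1 (s : Bool)
  | b1 (s : Bool)
  | a2 (s : Bool)
  | b2 (s : Bool)
  | c (s : Bool)
  deriving DecidableEq, Fintype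

/-- the source of an arrow -/
def IA.src : IA → IV
  | .a1 s => .p s
  | .b1 s => .p s
  | .a2 s => .q s
  | .b2 s => .q s
  | .c s => .r s

/-- the target of an arrow -/
def IA.tgt : IA → IV
  | .a1 s => .q s
  | .b1 s => .q s
  | .a2 s => .r s
  | .b2 s => .r s
  | .c _ => .w

/-- the side at which an arrow leaves -/
def IA.so : IA → Bool
  | .a1 _ => true
  | .b1 _ => false
  | .a2 _ => true
  | .b2 _ => false
  | .c _ => true

/-- the side at which an arrow enters -/
def IA.si : IA → Bool
  | .a1 _ => true
  | .b1 _ => false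
  | .a2 _ => true
  | .b2 _ => false
  | .c s => s

/-- a rank function on the vertices -/
def IV.rank : IV → ℕ
  | .p _ => 0
  | .q _ => 1
  | .r _ => 2
  | .w => 3

/-- the gentle quiver with relations `a₂ a₁ = 0`, `b₂ b₁ = 0`, `c a₂ = 0` on both arms -/
def GInf : Gentle where
  V := IV
  A := IA
  src := IA.src
  tgt := IA.tgt
  so := IA.so
  si := IA.si
  inj_o := by decide
  inj_i := by decide
  rank := IV.rank
  rank_lt := by decide

variable {k : Type} [Field k]

/-- the prefix `a₁ b₁⁻¹` -/
def infA (s : Bool) (x : Word GInf (IV.q s) true) : Word GInf (IV.q s) true :=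
  Word.dir (G := GInf) (IA.a1 s) (Word.inv (G := GInf) (IA.b1 s) x)

/-- the prefix `a₂⁻¹ b₂` -/
def infB (s : Bool) (x : Word GInf (IV.q s) true) : Word GInf (IV.q s) true :=
  Word.inv (G := GInf) (IA.a2 s) (Word.dir (G := GInf) (IA.b2 s) x)

/-- the prefix `c b₂` -/
def infC (s : Bool) (x : Word GInf (IV.q s) true) : Word GInf IV.w s :=
  Word.dir (G := GInf) (IA.c s) (Word.dir (G := GInf) (IA.b2 s) x)

theorem infA_ws (s : Bool) (x y : Word GInf (IV.q s) true) (h : WS k x y) :
    WS k (infA s x) (infA s y) :=
  ws_dir (G := GInf) (α := IA.a1 s) (ws_inv (G := GInf) (α := IA.b1 s) h)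

theorem infB_ws (s : Bool) (x y : Word GInf (IV.q s) true) (h : WS k x y) :
    WS k (infB s x) (infB s y) :=
  ws_inv (G := GInf) (α := IA.a2 s) (ws_dir (G := GInf) (α := IA.b2 s) h)

theorem infC_ws (s : Bool) (x y : Word GInf (IV.q s) true) (h : WS k x y) :
    WS k (infC s x) (infC s y) :=
  ws_dir (G := GInf) (α := IA.c s) (ws_dir (G := GInf) (α := IA.b2 s) h)

theorem infAB_ws (s : Bool) (x y : Word GInf (IV.q s) true) : WS k (infA s x) (infB s y) :=
  fun X => ws_dir_inv (G := GInf) (α := IA.a1 s) (β := IA.a2 s) rfl rfl _ _ X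

theorem inf_rk_q (s : Bool) (α : Ordinal.{0}) :
    Rk k α (Set.univ : Set (Word GInf (IV.q s) true)) := by
  induction α using WellFoundedLT.induction with
  | ind α ih => exact rk_step (infB s) (infB_ws s) (infA s) (infA_ws s) (infAB_ws s) ih

theorem inf_rk (s : Bool) (α : Ordinal.{0}) : Rk k α (Set.univ : Set (Word GInf IV.w s)) :=
  rk_univ_of (infC s) (infC_ws s) (inf_rk_q s α)

/-- the states below `c` -/
def InfSt : IV → Bool → Prop
  | .w, _ => False
  | .p _, x => x = false
  | .q _, x => x = true
  | .r _, x => x = false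

theorem inf_oneD (s : Bool) (w : Word GInf IV.w s) : OneD (germ k w) := by
  have key : ∀ (v : GInf.V) (x : Bool) (w : Word GInf v x), v = IV.w → OneD (germ k w) := by
    intro v x w hv
    cases w with
    | nil => exact nil_oneD _ _
    | dir α w =>
      refine dir_oneD α _ fun n => ?_
      rw [hv]
      refine germ_supp (G := GInf) InfSt ?_ ?_ IV.w ?_ w ?_ n
      · rintro (s | s | s | s | s) <;> simp [InfSt, GInf, IA.tgt, IA.src, IA.so, IA.si]
      · rintro (s | s | s | s | s) <;> simp [InfSt, GInf, IA.tgt, IA.src, IA.so, IA.si]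
      · rintro (_ | s | s | s) x hx h
        · exact hx
        · cases h
        · cases h
        · cases h
      · rcases α with s | s | s | s | s
        · cases hv
        · cases hv
        · cases hv
        · cases hv
        · rfl
    | inv α w =>
      exfalso
      rcases α with s | s | s | s | s <;> cases hv
  exact key _ _ w rfl

/-- the forgetful functor belongs to no stage -/
theorem inf_not_stage (α : Ordinal.{0}) : ¬ Stage α (U k GInf) :=
  lower (v := IV.w) (oneDim_of (inf_oneD true) (inf_oneD false)) (inf_rk true α) (inf_rk false α)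

/-- the uniserial dimension of the algebra of `GInf` is undefined -/
theorem UD_inf : UD (RAlg k GInf) = ⊤ := by
  rw [UD_RAlg]
  unfold UDim
  rw [if_neg]
  rintro ⟨α, hα⟩
  exact inf_not_stage (α + 1) (hα _ U_fp)

end Pool.Agent.H56.UDs
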