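import Pool.Agent.H56.UD.Pb
import Pool.Agent.H56.UD.Cpl

/-!
# Uniserial dimension (MP_404602_al): lower bounds
-/

open CategoryTheory

namespace Pool.Agent.H56.UDs

variable {k : Type} [Field k] {G : Gentle} {v : G.V}

/-- pairs of words -/
abbrev PP (G : Gentle) (v : G.V) : Type := Word G v true × Word G v false

theorem tf_ne : true ≠ false := by decide

/-- the representation of a pair of words -/
def tw (k : Type) [Field k] {G : Gentle} {v : G.V} (p : PP G v) : Rep k G :=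
  twoRep tf_ne (germ k p.1) (germ k p.2)

/-- its vector -/
def tz (k : Type) [Field k] {G : Gentle} {v : G.V} (p : PP G v) : (tw k p).X :=
  twoZ tf_ne (germ k p.1) (germ k p.2)

/-- strict order of words -/
def WS (k : Type) [Field k] {G : Gentle} {v : G.V} {s : Bool} (x y : Word G v s) : Prop :=
  ∀ X : Rep k G, sat (pl k x) X ≤ sat (mi k y) X

theorem tz_pl1 (p : PP G v) : tz k p ∈ sat (pl k p.1) (tw k p) := by
  obtain ⟨f, hf, hz⟩ := two_inl tf_ne (germ k p.1) (germ k p.2)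
  have h := memB p.1 f hf
  rw [hz] at h
  exact h

theorem tz_pl2 (p : PP G v) : tz k p ∈ sat (pl k p.2) (tw k p) := by
  obtain ⟨f, hf, hz⟩ := two_inr tf_ne (germ k p.1) (germ k p.2)
  have h := memB p.2 f hf
  rw [hz] at h
  exact h

theorem tz_mi1 (p : PP G v) : tz k p ∉ sat (mi k p.1) (tw k p) := by
  intro h
  have h1 := memC p.1 _ (twoFst_tw tf_ne (germ k p.1) (germ k p.2)) _ h
  have h2 : (germ k p.1).ζ (twoFst tf_ne (germ k p.1) (germ k p.2) (tz k p)) = 1 :=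
    (germ k p.1).ζ_z
  rw [h2] at h1
  exact one_ne_zero h1

theorem tz_mi2 (p : PP G v) : tz k p ∉ sat (mi k p.2) (tw k p) := by
  intro h
  have h1 := memC p.2 _ (twoSnd_tw tf_ne (germ k p.1) (germ k p.2)) _ h
  have h2 : (germ k p.2).ζ (twoSnd tf_ne (germ k p.1) (germ k p.2) (tz k p)) = 1 :=
    (germ k p.2).ζ_z
  rw [h2] at h1
  exact one_ne_zero h1

/-- the subfunctor generated by the vector -/
theorem mem_gen_tz (p : PP G v) {X : Rep k G} {x : X.X} (h1 : x ∈ sat (pl k p.1) X)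
    (h2 : x ∈ sat (pl k p.2) X) : x ∈ sat (gen (F := U k G) (X := tw k p) (tz k p)) X := by
  obtain ⟨f₁, hf₁, hz₁⟩ := exB p.1 x h1
  obtain ⟨f₂, hf₂, hz₂⟩ := exB p.2 x h2
  obtain ⟨φ, hφ⟩ := exB2 tf_ne _ _ hf₁ hf₂ (hz₁.trans hz₂.symm)
  exact ⟨φ, hφ.trans hz₁⟩

theorem gen_tz_le1 (p : PP G v) : gen (F := U k G) (X := tw k p) (tz k p) ≤ pl k p.1 :=
  gen_le_sat.2 (tz_pl1 p)

theorem gen_tz_le2 (p : PP G v) : gen (F := U k G) (X := tw k p) (tz k p) ≤ pl k p.2 :=
  gen_le_sat.2 (tz_pl2 p)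

/-- `T` is covered by finitely many sets of the form `supp A \ supp B` with `A / (A ∩ B)` in
`S_α` -/
def Small (k : Type) [Field k] {G : Gentle} {v : G.V} (α : Ordinal.{0}) (T : Set (PP G v)) : Prop :=
  ∃ L : List (Sub (U k G) × Sub (U k G)),
    (∀ ab ∈ L, ab.1.FG ∧ ab.2.FG ∧ ab.1 ≤ Ev k v ∧ Sm (Stage α) ab.1 ab.2) ∧
    ∀ p ∈ T, ∃ ab ∈ L, tz k p ∈ sat ab.1 (tw k p) ∧ tz k p ∉ sat ab.2 (tw k p)

theorem small_empty (α : Ordinal.{0}) : Small k α (∅ : Set (PP G v)) :=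
  ⟨[], by simp, by simp⟩

theorem small_union {α : Ordinal.{0}} {T T' : Set (PP G v)} (h : Small k α T)
    (h' : Small k α T') : Small k α (T ∪ T') := by
  obtain ⟨L, h1, h2⟩ := h
  obtain ⟨L', h1', h2'⟩ := h'
  refine ⟨L ++ L', fun ab hab => ?_, fun p hp => ?_⟩
  · rcases List.mem_append.1 hab with hab | hab
    · exact h1 ab hab
    · exact h1' ab hab
  · rcases hp with hp | hp
    · obtain ⟨ab, hab, h⟩ := h2 p hp
      exact ⟨ab, List.mem_append_left _ hab, h⟩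
    · obtain ⟨ab, hab, h⟩ := h2' p hp
      exact ⟨ab, List.mem_append_right _ hab, h⟩

theorem small_mono {α : Ordinal.{0}} {T T' : Set (PP G v)} (h : Small k α T) (hT : T' ⊆ T) :
    Small k α T' := by
  obtain ⟨L, h1, h2⟩ := h
  exact ⟨L, h1, fun p hp => h2 p (hT hp)⟩

theorem small_iUnion {α : Ordinal.{0}} {n : ℕ} {T : Fin n → Set (PP G v)}
    (h : ∀ i, Small k α (T i)) : Small k α (⋃ i, T i) := by
  induction n with
  | zero =>
    rw [Set.iUnion_of_empty]
    exact small_empty α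
  | succ n ih =>
    refine small_mono (small_union (h 0) (ih (T := fun i => T i.succ) fun i => h _)) ?_
    intro p hp
    obtain ⟨i, hi⟩ := Set.mem_iUnion.1 hp
    refine Fin.cases (motive := fun i => p ∈ T i → _) ?_ ?_ i hi
    · exact fun h => Or.inl h
    · exact fun j h => Or.inr (Set.mem_iUnion.2 ⟨j, h⟩)

/-- comparison modulo `S_β` -/
def Cmp (k : Type) [Field k] {G : Gentle} (β : Ordinal.{0}) (a b : Sub (U k G)) : Prop :=
  ∀ (X Y : Rep k G) (x : X.X) (y : Y.X), x ∈ sat a X → y ∈ sat a Y →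
    Sm (Stage β) (gen (F := U k G) (X := X) x) (gen (F := U k G) (X := Y) y ⊔ b) ∨
    Sm (Stage β) (gen (F := U k G) (X := Y) y) (gen (F := U k G) (X := X) x ⊔ b)

/-- decomposition of small sets -/
theorem small_decomp {α : Ordinal.{0}} {T : Set (PP G v)} (h : Small k α T) :
    ∃ L : List (Sub (U k G) × Sub (U k G)),
    (∀ ab ∈ L, ab.1.FG ∧ ab.2.FG ∧ ab.1 ≤ Ev k v ∧ ∃ β < α, Cmp k β ab.1 ab.2) ∧
    ∀ p ∈ T, ∃ ab ∈ L, tz k p ∈ sat ab.1 (tw k p) ∧ tz k p ∉ sat ab.2 (tw k p) := by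
  obtain ⟨L, h1, h2⟩ := h
  have key : ∀ L : List (Sub (U k G) × Sub (U k G)),
      (∀ ab ∈ L, ab.1.FG ∧ ab.2.FG ∧ ab.1 ≤ Ev k v ∧ Sm (Stage α) ab.1 ab.2) →
      ∃ L' : List (Sub (U k G) × Sub (U k G)),
      (∀ ab ∈ L', ab.1.FG ∧ ab.2.FG ∧ ab.1 ≤ Ev k v ∧ ∃ β < α, Cmp k β ab.1 ab.2) ∧
      ∀ p : PP G v, (∃ ab ∈ L, tz k p ∈ sat ab.1 (tw k p) ∧ tz k p ∉ sat ab.2 (tw k p)) →
        ∃ ab ∈ L', tz k p ∈ sat ab.1 (tw k p) ∧ tz k p ∉ sat ab.2 (tw k p) := by
    intro L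
    induction L with
    | nil => exact fun _ => ⟨[], by simp, by simp⟩
    | cons ab L ih =>
      intro h
      obtain ⟨L', h1', h2'⟩ := ih fun ab hab => h ab (List.mem_cons_of_mem _ hab)
      obtain ⟨ha, hb, hE, hs⟩ := h ab List.mem_cons_self
      obtain ⟨L'', h1'', h2''⟩ := decomp U_fp ha hb hs
      refine ⟨L'' ++ L', fun cd hcd => ?_, fun p hp => ?_⟩
      · rcases List.mem_append.1 hcd with hcd | hcd
        · obtain ⟨hc, hd, hca, β, hβ, hu⟩ := h1'' cd hcd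
          exact ⟨hc, hd, hca.trans hE, β, hβ, fun X Y x y hx hy =>
            uni_use (stage_serre β) U_fp hc hd hu hx hy⟩
        · exact h1' cd hcd
      · obtain ⟨cd, hcd, h3, h4⟩ := hp
        rcases List.mem_cons.1 hcd with rfl | hcd
        · obtain ⟨ef, hef, h5, h6⟩ := h2'' _ _ h3 h4
          exact ⟨ef, List.mem_append_left _ hef, h5, h6⟩
        · obtain ⟨ef, hef, h5⟩ := h2' p ⟨cd, hcd, h3, h4⟩
          exact ⟨ef, List.mem_append_right _ hef, h5⟩
  obtain ⟨L', h1', h2'⟩ := key L h1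
  exact ⟨L', h1', fun p hp => h2' p (h2 p hp)⟩

theorem cmp_mono {β γ : Ordinal.{0}} (h : β ≤ γ) {a b : Sub (U k G)} (hc : Cmp k β a b) :
    Cmp k γ a b := by
  intro X Y x y hx hy
  rcases hc X Y x y hx hy with h1 | h1
  · exact Or.inl (stage_mono h h1)
  · exact Or.inr (stage_mono h h1)

theorem cmp_list {α : Ordinal.{0}} (L : List (Sub (U k G) × Sub (U k G))) (hL : L ≠ [])
    (h : ∀ ab ∈ L, ∃ β < α, Cmp k β ab.1 ab.2) : ∃ β < α, ∀ ab ∈ L, Cmp k β ab.1 ab.2 := by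
  induction L with
  | nil => exact absurd rfl hL
  | cons ab L ih =>
    obtain ⟨β, hβ, hc⟩ := h ab List.mem_cons_self
    by_cases hL' : L = []
    · subst hL'
      exact ⟨β, hβ, fun cd hcd => by
        rcases List.mem_cons.1 hcd with rfl | hcd
        · exact hc
        · simp at hcd⟩
    · obtain ⟨γ, hγ, hc'⟩ := ih hL' fun cd hcd => h cd (List.mem_cons_of_mem _ hcd)
      refine ⟨max β γ, max_lt hβ hγ, fun cd hcd => ?_⟩
      rcases List.mem_cons.1 hcd with rfl | hcd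
      · exact cmp_mono (le_max_left _ _) hc
      · exact cmp_mono (le_max_right _ _) (hc' cd hcd)

/-- sets of words of rank at least `α` -/
def Rk (k : Type) [Field k] {G : Gentle} {v : G.V} {s : Bool} (α : Ordinal.{0})
    (I : Set (Word G v s)) : Prop :=
  I.Nonempty ∧ ∀ β, β < α → ∀ N : ℕ, ∃ J : ℕ → Set (Word G v s),
    (∀ i < N, J i ⊆ I ∧ Rk k β (J i)) ∧
    ∀ i j, i < j → j < N → ∀ x ∈ J i, ∀ y ∈ J j, WS k x y
termination_by α

theorem rk_iff {s : Bool} (α : Ordinal.{0}) (I : Set (Word G v s)) :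
    Rk k α I ↔ I.Nonempty ∧ ∀ β, β < α → ∀ N : ℕ, ∃ J : ℕ → Set (Word G v s),
    (∀ i < N, J i ⊆ I ∧ Rk k β (J i)) ∧
    ∀ i j, i < j → j < N → ∀ x ∈ J i, ∀ y ∈ J j, WS k x y := by
  rw [Rk]

/-- every vector of `v` in the representation of a pair is a multiple of `z` -/
def OneDim (k : Type) [Field k] (G : Gentle) (v : G.V) : Prop :=
  ∀ (p : PP G v) (n : (tw k p).X), (tw k p).e v n = n → ∃ c : k, n = c • tz k p

theorem tz_sup (hd : OneDim k G v) {A B : Sub (U k G)} (hA : A ≤ Ev k v) (hB : B ≤ Ev k v)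
    {p : PP G v} (h : tz k p ∈ sat (A ⊔ B) (tw k p)) :
    tz k p ∈ sat A (tw k p) ∨ tz k p ∈ sat B (tw k p) := by
  obtain ⟨a, ha, b, hb, hab⟩ := mem_sat_sup.1 h
  obtain ⟨c, hc⟩ := hd p a (mem_Ev.1 (hA _ ha))
  by_cases h0 : c = 0
  · rw [hc, h0, zero_smul, zero_add] at hab
    right
    rw [← hab]
    exact hb
  · left
    have : tz k p = c⁻¹ • a := by
      rw [hc, smul_smul, inv_mul_cancel₀ h0, one_smul]
    rw [this]
    exact Submodule.smul_mem _ _ ha

/-- boxes of rank `α` are not small -/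
theorem rk_box (hd : OneDim k G v) (α : Ordinal.{0}) : ∀ (I : Set (Word G v true))
    (J : Set (Word G v false)), Rk k α I → Rk k α J → ¬ Small k α (I ×ˢ J) := by
  induction α using WellFoundedLT.induction with
  | ind α ih =>
    intro I J hI hJ hs
    rw [rk_iff] at hI hJ
    obtain ⟨L, hL1, hL2⟩ := small_decomp hs
    have hL0 : L ≠ [] := by
      rintro rfl
      obtain ⟨x, hx⟩ := hI.1
      obtain ⟨y, hy⟩ := hJ.1
      obtain ⟨_, h, _⟩ := hL2 (x, y) ⟨hx, hy⟩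
      simp at h
    obtain ⟨β, hβ, hcmp⟩ := cmp_list L hL0 fun ab hab => (hL1 ab hab).2.2.2
    set n := L.length with hn
    -- replace the smaller functors by their parts at `v`
    let T : Fin n → Set (PP G v) := fun l =>
      {p | tz k p ∈ sat (L.get l).1 (tw k p) ∧ tz k p ∉ sat (L.get l).2 (tw k p)}
    obtain ⟨I', hI1, hI2⟩ := hI.2 β hβ ((n + 1) * (n + 1))
    obtain ⟨J', hJ1, hJ2⟩ := hJ.2 β hβ ((n + 1) * (n + 1))
    -- the boxes
    have hidx : ∀ r i : ℕ, r ≤ n → i ≤ n → r * (n + 1) + i < (n + 1) * (n + 1) := by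
      intro r i hr hi
      calc r * (n + 1) + i ≤ n * (n + 1) + n :=
            Nat.add_le_add (Nat.mul_le_mul_right _ hr) hi
        _ < (n + 1) * (n + 1) := by ring_nf; omega
    let B : ℕ → ℕ → Set (PP G v) := fun r i =>
      (I' (r * (n + 1) + i)) ×ˢ (J' ((n - r) * (n + 1) + i))
    have hcol : ∀ r i : ℕ, r ≤ n → i ≤ n → ∃ l : Fin n, ¬ Small k β (T l ∩ B r i) := by
      intro r i hr hi
      by_contra hcon
      push Not at hcon
      have h1 := hI1 _ (hidx r i hr hi)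
      have h2 := hJ1 _ (hidx (n - r) i (Nat.sub_le _ _) hi)
      refine ih β hβ _ _ h1.2 h2.2 (small_mono (small_iUnion hcon) ?_)
      rintro ⟨x, y⟩ ⟨hx, hy⟩
      obtain ⟨ab, hab, h3, h4⟩ := hL2 (x, y) ⟨h1.1 hx, h2.1 hy⟩
      obtain ⟨l, hl⟩ := List.mem_iff_get.1 hab
      refine Set.mem_iUnion.2 ⟨l, ⟨?_, ?_⟩, hx, hy⟩
      · rw [hl]
        exact h3
      · rw [hl]
        exact h4
    have hnn : Nonempty (Fin n) := ⟨⟨0, List.length_pos_iff.2 hL0⟩⟩
    choose! col hcol using hcol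
    -- a repeated colour on the diagonal of each group
    have hgrp : ∀ r : ℕ, r ≤ n → ∃ i j : ℕ, i < j ∧ j ≤ n ∧ col r i = col r j := by
      intro r hr
      obtain ⟨i, j, hij, hc⟩ := Fintype.exists_ne_map_eq_of_card_lt
        (fun i : Fin (n + 1) => col r i) (by simp)
      rcases lt_or_gt_of_ne hij with h | h
      · exact ⟨i, j, h, Nat.lt_succ_iff.1 j.2, hc⟩
      · exact ⟨j, i, h, Nat.lt_succ_iff.1 i.2, hc.symm⟩
    choose! i0 j0 hij hjn hcc using hgrp
    obtain ⟨r, r', hrr, hc⟩ : ∃ r r' : ℕ, (r < r' ∧ r' ≤ n) ∧ col r (i0 r) = col r' (i0 r') := by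
      obtain ⟨r, r', hrr, hc⟩ := Fintype.exists_ne_map_eq_of_card_lt
        (fun r : Fin (n + 1) => col r (i0 r)) (by simp)
      rcases lt_or_gt_of_ne hrr with h | h
      · exact ⟨r, r', ⟨h, Nat.lt_succ_iff.1 r'.2⟩, hc⟩
      · exact ⟨r', r, ⟨h, Nat.lt_succ_iff.1 r.2⟩, hc.symm⟩
    have hr : r ≤ n := by omega
    have hr' : r' ≤ n := hrr.2
    set l := col r (i0 r) with hl
    have hin : i0 r ≤ n := by have := hij r hr; have := hjn r hr; omega
    have hin' : i0 r' ≤ n := by have := hij r' hr'; have := hjn r' hr'; omega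
    have hlow : ¬ Small k β (T l ∩ B r (i0 r)) := hcol r (i0 r) hr hin
    have hlow' : ¬ Small k β (T l ∩ B r' (i0 r')) := by
      rw [hc]
      exact hcol r' (i0 r') hr' hin'
    have hup : ¬ Small k β (T l ∩ B r (j0 r)) := by
      have := hcol r (j0 r) hr (hjn r hr)
      rwa [← hcc r hr] at this
    have hup' : ¬ Small k β (T l ∩ B r' (j0 r')) := by
      have := hcol r' (j0 r') hr' (hjn r' hr')
      rwa [← hcc r' hr', ← hc] at this
    have hne : ∀ S : Set (PP G v), ¬ Small k β S → S.Nonempty := by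
      intro S hS
      rw [Set.nonempty_iff_ne_empty]
      rintro rfl
      exact hS (small_empty β)
    obtain ⟨p, hpT, hpB⟩ := hne _ hup
    obtain ⟨q, hqT, hqB⟩ := hne _ hup'
    set a := (L.get l).1 with ha
    set b := (L.get l).2 with hb
    have hab : (L.get l) ∈ L := List.get_mem L l
    obtain ⟨hafg, hbfg, haE, _⟩ := hL1 _ hab
    -- the key claim
    have key : ∀ (p q : PP G v) (Bx : Set (PP G v)), p ∈ T l → q ∈ T l →
        ¬ Small k β (T l ∩ Bx) → (∀ t ∈ Bx, WS k t.1 p.1 ∧ WS k t.2 p.2) →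
        (∀ t ∈ Bx, WS k q.1 t.1 ∨ WS k q.2 t.2) →
        ¬ Sm (Stage β) (gen (F := U k G) (X := tw k p) (tz k p))
          (gen (F := U k G) (X := tw k q) (tz k q) ⊔ b) := by
      intro p q Bx hp hq hns h1 h2 hsm
      have hgE : ∀ p : PP G v, gen (F := U k G) (X := tw k p) (tz k p) ≤ Ev k v := fun p =>
        gen_le_sat.2 (mem_Ev.2 (pl_e _ (tz_pl1 p)))
      refine hns ⟨[(gen (F := U k G) (X := tw k p) (tz k p),
        gen (F := U k G) (X := tw k q) (tz k q) ⊔ (b ⊓ Ev k v))], ?_, ?_⟩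
      · intro cd hcd
        rcases List.mem_cons.1 hcd with rfl | hcd
        · refine ⟨gen_fg _, sup_fg (gen_fg _) (inf_fg U_fp hbfg (Ev_fg v)), hgE p, ?_⟩
          -- pass from `b` to `b ⊓ Ev`
          have h3 := sm_inf (stage_serre β) U_fp (gen_fg _) (sup_fg (gen_fg _) hbfg)
            (Ev_fg (k := k) v) hsm
          refine sm_mono (stage_serre β) U_fp (inf_fg U_fp (sup_fg (gen_fg _) hbfg) (Ev_fg v))
            (gen_fg _) (sup_fg (gen_fg _) (inf_fg U_fp hbfg (Ev_fg v))) h3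
            (le_inf le_rfl (hgE p)) ?_
          refine le_of_sat fun X x hx => ?_
          obtain ⟨hx1, hx2⟩ := mem_sat_inf.1 hx
          obtain ⟨c, hc, d, hd', hcd⟩ := mem_sat_sup.1 hx1
          refine mem_sat_sup.2 ⟨c, hc, d, ⟨hd', ?_⟩, hcd⟩
          have h4 : d = x - c := by rw [← hcd]; abel
          change d ∈ sat (Ev k v) X
          rw [h4]
          exact sub_mem hx2 (hgE q X hc)
        · simp at hcd
      · rintro t ⟨htT, htB⟩
        refine ⟨_, List.mem_cons_self, ?_, ?_⟩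
        · have h3 := h1 t htB
          exact mem_gen_tz p (mi_le_pl _ _ (h3.1 _ (tz_pl1 t))) (mi_le_pl _ _ (h3.2 _ (tz_pl2 t)))
        · intro h
          rcases tz_sup hd (hgE q) inf_le_right h with h4 | h4
          · rcases h2 t htB with h5 | h5
            · exact tz_mi1 t (h5 _ (gen_tz_le1 q _ h4))
            · exact tz_mi2 t (h5 _ (gen_tz_le2 q _ h4))
          · exact htT.2 h4.1
    rcases hcmp _ hab _ _ (tz k p) (tz k q) hpT.1 hqT.1 with h | h
    · refine key p q (B r (i0 r)) hpT hqT hlow (fun t ht => ⟨?_, ?_⟩) (fun t ht => Or.inr ?_) h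
      · exact hI2 _ _ (by have := hij r hr; omega) (hidx r (j0 r) hr (hjn r hr)) _ ht.1 _ hpB.1
      · exact hJ2 _ _ (by have := hij r hr; omega)
          (hidx (n - r) (j0 r) (Nat.sub_le _ _) (hjn r hr)) _ ht.2 _ hpB.2
      · refine hJ2 _ _ ?_ (hidx (n - r) (i0 r) (Nat.sub_le _ _) hin) _ hqB.2 _ ht.2
        have h1 := hjn r' hr'
        have h2 : (n - r' + 1) * (n + 1) ≤ (n - r) * (n + 1) :=
          Nat.mul_le_mul_right _ (by omega)
        calc (n - r') * (n + 1) + j0 r' < (n - r' + 1) * (n + 1) := by ring_nf; omega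
          _ ≤ (n - r) * (n + 1) := h2
          _ ≤ (n - r) * (n + 1) + i0 r := Nat.le_add_right _ _
    · refine key q p (B r' (i0 r')) hqT hpT hlow' (fun t ht => ⟨?_, ?_⟩) (fun t ht => Or.inl ?_) h
      · exact hI2 _ _ (by have := hij r' hr'; omega) (hidx r' (j0 r') hr' (hjn r' hr')) _ ht.1 _
          hqB.1
      · exact hJ2 _ _ (by have := hij r' hr'; omega)
          (hidx (n - r') (j0 r') (Nat.sub_le _ _) (hjn r' hr')) _ ht.2 _ hqB.2
      · refine hI2 _ _ ?_ (hidx r' (i0 r') hr' hin') _ hpB.1 _ ht.1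
        have h1 := hjn r hr
        have h2 : (r + 1) * (n + 1) ≤ r' * (n + 1) := Nat.mul_le_mul_right _ (by omega)
        calc r * (n + 1) + j0 r < (r + 1) * (n + 1) := by ring_nf; omega
          _ ≤ r' * (n + 1) := h2
          _ ≤ r' * (n + 1) + i0 r' := Nat.le_add_right _ _

/-- the lower bound -/
theorem lower (hd : OneDim k G v) {α : Ordinal.{0}} (h1 : Rk k α (Set.univ : Set (Word G v true)))
    (h2 : Rk k α (Set.univ : Set (Word G v false))) : ¬ Stage α (U k G) := by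
  intro h
  have h3 : Sm (Stage α) (⊤ : Sub (U k G)) ⊥ := by
    refine (stage_serre α).quo (U k G) _ (toTop (U k G) ≫ (⊤ : Sub (U k G)).π ⊥) (fun M => ?_)
      (quot_fp U_fp (top_fg U_fp) (bot_fg U_fp)) h
    exact (Sub.π_surj _ _ M).comp (toTop_surj (U k G) M)
  have h4 : Sm (Stage α) (Ev k v) (⊥ : Sub (U k G)) :=
    sm_mono (stage_serre α) U_fp (bot_fg U_fp) (Ev_fg v) (bot_fg U_fp) h3 le_top le_rfl
  refine rk_box hd α _ _ h1 h2 ⟨[(Ev k v, ⊥)], ?_, ?_⟩
  · intro ab hab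
    rcases List.mem_cons.1 hab with rfl | hab
    · exact ⟨Ev_fg v, bot_fg U_fp, le_rfl, h4⟩
    · simp at hab
  · intro p _
    refine ⟨_, List.mem_cons_self, mem_Ev.2 (pl_e _ (tz_pl1 p)), ?_⟩
    rw [mem_sat_bot]
    intro h
    have := twoζ_z tf_ne (germ k p.1) (germ k p.2)
    have h' : twoZ tf_ne (germ k p.1) (germ k p.2) = 0 := h
    rw [h', map_zero] at this
    exact zero_ne_one this

end Pool.Agent.H56.UDs
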