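import Pool.Agent.H56.UD.GM

/-!
# Uniserial dimension (MP_404602_al): the lower bound for `GM m`
-/

open CategoryTheory

namespace Pool.Agent.H56.UDs

variable {m : ℕ} {k : Type} [Field k]

theorem rk_anti {G : Gentle} {v : G.V} {s : Bool} {α β : Ordinal.{0}} (h : β ≤ α)
    {I : Set (Word G v s)} (hI : Rk k α I) : Rk k β I := by
  rw [rk_iff] at hI ⊢
  exact ⟨hI.1, fun γ hγ N => hI.2 γ (hγ.trans_le h) N⟩

/-- the prefix `a⁻¹ b` -/
def pab (s : Bool) (j : Fin m) (x : Word (GM m) (MV.P s j) true) :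
    Word (GM m) (MV.P s j) true :=
  Word.inv (G := GM m) (MA.a s j) (Word.dir (G := GM m) (MA.b s j) x)

theorem pab_ws (s : Bool) (j : Fin m) (x y : Word (GM m) (MV.P s j) true) (h : WS k x y) :
    WS k (pab s j x) (pab s j y) :=
  ws_inv (G := GM m) (α := MA.a s j) (ws_dir (G := GM m) (α := MA.b s j) h)

/-- the prefix `c b` from the next block -/
def pcb (s : Bool) (j : Fin m) (h : j.val + 1 < m)
    (x : Word (GM m) (MV.P s ⟨j.val + 1, h⟩) true) : Word (GM m) (MV.P s j) true :=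
  Word.dir (G := GM m) (MA.c s ⟨j.val + 1, h⟩)
    (Word.dir (G := GM m) (MA.b s ⟨j.val + 1, h⟩) x)

theorem pcb_ws (s : Bool) (j : Fin m) (h : j.val + 1 < m)
    (x y : Word (GM m) (MV.P s ⟨j.val + 1, h⟩) true) (hxy : WS k x y) :
    WS k (pcb s j h x) (pcb s j h y) :=
  ws_dir (G := GM m) (α := MA.c s ⟨j.val + 1, h⟩)
    (ws_dir (G := GM m) (α := MA.b s ⟨j.val + 1, h⟩) hxy)

theorem pcb_pab_ws (s : Bool) (j : Fin m) (h : j.val + 1 < m)
    (x : Word (GM m) (MV.P s ⟨j.val + 1, h⟩) true) (y : Word (GM m) (MV.P s j) true) :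
    WS k (pcb s j h x) (pab s j y) :=
  fun X => ws_dir_inv (G := GM m) (α := MA.c s ⟨j.val + 1, h⟩) (β := MA.a s j) rfl rfl _ _ X

theorem nil_pab_ws (s : Bool) (j : Fin m) (y : Word (GM m) (MV.P s j) true) :
    WS k (Word.nil (G := GM m) (MV.P s j) true) (pab s j y) :=
  fun X => ws_nil_inv (G := GM m) (β := MA.a s j) rfl rfl _ X

theorem low_rk (s : Bool) (n : ℕ) : ∀ j : Fin m, m - j.val = n + 1 →
    Rk k ((n + 1 : ℕ) : Ordinal.{0}) (Set.univ : Set (Word (GM m) (MV.P s j) true)) := by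
  induction n with
  | zero =>
    intro j hj
    rw [rk_iff]
    refine ⟨⟨Word.nil _ _, Set.mem_univ _⟩, fun β hβ N =>
      ⟨fun i => {(pab s j)^[i] (Word.nil _ _)}, fun i _ => ⟨Set.subset_univ _, ?_⟩,
        fun i l hil _ => ?_⟩⟩
    · have hβ0 : β = 0 := by
        have h1 : β < 1 := by simpa using hβ
        exact Order.lt_one_iff.1 h1
      subst hβ0
      rw [rk_iff]
      exact ⟨Set.singleton_nonempty _, fun γ hγ => absurd hγ (not_lt.2 (zero_le (a := γ)))⟩
    · rintro x hx y hy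
      rw [Set.mem_singleton_iff] at hx hy
      subst hx hy
      obtain ⟨d, rfl⟩ := Nat.exists_eq_add_of_lt hil
      have e1 : (pab s j)^[i + d + 1] (Word.nil (G := GM m) (MV.P s j) true) =
          (pab s j)^[i] (pab s j ((pab s j)^[d] (Word.nil (G := GM m) (MV.P s j) true))) := by
        rw [← Function.iterate_succ_apply' (pab s j) d, ← Function.iterate_add_apply, add_assoc]
      rw [e1]
      exact ws_iterate (pab s j) (pab_ws s j) i _ _ (nil_pab_ws s j _)
  | succ n ih =>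
    intro j hj
    have h : j.val + 1 < m := by omega
    refine rk_step (pab s j) (pab_ws s j) (pcb s j h) (pcb_ws s j h) (pcb_pab_ws s j h) ?_
    intro β hβ
    refine rk_anti ?_ (ih ⟨j.val + 1, h⟩ (by simp only; omega))
    have h1 : ((n + 1 + 1 : ℕ) : Ordinal.{0}) = Order.succ ((n + 1 : ℕ) : Ordinal.{0}) := by
      rw [Nat.cast_succ (n + 1), Order.succ_eq_add_one]
    rw [h1] at hβ
    exact Order.lt_succ_iff.1 hβ

theorem low_rk_w (s : Bool) :
    Rk k (m : Ordinal.{0}) (Set.univ : Set (Word (GM m) MV.w s)) := by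
  rcases Nat.eq_zero_or_pos m with rfl | hm
  · rw [rk_iff]
    refine ⟨⟨Word.nil _ _, Set.mem_univ _⟩, fun β hβ => ?_⟩
    rw [Nat.cast_zero] at hβ
    exact absurd hβ (not_lt.2 (zero_le (a := β)))
  · have h1 := low_rk (k := k) s (m - 1) ⟨0, hm⟩ (by simp only; omega)
    have h2 : m - 1 + 1 = m := by omega
    rw [h2] at h1
    refine rk_univ_of (fun x => (Word.dir (G := GM m) (MA.c s ⟨0, hm⟩)
      (Word.dir (G := GM m) (MA.b s ⟨0, hm⟩) x) : Word (GM m) MV.w s)) (fun x y hxy => ?_) h1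
    exact ws_dir (G := GM m) (α := MA.c s ⟨0, hm⟩)
      (ws_dir (G := GM m) (α := MA.b s ⟨0, hm⟩) hxy)

theorem w_oneD (s : Bool) (w : Word (GM m) MV.w s) : OneD (germ k w) := by
  refine cases_w (fun w => OneD (germ k w)) (nil_oneD (G := GM m) MV.w s) (fun h Z => ?_) w
  refine dir_oneD (G := GM m) (MA.c s ⟨0, h⟩) (germ k Z) fun n => ?_
  exact out_supp s 0 MV.w (Or.inl rfl) Z ⟨rfl, Nat.zero_le _, rfl⟩ n

/-- the lower bound -/
theorem low_not_stage : ¬ Stage (m : Ordinal.{0}) (U k (GM m)) :=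
  lower (G := GM m) (v := MV.w) (oneDim_of (w_oneD true) (w_oneD false)) (low_rk_w true)
    (low_rk_w false)

end Pool.Agent.H56.UDs
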