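import Pool.Agent.H56.UD.UP

/-!
# Uniserial dimension (MP_404602_al): the uniserial dimension of the algebra of `GM m` is `m`
-/

open CategoryTheory

namespace Pool.Agent.H56.UDs

section General

variable {k : Type} [Field k] {G : Gentle} {S : (Rep k G ⥤ AddCommGrpCat.{0}) → Prop}

/-- if all vertex spaces are small then the forgetful functor is small -/
theorem U_of_Ev (hS : IsSerre S) (h : ∀ v : G.V, Sm S (Ev k v : Sub (U k G)) ⊥) : S (U k G) := by
  have hb : (⊥ : Sub (U k G)).FG := bot_fg U_fp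
  have ht : (⊤ : Sub (U k G)).FG := top_fg U_fp
  have key : ∀ s : Finset G.V, (s.sup fun v => (Ev k v : Sub (U k G))).FG ∧
      Sm S (s.sup fun v => (Ev k v : Sub (U k G))) ⊥ := by
    intro s
    induction s using Finset.induction_on with
    | empty => exact ⟨hb, sm_of_le hS U_fp hb hb le_rfl⟩
    | insert a s _ ih =>
      rw [Finset.sup_insert]
      exact ⟨sup_fg (Ev_fg a) ih.1, sm_sup hS U_fp (Ev_fg a) ih.1 hb (h a) ih.2⟩
  obtain ⟨h1, h2⟩ := key Finset.univ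
  have h3 : Sm S (⊤ : Sub (U k G)) ⊥ := by
    refine sm_mono hS U_fp hb ht hb h2 (le_of_sat fun X x _ => ?_) le_rfl
    rw [← X.e_sum x]
    refine sum_mem fun v _ => ?_
    exact sat_mono (Finset.le_sup (f := fun v => (Ev k v : Sub (U k G))) (Finset.mem_univ v)) X
      (mem_Ev.2 (X.e_idem v x))
  refine hS.sub ((⊤ : Sub (U k G)).quot ⊥) (U k G) (toTop (U k G) ≫ Sub.π ⊤ ⊥) (fun M => ?_)
    U_fp h3
  rw [injective_iff_map_eq_zero]
  intro x hx
  have h4 := (Sub.π_zero (⊤ : Sub (U k G)) ⊥ M (((toTop (U k G)).app M).hom x)).1 hx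
  exact h4

end General

variable {m : ℕ} {k : Type} [Field k]

theorem cast_succ_pos (n : ℕ) : (0 : Ordinal.{0}) < ((n + 1 : ℕ) : Ordinal.{0}) := by
  exact_mod_cast Nat.succ_pos n

theorem cast_lt_succ (n : ℕ) : ((n : ℕ) : Ordinal.{0}) < ((n + 1 : ℕ) : Ordinal.{0}) := by
  exact_mod_cast Nat.lt_succ_self n

/-- the step -/
theorem block_step [IsAlgClosed k] (s : Bool) (j : Fin m) (n : ℕ)
    (e1 : Sm (Stage ((n + 1 : ℕ) : Ordinal.{0}))
      (mi k (Word.nil (G := GM m) (MV.P s j) true)) ⊥) :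
    Sm (Stage ((n + 1 + 1 : ℕ) : Ordinal.{0})) (Ev k (G := GM m) (MV.P s j)) ⊥ ∧
    Sm (Stage ((n + 1 + 1 : ℕ) : Ordinal.{0})) (Ev k (G := GM m) (MV.Q s j)) ⊥ := by
  have hb : (⊥ : Sub (U k (GM m))).FG := bot_fg U_fp
  have ht : (⊤ : Sub (U k (GM m))).FG := top_fg U_fp
  have hS := stage_serre (C := Rep k (GM m)) ((n + 1 : ℕ) : Ordinal.{0})
  have hS' := stage_serre (C := Rep k (GM m)) ((n + 1 + 1 : ℕ) : Ordinal.{0})
  have hc : ((⊥ : Sub (U k (GM m))).comap (rN k (G := GM m) (MA.a s j)).n).FG :=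
    comap_fg U_fp U_fp hb
  have hEP : (Ev k (G := GM m) (MV.P s j)).FG := Ev_fg _
  have hEQ : (Ev k (G := GM m) (MV.Q s j)).FG := Ev_fg _
  have e2 : Sm (Stage ((n + 1 : ℕ) : Ordinal.{0}))
      (pl k (Word.nil (G := GM m) (MV.P s j) true)) ⊥ :=
    sm_trans hS U_fp (pl_fg _) (mi_fg _) hb
      (stage_of_uni (cast_succ_pos n) (uni_kera (stage_serre (0 : Ordinal.{0})) s j)) e1
  have e3 : Sm (Stage ((n + 1 : ℕ) : Ordinal.{0})) (Ev k (G := GM m) (MV.P s j) ⊓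
      (⊥ : Sub (U k (GM m))).comap (rN k (G := GM m) (MA.a s j)).n) ⊥ := by
    refine sm_mono hS U_fp hb (inf_fg U_fp hEP hc) hb e2 (le_of_sat fun X x hx => ?_) le_rfl
    obtain ⟨h1, h2⟩ := mem_sat_inf.1 hx
    exact nilPt_pl.2 ⟨h1, mem_sat_bot.1 (mem_sat_comap.1 h2)⟩
  have hyp : Hyp (Stage ((n + 1 : ℕ) : Ordinal.{0}) :
      (Rep k (GM m) ⥤ AddCommGrpCat.{0}) → Prop) s j :=
    ⟨hS, e3, fun c => stage_of_uni (cast_succ_pos n) (uni_kerb' c s j),
      fun c => stage_of_uni (cast_succ_pos n) (uni_cokb' c s j)⟩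
  have e4 : Sm (Stage ((n + 1 + 1 : ℕ) : Ordinal.{0})) (Ev k (G := GM m) (MV.P s j)) ⊥ :=
    stage_of_uni (cast_lt_succ (n + 1)) (uni_P hyp)
  refine ⟨e4, ?_⟩
  have e5 : Sm (Stage ((n + 1 + 1 : ℕ) : Ordinal.{0}))
      ((⊤ : Sub (U k (GM m))).map (bN k 0 s j).n) ⊥ := by
    refine sm_mono hS' U_fp hb (map_fg ht) hb (sm_map_bot hS' (bN k 0 s j) hEP e4)
      (le_of_sat fun X x hx => ?_) le_rfl
    obtain ⟨y, _, rfl⟩ := mem_sat_map.1 hx
    refine mem_sat_map.2 ⟨X.e (MV.P s j) y, e_memP y, ?_⟩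
    rw [bN_zero_T, rb_e]
  exact sm_trans hS' U_fp hEQ (map_fg ht) hb
    (stage_of_uni (cast_succ_pos (n + 1)) (uni_cokb' 0 s j)) e5

/-- the main induction -/
theorem block [IsAlgClosed k] (s : Bool) (n : ℕ) : ∀ j : Fin m, m - j.val = n + 1 →
    Sm (Stage ((n + 1 + 1 : ℕ) : Ordinal.{0})) (Ev k (G := GM m) (MV.P s j)) ⊥ ∧
    Sm (Stage ((n + 1 + 1 : ℕ) : Ordinal.{0})) (Ev k (G := GM m) (MV.Q s j)) ⊥ := by
  induction n with
  | zero =>
    intro j hj
    have hb : (⊥ : Sub (U k (GM m))).FG := bot_fg U_fp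
    have e1 : Sm (Stage ((0 + 1 : ℕ) : Ordinal.{0}))
        (mi k (Word.nil (G := GM m) (MV.P s j) true)) ⊥ := by
      refine sm_of_le (stage_serre _) U_fp (mi_fg _) hb (le_of_sat fun X x hx => ?_)
      rcases mem_mi_nil.1 hx with rfl | ⟨α, hα, hs, y, rfl⟩
      · exact zero_mem _
      · obtain ⟨h, rfl⟩ := tgt_P hα
        exact absurd h (by omega)
    exact block_step s j 0 e1
  | succ n ih =>
    intro j hj
    have hb : (⊥ : Sub (U k (GM m))).FG := bot_fg U_fp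
    have h1 : j.val + 1 < m := by omega
    have h2 := (ih ⟨j.val + 1, h1⟩ (by simp only; omega)).2
    have e1 : Sm (Stage ((n + 1 + 1 : ℕ) : Ordinal.{0}))
        (mi k (Word.nil (G := GM m) (MV.P s j) true)) ⊥ := by
      refine sm_mono (stage_serre _) U_fp hb (mi_fg _) hb
        (sm_map_bot (stage_serre _) (rN k (G := GM m) (MA.c s ⟨j.val + 1, h1⟩)) (Ev_fg _) h2)
        (le_of_sat fun X x hx => ?_) le_rfl
      rcases mem_mi_nil.1 hx with rfl | ⟨α, hα, hs, y, rfl⟩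
      · exact zero_mem _
      · obtain ⟨h, rfl⟩ := tgt_P hα
        exact ⟨X.e (MV.Q s ⟨j.val + 1, h1⟩) y, e_memQ y, rc_e y⟩
    exact block_step s j (n + 1) e1

/-- the vertex `w` -/
theorem block_w [IsAlgClosed k] :
    Sm (Stage ((m + 1 : ℕ) : Ordinal.{0})) (Ev k (G := GM m) MV.w) ⊥ := by
  have hb : (⊥ : Sub (U k (GM m))).FG := bot_fg U_fp
  have hS := stage_serre (C := Rep k (GM m)) ((m + 1 : ℕ) : Ordinal.{0})
  have e1 : Sm (Stage ((m + 1 : ℕ) : Ordinal.{0}))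
      (mi k (Word.nil (G := GM m) MV.w false)) ⊥ := by
    rcases Nat.eq_zero_or_pos m with hm | hm
    · refine sm_of_le hS U_fp (mi_fg _) hb (le_of_sat fun X x hx => ?_)
      rcases mem_mi_nil.1 hx with rfl | ⟨α, hα, hs, y, rfl⟩
      · exact zero_mem _
      · obtain ⟨_, h, _⟩ := tgt_w hα
        exact absurd h (by omega)
    · have h1 := (block (k := k) (m := m) false (m - 1) ⟨0, hm⟩ (by simp only; omega)).2
      have hm1 : m - 1 + 1 + 1 = m + 1 := by omega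
      rw [hm1] at h1
      refine sm_mono hS U_fp hb (mi_fg _) hb
        (sm_map_bot hS (rN k (G := GM m) (MA.c false ⟨0, hm⟩)) (Ev_fg _) h1)
        (le_of_sat fun X x hx => ?_) le_rfl
      rcases mem_mi_nil.1 hx with rfl | ⟨α, hα, hs, y, rfl⟩
      · exact zero_mem _
      · obtain ⟨s', h, rfl⟩ := tgt_w hα
        have hs' : s' = false := hs
        subst hs'
        exact ⟨X.e (MV.Q false ⟨0, hm⟩) y, e_memQ y, rc_e y⟩
  have e2 : Sm (Stage ((m + 1 : ℕ) : Ordinal.{0})) (pl k (Word.nil (G := GM m) MV.w false)) ⊥ :=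
    sm_trans hS U_fp (pl_fg _) (mi_fg _) hb
      (stage_of_uni (cast_succ_pos m) (uni_w (stage_serre (0 : Ordinal.{0})))) e1
  refine sm_mono hS U_fp hb (Ev_fg _) hb e2 (le_of_sat fun X x hx => ?_) le_rfl
  exact mem_pl_nil.2 ⟨mem_Ev.1 hx, fun α hα _ => absurd hα fun h => src_w h⟩

/-- the forgetful functor belongs to the stage `m + 1` -/
theorem U_stage [IsAlgClosed k] : Stage ((m + 1 : ℕ) : Ordinal.{0}) (U k (GM m)) := by
  refine U_of_Ev (stage_serre _) fun v => ?_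
  have hb : (⊥ : Sub (U k (GM m))).FG := bot_fg U_fp
  have key : ∀ (j : Fin m) (A : Sub (U k (GM m))), A.FG →
      Sm (Stage ((m - j.val - 1 + 1 + 1 : ℕ) : Ordinal.{0})) A ⊥ →
      Sm (Stage ((m + 1 : ℕ) : Ordinal.{0})) A ⊥ := by
    intro j A _ hA
    refine stage_mono ?_ hA
    have : m - j.val - 1 + 1 + 1 ≤ m + 1 := by omega
    exact_mod_cast this
  rcases v with _ | ⟨s, j⟩ | ⟨s, j⟩
  · exact block_w
  · exact key j _ (Ev_fg _) (block (k := k) s (m - j.val - 1) j (by omega)).1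
  · exact key j _ (Ev_fg _) (block (k := k) s (m - j.val - 1) j (by omega)).2

/-- the uniserial dimension of the algebra of `GM m` is `m` -/
theorem UD_fin (k : Type) [Field k] [IsAlgClosed k] (m : ℕ) :
    UD (RAlg k (GM m)) = ((m : Ordinal.{0}) : WithTop Ordinal.{0}) := by
  rw [UD_RAlg]
  have h1 : ∀ F : Rep k (GM m) ⥤ AddCommGrpCat.{0}, IsFP F → Stage ((m : Ordinal.{0}) + 1) F := by
    intro F hF
    have h2 := all_of_U (stage_serre ((m + 1 : ℕ) : Ordinal.{0})) (U_stage (k := k) (m := m)) F hF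
    rw [Nat.cast_succ] at h2
    exact h2
  unfold UDim
  rw [if_pos ⟨_, h1⟩, WithTop.coe_inj]
  refine le_antisymm (csInf_le' h1) (le_csInf ⟨_, h1⟩ fun α hα => ?_)
  by_contra hlt
  push Not at hlt
  refine low_not_stage (m := m) (k := k) (stage_mono (Order.add_one_le_of_lt hlt) (hα _ U_fp))

end Pool.Agent.H56.UDs
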