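import Pool.Agent.H56.UD.Alg

/-!
# Uniserial dimension (MP_404602_al): representations are modules
-/

open CategoryTheory

namespace Pool.Agent.H56.UDs

variable {k : Type} [Field k] {G : Gentle}

section Equiv

variable {A : Type} [Ring A] [Algebra k A] (θ : PAlg k G ≃ₐ[k] A)

/-- a representation as an `A`-module -/
def TM (_ : PAlg k G ≃ₐ[k] A) (M : Rep k G) : Type := M.X

instance (M : Rep k G) : AddCommGroup (TM θ M) := M.acg
instance (M : Rep k G) : Module k (TM θ M) := M.mod
instance (M : Rep k G) : Module.Finite k (TM θ M) := M.fin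

noncomputable instance (M : Rep k G) : Module A (TM θ M) :=
  Module.compHom M.X (((actHom M : PAlg k G →ₐ[k] Module.End k M.X).toRingHom).comp
    (θ.symm : A →ₐ[k] PAlg k G).toRingHom)

theorem TM_smul (M : Rep k G) (a : A) (x : TM θ M) : a • x = (actHom M (θ.symm a)) x := rfl

instance (M : Rep k G) : IsScalarTower k A (TM θ M) where
  smul_assoc c a x := by
    rw [TM_smul, TM_smul, map_smul, map_smul]
    rfl

instance (M : Rep k G) : Module.Finite A (TM θ M) :=
  Module.Finite.of_restrictScalars_finite k A (TM θ M)

/-- the functor from representations to finitely generated modules -/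
noncomputable def toMod : Rep k G ⥤ FGModuleCat.{0} A where
  obj M := FGModuleCat.of A (TM θ M)
  map {M N} f := FGModuleCat.ofHom
    { toFun := f.f
      map_add' := fun x y => map_add f.f x y
      map_smul' := fun a x => actHom_comm f (θ.symm a) x : TM θ M →ₗ[A] TM θ N }
  map_id M := rfl
  map_comp f g := rfl

instance : (toMod θ).Additive where
  map_add := rfl

instance : (toMod θ).Faithful where
  map_injective {M N f g} h := by
    apply hom_ext
    intro x
    exact congrArg (fun t => t.hom.hom x) h

instance : (toMod θ).Full where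
  map_surjective {M N} f := by
    have hg : ∃ g : TM θ M →ₗ[A] TM θ N, ∀ x, g x = f.hom.hom x := ⟨f.hom.hom, fun _ => rfl⟩
    obtain ⟨g, hgf⟩ := hg
    have hsm : ∀ (c : k) (x : TM θ M), g (c • x) = c • g x := by
      intro c x
      have h1 : ∀ (L : Rep k G) (y : TM θ L), (algebraMap k A c) • y = c • y := by
        intro L y
        rw [TM_smul, AlgEquiv.commutes, AlgHom.commutes]
        rfl
      rw [← h1 M x, g.map_smul, h1 N]
    have hpe : ∀ (v : G.V) (x : TM θ M), g (M.e v x) = N.e v (g x) := by
      intro v x
      have h1 : ∀ (L : Rep k G) (y : TM θ L), (θ (pe k v)) • y = L.e v y := by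
        intro L y
        rw [TM_smul, AlgEquiv.symm_apply_apply, actHom_pe]
      rw [← h1 M x, g.map_smul, h1 N]
    have hpr : ∀ (α : G.A) (x : TM θ M), g (M.r α x) = N.r α (g x) := by
      intro v x
      have h1 : ∀ (L : Rep k G) (y : TM θ L), (θ (pr k v)) • y = L.r v y := by
        intro L y
        rw [TM_smul, AlgEquiv.symm_apply_apply, actHom_pr]
      rw [← h1 M x, g.map_smul, h1 N]
    refine ⟨mkHom (M := M) (N := N)
      { toFun := g, map_add' := fun x y => map_add g x y, map_smul' := hsm } hpe hpr, ?_⟩
    apply FGModuleCat.hom_ext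
    apply LinearMap.ext
    intro x
    exact hgf x

/-- a finitely generated `A`-module as a vector space -/
def KM (k : Type) [Field k] {A : Type} [Ring A] [Algebra k A] (N : FGModuleCat.{0} A) : Type :=
  N.carrier

instance (N : FGModuleCat.{0} A) : AddCommGroup (KM k N) :=
  (inferInstance : AddCommGroup N.obj)
instance (N : FGModuleCat.{0} A) : Module A (KM k N) :=
  (inferInstance : Module A N.obj)
instance (N : FGModuleCat.{0} A) : Module.Finite A (KM k N) :=
  (inferInstance : Module.Finite A N)
instance (N : FGModuleCat.{0} A) : Module k (KM k N) :=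
  Module.compHom N.obj (algebraMap k A)

instance (N : FGModuleCat.{0} A) : IsScalarTower k A (KM k N) where
  smul_assoc c a x := by
    rw [Algebra.smul_def, mul_smul]
    rfl

include θ in
theorem finA : Module.Finite k A := Module.Finite.equiv θ.toLinearEquiv

include θ in
theorem finKM (N : FGModuleCat.{0} A) : Module.Finite k (KM k N) := by
  have := finA θ
  exact Module.Finite.trans A (KM k N)

/-- the representation of a module -/
noncomputable def fromMod (N : FGModuleCat.{0} A) : Rep k G :=
  haveI := finKM θ N
  repOf (KM k N) ((Algebra.lsmul k k (KM k N)).comp (θ : PAlg k G →ₐ[k] A))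

/-- the identity map as a linear equivalence -/
noncomputable def fromModIso (N : FGModuleCat.{0} A) :
    TM θ (fromMod θ N) ≃ₗ[A] KM k N where
  toFun x := x
  invFun x := x
  left_inv _ := rfl
  right_inv _ := rfl
  map_add' _ _ := rfl
  map_smul' a x := by
    rw [TM_smul]
    have := finKM θ N
    have h : actHom (fromMod θ N) =
        (Algebra.lsmul k k (KM k N)).comp (θ : PAlg k G →ₐ[k] A) := actHom_repOf _ _
    rw [h]
    have h2 : ∀ y : KM k N, (Algebra.lsmul k k (KM k N)) (θ (θ.symm a)) y = a • y := by
      intro y
      rw [AlgEquiv.apply_symm_apply]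
      rfl
    exact h2 x

instance : (toMod θ).EssSurj where
  mem_essImage N := ⟨fromMod θ N, ⟨LinearEquiv.toFGModuleCatIso (fromModIso θ N)⟩⟩

instance : (toMod θ).IsEquivalence where

include θ in
/-- the uniserial dimension, computed with representations -/
theorem udim_rep : UDim.{0} (FGModuleCat.{0} A) = UDim.{0} (Rep k G) := by
  have h : (toMod θ).asEquivalence.functor.Additive :=
    (inferInstance : (toMod θ).Additive)
  exact (udim_eqv (toMod θ).asEquivalence).symm

end Equiv

/-- the ring of the main theorem: the opposite of the algebra of `G`, so that right modules are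
representations of `G` -/
abbrev RAlg (k : Type) [Field k] (G : Gentle) : Type := (PAlg k G)ᵐᵒᵖ

theorem ralg_finite : Module.Finite k (RAlg k G) :=
  Module.Finite.equiv (MulOpposite.opLinearEquiv k)

theorem UD_RAlg : UD (RAlg k G) = UDim.{0} (Rep k G) :=
  udim_rep (AlgEquiv.opOp k (PAlg k G))

end Pool.Agent.H56.UDs
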