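import Pool.Agent.H56.UD.Small

/-!
# Uniserial dimension (MP_404602_al): subfunctors of quotients
-/

open CategoryTheory

namespace Pool.Agent.H56.UDs

universe w v u

variable {C : Type u} [Category.{v} C] [Preadditive C] [Coh C] {F : C ⥤ AddCommGrpCat.{v}}

set_option linter.unusedSectionVars false

/-- the preimage of a subfunctor of `A / (A ∩ B)` -/
def pb {A B : Sub F} (D : Sub (A.quot B)) : Sub F := (D.comap (A.π B)).map A.ι

theorem mem_pb {A B : Sub F} {D : Sub (A.quot B)} {M : C} {x : F.obj M} :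
    x ∈ (pb D).car M ↔ ∃ h : x ∈ A.car M,
      (QuotientAddGroup.mk (⟨x, h⟩ : A.car M) : A.car M ⧸ (B.car M).addSubgroupOf (A.car M)) ∈
        D.car M := by
  constructor
  · rintro ⟨(y : A.car M), hy, rfl⟩
    exact ⟨y.2, hy⟩
  · rintro ⟨h, hx⟩
    exact ⟨(⟨x, h⟩ : A.car M), hx, rfl⟩

theorem pb_fg (hF : IsFP F) {A B : Sub F} (hA : A.FG) (hB : B.FG) {D : Sub (A.quot B)}
    (hD : D.FG) : (pb D).FG :=
  map_fg (comap_fg (fn_fp hF hA) (quot_fp hF hA hB) hD)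

theorem pb_le {A B : Sub F} (D : Sub (A.quot B)) : pb D ≤ A := fun _ _ hx =>
  (mem_pb.1 hx).choose

theorem pb_sq (hF : IsFP F) {T : (C ⥤ AddCommGrpCat.{v}) → Prop} (hT : SQ T) {A B : Sub F}
    (hA : A.FG) (hB : B.FG) {D E : Sub (A.quot B)} (hD : D.FG) (hE : E.FG)
    (h : T (D.quot E)) : T ((pb D).quot (pb E)) := by
  have hAf : IsFP A.fn := fn_fp hF hA
  have hAB : IsFP (A.quot B) := quot_fp hF hA hB
  have hD1 : (D.comap (A.π B)).FG := comap_fg hAf hAB hD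
  have hE1 : (E.comap (A.π B)).FG := comap_fg hAf hAB hE
  have e1 : T ((D.comap (A.π B)).quot (E.comap (A.π B))) :=
    hT.sub _ _ (qmap (A.π B) _ _ D E (fun M x hx => hx) fun M x _ hx => hx)
      (qmap_inj _ _ _ _ _ _ _ fun M x _ hx => hx) (quot_fp hAf hD1 hE1) h
  refine hT.quo _ _ (qmap A.ι _ _ (pb D) (pb E) (fun M x hx => ⟨x, hx, rfl⟩)
    fun M x _ hx => ⟨x, hx, rfl⟩) (qmap_surj _ _ _ _ _ _ _ ?_)
    (quot_fp hF (pb_fg hF hA hB hD) (pb_fg hF hA hB hE)) e1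
  rintro M y ⟨x, hx, rfl⟩
  exact ⟨x, hx, by rw [sub_self]; exact zero_mem _⟩

theorem serre_sq {S : (C ⥤ AddCommGrpCat.{v}) → Prop} (hS : IsSerre S) : SQ S :=
  ⟨hS.fp, hS.sub, hS.quo⟩

/-- comparison of elements of a uniserial quotient -/
theorem uni_use {S : (C ⥤ AddCommGrpCat.{v}) → Prop} (hS : IsSerre S) (hF : IsFP F) [F.Additive]
    {A B : Sub F} (hA : A.FG) (hB : B.FG) (h : Uni S (A.quot B)) {X Y : C} {x : F.obj X}
    {y : F.obj Y} (hx : x ∈ A.car X) (hy : y ∈ A.car Y) :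
    Sm S (gen x) (gen y ⊔ B) ∨ Sm S (gen y) (gen x ⊔ B) := by
  have hQ : IsFP (A.quot B) := quot_fp hF hA hB
  -- the key implication
  have key : ∀ {X Y : C} {x : F.obj X} {y : F.obj Y} (hx : x ∈ A.car X) (hy : y ∈ A.car Y),
      S ((gen (F := A.quot B) (X := X) (QuotientAddGroup.mk (⟨x, hx⟩ : A.car X) :
          A.car X ⧸ (B.car X).addSubgroupOf (A.car X))).quot
        (gen (F := A.quot B) (X := Y) (QuotientAddGroup.mk (⟨y, hy⟩ : A.car Y) :
          A.car Y ⧸ (B.car Y).addSubgroupOf (A.car Y)))) → Sm S (gen x) (gen y ⊔ B) := by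
    intro X Y x y hx hy h
    have h1 := pb_sq hF (serre_sq hS) hA hB (gen_fg _) (gen_fg _) h
    refine sm_mono hS hF (pb_fg hF hA hB (gen_fg _)) (gen_fg _) (sup_fg (gen_fg _) hB) h1 ?_ ?_
    · refine gen_le ?_
      exact mem_pb.2 ⟨hx, self_mem_gen (F := A.quot B) (X := X)
        (QuotientAddGroup.mk (⟨x, hx⟩ : A.car X) :
          A.car X ⧸ (B.car X).addSubgroupOf (A.car X))⟩
    · intro M z hz
      obtain ⟨hzA, f, hf⟩ := mem_pb.1 hz
      have h2 : (QuotientAddGroup.mk (A.res f ⟨y, hy⟩) :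
          A.car M ⧸ (B.car M).addSubgroupOf (A.car M)) =
          QuotientAddGroup.mk (⟨z, hzA⟩ : A.car M) := hf
      rw [QuotientAddGroup.eq, AddSubgroup.mem_addSubgroupOf] at h2
      refine Sub.mem_sup.2 ⟨(F.map f).hom y, ⟨f, rfl⟩, _, h2, ?_⟩
      change (F.map f).hom y + (-(F.map f).hom y + z) = z
      abel
  rcases h.2 _ _ (fn_fp hQ (gen_fg (F := A.quot B) (X := X)
    (QuotientAddGroup.mk (⟨x, hx⟩ : A.car X) :
          A.car X ⧸ (B.car X).addSubgroupOf (A.car X))))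
    (fn_fp hQ (gen_fg (F := A.quot B) (X := Y) (QuotientAddGroup.mk (⟨y, hy⟩ : A.car Y) :
          A.car Y ⧸ (B.car Y).addSubgroupOf (A.car Y)))) with h1 | h1
  · exact Or.inl (key hx hy h1)
  · exact Or.inr (key hy hx h1)

/-- decomposition of a member of `S_α` -/
theorem decomp (hF : IsFP F) {α : Ordinal.{w}} {A B : Sub F} (hA : A.FG) (hB : B.FG)
    (h : Sm (Stage α) A B) : ∃ L : List (Sub F × Sub F),
      (∀ ab ∈ L, ab.1.FG ∧ ab.2.FG ∧ ab.1 ≤ A ∧ LowUni α (ab.1.quot ab.2)) ∧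
      ∀ (M : C) (x : F.obj M), x ∈ A.car M → x ∉ B.car M →
        ∃ ab ∈ L, x ∈ ab.1.car M ∧ x ∉ ab.2.car M := by
  obtain ⟨hQ, hc⟩ := (stage_filt α _).1 h
  have key : ∀ D : Sub (A.quot B), Relation.ReflTransGen (Step (LowUni α)) ⊥ D →
      ∃ L : List (Sub F × Sub F),
      (∀ ab ∈ L, ab.1.FG ∧ ab.2.FG ∧ ab.1 ≤ A ∧ LowUni α (ab.1.quot ab.2)) ∧
      ∀ (M : C) (x : F.obj M), x ∈ (pb D).car M → x ∉ B.car M →
        ∃ ab ∈ L, x ∈ ab.1.car M ∧ x ∉ ab.2.car M := by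
    intro D hD
    induction hD with
    | refl =>
      refine ⟨[], by simp, fun M x hx hxB => ?_⟩
      obtain ⟨hxA, hx0⟩ := mem_pb.1 hx
      exact absurd ((quot_mk_zero (⟨x, hxA⟩ : A.car M)).1 (Sub.mem_bot.1 hx0)) hxB
    | @tail D E _ hDE ih =>
      obtain ⟨L, hL1, hL2⟩ := ih
      obtain ⟨h1, h2, h3, h4⟩ := hDE
      refine ⟨(pb E, pb D) :: L, fun ab hab => ?_, fun M x hx hxB => ?_⟩
      · rcases List.mem_cons.1 hab with rfl | hab
        · exact ⟨pb_fg hF hA hB h3, pb_fg hF hA hB h2, pb_le E,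
            pb_sq hF (lowUni_sq α) hA hB h3 h2 h4⟩
        · exact hL1 ab hab
      · by_cases hxD : x ∈ (pb D).car M
        · obtain ⟨ab, hab, h⟩ := hL2 M x hxD hxB
          exact ⟨ab, List.mem_cons_of_mem _ hab, h⟩
        · exact ⟨_, List.mem_cons_self, hx, hxD⟩
  obtain ⟨L, hL1, hL2⟩ := key ⊤ hc
  exact ⟨L, hL1, fun M x hx hxB => hL2 M x (mem_pb.2 ⟨hx, Sub.mem_top⟩) hxB⟩

end Pool.Agent.H56.UDs
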