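import Pool.Agent.H56.UD.Small

/-!
# Uniserial dimension (MP_404602_al): representations of gentle quivers
-/

open CategoryTheory

namespace Pool.Agent.H56.UDs

/-- A quiver with vertices `V` and arrows `A`; at each vertex there are two sides `true`, `false`,
each arrow `α` leaves its source at the side `so α` and enters its target at the side `si α`, and
there is at most one arrow leaving at a given side and at most one arrow entering at a given side.
The relations are `β α = 0` if `α` enters at the side where `β` leaves. The function `rank` shows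
that there are no oriented cycles. -/
structure Gentle where
  /-- vertices -/
  V : Type
  /-- arrows -/
  A : Type
  [fV : Fintype V]
  [dV : DecidableEq V]
  [fA : Fintype A]
  [dA : DecidableEq A]
  /-- source -/
  src : A → V
  /-- target -/
  tgt : A → V
  /-- the side at which an arrow leaves its source -/
  so : A → Bool
  /-- the side at which an arrow enters its target -/
  si : A → Bool
  inj_o : ∀ α β, src α = src β → so α = so β → α = β
  inj_i : ∀ α β, tgt α = tgt β → si α = si β → α = β
  /-- a function which increases along arrows -/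
  rank : V → ℕ
  rank_lt : ∀ α, rank (src α) < rank (tgt α)

attribute [instance] Gentle.fV Gentle.dV Gentle.fA Gentle.dA

/-- A finite-dimensional representation of the gentle quiver `G`: a vector space `X`, the direct
sum of the spaces `e v X`, with maps `r α : e (src α) X → e (tgt α) X` satisfying the relations -/
structure Rep (k : Type) [Field k] (G : Gentle) where
  /-- the total space -/
  X : Type
  [acg : AddCommGroup X]
  [mod : Module k X]
  [fin : Module.Finite k X]
  /-- the projections to the vertex spaces -/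
  e : G.V → X →ₗ[k] X
  /-- the arrows -/
  r : G.A → X →ₗ[k] X
  e_idem : ∀ v x, e v (e v x) = e v x
  e_orth : ∀ u v, u ≠ v → ∀ x, e u (e v x) = 0
  e_sum : ∀ x, ∑ v, e v x = x
  r_src : ∀ α x, r α (e (G.src α) x) = r α x
  e_tgt : ∀ α x, e (G.tgt α) (r α x) = r α x
  rel : ∀ α β, G.tgt α = G.src β → G.si α = G.so β → ∀ x, r β (r α x) = 0

attribute [instance] Rep.acg Rep.mod Rep.fin

variable {k : Type} [Field k] {G : Gentle}

/-- morphisms of representations -/
@[ext]
structure RHom (M N : Rep k G) where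
  /-- the linear map -/
  f : M.X →ₗ[k] N.X
  e_comm : ∀ v x, f (M.e v x) = N.e v (f x)
  r_comm : ∀ α x, f (M.r α x) = N.r α (f x)

namespace RHom

variable {M N L : Rep k G}

instance : Zero (RHom M N) := ⟨⟨0, fun v x => by simp, fun α x => by simp⟩⟩

instance : Add (RHom M N) := ⟨fun f g => ⟨f.f + g.f,
  fun v x => by simp [f.e_comm, g.e_comm], fun α x => by simp [f.r_comm, g.r_comm]⟩⟩

instance : Neg (RHom M N) := ⟨fun f => ⟨-f.f,
  fun v x => by simp [f.e_comm], fun α x => by simp [f.r_comm]⟩⟩

instance : _root_.Sub (RHom M N) := ⟨fun f g => ⟨f.f - g.f,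
  fun v x => by simp [f.e_comm, g.e_comm], fun α x => by simp [f.r_comm, g.r_comm]⟩⟩

instance : SMul k (RHom M N) := ⟨fun c f => ⟨c • f.f,
  fun v x => by simp [f.e_comm], fun α x => by simp [f.r_comm]⟩⟩

theorem f_injective : Function.Injective (fun f : RHom M N => f.f) := fun _ _ h => RHom.ext h

instance : SMul ℕ (RHom M N) := ⟨fun n f => ⟨n • f.f,
  fun v x => by simp [f.e_comm], fun α x => by simp [f.r_comm]⟩⟩

instance : SMul ℤ (RHom M N) := ⟨fun n f => ⟨n • f.f,
  fun v x => by simp [f.e_comm], fun α x => by simp [f.r_comm]⟩⟩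

instance : AddCommGroup (RHom M N) :=
  Function.Injective.addCommGroup (fun f : RHom M N => f.f) f_injective rfl (fun _ _ => rfl)
    (fun _ => rfl) (fun _ _ => rfl) (fun _ _ => rfl) (fun _ _ => rfl)

end RHom

instance : Category (Rep k G) where
  Hom M N := RHom M N
  id M := ⟨LinearMap.id, fun _ _ => rfl, fun _ _ => rfl⟩
  comp f g := ⟨g.f.comp f.f, fun v x => by simp [f.e_comm, g.e_comm],
    fun α x => by simp [f.r_comm, g.r_comm]⟩

instance homAddCommGroup (M N : Rep k G) : AddCommGroup (M ⟶ N) :=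
  (inferInstance : AddCommGroup (RHom M N))

instance : Preadditive (Rep k G) where
  add_comp := by
    intro P Q R f f' g
    apply RHom.ext
    apply LinearMap.ext
    intro x
    exact map_add g.f (f.f x) (f'.f x)
  comp_add := by
    intro P Q R f g g'
    apply RHom.ext
    apply LinearMap.ext
    intro x
    rfl

@[simp] theorem comp_f {M N L : Rep k G} (f : M ⟶ N) (g : N ⟶ L) (x : M.X) :
    (f ≫ g).f x = g.f (f.f x) := rfl

@[simp] theorem id_f (M : Rep k G) (x : M.X) : (𝟙 M : M ⟶ M).f x = x := rfl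

@[simp] theorem add_f {M N : Rep k G} (f g : M ⟶ N) (x : M.X) : (f + g).f x = f.f x + g.f x := rfl

@[simp] theorem zero_f {M N : Rep k G} (x : M.X) : (0 : M ⟶ N).f x = 0 := rfl

theorem hom_ext {M N : Rep k G} {f g : M ⟶ N} (h : ∀ x, f.f x = g.f x) : f = g :=
  RHom.ext (LinearMap.ext h)

/-- construction of morphisms -/
def mkHom {M N : Rep k G} (f : M.X →ₗ[k] N.X) (he : ∀ v x, f (M.e v x) = N.e v (f x))
    (hr : ∀ α x, f (M.r α x) = N.r α (f x)) : M ⟶ N := ⟨f, he, hr⟩

@[simp] theorem mkHom_f {M N : Rep k G} (f : M.X →ₗ[k] N.X) (he hr) (x : M.X) :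
    (mkHom (M := M) (N := N) f he hr).f x = f x := rfl

/-- the forgetful functor -/
def U (k : Type) [Field k] (G : Gentle) : Rep k G ⥤ AddCommGrpCat.{0} where
  obj M := AddCommGrpCat.of M.X
  map f := AddCommGrpCat.ofHom f.f.toAddMonoidHom
  map_id M := rfl
  map_comp f g := rfl

instance : (U k G).Additive where
  map_add := rfl

theorem U_map {M N : Rep k G} (f : M ⟶ N) (x : M.X) : ((U k G).map f).hom x = f.f x := rfl

/-- direct sums -/
def prodRep (M N : Rep k G) : Rep k G where
  X := M.X × N.X
  e v := (M.e v).prodMap (N.e v)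
  r α := (M.r α).prodMap (N.r α)
  e_idem v x := by ext <;> simp [M.e_idem, N.e_idem]
  e_orth u v h x := by ext <;> simp [M.e_orth u v h, N.e_orth u v h]
  e_sum x := by
    ext
    · simp [Prod.fst_sum, M.e_sum]
    · simp [Prod.snd_sum, N.e_sum]
  r_src α x := by ext <;> simp [M.r_src, N.r_src]
  e_tgt α x := by ext <;> simp [M.e_tgt, N.e_tgt]
  rel α β h1 h2 x := by ext <;> simp [M.rel α β h1 h2, N.rel α β h1 h2]

/-- quotients by the range of a morphism -/
def cokRep {M N : Rep k G} (h : M ⟶ N) : Rep k G where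
  X := N.X ⧸ LinearMap.range h.f
  e v := (LinearMap.range h.f).mapQ (LinearMap.range h.f) (N.e v) (by
    rintro _ ⟨x, rfl⟩
    exact ⟨M.e v x, h.e_comm v x⟩)
  r α := (LinearMap.range h.f).mapQ (LinearMap.range h.f) (N.r α) (by
    rintro _ ⟨x, rfl⟩
    exact ⟨M.r α x, h.r_comm α x⟩)
  e_idem v x := by
    obtain ⟨x, rfl⟩ := Submodule.Quotient.mk_surjective _ x
    simp [Submodule.mapQ_apply, N.e_idem]
  e_orth u v h x := by
    obtain ⟨x, rfl⟩ := Submodule.Quotient.mk_surjective _ x
    simp [Submodule.mapQ_apply, N.e_orth u v h]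
  e_sum x := by
    obtain ⟨x, rfl⟩ := Submodule.Quotient.mk_surjective _ x
    simp only [Submodule.mapQ_apply]
    conv_rhs => rw [← N.e_sum x]
    exact (map_sum (LinearMap.range h.f).mkQ _ _).symm
  r_src α x := by
    obtain ⟨x, rfl⟩ := Submodule.Quotient.mk_surjective _ x
    simp [Submodule.mapQ_apply, N.r_src]
  e_tgt α x := by
    obtain ⟨x, rfl⟩ := Submodule.Quotient.mk_surjective _ x
    simp [Submodule.mapQ_apply, N.e_tgt]
  rel α β h1 h2 x := by
    obtain ⟨x, rfl⟩ := Submodule.Quotient.mk_surjective _ x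
    simp [Submodule.mapQ_apply, N.rel α β h1 h2]

/-- the projection to the cokernel -/
def cokPi {M N : Rep k G} (h : M ⟶ N) : N ⟶ cokRep h :=
  mkHom (N := cokRep h) (LinearMap.range h.f).mkQ (fun _ _ => rfl) (fun _ _ => rfl)

theorem cokPi_surj {M N : Rep k G} (h : M ⟶ N) : Function.Surjective (cokPi h).f :=
  Submodule.mkQ_surjective _

theorem cokPi_zero {M N : Rep k G} (h : M ⟶ N) (x : N.X) :
    (cokPi h).f x = 0 ↔ ∃ y, h.f y = x := by
  change (LinearMap.range h.f).mkQ x = 0 ↔ _
  rw [Submodule.mkQ_apply, Submodule.Quotient.mk_eq_zero]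
  rfl

/-- the universal property of the cokernel -/
def cokLift {M N L : Rep k G} (h : M ⟶ N) (u : N ⟶ L) (hu : ∀ x, u.f (h.f x) = 0) :
    cokRep h ⟶ L :=
  mkHom (M := cokRep h) ((LinearMap.range h.f).liftQ u.f (by
    rintro _ ⟨x, rfl⟩
    exact hu x))
    (fun v x => by
      obtain ⟨x, rfl⟩ := Submodule.Quotient.mk_surjective _ x
      exact u.e_comm v x)
    (fun α x => by
      obtain ⟨x, rfl⟩ := Submodule.Quotient.mk_surjective _ x
      exact u.r_comm α x)

theorem cokLift_pi {M N L : Rep k G} (h : M ⟶ N) (u : N ⟶ L) (hu : ∀ x, u.f (h.f x) = 0)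
    (x : N.X) : (cokLift h u hu).f ((cokPi h).f x) = u.f x := rfl

instance : Coh (Rep k G) where
  sum M N := ⟨prodRep M N,
    mkHom (N := prodRep M N) (LinearMap.inl k M.X N.X)
      (fun v x => Prod.ext rfl (map_zero (N.e v)).symm)
      (fun α x => Prod.ext rfl (map_zero (N.r α)).symm),
    mkHom (N := prodRep M N) (LinearMap.inr k M.X N.X)
      (fun v x => Prod.ext (map_zero (M.e v)).symm rfl)
      (fun α x => Prod.ext (map_zero (M.r α)).symm rfl),
    mkHom (M := prodRep M N) (LinearMap.fst k M.X N.X) (fun v x => rfl) (fun v x => rfl),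
    mkHom (M := prodRep M N) (LinearMap.snd k M.X N.X) (fun v x => rfl) (fun v x => rfl),
    rfl, rfl, rfl, rfl⟩
  wcok {M N} h := by
    refine ⟨cokRep h, cokPi h, hom_ext fun x => ?_, fun {L} u hu => ?_⟩
    · exact (cokPi_zero h _).2 ⟨x, rfl⟩
    · exact ⟨cokLift h u fun x => congrArg (fun t => t.f x) hu, rfl⟩

end Pool.Agent.H56.UDs
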