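import Pool.Agent.H56.UD.Uni3

/-!
# Uniserial dimension (MP_404602_al): the automorphisms `b ↦ b - μ a`
-/

open CategoryTheory

namespace Pool.Agent.H56.UDs

variable {m : ℕ} {k : Type} [Field k]

/-- the arrows of the shifted representation -/
def shR (μ : k) (X : Rep k (GM m)) : MA m → X.X →ₗ[k] X.X
  | .a s j => X.r (MA.a s j)
  | .b s j => X.r (MA.b s j) - μ • X.r (MA.a s j)
  | .c s j => X.r (MA.c s j)

/-- the shifted representation, `b` is replaced by `b - μ a` -/
def shRep (μ : k) (X : Rep k (GM m)) : Rep k (GM m) where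
  X := X.X
  e := X.e
  r := shR μ X
  e_idem := X.e_idem
  e_orth := X.e_orth
  e_sum := X.e_sum
  r_src := by
    rintro (⟨s, j⟩ | ⟨s, j⟩ | ⟨s, j⟩) x
    · exact X.r_src (MA.a s j) x
    · change (X.r (MA.b s j) - μ • X.r (MA.a s j)) _ = (X.r (MA.b s j) - μ • X.r (MA.a s j)) x
      have h1 := X.r_src (MA.b s j) x
      have h2 := X.r_src (MA.a s j) x
      rw [LinearMap.sub_apply, LinearMap.sub_apply, LinearMap.smul_apply, LinearMap.smul_apply]
      exact congrArg₂ (fun y z => y - μ • z) h1 h2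
    · exact X.r_src (MA.c s j) x
  e_tgt := by
    rintro (⟨s, j⟩ | ⟨s, j⟩ | ⟨s, j⟩) x
    · exact X.e_tgt (MA.a s j) x
    · have h1 := X.e_tgt (MA.b s j) x
      have h2 := X.e_tgt (MA.a s j) x
      change X.e _ ((X.r (MA.b s j) - μ • X.r (MA.a s j)) x) =
        (X.r (MA.b s j) - μ • X.r (MA.a s j)) x
      rw [LinearMap.sub_apply, LinearMap.smul_apply, map_sub, map_smul]
      exact congrArg₂ (fun y z => y - μ • z) h1 h2
    · exact X.e_tgt (MA.c s j) x
  rel := by
    rintro α (⟨s, j⟩ | ⟨s, j⟩ | ⟨s, j⟩) h1 h2 x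
    · obtain ⟨h, rfl⟩ := tgt_P h1
      exact X.rel (MA.c s ⟨j.val + 1, h⟩) (MA.a s j) h1 h2 x
    · obtain ⟨h, rfl⟩ := tgt_P h1
      exact absurd h2 (by simp [GM, MA.si, MA.so])
    · rcases tgt_Q h1 with rfl | rfl
      · exact X.rel (MA.a s j) (MA.c s j) h1 h2 x
      · exact absurd h2 (by simp [GM, MA.si, MA.so])

/-- the shift functor -/
def shF (μ : k) : Rep k (GM m) ⥤ Rep k (GM m) where
  obj X := shRep μ X
  map {X Y} f := mkHom (M := shRep μ X) (N := shRep μ Y) f.f (fun v x => f.e_comm v x) (by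
    rintro (⟨s, j⟩ | ⟨s, j⟩ | ⟨s, j⟩) x
    · exact f.r_comm (MA.a s j) x
    · have h1 : f.f (X.r (MA.b s j) x) = Y.r (MA.b s j) (f.f x) := f.r_comm (MA.b s j) x
      have h2 : f.f (X.r (MA.a s j) x) = Y.r (MA.a s j) (f.f x) := f.r_comm (MA.a s j) x
      have h3 : f.f (μ • X.r (MA.a s j) x) = μ • Y.r (MA.a s j) (f.f x) :=
        (map_smul f.f μ _).trans (congrArg (fun y => μ • y) h2)
      exact (map_sub f.f _ _).trans (congrArg₂ (fun y z => y - z) h1 h3)
    · exact f.r_comm (MA.c s j) x)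
  map_id X := rfl
  map_comp f g := rfl

instance (μ : k) : (shF μ : Rep k (GM m) ⥤ Rep k (GM m)).Additive where
  map_add := rfl

theorem shR_shR (μ : k) (X : Rep k (GM m)) (α : MA m) (x : X.X) :
    shR (-μ) (shRep μ X) α x = X.r α x := by
  rcases α with ⟨s, j⟩ | ⟨s, j⟩ | ⟨s, j⟩
  · rfl
  · change ((X.r (MA.b s j) - μ • X.r (MA.a s j)) - (-μ) • X.r (MA.a s j)) x = _
    rw [neg_smul, sub_neg_eq_add, sub_add_cancel]
  · rfl

theorem shR_shR' (μ : k) (X : Rep k (GM m)) (α : MA m) (x : X.X) :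
    shR μ (shRep (-μ) X) α x = X.r α x := by
  have h := shR_shR (-μ) X α x
  rw [neg_neg] at h
  exact h

/-- the equivalence -/
def shE (μ : k) : Rep k (GM m) ≌ Rep k (GM m) :=
  CategoryTheory.Equivalence.mk (shF (-μ)) (shF μ)
    (NatIso.ofComponents (fun X : Rep k (GM m) =>
      { hom := mkHom (M := X) (N := shRep μ (shRep (-μ) X)) LinearMap.id (fun _ _ => rfl)
          (fun α x => (shR_shR' μ X α x).symm)
        inv := mkHom (M := shRep μ (shRep (-μ) X)) (N := X) LinearMap.id (fun _ _ => rfl)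
          (fun α x => shR_shR' μ X α x)
        hom_inv_id := rfl
        inv_hom_id := rfl }) (fun _ => rfl))
    (NatIso.ofComponents (fun X : Rep k (GM m) =>
      { hom := mkHom (M := shRep (-μ) (shRep μ X)) (N := X) LinearMap.id (fun _ _ => rfl)
          (fun α x => shR_shR μ X α x)
        inv := mkHom (M := X) (N := shRep (-μ) (shRep μ X)) LinearMap.id (fun _ _ => rfl)
          (fun α x => (shR_shR μ X α x).symm)
        hom_inv_id := rfl
        inv_hom_id := rfl }) (fun _ => rfl))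

/-- the shift of a subfunctor -/
def shS (μ : k) (A : Sub (U k (GM m))) : Sub (U k (GM m)) where
  car X := A.car (shRep μ X)
  map_mem f x hx := A.map_mem ((shF μ).map f) x hx

theorem mem_shS {μ : k} {A : Sub (U k (GM m))} {X : Rep k (GM m)} {x : X.X} :
    x ∈ sat (shS μ A) X ↔ x ∈ sat A (shRep μ X) := Iff.rfl

theorem shS_quot (μ : k) (A B : Sub (U k (GM m))) :
    shF μ ⋙ A.quot B = (shS μ A).quot (shS μ B) := rfl

theorem uni_shS (μ : k) {A B : Sub (U k (GM m))} (h : Uni (Stage (0 : Ordinal.{0})) (A.quot B)) :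
    Uni (Stage (0 : Ordinal.{0})) ((shS μ A).quot (shS μ B)) := by
  have : (shE (m := m) μ).functor.Additive :=
    (inferInstance : (shF (-μ) : Rep k (GM m) ⥤ Rep k (GM m)).Additive)
  have h1 := uni_pull (shE (m := m) μ) (stage_serre (0 : Ordinal.{0}))
    (stage_pull (shE (m := m) μ) 0) h
  exact h1

theorem sub_ext {A B : Sub (U k (GM m))} (h : ∀ (X : Rep k (GM m)) (x : X.X),
    x ∈ sat A X ↔ x ∈ sat B X) : A = B := by
  apply Sub.ext
  funext X
  ext x
  exact h X x

/-- `b - μ a` -/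
def bN (k : Type) [Field k] {m : ℕ} (μ : k) (s : Bool) (j : Fin m) : NatEnd k (GM m) :=
  (rN k (G := GM m) (MA.b s j)).sub (rN k (G := GM m) (MA.a s j)) μ

theorem bN_T (μ : k) (s : Bool) (j : Fin m) (X : Rep k (GM m)) (x : X.X) :
    (bN k μ s j).T X x = rb X s j x - μ • ra X s j x := rfl

/-- the kernel of `b - μ a` is uniserial -/
theorem uni_kerb' (μ : k) (s : Bool) (j : Fin m) : Uni (Stage (0 : Ordinal.{0}))
    ((Ev k (G := GM m) (MV.P s j) ⊓ (⊥ : Sub (U k (GM m))).comap (bN k μ s j).n).quot ⊥) := by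
  have h := uni_shS μ (uni_kerb (k := k) (stage_serre (0 : Ordinal.{0})) s j)
  have h1 : shS μ (pl k (Word.nil (G := GM m) (MV.P s j) false)) =
      Ev k (G := GM m) (MV.P s j) ⊓ (⊥ : Sub (U k (GM m))).comap (bN k μ s j).n := by
    refine sub_ext fun X x => ?_
    rw [mem_shS]
    refine (nilPf_pl (X := shRep μ X)).trans ?_
    refine Iff.trans ?_ mem_sat_inf.symm
    refine and_congr Iff.rfl ?_
    rw [mem_sat_comap, mem_sat_bot]
    rfl
  have h2 : shS μ (mi k (Word.nil (G := GM m) (MV.P s j) false)) = ⊥ := by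
    refine sub_ext fun X x => ?_
    rw [mem_shS, mem_sat_bot]
    constructor
    · intro hx
      exact nilPf_mi (X := shRep μ X) hx
    · rintro rfl
      exact zero_mem (sat (mi k (Word.nil (G := GM m) (MV.P s j) false)) (shRep μ X))
  rw [h1, h2] at h
  exact h

/-- the cokernel of `b - μ a` is uniserial -/
theorem uni_cokb' (μ : k) (s : Bool) (j : Fin m) : Uni (Stage (0 : Ordinal.{0}))
    ((Ev k (G := GM m) (MV.Q s j)).quot ((⊤ : Sub (U k (GM m))).map (bN k μ s j).n)) := by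
  have h := uni_shS μ (uni_cokb (k := k) (stage_serre (0 : Ordinal.{0})) s j)
  have h1 : shS μ (pl k (Word.nil (G := GM m) (MV.Q s j) false)) =
      Ev k (G := GM m) (MV.Q s j) := by
    refine sub_ext fun X x => ?_
    rw [mem_shS]
    refine (mem_pl_nil (G := GM m) (M := shRep μ X)).trans ?_
    refine Iff.trans ?_ mem_Ev.symm
    refine and_iff_left fun α hα hs => ?_
    obtain rfl := src_Q hα
    exact absurd hs (by simp [GM, MA.so])
  have h2 : shS μ (mi k (Word.nil (G := GM m) (MV.Q s j) false)) =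
      (⊤ : Sub (U k (GM m))).map (bN k μ s j).n := by
    refine sub_ext fun X x => ?_
    rw [mem_shS]
    refine (nilQf_mi (X := shRep μ X)).trans ?_
    refine Iff.trans ?_ mem_sat_map.symm
    constructor
    · rintro ⟨y, hy⟩
      exact ⟨y, mem_sat_top, hy⟩
    · rintro ⟨y, _, hy⟩
      exact ⟨y, hy⟩
  rw [h1, h2] at h
  exact h

end Pool.Agent.H56.UDs
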