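import Pool.Agent.H56.UD.Gen

/-!
# Uniserial dimension (MP_404602_al): smallness of `A / (A ∩ B)` modulo a Serre subcategory
-/

open CategoryTheory

namespace Pool.Agent.H56.UDs

universe w v u

variable {C : Type u} [Category.{v} C] [Preadditive C]

/-- `A / (A ∩ B)` belongs to `S` -/
def Sm (S : (C ⥤ AddCommGrpCat.{v}) → Prop) {F : C ⥤ AddCommGrpCat.{v}} (A B : Sub F) : Prop :=
  S (A.quot B)

/-- the subfunctor generated by an element -/
def gen {F : C ⥤ AddCommGrpCat.{v}} [F.Additive] {X : C} (x : F.obj X) : Sub F where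
  car M :=
    { carrier := {y | ∃ f : X ⟶ M, (F.map f).hom x = y}
      add_mem' := by
        rintro a b ⟨f, rfl⟩ ⟨g, rfl⟩
        exact ⟨f + g, map_add_ap F f g x⟩
      zero_mem' := ⟨0, map_zero_ap F x⟩
      neg_mem' := by
        rintro a ⟨f, rfl⟩
        refine ⟨-f, ?_⟩
        rw [F.map_neg]
        rfl }
  map_mem := by
    rintro M N f y ⟨g, rfl⟩
    exact ⟨g ≫ f, map_comp_ap F g f x⟩

section

variable {F : C ⥤ AddCommGrpCat.{v}} [F.Additive]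

theorem mem_gen {X M : C} {x : F.obj X} {y : F.obj M} :
    y ∈ (gen x).car M ↔ ∃ f : X ⟶ M, (F.map f).hom x = y := Iff.rfl

theorem gen_fg {X : C} (x : F.obj X) : (gen x).FG :=
  ⟨X, x, ⟨𝟙 X, map_id_ap F x⟩, fun _ _ h => h⟩

theorem self_mem_gen {X : C} (x : F.obj X) : x ∈ (gen x).car X := ⟨𝟙 X, map_id_ap F x⟩

theorem gen_le {X : C} {x : F.obj X} {A : Sub F} (h : x ∈ A.car X) : gen x ≤ A := by
  rintro M y ⟨f, rfl⟩
  exact A.map_mem f x h

theorem gen_le_iff {X : C} {x : F.obj X} {A : Sub F} : gen x ≤ A ↔ x ∈ A.car X :=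
  ⟨fun h => h X (self_mem_gen x), gen_le⟩

end

section

variable [Coh C] {S : (C ⥤ AddCommGrpCat.{v}) → Prop} {F : C ⥤ AddCommGrpCat.{v}}

theorem sm_of_le (hS : IsSerre S) (hF : IsFP F) {A B : Sub F} (hA : A.FG) (hB : B.FG)
    (h : A ≤ B) : Sm S A B := by
  refine hS.zero _ (quot_fp hF hA hB) fun M z => ?_
  obtain ⟨x, rfl⟩ := QuotientAddGroup.mk_surjective z
  exact (quot_mk_zero x).2 (h M x.2)

theorem sm_mono (hS : IsSerre S) (hF : IsFP F) {A B A' B' : Sub F} (hB : B.FG)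
    (hA' : A'.FG) (hB' : B'.FG) (h : Sm S A B) (h1 : A' ≤ A) (h2 : B ≤ B') : Sm S A' B' := by
  have e1 : Sm S A' B :=
    hS.sub _ _ (qmap (𝟙 F) A' B A B (fun M x hx => h1 M hx) fun M x _ hx => hx)
      (qmap_inj _ _ _ _ _ _ _ fun M x _ hx => hx) (quot_fp hF hA' hB) h
  exact hS.quo _ _ (qmap (𝟙 F) A' B A' B' (fun M x hx => hx) fun M x _ hx => h2 M hx)
      (qmap_surj _ _ _ _ _ _ _ fun M y hy => ⟨y, hy, by
        have : ((𝟙 F : F ⟶ F).app M).hom y = y := rfl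
        rw [this, sub_self]
        exact zero_mem _⟩) (quot_fp hF hA' hB') e1

/-- extension -/
theorem sm_ext (hS : IsSerre S) (hF : IsFP F) {A D E : Sub F} (hA : A.FG) (hD : D.FG)
    (hDE : D ≤ E) (h1 : Sm S (A ⊓ E) D) (h2 : Sm S A E) : Sm S A D := by
  refine hS.ext ((A ⊓ E).quot D) (A.quot D) (A.quot E)
    (qmap (𝟙 F) (A ⊓ E) D A D (fun M x hx => hx.1) fun M x _ hx => hx)
    (qmap (𝟙 F) A D A E (fun M x hx => hx) fun M x _ hx => hDE M hx)
    (qmap_inj _ _ _ _ _ _ _ fun M x _ hx => hx)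
    (qmap_surj _ _ _ _ _ _ _ fun M y hy => ⟨y, hy, by
        have : ((𝟙 F : F ⟶ F).app M).hom y = y := rfl
        rw [this, sub_self]
        exact zero_mem _⟩) (fun M z => ?_) (quot_fp hF hA hD) h1 h2
  obtain ⟨x, rfl⟩ := QuotientAddGroup.mk_surjective z
  constructor
  · intro h
    have h3 : (x : F.obj M) ∈ E.car M := (quot_mk_zero (A := A) (B := E) x).1 h
    exact ⟨(QuotientAddGroup.mk (⟨x, x.2, h3⟩ : (A ⊓ E).car M) :
      (A ⊓ E).car M ⧸ (D.car M).addSubgroupOf ((A ⊓ E).car M)), rfl⟩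
  · rintro ⟨y, hy⟩
    obtain ⟨y, rfl⟩ := QuotientAddGroup.mk_surjective y
    have h3 : (QuotientAddGroup.mk (⟨y, y.2.1⟩ : A.car M) :
      A.car M ⧸ (D.car M).addSubgroupOf (A.car M)) = QuotientAddGroup.mk x := hy
    rw [QuotientAddGroup.eq, AddSubgroup.mem_addSubgroupOf] at h3
    refine (quot_mk_zero (A := A) (B := E) x).2 ?_
    have h4 : (x : F.obj M) = (y : F.obj M) + (-(y : F.obj M) + x) := by abel
    rw [h4]
    exact add_mem y.2.2 (hDE M h3)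

theorem sm_sup_left (hS : IsSerre S) (hF : IsFP F) {A B D : Sub F} (hA : A.FG) (hB : B.FG)
    (hD : D.FG) (h : Sm S A D) : Sm S (A ⊔ B) (B ⊔ D) := by
  have hadd := hF.1
  refine hS.quo _ _ (qmap (𝟙 F) A D (A ⊔ B) (B ⊔ D) (fun M x hx => AddSubgroup.mem_sup_left hx)
    fun M x _ hx => AddSubgroup.mem_sup_right hx) (qmap_surj _ _ _ _ _ _ _ fun M y hy => ?_)
    (quot_fp hF (sup_fg hA hB) (sup_fg hB hD)) h
  obtain ⟨a, ha, b, hb, rfl⟩ := Sub.mem_sup.1 hy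
  refine ⟨a, ha, ?_⟩
  have : ((𝟙 F : F ⟶ F).app M).hom a = a := rfl
  rw [this, sub_add_cancel_left]
  exact neg_mem (AddSubgroup.mem_sup_left hb)

theorem sm_trans (hS : IsSerre S) (hF : IsFP F) {A B D : Sub F} (hA : A.FG) (hB : B.FG)
    (hD : D.FG) (h1 : Sm S A B) (h2 : Sm S B D) : Sm S A D := by
  have hadd := hF.1
  have e1 : Sm S (B ⊔ D) D := by
    have := sm_sup_left hS hF hB hD hD h2
    rwa [sup_idem] at this
  refine sm_ext hS hF (E := B ⊔ D) hA hD le_sup_right ?_ ?_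
  · exact sm_mono hS hF hD (inf_fg hF hA (sup_fg hB hD)) hD e1 inf_le_right le_rfl
  · exact sm_mono hS hF hB hA (sup_fg hB hD) h1 le_rfl le_sup_left

theorem sm_sup (hS : IsSerre S) (hF : IsFP F) {A B D : Sub F} (hA : A.FG) (hB : B.FG)
    (hD : D.FG) (h1 : Sm S A D) (h2 : Sm S B D) : Sm S (A ⊔ B) D := by
  have hadd := hF.1
  have e1 : Sm S (B ⊔ D) D := by
    have := sm_sup_left hS hF hB hD hD h2
    rwa [sup_idem] at this
  exact sm_trans hS hF (sup_fg hA hB) (sup_fg hB hD) hD (sm_sup_left hS hF hA hB hD h1) e1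

theorem sm_map (hS : IsSerre S) (hF : IsFP F) (φ : F ⟶ F) {A B : Sub F} (hA : A.FG) (hB : B.FG)
    (h : Sm S A B) : Sm S (A.map φ) (B.map φ) := by
  refine hS.quo _ _ (qmap φ A B (A.map φ) (B.map φ) (fun M x hx => ⟨x, hx, rfl⟩)
    fun M x _ hx => ⟨x, hx, rfl⟩) (qmap_surj _ _ _ _ _ _ _ ?_)
    (quot_fp hF (map_fg hA) (map_fg hB)) h
  rintro M y ⟨x, hx, rfl⟩
  exact ⟨x, hx, by rw [sub_self]; exact zero_mem _⟩

theorem sm_comap (hS : IsSerre S) (hF : IsFP F) (φ : F ⟶ F) {A B : Sub F} (hA : A.FG)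
    (hB : B.FG) (h : Sm S A B) : Sm S (A.comap φ) (B.comap φ) :=
  hS.sub _ _ (qmap φ (A.comap φ) (B.comap φ) A B (fun M x hx => hx)
    fun M x _ hx => hx) (qmap_inj _ _ _ _ _ _ _ fun M x _ hx => hx)
    (quot_fp hF (comap_fg hF hF hA) (comap_fg hF hF hB)) h

theorem sm_inf (hS : IsSerre S) (hF : IsFP F) {A B D : Sub F} (hA : A.FG) (hB : B.FG)
    (hD : D.FG) (h : Sm S A B) : Sm S (A ⊓ D) (B ⊓ D) :=
  hS.sub _ _ (qmap (𝟙 F) (A ⊓ D) (B ⊓ D) A B (fun M x hx => hx.1)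
    fun M x _ hx => hx.1) (qmap_inj _ _ _ _ _ _ _ fun M x hx hx' => ⟨hx', hx.2⟩)
    (quot_fp hF (inf_fg hF hA hD) (inf_fg hF hB hD)) h

/-- an image and a kernel -/
theorem sm_ker (hS : IsSerre S) (hF : IsFP F) (φ : F ⟶ F) {A : Sub F} (hA : A.FG)
    (h1 : Sm S (A.map φ) ⊥) (h2 : Sm S (A ⊓ (⊥ : Sub F).comap φ) ⊥) : Sm S A ⊥ := by
  have hb : (⊥ : Sub F).FG := bot_fg hF
  refine hS.ext ((A ⊓ (⊥ : Sub F).comap φ).quot ⊥) (A.quot ⊥) ((A.map φ).quot ⊥)
    (qmap (𝟙 F) _ ⊥ A ⊥ (fun M x hx => hx.1) fun M x _ hx => hx)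
    (qmap φ A ⊥ (A.map φ) ⊥ (fun M x hx => ⟨x, hx, rfl⟩) fun M x _ hx => ?_)
    (qmap_inj _ _ _ _ _ _ _ fun M x _ hx => hx)
    (qmap_surj _ _ _ _ _ _ _ ?_) (fun M z => ?_) (quot_fp hF hA hb) h2 h1
  · rw [Sub.mem_bot] at hx ⊢
    rw [hx, map_zero]
  · rintro M y ⟨x, hx, rfl⟩
    exact ⟨x, hx, by rw [sub_self]; exact zero_mem _⟩
  · obtain ⟨x, rfl⟩ := QuotientAddGroup.mk_surjective z
    constructor
    · intro h
      have h3 := (quot_mk_zero (A := A.map φ) (B := ⊥) (M := M)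
        ⟨(φ.app M).hom (x : F.obj M), ⟨x, x.2, rfl⟩⟩).1 h
      exact ⟨(QuotientAddGroup.mk (⟨x, x.2, h3⟩ : (A ⊓ (⊥ : Sub F).comap φ).car M) :
        (A ⊓ (⊥ : Sub F).comap φ).car M ⧸
          ((⊥ : Sub F).car M).addSubgroupOf ((A ⊓ (⊥ : Sub F).comap φ).car M)), rfl⟩
    · rintro ⟨y, hy⟩
      obtain ⟨y, rfl⟩ := QuotientAddGroup.mk_surjective y
      have h3 : (QuotientAddGroup.mk (⟨y, y.2.1⟩ : A.car M) :
        A.car M ⧸ ((⊥ : Sub F).car M).addSubgroupOf (A.car M)) = QuotientAddGroup.mk x := hy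
      rw [QuotientAddGroup.eq, AddSubgroup.mem_addSubgroupOf] at h3
      have h4 : -(y : F.obj M) + x = 0 := Sub.mem_bot.1 h3
      have h5 : (x : F.obj M) = y := by
        rw [neg_add_eq_zero] at h4
        exact h4.symm
      refine (quot_mk_zero (A := A.map φ) (B := ⊥) (M := M)
        ⟨(φ.app M).hom (x : F.obj M), ⟨x, x.2, rfl⟩⟩).2 ?_
      change (φ.app M).hom (x : F.obj M) ∈ (⊥ : Sub F).car M
      rw [h5]
      exact y.2.2

/-- criterion for `P / Q` to be uniserial modulo `S` -/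
theorem uni_crit (hS : IsSerre S) (hF : IsFP F) [F.Additive] {P Q : Sub F} (hP : P.FG)
    (hQ : Q.FG) (hQP : Q ≤ P)
    (h : ∀ (X Y : C) (x : F.obj X) (y : F.obj Y), x ∈ P.car X → y ∈ P.car Y →
      Sm S (gen x) (gen y ⊔ Q) ∨ Sm S (gen y) (gen x ⊔ Q)) : Uni S (P.quot Q) := by
  refine ⟨quot_fp hF hP hQ, ?_⟩
  -- the key implication
  have key : ∀ (A B : Sub (P.quot Q)) (X Y : C) (x : P.car X) (y : P.car Y), A.FG → B.FG →
      (∀ (M : C) (z : (P.quot Q).obj M), z ∈ A.car M → ∃ f : X ⟶ M,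
        ((P.quot Q).map f).hom (QuotientAddGroup.mk x :
          P.car X ⧸ (Q.car X).addSubgroupOf (P.car X)) = z) →
      (QuotientAddGroup.mk y : P.car Y ⧸ (Q.car Y).addSubgroupOf (P.car Y)) ∈ B.car Y →
      Sm S (gen (F := F) (x : F.obj X)) (gen (F := F) (y : F.obj Y) ⊔ Q) → S (A.quot B) := by
    intro A B X Y x y hA hB hx hy hxy
    have hPf : IsFP P.fn := fn_fp hF hP
    have hPQ : IsFP (P.quot Q) := quot_fp hF hP hQ
    have hA1 : (A.comap (P.π Q)).FG := comap_fg hPf hPQ hA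
    have hB1 : (B.comap (P.π Q)).FG := comap_fg hPf hPQ hB
    have hA2 : ((A.comap (P.π Q)).map P.ι).FG := map_fg hA1
    have hB2 : ((B.comap (P.π Q)).map P.ι).FG := map_fg hB1
    have e1 : Sm S (gen (F := F) (x : F.obj X) ⊔ Q) (gen (F := F) (y : F.obj Y) ⊔ Q) :=
      sm_sup hS hF (gen_fg _) hQ (sup_fg (gen_fg _) hQ) hxy
        (sm_of_le hS hF hQ (sup_fg (gen_fg _) hQ) le_sup_right)
    have e2 : Sm S ((A.comap (P.π Q)).map P.ι) ((B.comap (P.π Q)).map P.ι) := by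
      refine sm_mono hS hF (sup_fg (gen_fg _) hQ) hA2 hB2 e1 ?_ ?_
      · rintro M _ ⟨(z : P.car M), hz, rfl⟩
        obtain ⟨f, hf⟩ := hx M _ hz
        have h1 : (QuotientAddGroup.mk (P.res f x) : P.car M ⧸ (Q.car M).addSubgroupOf (P.car M)) =
          (QuotientAddGroup.mk z : P.car M ⧸ (Q.car M).addSubgroupOf (P.car M)) := hf
        rw [QuotientAddGroup.eq, AddSubgroup.mem_addSubgroupOf] at h1
        refine Sub.mem_sup.2 ⟨(F.map f).hom (x : F.obj X), ⟨f, rfl⟩, _, h1, ?_⟩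
        change (F.map f).hom (x : F.obj X) + (-(F.map f).hom (x : F.obj X) + (z : F.obj M)) =
          (z : F.obj M)
        rw [add_neg_cancel_left]
      · intro M z hz
        obtain ⟨a, ⟨f, rfl⟩, q, hq, rfl⟩ := Sub.mem_sup.1 hz
        refine ⟨(⟨(F.map f).hom (y : F.obj Y) + q, add_mem (P.map_mem f _ y.2) (hQP M hq)⟩ :
          P.car M), ?_, rfl⟩
        have h1 : (QuotientAddGroup.mk (⟨(F.map f).hom (y : F.obj Y) + q,
            add_mem (P.map_mem f _ y.2) (hQP M hq)⟩ : P.car M) :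
            P.car M ⧸ (Q.car M).addSubgroupOf (P.car M)) =
            QuotientAddGroup.mk (P.res f y) := by
          rw [QuotientAddGroup.eq, AddSubgroup.mem_addSubgroupOf]
          change -((F.map f).hom (y : F.obj Y) + q) + (F.map f).hom (y : F.obj Y) ∈ Q.car M
          have : -((F.map f).hom (y : F.obj Y) + q) + (F.map f).hom (y : F.obj Y) = -q := by
            abel
          rw [this]
          exact neg_mem hq
        have h2 := B.map_mem f _ hy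
        change ((P.π Q).app M).hom (⟨(F.map f).hom (y : F.obj Y) + q,
            add_mem (P.map_mem f _ y.2) (hQP M hq)⟩ : P.car M) ∈ B.car M
        have h3 : ((P.π Q).app M).hom (⟨(F.map f).hom (y : F.obj Y) + q,
            add_mem (P.map_mem f _ y.2) (hQP M hq)⟩ : P.car M) =
            ((P.quot Q).map f).hom (QuotientAddGroup.mk y :
              P.car Y ⧸ (Q.car Y).addSubgroupOf (P.car Y)) := h1
        rw [h3]
        exact h2
    have e3 : S ((A.comap (P.π Q)).quot (B.comap (P.π Q))) := by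
      refine hS.sub _ _ (qmap P.ι _ _ ((A.comap (P.π Q)).map P.ι) ((B.comap (P.π Q)).map P.ι)
        (fun M x hx => ⟨x, hx, rfl⟩) fun M x _ hx => ⟨x, hx, rfl⟩)
        (qmap_inj _ _ _ _ _ _ _ ?_) (quot_fp hPf hA1 hB1) e2
      rintro M x hx ⟨y, hy, hyx⟩
      rw [← P.ι_inj M hyx]
      exact hy
    refine hS.quo _ _ (qmap (P.π Q) (A.comap (P.π Q)) (B.comap (P.π Q)) A B (fun M x hx => hx)
        fun M x _ hx => hx) (qmap_surj _ _ _ _ _ _ _ ?_) (quot_fp hPQ hA hB) e3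
    intro M z hz
    obtain ⟨t, rfl⟩ := Sub.π_surj P Q M z
    exact ⟨t, hz, by rw [sub_self]; exact zero_mem _⟩
  intro A B hA hB
  have hA' := fg_of_fp hA
  have hB' := fg_of_fp hB
  obtain ⟨X, a, ha, hX⟩ := id hA'
  obtain ⟨Y, b, hb, hY⟩ := id hB'
  obtain ⟨x, rfl⟩ := QuotientAddGroup.mk_surjective a
  obtain ⟨y, rfl⟩ := QuotientAddGroup.mk_surjective b
  rcases h X Y x y x.2 y.2 with h1 | h1
  · exact Or.inl (key A B X Y x y hA' hB' hX hb h1)
  · exact Or.inr (key B A Y X y x hB' hA' hY ha h1)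

end

end Pool.Agent.H56.UDs
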