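import Pool.Agent.H56.UD.Chn

/-!
# Uniserial dimension (MP_404602_al): maps from the representation of two words, recurrences
-/

open CategoryTheory

namespace Pool.Agent.H56.UDs

section Two

variable {k : Type} [Field k] {G : Gentle} {v : G.V} {s t : Bool}

/-- (b2), with a formula -/
theorem exB2f (hst : s ≠ t) (P : PRep k G v s) (Q : PRep k G v t) {X : Rep k G}
    {f₁ : P.N.X →ₗ[k] X.X} {f₂ : Q.N.X →ₗ[k] X.X} (h₁ : TwB P X f₁) (h₂ : TwB Q X f₂)
    (hz : f₁ P.z = f₂ Q.z) : ∃ φ : twoRep hst P Q ⟶ X, ∀ x, φ.f x =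
      f₁ (twoFst hst P Q x) + f₂ (twoSnd hst P Q x) - twoζ hst P Q x • f₁ P.z := by
  have hxv : X.e v (f₁ P.z) = f₁ P.z := by rw [← h₁.1, P.e_z]
  let f : (twoRep hst P Q).X →ₗ[k] X.X := f₁.comp (twoFst hst P Q) + f₂.comp (twoSnd hst P Q) -
    (twoζ hst P Q).smulRight (f₁ P.z)
  have hf : ∀ x, f x = f₁ (twoFst hst P Q x) + f₂ (twoSnd hst P Q x) -
      twoζ hst P Q x • f₁ P.z := fun x => rfl
  refine ⟨mkHom f (fun u x => ?_) (fun γ x => ?_), hf⟩
  · rw [hf, hf, twoFst_e, twoSnd_e, h₁.1, h₂.1, map_sub, map_add, map_smul, ← twoζ_fst,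
      ← twoζ_fst, twoFst_e]
    by_cases hu : u = v
    · subst hu
      rw [P.ζ_e, hxv]
    · rw [P.ζ_e_ne hu, e_other hu hxv, zero_smul, smul_zero]
  · rw [hf, hf, twoFst_r, twoSnd_r, ← twoζ_fst, twoFst_r, map_add, map_add, map_smul, map_smul,
      h₁.2, h₂.2, ← hz, map_sub, map_add, map_smul, map_add, map_smul, P.ζ_z, smul_eq_mul, mul_one,
      ← twoζ_fst hst P Q x]
    have hζ2 : Q.ζ (twoSnd hst P Q x) = P.ζ (twoFst hst P Q x) := by
      rw [twoζ_snd, twoζ_fst]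
    rw [hζ2]
    -- the corrections for the arrows leaving `v`
    have key1 : (P.ζ (twoFst hst P Q x) • X.r γ (f₁ P.z) : X.X) =
        (if G.src γ = v ∧ G.so γ ≠ s then P.ζ (twoFst hst P Q x) • X.r γ (f₁ P.z) else 0) +
        (if G.src γ = v ∧ G.so γ ≠ t then P.ζ (twoFst hst P Q x) • X.r γ (f₁ P.z) else 0) := by
      by_cases hγ : G.src γ = v
      · rcases bool_cases hst (G.so γ) with ⟨h1, h2⟩ | ⟨h1, h2⟩
        · rw [if_neg (fun h => h.2 h1), if_pos ⟨hγ, h2⟩, zero_add]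
        · rw [if_pos ⟨hγ, h1⟩, if_neg (fun h => h.2 h2), add_zero]
      · rw [r_other hγ hxv, smul_zero, if_neg (fun h => hγ h.1), if_neg (fun h => hγ h.1), add_zero]
    have key2 : P.ζ (P.N.r γ (twoFst hst P Q x)) =
        (if G.tgt γ = v ∧ G.si γ ≠ t then P.ζ (P.N.r γ (twoFst hst P Q x)) else 0) := by
      by_cases hγ : G.tgt γ = v
      · rcases bool_cases hst (G.si γ) with ⟨h1, h2⟩ | ⟨h1, h2⟩
        · rw [if_pos ⟨hγ, h2⟩]
        · rw [if_neg (fun h => h.2 h2), P.ζ_in γ hγ h1]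
      · rw [if_neg (fun h => hγ h.1), P.ζ_r_ne hγ]
    rw [add_smul, ← key2]
    generalize (if G.src γ = v ∧ G.so γ ≠ s then P.ζ (twoFst hst P Q x) • X.r γ (f₁ P.z) else 0) = A
      at key1 ⊢
    generalize (if G.src γ = v ∧ G.so γ ≠ t then P.ζ (twoFst hst P Q x) • X.r γ (f₁ P.z) else 0) = B
      at key1 ⊢
    rw [key1]
    abel

end Two

variable {m : ℕ} {k : Type} [Field k] {s : Bool} {j : Fin m}
variable {S : (Rep k (GM m) ⥤ AddCommGrpCat.{0}) → Prop}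

/-- the recurrence `q(T) v = w` can be solved up to small functors -/
def Solv (S : (Rep k (GM m) ⥤ AddCommGrpCat.{0}) → Prop) (s : Bool) (j : Fin m)
    (D : Word (GM m) (MV.P s j) false) (q : Polynomial k) : Prop :=
  ∃ A : Sub (U k (GM m)), A.FG ∧ A ≤ Ev k (G := GM m) (MV.P s j) ∧
    Sm S (Ev k (G := GM m) (MV.P s j)) A ∧
    ∀ (Y : Rep k (GM m)) (w : ℕ → Y.X) (r : ℕ), (∀ i, w i ∈ VP Y s j) →
      (∀ i < r, ra Y s j (w i) = rb Y s j (w (i + 1))) → w 0 ∈ sat A Y → w 0 ∈ sat (pl k D) Y →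
      ∃ v : ℕ → Y.X, (∀ i, v i ∈ VP Y s j) ∧
        (∀ i < r, ra Y s j (v i) = rb Y s j (v (i + 1))) ∧ v 0 ∈ sat (pl k D) Y ∧
        Polynomial.aeval (shT k Y.X) q v = w

theorem solv_one (hS : IsSerre S) (D : Word (GM m) (MV.P s j) false) : Solv S s j D 1 := by
  refine ⟨Ev k (G := GM m) (MV.P s j), Ev_fg _, le_rfl,
    sm_of_le hS U_fp (Ev_fg _) (Ev_fg _) le_rfl, fun Y w r h1 h2 _ h3 => ⟨w, h1, h2, h3, ?_⟩⟩
  rw [map_one]
  rfl

theorem solv_step (hS : IsSerre S) {n : ℕ} {Z : Word (GM m) (MV.Q s j) true} (hZ : Short Z)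
    (hq : ∀ c : k, Sm S (Ev k (G := GM m) (MV.Q s j)) ((⊤ : Sub (U k (GM m))).map (bN k c s j).n))
    (c : k) (hc : c ≠ 0) (q : Polynomial k) (h : Solv S s j (DD s j Z n) q) :
    Solv S s j (DD s j Z n) ((1 - Polynomial.C c * Polynomial.X) * q) := by
  obtain ⟨A, hA, hAE, hAS, hAw⟩ := h
  refine ⟨stS s j (rN k (G := GM m) (MA.b s j)) (bN k c s j) A, stS_fg hA, stS_le,
    sm_stS hS (fun X x => rb_mem x) (hq c) (fun X x => ?_) hA hAS, ?_⟩
  · change rb X s j _ - c • ra X s j _ = rb X s j x - c • ra X s j x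
    rw [rb_e, ra_e]
  intro Y w r hwV hwc hw0 hwD
  obtain ⟨⟨u0, hu0A, hu0⟩, _⟩ := hw0
  have hu0' : rb Y s j u0 - c • ra Y s j u0 = rb Y s j (w 0) := hu0
  have hu0V : u0 ∈ VP Y s j := sat_mono hAE Y hu0A
  let u : ℕ → Y.X := fun i => Nat.rec u0 (fun i t => c⁻¹ • (t - w i)) i
  have hu_z : u 0 = u0 := rfl
  have hu_s : ∀ i, u (i + 1) = c⁻¹ • (u i - w i) := fun i => rfl
  have huV : ∀ i, u i ∈ VP Y s j := by
    intro i
    induction i with
    | zero => exact hu0V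
    | succ i ih =>
      rw [hu_s]
      exact Submodule.smul_mem _ _ (sub_mem ih (hwV i))
  have hub : ∀ i ≤ r, rb Y s j (u i) - c • ra Y s j (u i) = rb Y s j (w i) := by
    intro i
    induction i with
    | zero => exact fun _ => hu0'
    | succ i ih =>
      intro hi
      have h1 := ih (Nat.le_of_succ_le hi)
      rw [← hwc i (Nat.lt_of_succ_le hi), hu_s, map_smul, map_smul, map_sub, map_sub,
        smul_comm c c⁻¹, ← smul_sub, smul_sub c]
      have h2 : rb Y s j (u i) - rb Y s j (w i) - (c • ra Y s j (u i) - c • ra Y s j (w i)) =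
          c • ra Y s j (w i) := by
        rw [← h1]
        abel
      rw [h2, smul_smul, inv_mul_cancel₀ hc, one_smul]
  have huc : ∀ i < r, ra Y s j (u i) = rb Y s j (u (i + 1)) := by
    intro i hi
    have h1 := hub i hi.le
    rw [hu_s, map_smul, map_sub, ← h1, sub_sub_cancel, smul_smul, inv_mul_cancel₀ hc, one_smul]
  obtain ⟨v, hv1, hv2, hv3, hv4⟩ := hAw Y u r huV huc hu0A (dd_shift hZ Y c hu0V n hwD hu0')
  refine ⟨v, hv1, hv2, hv3, ?_⟩
  rw [map_mul, Module.End.mul_apply, hv4, map_sub, map_one, map_mul, Polynomial.aeval_X,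
    LinearMap.sub_apply, Module.End.mul_apply, aeval_C_shT]
  funext i
  change u i - c • u (i + 1) = w i
  rw [hu_s, smul_smul, mul_inv_cancel₀ hc, one_smul, sub_sub_cancel]

theorem solv [IsAlgClosed k] (hS : IsSerre S) {n : ℕ} {Z : Word (GM m) (MV.Q s j) true}
    (hZ : Short Z)
    (hq : ∀ c : k, Sm S (Ev k (G := GM m) (MV.Q s j)) ((⊤ : Sub (U k (GM m))).map (bN k c s j).n))
    (q : Polynomial k) (h0 : q.coeff 0 = 1) : Solv S s j (DD s j Z n) q :=
  poly_factor (Solv S s j (DD s j Z n)) (solv_one hS _)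
    (fun c q hc h => solv_step hS hZ hq c hc q h) _ q le_rfl h0

end Pool.Agent.H56.UDs
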