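import Pool.Agent.H56.UD.Shift

/-!
# Uniserial dimension (MP_404602_al): the operations `φ⁻¹ ψ` on subfunctors
-/

open CategoryTheory

namespace Pool.Agent.H56.UDs

variable {m : ℕ} {k : Type} [Field k]

/-- `φ⁻¹ (ψ A)` at the vertex `P s j` -/
def stS (s : Bool) (j : Fin m) (φ ψ : NatEnd k (GM m)) (A : Sub (U k (GM m))) :
    Sub (U k (GM m)) :=
  (A.map ψ.n).comap φ.n ⊓ Ev k (G := GM m) (MV.P s j)

variable {s : Bool} {j : Fin m} {φ ψ : NatEnd k (GM m)} {A : Sub (U k (GM m))}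

theorem sat_stS (A : Sub (U k (GM m))) (X : Rep k (GM m)) :
    sat (stS s j φ ψ A) X = stp (φ.T X) (ψ.T X) (VP X s j) (sat A X) := by
  ext x
  exact Iff.rfl

theorem sat_stS_it (A : Sub (U k (GM m))) (X : Rep k (GM m)) (n : ℕ) :
    sat ((stS s j φ ψ)^[n] A) X = (stp (φ.T X) (ψ.T X) (VP X s j))^[n] (sat A X) := by
  induction n with
  | zero => rfl
  | succ n ih => rw [Function.iterate_succ_apply', Function.iterate_succ_apply', sat_stS, ih]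

theorem stS_fg (hA : A.FG) : (stS s j φ ψ A).FG :=
  inf_fg U_fp (comap_fg U_fp U_fp (map_fg hA)) (Ev_fg _)

theorem stS_it_fg (hA : A.FG) (n : ℕ) : ((stS s j φ ψ)^[n] A).FG := by
  induction n with
  | zero => exact hA
  | succ n ih =>
    rw [Function.iterate_succ_apply']
    exact stS_fg ih

theorem stS_le : stS s j φ ψ A ≤ Ev k (G := GM m) (MV.P s j) := inf_le_right

theorem stS_it_le (n : ℕ) :
    (stS s j φ ψ)^[n] (Ev k (G := GM m) (MV.P s j)) ≤ Ev k (G := GM m) (MV.P s j) := by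
  cases n with
  | zero => exact le_rfl
  | succ n =>
    rw [Function.iterate_succ_apply']
    exact stS_le

variable {S : (Rep k (GM m) ⥤ AddCommGrpCat.{0}) → Prop}

theorem sm_map_bot (hS : IsSerre S) (ψ : NatEnd k (GM m)) (hA : A.FG) (h : Sm S A ⊥) :
    Sm S (A.map ψ.n) ⊥ := by
  have hb : (⊥ : Sub (U k (GM m))).FG := bot_fg U_fp
  refine sm_mono hS U_fp (map_fg hb) (map_fg hA) hb (sm_map hS U_fp ψ.n hA hb h) le_rfl ?_
  refine le_of_sat fun X x hx => ?_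
  obtain ⟨y, hy, rfl⟩ := mem_sat_map.1 hx
  rw [mem_sat_bot.1 hy, map_zero]
  exact zero_mem _

/-- smallness of `φ⁻¹ (ψ A)` -/
theorem sm_stS_bot (hS : IsSerre S)
    (hk : Sm S (Ev k (G := GM m) (MV.P s j) ⊓ (⊥ : Sub (U k (GM m))).comap φ.n) ⊥)
    (hA : A.FG) (h : Sm S A ⊥) : Sm S (stS s j φ ψ A) ⊥ := by
  have hb : (⊥ : Sub (U k (GM m))).FG := bot_fg U_fp
  have hc : ((⊥ : Sub (U k (GM m))).comap φ.n).FG := comap_fg U_fp U_fp hb
  refine sm_ker hS U_fp φ.n (stS_fg hA) ?_ ?_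
  · refine sm_mono hS U_fp hb (map_fg (stS_fg hA)) hb (sm_map_bot hS ψ hA h) ?_ le_rfl
    refine le_of_sat fun X x hx => ?_
    obtain ⟨y, hy, rfl⟩ := mem_sat_map.1 hx
    exact hy.1
  · refine sm_mono hS U_fp hb (inf_fg U_fp (stS_fg hA) hc) hb hk ?_ le_rfl
    exact inf_le_inf_right _ stS_le

theorem sm_stS_it_bot (hS : IsSerre S)
    (hk : Sm S (Ev k (G := GM m) (MV.P s j) ⊓ (⊥ : Sub (U k (GM m))).comap φ.n) ⊥) (n : ℕ) :
    Sm S ((stS s j φ ψ)^[n] ⊥) ⊥ := by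
  have hb : (⊥ : Sub (U k (GM m))).FG := bot_fg U_fp
  induction n with
  | zero => exact sm_of_le hS U_fp hb hb le_rfl
  | succ n ih =>
    rw [Function.iterate_succ_apply']
    exact sm_stS_bot hS hk (stS_it_fg hb n) ih

/-- cosmallness of `φ⁻¹ (ψ A)` -/
theorem sm_stS (hS : IsSerre S) (hφ : ∀ (X : Rep k (GM m)) (x : X.X), φ.T X x ∈ VQ X s j)
    (hψ : Sm S (Ev k (G := GM m) (MV.Q s j)) ((⊤ : Sub (U k (GM m))).map ψ.n))
    (hψe : ∀ (X : Rep k (GM m)) (x : X.X), ψ.T X (X.e (MV.P s j) x) = ψ.T X x)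
    (hA : A.FG) (h : Sm S (Ev k (G := GM m) (MV.P s j)) A) :
    Sm S (Ev k (G := GM m) (MV.P s j)) (stS s j φ ψ A) := by
  have ht : (⊤ : Sub (U k (GM m))).FG := top_fg U_fp
  have hP : (Ev k (G := GM m) (MV.P s j)).FG := Ev_fg _
  have hQ : (Ev k (G := GM m) (MV.Q s j)).FG := Ev_fg _
  have hc : ((A.map ψ.n).comap φ.n).FG := comap_fg U_fp U_fp (map_fg hA)
  have hc' : ((Ev k (G := GM m) (MV.Q s j)).comap φ.n).FG := comap_fg U_fp U_fp hQ
  have e1 : Sm S (Ev k (G := GM m) (MV.Q s j)) (A.map ψ.n) := by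
    refine sm_trans hS U_fp hQ (map_fg ht) (map_fg hA) hψ ?_
    refine sm_mono hS U_fp (map_fg hA) (map_fg ht) (map_fg hA) (sm_map hS U_fp ψ.n hP hA h) ?_
      le_rfl
    refine le_of_sat fun X x hx => ?_
    obtain ⟨y, hy, rfl⟩ := mem_sat_map.1 hx
    exact mem_sat_map.2 ⟨_, e_memP y, hψe X y⟩
  have e3 := sm_inf hS U_fp hc' hc hP (sm_comap hS U_fp φ.n hQ (map_fg hA) e1)
  refine sm_mono hS U_fp (stS_fg hA) hP (stS_fg hA) e3 ?_ le_rfl
  exact le_inf (le_of_sat fun X x _ => hφ X x) le_rfl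

theorem sm_stS_it (hS : IsSerre S) (hφ : ∀ (X : Rep k (GM m)) (x : X.X), φ.T X x ∈ VQ X s j)
    (hψ : Sm S (Ev k (G := GM m) (MV.Q s j)) ((⊤ : Sub (U k (GM m))).map ψ.n))
    (hψe : ∀ (X : Rep k (GM m)) (x : X.X), ψ.T X (X.e (MV.P s j) x) = ψ.T X x) (n : ℕ) :
    Sm S (Ev k (G := GM m) (MV.P s j)) ((stS s j φ ψ)^[n] (Ev k (G := GM m) (MV.P s j))) := by
  induction n with
  | zero => exact sm_of_le hS U_fp (Ev_fg _) (Ev_fg _) le_rfl
  | succ n ih =>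
    rw [Function.iterate_succ_apply']
    exact sm_stS hS hφ hψ hψe (stS_it_fg (Ev_fg _) n) ih

theorem sm_gen_bot (hS : IsSerre S) {A B : Sub (U k (GM m))} (hB : B.FG)
    (h : Sm S A ⊥) {X : Rep k (GM m)} {x : X.X} (hx : x ∈ sat A X) :
    Sm S (gen (F := U k (GM m)) (X := X) x) B :=
  sm_mono hS U_fp (bot_fg U_fp) (gen_fg _) hB h (gen_le_sat.2 hx) bot_le

end Pool.Agent.H56.UDs
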