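import Pool.Agent.H56.UD.GM

/-!
# Uniserial dimension (MP_404602_al): the structure of the representations of words at a block
-/

open CategoryTheory

namespace Pool.Agent.H56.UDs

section Fix

variable {k : Type} [Field k] {G : Gentle}

theorem nilP_fix {v : G.V} {s : Bool} {u : G.V} {n : (nilP k v s).N.X}
    (h : (nilP k v s).N.e u n = n) (hu : u ≠ v) : n = 0 := by
  rw [nilP_e, if_neg hu] at h
  exact h.symm

theorem dirP_fix {α : G.A} {P : PRep k G (G.src α) (!G.so α)} {u : G.V} {ν : P.N.X} {t : k}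
    (h : (dirP α P).N.e u ((ν, t) : P.N.X × k) = ((ν, t) : P.N.X × k)) :
    P.N.e u ν = ν ∧ (u ≠ G.tgt α → t = 0) := by
  rw [dirP_e] at h
  refine ⟨congrArg Prod.fst h, fun hu => ?_⟩
  rw [if_neg hu] at h
  exact (congrArg Prod.snd h).symm

theorem invP_fix {α : G.A} {P : PRep k G (G.tgt α) (!G.si α)} {u : G.V} {ν : P.N.X} {t : k}
    (h : (invP α P).N.e u ((ν, t) : P.N.X × k) = ((ν, t) : P.N.X × k)) :
    P.N.e u ν = ν ∧ (u ≠ G.src α → t = 0) := by
  rw [invP_e] at h
  refine ⟨congrArg Prod.fst h, fun hu => ?_⟩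
  rw [if_neg hu] at h
  exact (congrArg Prod.snd h).symm

theorem dirP_zero {α : G.A} {P : PRep k G (G.src α) (!G.so α)} {ν : P.N.X} {t : k}
    (h : (dirP α P).N.r α ((ν, t) : P.N.X × k) = 0) : P.N.r α ν = 0 ∧ P.ζ ν = 0 := by
  rw [dirP_r_self] at h
  exact ⟨congrArg Prod.fst h, congrArg Prod.snd h⟩

theorem dirP_zero' {α γ : G.A} (hγ : γ ≠ α) {P : PRep k G (G.src α) (!G.so α)} {ν : P.N.X} {t : k}
    (h : (dirP α P).N.r γ ((ν, t) : P.N.X × k) = 0) : P.N.r γ ν = 0 := by
  rw [dirP_r_ne _ _ hγ] at h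
  exact congrArg Prod.fst h

theorem invP_zero' {α γ : G.A} (hγ : γ ≠ α) {P : PRep k G (G.tgt α) (!G.si α)} {ν : P.N.X} {t : k}
    (h : (invP α P).N.r γ ((ν, t) : P.N.X × k) = 0) : P.N.r γ ν = 0 := by
  rw [invP_r_ne _ _ hγ] at h
  exact congrArg Prod.fst h

theorem dirP_mk {α : G.A} {P : PRep k G (G.src α) (!G.so α)} {u : G.V} {ν : P.N.X}
    (h : P.N.e u ν = ν) :
    (dirP α P).N.e u ((ν, 0) : P.N.X × k) = ((ν, 0) : P.N.X × k) := by
  rw [dirP_e]
  exact Prod.ext h (ite_self _)

theorem invP_mk {α : G.A} {P : PRep k G (G.tgt α) (!G.si α)} {u : G.V} {ν : P.N.X} {t : k}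
    (h : P.N.e u ν = ν) (hu : u = G.src α) :
    (invP α P).N.e u ((ν, t) : P.N.X × k) = ((ν, t) : P.N.X × k) := by
  rw [invP_e, if_pos hu]
  exact Prod.ext h rfl

theorem dirP_z_eq {α : G.A} {P : PRep k G (G.src α) (!G.so α)} (t : k) :
    (((0, t) : P.N.X × k) : (dirP α P).N.X) = t • (dirP α P).z :=
  Prod.ext (smul_zero _).symm (mul_one t).symm

theorem invP_z_eq {α : G.A} {P : PRep k G (G.tgt α) (!G.si α)} (t : k) :
    (((0, t) : P.N.X × k) : (invP α P).N.X) = t • (invP α P).z :=
  Prod.ext (smul_zero _).symm (mul_one t).symm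

theorem nilP_z_eq {v : G.V} {s : Bool} (n : (nilP k v s).N.X) :
    n = (show k from n) • (nilP k v s).z := (mul_one (show k from n)).symm

theorem smul_z_zero {v : G.V} {s : Bool} {P : PRep k G v s} {c : k} {ν : P.N.X}
    (h : ν = c • P.z) (h0 : P.ζ ν = 0) : ν = 0 := by
  have hc : c = 0 := by
    rw [h, map_smul, P.ζ_z, smul_eq_mul, mul_one] at h0
    exact h0
  rw [h, hc, zero_smul]

end Fix

variable {m : ℕ} {k : Type} [Field k]

theorem P_ne_Q (s s' : Bool) (j j' : Fin m) : (MV.P s j : MV m) ≠ MV.Q s' j' := by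
  intro h
  cases h

theorem inn_start (s : Bool) (j : Fin m) :
    InnSt s j.val ((GM m).tgt (MA.c s j)) (!(GM m).si (MA.c s j)) := by
  rcases j with ⟨_ | i, hi⟩
  · rfl
  · exact Or.inl ⟨rfl, Nat.lt_succ_self i, rfl⟩

theorem out_start (s : Bool) (j : Fin m) (h : j.val + 1 < m) :
    OutSt (m := m) s (j.val + 1) (MV.Q s ⟨j.val + 1, h⟩) false := ⟨rfl, le_rfl, rfl⟩

/-- the properties of the representations of the words in the inner direction -/
def InnP (s : Bool) (j : Fin m) {v : (GM m).V} {x : Bool} (R : PRep k (GM m) v x) : Prop :=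
  (v = MV.P s j → x = false →
    (∀ n, R.N.e (MV.P s j) n = n → R.N.r (MA.a s j) n = 0 → ∃ c : k, n = c • R.z) ∧
    (∀ n, R.N.e (MV.Q s j) n = n → ∃ p, R.N.e (MV.P s j) p = p ∧ R.N.r (MA.b s j) p = n)) ∧
  (v = MV.Q s j → x = true →
    (∀ n, R.N.e (MV.P s j) n = n → R.N.r (MA.a s j) n = 0 → n = 0) ∧
    (∀ n, R.N.e (MV.Q s j) n = n → ∃ (c : k) (p : R.N.X), R.N.e (MV.P s j) p = p ∧
      n = c • R.z + R.N.r (MA.b s j) p))

theorem innP (s : Bool) (j : Fin m) {v : (GM m).V} {x : Bool} (w : Word (GM m) v x) :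
    InnP (k := k) s j (germ k w) := by
  induction w with
  | nil v x =>
    constructor
    · rintro rfl rfl
      constructor
      · exact fun n _ _ => ⟨_, nilP_z_eq n⟩
      · intro n hn
        rw [nilP_fix hn (P_ne_Q s s j j).symm]
        exact ⟨0, map_zero _, map_zero _⟩
    · rintro rfl rfl
      constructor
      · exact fun n hn _ => nilP_fix hn (P_ne_Q s s j j)
      · intro n _
        refine ⟨(show k from n), 0, map_zero _, ?_⟩
        exact (nilP_z_eq n).trans (add_zero _).symm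
  | dir α w ih =>
    constructor
    · intro hv hx
      obtain ⟨h, rfl⟩ := tgt_P hv
      exact absurd hx (by simp [GM, MA.si])
    · intro hv hx
      rcases tgt_Q hv with rfl | rfl
      · obtain ⟨ih1, ih2⟩ := ih.1 rfl rfl
        constructor
        · rintro ⟨ν, t⟩ hn ha
          obtain ⟨hν, ht⟩ := dirP_fix hn
          obtain ⟨ha1, ha2⟩ := dirP_zero ha
          obtain ⟨c, hc⟩ := ih1 ν hν ha1
          exact Prod.ext (smul_z_zero hc ha2) (ht (P_ne_Q s s j j))
        · rintro ⟨ν, t⟩ hn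
          obtain ⟨p, hp, hbp⟩ := ih2 ν (dirP_fix hn).1
          refine ⟨t, ((p, 0) : (germ k w).N.X × k), dirP_mk hp, ?_⟩
          have h5 := dirP_r_ne (k := k) (G := GM m) (MA.a s j) (germ k w) (γ := MA.b s j)
              (by intro h; cases h) ((p, 0) : (germ k w).N.X × k)
          refine Eq.trans ?_ (congrArg (fun y => t • (dirP (G := GM m) (MA.a s j) (germ k w)).z + y)
              h5.symm)
          refine Prod.ext ?_ ?_
          · change ν = t • (0 : (germ k w).N.X) + (germ k w).N.r (MA.b s j) p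
            rw [smul_zero, zero_add]
            exact hbp.symm
          · change t = t * 1 + 0
            rw [mul_one, add_zero]
      · exact absurd hx (by simp [GM, MA.si])
  | inv α w ih =>
    constructor
    · intro hv hx
      rcases src_P hv with rfl | rfl
      · exact absurd hx (by simp [GM, MA.so])
      · obtain ⟨ih1, ih2⟩ := ih.2 rfl rfl
        constructor
        · rintro ⟨ν, t⟩ hn ha
          have h0 := ih1 ν (invP_fix hn).1 (invP_zero' (by intro h; cases h) ha)
          subst h0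
          exact ⟨t, invP_z_eq t⟩
        · rintro ⟨ν, t⟩ hn
          obtain ⟨hν, ht⟩ := invP_fix hn
          have ht0 := ht (P_ne_Q s s j j).symm
          obtain ⟨c, p, hp, hcp⟩ := ih2 ν hν
          refine ⟨((p, c) : (germ k w).N.X × k), invP_mk hp rfl, ?_⟩
          have h5 := invP_r_self (k := k) (G := GM m) (MA.b s j) (germ k w)
            ((p, c) : (germ k w).N.X × k)
          refine h5.trans (Prod.ext ?_ ht0.symm)
          change (germ k w).N.r (MA.b s j) p + c • (germ k w).z = ν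
          rw [hcp, add_comm]
    · intro hv hx
      obtain rfl := src_Q hv
      have hsupp := inn_supp (k := k) s j w (inn_start s j)
      constructor
      · rintro ⟨ν, t⟩ hn _
        obtain ⟨hν, ht⟩ := invP_fix hn
        rw [(hsupp _).1] at hν
        exact Prod.ext hν.symm (ht (P_ne_Q s s j j))
      · rintro ⟨ν, t⟩ hn
        obtain ⟨hν, ht⟩ := invP_fix hn
        rw [(hsupp _).2] at hν
        subst hν
        refine ⟨t, 0, map_zero _, ?_⟩
        rw [map_zero, add_zero]
        exact invP_z_eq t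

/-- the properties of the representations of the words in the outer direction -/
def OutP (s : Bool) (j : Fin m) {v : (GM m).V} {x : Bool} (R : PRep k (GM m) v x) : Prop :=
  (v = MV.P s j → x = true →
    (∀ n, R.N.e (MV.P s j) n = n → R.N.r (MA.b s j) n = 0 → ∃ c : k, n = c • R.z)) ∧
  (v = MV.Q s j → x = false →
    (∀ n, R.N.e (MV.P s j) n = n → R.N.r (MA.b s j) n = 0 → n = 0))

theorem outP (s : Bool) (j : Fin m) {v : (GM m).V} {x : Bool} (w : Word (GM m) v x) :
    OutP (k := k) s j (germ k w) := by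
  induction w with
  | nil v x =>
    constructor
    · rintro rfl rfl
      exact fun n _ _ => ⟨_, nilP_z_eq n⟩
    · rintro rfl rfl
      exact fun n hn _ => nilP_fix hn (P_ne_Q s s j j)
  | dir α w ih =>
    constructor
    · intro hv hx
      obtain ⟨h, rfl⟩ := tgt_P hv
      have hsupp := out_supp (k := k) s (j.val + 1) (MV.P s j)
        (Or.inr ⟨j, Nat.lt_succ_self _, Or.inl rfl⟩) w (out_start s j h)
      rintro ⟨ν, t⟩ hn _
      have hν := (dirP_fix hn).1
      rw [hsupp] at hν
      subst hν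
      exact ⟨t, dirP_z_eq t⟩
    · intro hv hx
      rcases tgt_Q hv with rfl | rfl
      · exact absurd hx (by simp [GM, MA.si])
      · have ih1 := ih.1 rfl rfl
        rintro ⟨ν, t⟩ hn hb
        obtain ⟨hν, ht⟩ := dirP_fix hn
        obtain ⟨hb1, hb2⟩ := dirP_zero hb
        obtain ⟨c, hc⟩ := ih1 ν hν hb1
        exact Prod.ext (smul_z_zero hc hb2) (ht (P_ne_Q s s j j))
  | inv α w ih =>
    constructor
    · intro hv hx
      rcases src_P hv with rfl | rfl
      · have ih1 := ih.2 rfl rfl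
        rintro ⟨ν, t⟩ hn hb
        have h0 := ih1 ν (invP_fix hn).1 (invP_zero' (by intro h; cases h) hb)
        subst h0
        exact ⟨t, invP_z_eq t⟩
      · exact absurd hx (by simp [GM, MA.so])
    · intro hv hx
      obtain rfl := src_Q hv
      exact absurd hx (by simp [GM, MA.so])

end Pool.Agent.H56.UDs
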