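import Pool.Agent.H56.UD.AllU

/-!
# Uniserial dimension (MP_404602_al): subfunctors of the forgetful functor
-/

open CategoryTheory

namespace Pool.Agent.H56.UDs

variable {k : Type} [Field k] {G : Gentle}

/-- the values of a subfunctor of the forgetful functor are subspaces -/
def sat (A : Sub (U k G)) (M : Rep k G) : Submodule k M.X where
  carrier := {x | x ∈ A.car M}
  zero_mem' := (A.car M).zero_mem
  add_mem' := fun h1 h2 => (A.car M).add_mem h1 h2
  smul_mem' c x hx := by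
    have h := A.map_mem (mkHom (M := M) (N := M) (c • LinearMap.id) (fun v x => by simp)
      (fun α x => by simp)) x hx
    exact h

theorem mem_sat {A : Sub (U k G)} {M : Rep k G} {x : M.X} : x ∈ sat A M ↔ x ∈ A.car M := Iff.rfl

theorem sat_hom {A : Sub (U k G)} {M N : Rep k G} (f : M ⟶ N) {x : M.X} (hx : x ∈ sat A M) :
    f.f x ∈ sat A N := A.map_mem f x hx

theorem le_of_sat {A B : Sub (U k G)} (h : ∀ M, sat A M ≤ sat B M) : A ≤ B :=
  fun M x hx => h M hx

theorem sat_mono {A B : Sub (U k G)} (h : A ≤ B) (M : Rep k G) : sat A M ≤ sat B M :=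
  fun x hx => h M hx

@[simp] theorem mem_sat_inf {A B : Sub (U k G)} {M : Rep k G} {x : M.X} :
    x ∈ sat (A ⊓ B) M ↔ x ∈ sat A M ∧ x ∈ sat B M := Iff.rfl

theorem sat_inf (A B : Sub (U k G)) (M : Rep k G) : sat (A ⊓ B) M = sat A M ⊓ sat B M := rfl

theorem mem_sat_sup {A B : Sub (U k G)} {M : Rep k G} {x : M.X} :
    x ∈ sat (A ⊔ B) M ↔ ∃ a ∈ sat A M, ∃ b ∈ sat B M, a + b = x :=
  Sub.mem_sup

theorem sat_sup (A B : Sub (U k G)) (M : Rep k G) : sat (A ⊔ B) M = sat A M ⊔ sat B M := by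
  ext x
  rw [mem_sat_sup, Submodule.mem_sup]

@[simp] theorem mem_sat_top {M : Rep k G} {x : M.X} : x ∈ sat (⊤ : Sub (U k G)) M :=
  AddSubgroup.mem_top (G := M.X) x

@[simp] theorem mem_sat_bot {M : Rep k G} {x : M.X} : x ∈ sat (⊥ : Sub (U k G)) M ↔ x = 0 :=
  AddSubgroup.mem_bot (G := M.X)

theorem mem_sat_gen {M N : Rep k G} {x : M.X} {y : N.X} :
    y ∈ sat (gen (F := U k G) (X := M) x) N ↔ ∃ f : M ⟶ N, f.f x = y := Iff.rfl

theorem gen_le_sat {M : Rep k G} {x : M.X} {A : Sub (U k G)} :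
    gen (F := U k G) (X := M) x ≤ A ↔ x ∈ sat A M := gen_le_iff

/-- a natural endomorphism of the forgetful functor -/
structure NatEnd (k : Type) [Field k] (G : Gentle) where
  /-- the linear maps -/
  T : ∀ M : Rep k G, M.X →ₗ[k] M.X
  nat : ∀ {M N : Rep k G} (f : M ⟶ N) (x : M.X), f.f (T M x) = T N (f.f x)

/-- the natural transformation -/
def NatEnd.n (φ : NatEnd k G) : U k G ⟶ U k G where
  app M := AddCommGrpCat.ofHom (φ.T M).toAddMonoidHom
  naturality M N f := by
    apply AddCommGrpCat.hom_ext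
    apply AddMonoidHom.ext
    intro x
    exact (φ.nat f x).symm

theorem mem_sat_map {φ : NatEnd k G} {A : Sub (U k G)} {M : Rep k G} {x : M.X} :
    x ∈ sat (A.map φ.n) M ↔ ∃ a ∈ sat A M, φ.T M a = x := Iff.rfl

@[simp] theorem mem_sat_comap {φ : NatEnd k G} {A : Sub (U k G)} {M : Rep k G} {x : M.X} :
    x ∈ sat (A.comap φ.n) M ↔ φ.T M x ∈ sat A M := Iff.rfl

/-- the projections -/
def eN (k : Type) [Field k] {G : Gentle} (v : G.V) : NatEnd k G :=
  ⟨fun M => M.e v, fun f x => f.e_comm v x⟩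

/-- the arrows -/
def rN (k : Type) [Field k] {G : Gentle} (α : G.A) : NatEnd k G :=
  ⟨fun M => M.r α, fun f x => f.r_comm α x⟩

/-- linear combinations -/
def NatEnd.sub (φ ψ : NatEnd k G) (c : k) : NatEnd k G :=
  ⟨fun M => φ.T M - c • ψ.T M, fun f x => by simp [φ.nat, ψ.nat]⟩

/-- the sum of the arrows leaving `v` at the side `s` (there is at most one) -/
def outN (k : Type) [Field k] {G : Gentle} (v : G.V) (s : Bool) : NatEnd k G :=
  ⟨fun M => ∑ α : G.A, if G.src α = v ∧ G.so α = s then M.r α else 0, fun {M N} f x => by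
    simp only [LinearMap.sum_apply, map_sum]
    refine Finset.sum_congr rfl fun α _ => ?_
    split_ifs
    · exact f.r_comm α x
    · simp⟩

/-- the sum of the arrows entering `v` at the side `s` (there is at most one) -/
def inN (k : Type) [Field k] {G : Gentle} (v : G.V) (s : Bool) : NatEnd k G :=
  ⟨fun M => ∑ α : G.A, if G.tgt α = v ∧ G.si α = s then M.r α else 0, fun {M N} f x => by
    simp only [LinearMap.sum_apply, map_sum]
    refine Finset.sum_congr rfl fun α _ => ?_
    split_ifs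
    · exact f.r_comm α x
    · simp⟩

theorem outN_eq (α : G.A) (M : Rep k G) : (outN k (G.src α) (G.so α)).T M = M.r α := by
  unfold outN
  change (∑ β : G.A, if G.src β = G.src α ∧ G.so β = G.so α then M.r β else 0) = M.r α
  rw [Finset.sum_eq_single α]
  · rw [if_pos ⟨rfl, rfl⟩]
  · intro β _ hβ
    rw [if_neg]
    rintro ⟨h1, h2⟩
    exact hβ (G.inj_o β α h1 h2)
  · intro h
    exact absurd (Finset.mem_univ _) h

theorem outN_zero {v : G.V} {s : Bool} (h : ∀ α, G.src α = v → G.so α ≠ s) (M : Rep k G) :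
    (outN k v s).T M = 0 := by
  unfold outN
  change (∑ β : G.A, if G.src β = v ∧ G.so β = s then M.r β else 0) = 0
  refine Finset.sum_eq_zero fun β _ => ?_
  rw [if_neg]
  rintro ⟨h1, h2⟩
  exact h β h1 h2

theorem inN_eq (α : G.A) (M : Rep k G) : (inN k (G.tgt α) (G.si α)).T M = M.r α := by
  unfold inN
  change (∑ β : G.A, if G.tgt β = G.tgt α ∧ G.si β = G.si α then M.r β else 0) = M.r α
  rw [Finset.sum_eq_single α]
  · rw [if_pos ⟨rfl, rfl⟩]
  · intro β _ hβ
    rw [if_neg]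
    rintro ⟨h1, h2⟩
    exact hβ (G.inj_i β α h1 h2)
  · intro h
    exact absurd (Finset.mem_univ _) h

theorem inN_zero {v : G.V} {s : Bool} (h : ∀ α, G.tgt α = v → G.si α ≠ s) (M : Rep k G) :
    (inN k v s).T M = 0 := by
  unfold inN
  change (∑ β : G.A, if G.tgt β = v ∧ G.si β = s then M.r β else 0) = 0
  refine Finset.sum_eq_zero fun β _ => ?_
  rw [if_neg]
  rintro ⟨h1, h2⟩
  exact h β h1 h2

/-- the vertex space as a subfunctor -/
def Ev (k : Type) [Field k] {G : Gentle} (v : G.V) : Sub (U k G) := (⊤ : Sub (U k G)).map (eN k v).n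

theorem mem_Ev {v : G.V} {M : Rep k G} {x : M.X} : x ∈ sat (Ev k v) M ↔ M.e v x = x := by
  constructor
  · rintro ⟨y, _, rfl⟩
    exact M.e_idem v y
  · intro h
    exact ⟨x, mem_sat_top, h⟩

theorem Ev_fg (v : G.V) : (Ev k v : Sub (U k G)).FG := map_fg (top_fg U_fp)

/-! Basic facts about representations. -/

theorem r_other {M : Rep k G} {α : G.A} {v : G.V} (h : G.src α ≠ v) {x : M.X}
    (hx : M.e v x = x) : M.r α x = 0 := by
  rw [← hx, ← M.r_src, M.e_orth _ _ h, map_zero]

theorem e_other {M : Rep k G} {u v : G.V} (h : u ≠ v) {x : M.X}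
    (hx : M.e v x = x) : M.e u x = 0 := by
  rw [← hx, M.e_orth _ _ h]

theorem src_ne_tgt (α : G.A) : G.src α ≠ G.tgt α := by
  intro h
  have := G.rank_lt α
  rw [h] at this
  exact lt_irrefl _ this

theorem r_r (M : Rep k G) (α : G.A) (x : M.X) : M.r α (M.r α x) = 0 :=
  r_other (src_ne_tgt α) (M.e_tgt α x)

end Pool.Agent.H56.UDs
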