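import Pool.Agent.H56.UD.LB

/-!
# Uniserial dimension (MP_404602_al): supports, images of sets of words
-/

open CategoryTheory

namespace Pool.Agent.H56.UDs

variable {k : Type} [Field k] {G : Gentle}

/-- the representation of a word lives on the vertices of the states which are reachable -/
theorem germ_supp (St : G.V → Bool → Prop)
    (h1 : ∀ α, St (G.tgt α) (G.si α) → St (G.src α) (!G.so α))
    (h2 : ∀ α, St (G.src α) (G.so α) → St (G.tgt α) (!G.si α))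
    (u : G.V) (hu : ∀ v x, St v x → u ≠ v) {v : G.V} {x : Bool} (w : Word G v x)
    (hw : St v x) (n : (germ k w).N.X) : (germ k w).N.e u n = 0 := by
  induction w with
  | nil v x =>
    have h3 := nilP_e (k := k) v x u n
    rw [if_neg (hu _ _ hw)] at h3
    exact h3
  | dir α w ih =>
    obtain ⟨ν, t⟩ := (n : (germ k w).N.X × k)
    have h3 := dirP_e (k := k) α (germ k w) u ((ν, t) : (germ k w).N.X × k)
    rw [if_neg (hu _ _ hw), ih (h1 α hw)] at h3
    exact h3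
  | inv α w ih =>
    obtain ⟨ν, t⟩ := (n : (germ k w).N.X × k)
    have h3 := invP_e (k := k) α (germ k w) u ((ν, t) : (germ k w).N.X × k)
    rw [if_neg (hu _ _ hw), ih (h2 α hw)] at h3
    exact h3

/-- the vectors at the vertex are multiples of `z` -/
def OneD {v : G.V} {s : Bool} (P : PRep k G v s) : Prop :=
  ∀ n : P.N.X, P.N.e v n = n → ∃ c : k, n = c • P.z

theorem nil_oneD (v : G.V) (s : Bool) : OneD (nilP k v s) := by
  intro (n : k) _
  exact ⟨n, (mul_one n).symm⟩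

theorem dir_oneD (α : G.A) (P : PRep k G (G.src α) (!G.so α))
    (h : ∀ n, P.N.e (G.tgt α) n = 0) : OneD (dirP α P) := by
  rintro ⟨ν, t⟩ hn
  rw [dirP_e, h] at hn
  refine ⟨t, ?_⟩
  have h1 : ν = 0 := (congrArg Prod.fst hn).symm
  rw [h1]
  exact Prod.ext (smul_zero _).symm (mul_one t).symm

theorem inv_oneD (α : G.A) (P : PRep k G (G.tgt α) (!G.si α))
    (h : ∀ n, P.N.e (G.src α) n = 0) : OneD (invP α P) := by
  rintro ⟨ν, t⟩ hn
  rw [invP_e, h] at hn
  refine ⟨t, ?_⟩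
  have h1 : ν = 0 := (congrArg Prod.fst hn).symm
  rw [h1]
  exact Prod.ext (smul_zero _).symm (mul_one t).symm

theorem oneDim_of {v : G.V} (h1 : ∀ w : Word G v true, OneD (germ k w))
    (h2 : ∀ w : Word G v false, OneD (germ k w)) : OneDim k G v := by
  intro p (n : (twoRep tf_ne (germ k p.1) (germ k p.2)).X)
    (hn : (twoRep tf_ne (germ k p.1) (germ k p.2)).e v n = n)
  obtain ⟨c, hc⟩ := h1 p.1 (twoFst tf_ne _ _ n)
    (congrArg (twoFst tf_ne (germ k p.1) (germ k p.2)) hn)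
  obtain ⟨d, hd⟩ := h2 p.2 (twoSnd tf_ne _ _ n)
    (congrArg (twoSnd tf_ne (germ k p.1) (germ k p.2)) hn)
  have hcd : c = d := by
    have h3 := twoζ_snd tf_ne (germ k p.1) (germ k p.2) n
    rw [← twoζ_fst, hc, hd, map_smul, map_smul, PRep.ζ_z, PRep.ζ_z, smul_eq_mul, smul_eq_mul,
      mul_one, mul_one] at h3
    exact h3.symm
  subst hcd
  have h4 : n = c • twoZ tf_ne (germ k p.1) (germ k p.2) := by
    refine two_ext tf_ne _ _ ?_ ?_
    · rw [hc, map_smul]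
      rfl
    · rw [hd, map_smul]
      rfl
  exact ⟨c, h4⟩

/-! ## Ranks -/

theorem ws_dir_inv {α β : G.A} (hv : G.tgt α = G.src β) (hs : G.si α = G.so β)
    (w : Word G (G.src α) (!G.so α)) (w' : Word G (G.tgt β) (!G.si β)) (X : Rep k G) :
    sat (pl k (Word.dir α w)) X ≤ sat (mi k (Word.inv β w')) X := by
  rintro x hx
  obtain ⟨y, _, rfl⟩ := mem_pl_dir.1 hx
  rw [mem_mi_inv, X.rel α β hv hs, ← hv]
  exact ⟨zero_mem _, X.e_tgt α y⟩

theorem ws_nil_inv {β : G.A} {v : G.V} {s : Bool} (hv : v = G.src β) (hs : s = G.so β)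
    (w' : Word G (G.tgt β) (!G.si β)) (X : Rep k G) :
    sat (pl k (Word.nil v s)) X ≤ sat (mi k (Word.inv β w')) X := by
  intro x hx
  rw [mem_pl_nil] at hx
  rw [mem_mi_inv, hx.2 β hv.symm hs.symm, ← hv]
  exact ⟨zero_mem _, hx.1⟩

theorem ws_dir_nil {α : G.A} {v : G.V} {s : Bool} (hv : G.tgt α = v) (hs : G.si α = s)
    (w : Word G (G.src α) (!G.so α)) (X : Rep k G) :
    sat (pl k (Word.dir α w)) X ≤ sat (mi k (Word.nil v s)) X := by
  intro x hx
  obtain ⟨y, _, rfl⟩ := mem_pl_dir.1 hx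
  exact mem_mi_nil.2 (Or.inr ⟨α, hv, hs, y, rfl⟩)

theorem ws_dir {α : G.A} {w w' : Word G (G.src α) (!G.so α)} (h : WS k w w') :
    WS k (Word.dir α w) (Word.dir α w') := by
  intro X x hx
  obtain ⟨y, hy, rfl⟩ := mem_pl_dir.1 hx
  exact mem_mi_dir.2 ⟨y, h X hy, rfl⟩

theorem ws_inv {α : G.A} {w w' : Word G (G.tgt α) (!G.si α)} (h : WS k w w') :
    WS k (Word.inv α w) (Word.inv α w') := by
  intro X x hx
  rw [mem_pl_inv] at hx
  exact mem_mi_inv.2 ⟨h X hx.1, hx.2⟩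

theorem rk_mono {v : G.V} {s : Bool} {α : Ordinal.{0}} {I I' : Set (Word G v s)} (h : Rk k α I)
    (hI : I ⊆ I') : Rk k α I' := by
  rw [rk_iff] at h ⊢
  refine ⟨h.1.mono hI, fun β hβ N => ?_⟩
  obtain ⟨J, h1, h2⟩ := h.2 β hβ N
  exact ⟨J, fun i hi => ⟨(h1 i hi).1.trans hI, (h1 i hi).2⟩, h2⟩

theorem rk_image {v v' : G.V} {s s' : Bool} (φ : Word G v s → Word G v' s')
    (hφ : ∀ x y, WS k x y → WS k (φ x) (φ y)) (α : Ordinal.{0}) :
    ∀ I : Set (Word G v s), Rk k α I → Rk k α (φ '' I) := by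
  induction α using WellFoundedLT.induction with
  | ind α ih =>
    intro I hI
    rw [rk_iff] at hI ⊢
    refine ⟨hI.1.image φ, fun β hβ N => ?_⟩
    obtain ⟨J, h1, h2⟩ := hI.2 β hβ N
    refine ⟨fun i => φ '' J i, fun i hi => ⟨Set.image_mono (h1 i hi).1, ih β hβ _ (h1 i hi).2⟩,
      fun i j hij hj => ?_⟩
    rintro _ ⟨x, hx, rfl⟩ _ ⟨y, hy, rfl⟩
    exact hφ _ _ (h2 i j hij hj x hx y hy)

theorem ws_iterate {v : G.V} {s : Bool} (φ : Word G v s → Word G v s)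
    (hφ : ∀ x y, WS k x y → WS k (φ x) (φ y)) (i : ℕ) (x y : Word G v s) (h : WS k x y) :
    WS k (φ^[i] x) (φ^[i] y) := by
  induction i generalizing x y with
  | zero => exact h
  | succ i ih => exact ih _ _ (hφ _ _ h)

/-- a chain of copies -/
theorem rk_step {v v' : G.V} {s s' : Bool} (φ : Word G v s → Word G v s)
    (hφ : ∀ x y, WS k x y → WS k (φ x) (φ y)) (ψ : Word G v' s' → Word G v s)
    (hψ : ∀ x y, WS k x y → WS k (ψ x) (ψ y)) (hψφ : ∀ x y, WS k (ψ x) (φ y))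
    {α : Ordinal.{0}} (h : ∀ β, β < α → Rk k β (Set.univ : Set (Word G v' s'))) :
    Rk k α (Set.univ : Set (Word G v s)) := by
  rw [rk_iff]
  refine ⟨⟨Word.nil v s, Set.mem_univ _⟩, fun β hβ N =>
    ⟨fun i => (fun x => φ^[i] (ψ x)) '' Set.univ, fun i _ => ⟨Set.subset_univ _, ?_⟩,
      fun i j hij _ => ?_⟩⟩
  · exact rk_image (fun x => φ^[i] (ψ x)) (fun x y hxy => ws_iterate φ hφ i _ _ (hψ _ _ hxy)) β _
      (h β hβ)
  · rintro _ ⟨x, _, rfl⟩ _ ⟨y, _, rfl⟩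
    obtain ⟨d, rfl⟩ := Nat.exists_eq_add_of_lt hij
    change WS k (φ^[i] (ψ x)) (φ^[i + d + 1] (ψ y))
    have e1 : φ^[i + d + 1] (ψ y) = φ^[i] (φ (φ^[d] (ψ y))) := by
      rw [← Function.iterate_succ_apply' φ d, ← Function.iterate_add_apply, add_assoc]
    rw [e1]
    exact ws_iterate φ hφ i _ _ (hψφ _ _)

theorem rk_univ_of {v v' : G.V} {s s' : Bool} (ψ : Word G v' s' → Word G v s)
    (hψ : ∀ x y, WS k x y → WS k (ψ x) (ψ y)) {α : Ordinal.{0}}
    (h : Rk k α (Set.univ : Set (Word G v' s'))) : Rk k α (Set.univ : Set (Word G v s)) :=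
  rk_mono (rk_image ψ hψ α _ h) (Set.subset_univ _)

end Pool.Agent.H56.UDs
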