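import Pool.Agent.H56.UD.Germ

/-!
# Uniserial dimension (MP_404602_al): universal properties of the representation of a word
-/

open CategoryTheory

namespace Pool.Agent.H56.UDs

variable {k : Type} [Field k] {G : Gentle}

/-- linear maps from the representation of a word which commute with the arrows except for those
leaving at the other side -/
def TwB {v : G.V} {s : Bool} (P : PRep k G v s) (X : Rep k G) (f : P.N.X →ₗ[k] X.X) : Prop :=
  (∀ u n, f (P.N.e u n) = X.e u (f n)) ∧
  ∀ γ n, f (P.N.r γ n) = X.r γ (f n) -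
    if G.src γ = v ∧ G.so γ ≠ s then P.ζ n • X.r γ (f P.z) else 0

/-- linear maps to the representation of a word which commute with the arrows except for those
entering at the other side -/
def TwC {v : G.V} {s : Bool} (P : PRep k G v s) (X : Rep k G) (f : X.X →ₗ[k] P.N.X) : Prop :=
  (∀ u x, f (X.e u x) = P.N.e u (f x)) ∧
  ∀ γ x, f (X.r γ x) = P.N.r γ (f x) +
    if G.tgt γ = v ∧ G.si γ ≠ s then P.ζ (f (X.r γ x)) • P.z else 0

theorem bool_ne_not {a b : Bool} (h : a ≠ !b) : a = b := by
  cases a <;> cases b <;> simp_all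

theorem bool_self_ne_not (b : Bool) : b ≠ !b := by
  cases b <;> simp

/-! ## Maps from the representation of a word -/

section B

variable {X : Rep k G}

theorem nilB {v : G.V} {s : Bool} {x : X.X} (hx : X.e v x = x)
    (h : ∀ γ, G.src γ = v → G.so γ = s → X.r γ x = 0) :
    TwB (nilP k v s) X (LinearMap.toSpanSingleton k X.X x) := by
  constructor
  · intro u (n : k)
    rw [nilP_e]
    change (if u = v then n else 0 : k) • x = X.e u (n • x)
    rw [map_smul]
    by_cases hu : u = v
    · subst hu
      rw [if_pos rfl, hx]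
    · rw [if_neg hu, e_other hu hx, smul_zero, zero_smul]
  · intro γ (n : k)
    rw [nilP_r, map_zero]
    change 0 = X.r γ (n • x) - if G.src γ = v ∧ G.so γ ≠ s then n • X.r γ ((1 : k) • x) else 0
    rw [one_smul, map_smul]
    by_cases hγ : G.src γ = v
    · by_cases hs : G.so γ = s
      · rw [h γ hγ hs, if_neg (fun t => t.2 hs), smul_zero, sub_zero]
      · rw [if_pos ⟨hγ, hs⟩, sub_self]
    · rw [r_other hγ hx, if_neg (fun t => hγ t.1), smul_zero, sub_zero]

/-- the map from `dirP α P` -/
def dirBf (α : G.A) (P : PRep k G (G.src α) (!G.so α)) (f : P.N.X →ₗ[k] X.X) :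
    (dirP α P).N.X →ₗ[k] X.X :=
  (LinearMap.coprod f (LinearMap.toSpanSingleton k X.X (X.r α (f P.z))) :
    P.N.X × k →ₗ[k] X.X)

theorem dirBf_apply (α : G.A) (P : PRep k G (G.src α) (!G.so α)) (f : P.N.X →ₗ[k] X.X)
    (n : P.N.X) (t : k) :
    dirBf α P f ((n, t) : P.N.X × k) = f n + t • X.r α (f P.z) := rfl

theorem dirB (α : G.A) (P : PRep k G (G.src α) (!G.so α)) (f : P.N.X →ₗ[k] X.X)
    (hf : TwB P X f) : TwB (dirP α P) X (dirBf α P f) := by
  constructor
  · rintro u ⟨n, t⟩
    rw [dirP_e, dirBf_apply, dirBf_apply, map_add, hf.1, map_smul]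
    by_cases hu : u = G.tgt α
    · subst hu
      rw [if_pos rfl, X.e_tgt]
    · rw [if_neg hu, e_other hu (X.e_tgt α _), smul_zero, zero_smul]
  · rintro γ ⟨n, t⟩
    have hz' : dirBf α P f (dirP α P).z = X.r α (f P.z) := by
      change f 0 + (1 : k) • X.r α (f P.z) = _
      rw [map_zero, zero_add, one_smul]
    have hζ' : (dirP α P).ζ ((n, t) : P.N.X × k) = t := rfl
    rw [hz', hζ']
    by_cases hγ : γ = α
    · subst hγ
      rw [dirP_r_self, dirBf_apply, dirBf_apply, hf.2, if_pos ⟨rfl, bool_self_ne_not _⟩,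
        sub_add_cancel, if_neg (fun h => src_ne_tgt _ h.1), sub_zero, map_add, map_smul, r_r,
        smul_zero, add_zero]
    · rw [dirP_r_ne _ _ hγ, dirBf_apply, dirBf_apply, hf.2, if_neg, sub_zero, map_add, map_smul,
        zero_smul, add_zero]
      · by_cases h1 : G.src γ = G.tgt α
        · by_cases h2 : G.so γ = G.si α
          · rw [if_neg (fun h => h.2 h2), X.rel α γ h1.symm h2.symm, smul_zero, add_zero, sub_zero]
          · rw [if_pos ⟨h1, h2⟩, add_sub_cancel_right]
        · rw [if_neg (fun h => h1 h.1), r_other h1 (X.e_tgt α _), smul_zero, add_zero, sub_zero]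
      · rintro ⟨h1, h2⟩
        exact hγ (G.inj_o _ _ h1 (bool_ne_not h2))

/-- the map from `invP α P` -/
def invBf (α : G.A) (P : PRep k G (G.tgt α) (!G.si α)) (f : P.N.X →ₗ[k] X.X) (x : X.X) :
    (invP α P).N.X →ₗ[k] X.X :=
  (LinearMap.coprod f (LinearMap.toSpanSingleton k X.X x) : P.N.X × k →ₗ[k] X.X)

theorem invBf_apply (α : G.A) (P : PRep k G (G.tgt α) (!G.si α)) (f : P.N.X →ₗ[k] X.X) (x : X.X)
    (n : P.N.X) (t : k) : invBf α P f x ((n, t) : P.N.X × k) = f n + t • x := rfl

theorem invB (α : G.A) (P : PRep k G (G.tgt α) (!G.si α)) (f : P.N.X →ₗ[k] X.X)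
    (hf : TwB P X f) {x : X.X} (hx : X.e (G.src α) x = x) (hαx : X.r α x = f P.z) :
    TwB (invP α P) X (invBf α P f x) := by
  constructor
  · rintro u ⟨n, t⟩
    rw [invP_e, invBf_apply, invBf_apply, map_add, hf.1, map_smul]
    by_cases hu : u = G.src α
    · subst hu
      rw [if_pos rfl, hx]
    · rw [if_neg hu, e_other hu hx, smul_zero, zero_smul]
  · rintro γ ⟨n, t⟩
    have hz' : invBf α P f x (invP α P).z = x := by
      change f 0 + (1 : k) • x = _
      rw [map_zero, zero_add, one_smul]
    have hζ' : (invP α P).ζ ((n, t) : P.N.X × k) = t := rfl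
    rw [hz', hζ']
    by_cases hγ : γ = α
    · subst hγ
      rw [invP_r_self, invBf_apply, invBf_apply, map_add, map_smul, hf.2,
        if_neg (fun h => src_ne_tgt _ h.1), sub_zero, if_neg (fun h => h.2 rfl), sub_zero,
        zero_smul, add_zero, map_add, map_smul, hαx]
    · rw [invP_r_ne _ _ hγ, invBf_apply, invBf_apply, hf.2, zero_smul, add_zero, map_add,
        map_smul]
      have e1 : (if G.src γ = G.tgt α ∧ G.so γ ≠ !G.si α then P.ζ n • X.r γ (f P.z) else 0) =
          (0 : X.X) := by
        split_ifs with h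
        · rw [← hαx, X.rel α γ h.1.symm (bool_ne_not h.2).symm, smul_zero]
        · rfl
      rw [e1, sub_zero]
      by_cases h1 : G.src γ = G.src α
      · by_cases h2 : G.so γ = G.so α
        · exact absurd (G.inj_o _ _ h1 h2) hγ
        · rw [if_pos ⟨h1, h2⟩, add_sub_cancel_right]
      · rw [if_neg (fun h => h1 h.1), r_other h1 hx, smul_zero, add_zero, sub_zero]

/-- (b) -/
theorem exB {v : G.V} {s : Bool} (w : Word G v s) (x : X.X) (hx : x ∈ sat (pl k w) X) :
    ∃ f, TwB (germ k w) X f ∧ f (germ k w).z = x := by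
  induction w generalizing x with
  | nil v s =>
    rw [mem_pl_nil] at hx
    exact ⟨_, nilB hx.1 hx.2, one_smul k x⟩
  | dir α w ih =>
    obtain ⟨y, hy, rfl⟩ := mem_pl_dir.1 hx
    obtain ⟨f, hf, rfl⟩ := ih y hy
    refine ⟨dirBf α _ f, dirB α _ f hf, ?_⟩
    change f 0 + (1 : k) • X.r α (f (germ k w).z) = _
    rw [map_zero, zero_add, one_smul]
  | inv α w ih =>
    rw [mem_pl_inv] at hx
    obtain ⟨f, hf, hfz⟩ := ih _ hx.1
    refine ⟨invBf α _ f x, invB α _ f hf hx.2 hfz.symm, ?_⟩
    change f 0 + (1 : k) • x = _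
    rw [map_zero, zero_add, one_smul]

/-- (b') -/
theorem memB {v : G.V} {s : Bool} (w : Word G v s) (f : (germ k w).N.X →ₗ[k] X.X)
    (hf : TwB (germ k w) X f) : f (germ k w).z ∈ sat (pl k w) X := by
  induction w with
  | nil v s =>
    rw [mem_pl_nil]
    constructor
    · rw [← hf.1, (germ k (Word.nil v s)).e_z]
    · intro α h1 h2
      have h := hf.2 α (germ k (Word.nil v s)).z
      rw [if_neg (fun t => t.2 h2), sub_zero] at h
      rw [← h]
      exact map_zero f
  | dir α w ih =>
    set P := germ k w with hP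
    change (dirP α P).N.X →ₗ[k] X.X at f
    change TwB (dirP α P) X f at hf
    change f (dirP α P).z ∈ sat ((pl k w).map (rN k α).n) X
    let f0 : P.N.X →ₗ[k] X.X := f.comp (LinearMap.inl k P.N.X k)
    have hf0 : ∀ n, f0 n = f ((n, 0) : P.N.X × k) := fun _ => rfl
    have hz : f (dirP α P).z = X.r α (f0 P.z) := by
      have h := hf.2 α ((P.z, 0) : P.N.X × k)
      rw [dirP_r_self, if_neg (fun h => src_ne_tgt _ h.1), sub_zero,
        P.z_out α rfl (bool_self_ne_not _), P.ζ_z] at h
      exact h
    have h0 : TwB P X f0 := by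
      constructor
      · intro u n
        have h := hf.1 u ((n, 0) : P.N.X × k)
        rw [dirP_e, ite_self] at h
        exact h
      · intro γ n
        have hζ : (dirP α P).ζ ((n, 0) : P.N.X × k) = 0 := rfl
        have h := hf.2 γ ((n, 0) : P.N.X × k)
        rw [hζ, zero_smul, ite_self, sub_zero] at h
        by_cases hγ : γ = α
        · subst hγ
          rw [dirP_r_self] at h
          rw [if_pos ⟨rfl, bool_self_ne_not _⟩, ← hz, eq_sub_iff_add_eq, ← map_smul, hf0]
          have e1 : (P.ζ n • (dirP γ P).z : (dirP γ P).N.X) = ((0, P.ζ n) : P.N.X × k) :=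
            Prod.ext (smul_zero _) (mul_one _)
          rw [e1, ← map_add]
          have e2 : (((P.N.r γ n, 0) : P.N.X × k) + (0, P.ζ n)) = (P.N.r γ n, P.ζ n) :=
            Prod.ext (add_zero _) (zero_add _)
          refine Eq.trans (congrArg f e2) h
        · rw [dirP_r_ne _ _ hγ] at h
          rw [if_neg, sub_zero]
          · exact h
          · rintro ⟨h1, h2⟩
            exact hγ (G.inj_o _ _ h1 (bool_ne_not h2))
    exact ⟨f0 P.z, ih f0 h0, hz.symm⟩
  | inv α w ih =>
    set P := germ k w with hP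
    change (invP α P).N.X →ₗ[k] X.X at f
    change TwB (invP α P) X f at hf
    change f (invP α P).z ∈ sat (pl k (Word.inv α w)) X
    rw [mem_pl_inv]
    let f0 : P.N.X →ₗ[k] X.X := f.comp (LinearMap.inl k P.N.X k)
    have hf0 : ∀ n, f0 n = f ((n, 0) : P.N.X × k) := fun _ => rfl
    have hz : X.r α (f (invP α P).z) = f0 P.z := by
      have h := hf.2 α ((0, 1) : P.N.X × k)
      rw [invP_r_self, if_neg (fun h => h.2 rfl), sub_zero] at h
      have e1 : ((P.N.r α ((0, 1) : P.N.X × k).1 + ((0, 1) : P.N.X × k).2 • P.z, 0) : P.N.X × k) =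
          (P.z, 0) := by
        refine Prod.ext ?_ rfl
        change P.N.r α 0 + (1 : k) • P.z = P.z
        rw [map_zero, zero_add, one_smul]
      rw [e1] at h
      exact h.symm
    have h0 : TwB P X f0 := by
      constructor
      · intro u n
        have h := hf.1 u ((n, 0) : P.N.X × k)
        rw [invP_e, ite_self] at h
        exact h
      · intro γ n
        have hζ : (invP α P).ζ ((n, 0) : P.N.X × k) = 0 := rfl
        have h := hf.2 γ ((n, 0) : P.N.X × k)
        rw [hζ, zero_smul, ite_self, sub_zero] at h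
        have e1 : (if G.src γ = G.tgt α ∧ G.so γ ≠ !G.si α then P.ζ n • X.r γ (f0 P.z) else 0) =
            (0 : X.X) := by
          split_ifs with h
          · rw [← hz, X.rel α γ h.1.symm (bool_ne_not h.2).symm, smul_zero]
          · rfl
        rw [e1, sub_zero]
        by_cases hγ : γ = α
        · subst hγ
          rw [invP_r_self] at h
          have e2 : ((P.N.r γ ((n, 0) : P.N.X × k).1 + ((n, 0) : P.N.X × k).2 • P.z, 0) :
              P.N.X × k) = (P.N.r γ n, 0) := by
            refine Prod.ext ?_ rfl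
            change P.N.r γ n + (0 : k) • P.z = P.N.r γ n
            rw [zero_smul, add_zero]
          rw [e2] at h
          exact h
        · rw [invP_r_ne _ _ hγ] at h
          exact h
    refine ⟨?_, ?_⟩
    · rw [hz]
      exact ih f0 h0
    · rw [← hf.1, (invP α P).e_z]

end B

end Pool.Agent.H56.UDs
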