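import Pool.Agent.H56.UD.Twist

/-!
# Uniserial dimension (MP_404602_al): maps to the representation of a word
-/

open CategoryTheory

namespace Pool.Agent.H56.UDs

variable {k : Type} [Field k] {G : Gentle} {X : Rep k G}

/-- functionals factor through maps with smaller kernel -/
theorem exists_factor {V W : Type} [AddCommGroup V] [Module k V] [AddCommGroup W] [Module k W]
    (φ : V →ₗ[k] W) (g : V →ₗ[k] k) (h : ∀ x, φ x = 0 → g x = 0) :
    ∃ g' : W →ₗ[k] k, ∀ x, g' (φ x) = g x := by
  have h1 : LinearMap.ker φ ≤ LinearMap.ker g := fun x hx => h x hx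
  let f : LinearMap.range φ →ₗ[k] k :=
    ((LinearMap.ker φ).liftQ g h1).comp φ.quotKerEquivRange.symm.toLinearMap
  obtain ⟨g', hg'⟩ := LinearMap.exists_extend f
  refine ⟨g', fun x => ?_⟩
  have h2 := congrArg (fun t => t ⟨φ x, x, rfl⟩) hg'
  have h3 : φ.quotKerEquivRange.symm ⟨φ x, x, rfl⟩ = Submodule.Quotient.mk x := by
    rw [LinearEquiv.symm_apply_eq]
    rfl
  change g' (φ x) = ((LinearMap.ker φ).liftQ g h1) (φ.quotKerEquivRange.symm ⟨φ x, x, rfl⟩) at h2
  rw [h3] at h2
  exact h2

/-- a functional as a map to `nilP` -/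
def nilCf (v : G.V) (s : Bool) (g : X.X →ₗ[k] k) : X.X →ₗ[k] (nilP k v s).N.X := g

theorem nilC {v : G.V} {s : Bool} (g : X.X →ₗ[k] k) (hg : ∀ x, g (X.e v x) = g x)
    (h : ∀ γ, G.tgt γ = v → G.si γ = s → ∀ x, g (X.r γ x) = 0) :
    TwC (nilP k v s) X (nilCf v s g) := by
  constructor
  · intro u x
    rw [nilP_e]
    by_cases hu : u = v
    · subst hu
      rw [if_pos rfl]
      exact hg x
    · rw [if_neg hu]
      change g (X.e u x) = 0
      rw [← hg, X.e_orth v u (Ne.symm hu), map_zero]
  · intro γ x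
    rw [nilP_r, zero_add]
    change g (X.r γ x) = if G.tgt γ = v ∧ G.si γ ≠ s then g (X.r γ x) • (1 : k) else 0
    by_cases hγ : G.tgt γ = v
    · by_cases hs : G.si γ = s
      · rw [if_neg (fun t => t.2 hs), h γ hγ hs]
      · rw [if_pos ⟨hγ, hs⟩, smul_eq_mul, mul_one]
    · rw [if_neg (fun t => hγ t.1), ← hg, e_other (Ne.symm hγ) (X.e_tgt γ x), map_zero]

/-- the map to `dirP α P` -/
def dirCf (α : G.A) (P : PRep k G (G.src α) (!G.so α)) (f : X.X →ₗ[k] P.N.X)
    (g : X.X →ₗ[k] k) : X.X →ₗ[k] (dirP α P).N.X :=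
  (f.prod g : X.X →ₗ[k] P.N.X × k)

theorem dirCf_apply (α : G.A) (P : PRep k G (G.src α) (!G.so α)) (f : X.X →ₗ[k] P.N.X)
    (g : X.X →ₗ[k] k) (x : X.X) : dirCf α P f g x = ((f x, g x) : P.N.X × k) := rfl

/-- the map to `invP α P` -/
def invCf (α : G.A) (P : PRep k G (G.tgt α) (!G.si α)) (f : X.X →ₗ[k] P.N.X)
    (g : X.X →ₗ[k] k) : X.X →ₗ[k] (invP α P).N.X :=
  (f.prod g : X.X →ₗ[k] P.N.X × k)

theorem invCf_apply (α : G.A) (P : PRep k G (G.tgt α) (!G.si α)) (f : X.X →ₗ[k] P.N.X)
    (g : X.X →ₗ[k] k) (x : X.X) : invCf α P f g x = ((f x, g x) : P.N.X × k) := rfl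

theorem dirC (α : G.A) (P : PRep k G (G.src α) (!G.so α)) (f : X.X →ₗ[k] P.N.X)
    (hf : TwC P X f) (g : X.X →ₗ[k] k) (hg : ∀ x, g (X.e (G.tgt α) x) = g x)
    (hfg : ∀ x, P.ζ (f x) = g (X.r α x)) :
    TwC (dirP α P) X (dirCf α P f g) := by
  constructor
  · intro u x
    rw [dirP_e]
    refine Prod.ext (hf.1 u x) ?_
    change g (X.e u x) = if u = G.tgt α then g x else 0
    by_cases hu : u = G.tgt α
    · subst hu
      rw [if_pos rfl, hg]
    · rw [if_neg hu, ← hg, X.e_orth _ _ (Ne.symm hu), map_zero]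
  · intro γ x
    by_cases hγ : γ = α
    · subst hγ
      rw [dirP_r_self, if_neg (fun h => h.2 rfl), add_zero]
      refine Prod.ext ?_ (hfg x).symm
      change f (X.r γ x) = P.N.r γ (f x)
      rw [hf.2, if_neg (fun h => src_ne_tgt _ h.1.symm), add_zero]
    · rw [dirP_r_ne _ _ hγ]
      have hζ : (dirP α P).ζ (dirCf α P f g (X.r γ x)) = g (X.r γ x) := rfl
      rw [hζ]
      have h1 : f (X.r γ x) = P.N.r γ (f x) := by
        rw [hf.2]
        split_ifs with h
        · rw [hfg, X.rel γ α h.1 (bool_ne_not h.2), map_zero, zero_smul, add_zero]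
        · rw [add_zero]
      by_cases h2 : G.tgt γ = G.tgt α
      · have h3 : G.si γ ≠ G.si α := fun h3 => hγ (G.inj_i _ _ h2 h3)
        rw [if_pos ⟨h2, h3⟩]
        refine Prod.ext ?_ ?_
        · change f (X.r γ x) = P.N.r γ (f x) + g (X.r γ x) • (0 : P.N.X)
          rw [h1, smul_zero, add_zero]
        · change g (X.r γ x) = 0 + g (X.r γ x) * 1
          rw [mul_one, zero_add]
      · rw [if_neg (fun h => h2 h.1), add_zero]
        refine Prod.ext h1 ?_
        change g (X.r γ x) = 0
        rw [← hg, e_other (Ne.symm h2) (X.e_tgt γ x), map_zero]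

theorem invC (α : G.A) (P : PRep k G (G.tgt α) (!G.si α)) (f : X.X →ₗ[k] P.N.X)
    (hf : TwC P X f) (g : X.X →ₗ[k] k) (hg : ∀ x, g (X.e (G.src α) x) = g x)
    (hg0 : ∀ γ, G.tgt γ = G.src α → G.si γ = G.so α → ∀ x, g (X.r γ x) = 0)
    (hfg : ∀ x, P.ζ (f (X.r α x)) = g x) :
    TwC (invP α P) X (invCf α P f g) := by
  constructor
  · intro u x
    rw [invP_e]
    refine Prod.ext (hf.1 u x) ?_
    change g (X.e u x) = if u = G.src α then g x else 0
    by_cases hu : u = G.src α
    · subst hu
      rw [if_pos rfl, hg]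
    · rw [if_neg hu, ← hg, X.e_orth _ _ (Ne.symm hu), map_zero]
  · intro γ x
    by_cases hγ : γ = α
    · subst hγ
      rw [invP_r_self, if_neg (fun h => src_ne_tgt _ h.1.symm), add_zero]
      refine Prod.ext ?_ ?_
      · change f (X.r γ x) = P.N.r γ (f x) + g x • P.z
        rw [hf.2, if_pos ⟨rfl, bool_self_ne_not _⟩, hfg]
      · change g (X.r γ x) = 0
        rw [← hg, e_other (src_ne_tgt _) (X.e_tgt γ x), map_zero]
    · rw [invP_r_ne _ _ hγ]
      have hζ : (invP α P).ζ (invCf α P f g (X.r γ x)) = g (X.r γ x) := rfl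
      rw [hζ]
      have h1 : f (X.r γ x) = P.N.r γ (f x) := by
        rw [hf.2, if_neg, add_zero]
        rintro ⟨h1, h2⟩
        exact hγ (G.inj_i _ _ h1 (bool_ne_not h2))
      by_cases h2 : G.tgt γ = G.src α
      · by_cases h3 : G.si γ = G.so α
        · rw [if_neg (fun h => h.2 h3), add_zero]
          refine Prod.ext h1 ?_
          exact hg0 γ h2 h3 x
        · rw [if_pos ⟨h2, h3⟩]
          refine Prod.ext ?_ ?_
          · change f (X.r γ x) = P.N.r γ (f x) + g (X.r γ x) • (0 : P.N.X)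
            rw [h1, smul_zero, add_zero]
          · change g (X.r γ x) = 0 + g (X.r γ x) * 1
            rw [mul_one, zero_add]
      · rw [if_neg (fun h => h2 h.1), add_zero]
        refine Prod.ext h1 ?_
        change g (X.r γ x) = 0
        rw [← hg, e_other (Ne.symm h2) (X.e_tgt γ x), map_zero]

/-- (c) -/
theorem exC {v : G.V} {s : Bool} (w : Word G v s) (g : X.X →ₗ[k] k)
    (hg : ∀ x, g (X.e v x) = g x) (h0 : ∀ x ∈ sat (mi k w) X, g x = 0) :
    ∃ f, TwC (germ k w) X f ∧ ∀ x, (germ k w).ζ (f x) = g x := by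
  induction w generalizing g with
  | nil v s =>
    refine ⟨_, nilC g hg ?_, fun x => rfl⟩
    intro γ h1 h2 x
    exact h0 _ (mem_mi_nil.2 (Or.inr ⟨γ, h1, h2, x, rfl⟩))
  | dir α w ih =>
    obtain ⟨f, hf, hfg⟩ := ih (g.comp (X.r α)) (fun x => by
      rw [LinearMap.comp_apply, X.r_src]
      rfl) (fun x hx => h0 _ ⟨x, hx, rfl⟩)
    exact ⟨_, dirC α _ f hf g hg hfg, fun x => rfl⟩
  | inv α w ih =>
    set W := sat (mi k w) X with hW
    obtain ⟨g', hg'⟩ := exists_factor (W.mkQ.comp (X.r α)) g (fun x hx => by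
      have h1 : X.r α x ∈ W := by
        rw [LinearMap.comp_apply, Submodule.mkQ_apply, Submodule.Quotient.mk_eq_zero] at hx
        exact hx
      rw [← hg]
      refine h0 _ (mem_mi_inv.2 ⟨?_, X.e_idem _ _⟩)
      rw [X.r_src]
      exact h1)
    obtain ⟨f, hf, hfg⟩ := ih ((g'.comp W.mkQ).comp (X.e (G.tgt α))) (fun x => by
        simp [X.e_idem]) (fun x hx => by
        change g' (W.mkQ (X.e (G.tgt α) x)) = 0
        rw [mi_e w hx, Submodule.mkQ_apply, (Submodule.Quotient.mk_eq_zero _).2 hx, map_zero])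
    refine ⟨_, invC α _ f hf g hg ?_ ?_, fun x => rfl⟩
    · intro γ h1 h2 x
      refine h0 _ (mem_mi_inv.2 ⟨?_, ?_⟩)
      · rw [X.rel γ α h1 h2]
        exact zero_mem _
      · rw [← h1]
        exact X.e_tgt γ x
    · intro x
      rw [hfg]
      change g' (W.mkQ (X.e (G.tgt α) (X.r α x))) = g x
      rw [X.e_tgt]
      exact hg' x

/-- (c') -/
theorem memC {v : G.V} {s : Bool} (w : Word G v s) (f : X.X →ₗ[k] (germ k w).N.X)
    (hf : TwC (germ k w) X f) (x : X.X) (hx : x ∈ sat (mi k w) X) : (germ k w).ζ (f x) = 0 := by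
  induction w generalizing x with
  | nil v s =>
    rcases mem_mi_nil.1 hx with rfl | ⟨γ, h1, h2, y, rfl⟩
    · rw [map_zero, map_zero]
    · rw [hf.2, if_neg (fun h => h.2 h2), add_zero]
      exact map_zero _
  | dir α w ih =>
    set P := germ k w with hP
    change X.X →ₗ[k] (dirP α P).N.X at f
    change TwC (dirP α P) X f at hf
    change (dirP α P).ζ (f x) = 0
    obtain ⟨y, hy, rfl⟩ := mem_mi_dir.1 hx
    let f0 : X.X →ₗ[k] P.N.X := (LinearMap.fst k P.N.X k).comp f
    have h0 : TwC P X f0 := by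
      constructor
      · intro u x
        have h := congrArg (fun t : P.N.X × k => t.1) (hf.1 u x)
        rw [dirP_e] at h
        exact h
      · intro γ x
        have h := hf.2 γ x
        by_cases hγ : γ = α
        · subst hγ
          rw [dirP_r_self, if_neg (fun h => h.2 rfl), add_zero] at h
          have h' := congrArg (fun t : P.N.X × k => t.1) h
          rw [if_neg (fun h => src_ne_tgt _ h.1.symm), add_zero]
          exact h'
        · rw [dirP_r_ne _ _ hγ] at h
          have h' : f0 (X.r γ x) = P.N.r γ (f0 x) := by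
            have h1 := congrArg (fun t : P.N.X × k => t.1) h
            split_ifs at h1 with h2
            · refine Eq.trans h1 ?_
              change P.N.r γ (f0 x) + _ • (0 : P.N.X) = _
              rw [smul_zero, add_zero]
            · rw [add_zero] at h1
              exact h1
          rw [h']
          split_ifs with h2
          · rw [P.ζ_in γ h2.1 h2.2, zero_smul, add_zero]
          · rw [add_zero]
    have h1 := hf.2 α y
    rw [dirP_r_self, if_neg (fun h => h.2 rfl), add_zero] at h1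
    rw [h1]
    exact ih f0 h0 y hy
  | inv α w ih =>
    set P := germ k w with hP
    change X.X →ₗ[k] (invP α P).N.X at f
    change TwC (invP α P) X f at hf
    change (invP α P).ζ (f x) = 0
    rw [mem_mi_inv] at hx
    let f0 : X.X →ₗ[k] P.N.X := (LinearMap.fst k P.N.X k).comp f
    have hα : ∀ x, f0 (X.r α x) = P.N.r α (f0 x) + (invP α P).ζ (f x) • P.z := by
      intro x
      have h := hf.2 α x
      rw [invP_r_self, if_neg (fun h => src_ne_tgt _ h.1.symm), add_zero] at h
      exact congrArg (fun t : P.N.X × k => t.1) h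
    have hζ : ∀ x, P.ζ (f0 (X.r α x)) = (invP α P).ζ (f x) := by
      intro x
      rw [hα, map_add, P.ζ_in α rfl (bool_self_ne_not _), zero_add, map_smul, P.ζ_z, smul_eq_mul,
        mul_one]
    have h0 : TwC P X f0 := by
      constructor
      · intro u x
        have h := congrArg (fun t : P.N.X × k => t.1) (hf.1 u x)
        rw [invP_e] at h
        exact h
      · intro γ x
        have h := hf.2 γ x
        by_cases hγ : γ = α
        · subst hγ
          rw [if_pos ⟨rfl, bool_self_ne_not _⟩, hζ]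
          exact hα x
        · rw [invP_r_ne _ _ hγ] at h
          have h' : f0 (X.r γ x) = P.N.r γ (f0 x) := by
            have h1 := congrArg (fun t : P.N.X × k => t.1) h
            split_ifs at h1 with h2
            · refine Eq.trans h1 ?_
              change P.N.r γ (f0 x) + _ • (0 : P.N.X) = _
              rw [smul_zero, add_zero]
            · rw [add_zero] at h1
              exact h1
          rw [h', if_neg, add_zero]
          rintro ⟨h1, h2⟩
          exact hγ (G.inj_i _ _ h1 (bool_ne_not h2))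
    rw [← hζ]
    exact ih f0 h0 _ hx.1

end Pool.Agent.H56.UDs
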