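import Pool.Agent.H56.UD.TwistC

/-!
# Uniserial dimension (MP_404602_al): the representation of two words
-/

open CategoryTheory

namespace Pool.Agent.H56.UDs

variable {k : Type} [Field k] {G : Gentle} {v : G.V} {s t : Bool}

theorem bool_cases {s t : Bool} (hst : s ≠ t) (x : Bool) : (x = s ∧ x ≠ t) ∨ (x ≠ s ∧ x = t) := by
  cases s <;> cases t <;> cases x <;> simp_all

/-- the arrows on the product -/
def twoR (P : PRep k G v s) (Q : PRep k G v t) (γ : G.A) :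
    P.N.X × Q.N.X →ₗ[k] P.N.X × Q.N.X :=
  ((P.N.r γ).comp (LinearMap.fst k P.N.X Q.N.X) +
      if G.tgt γ = v ∧ G.si γ ≠ s then
        ((Q.ζ.comp (Q.N.r γ)).comp (LinearMap.snd k P.N.X Q.N.X)).smulRight P.z else 0).prod
    ((Q.N.r γ).comp (LinearMap.snd k P.N.X Q.N.X) +
      if G.tgt γ = v ∧ G.si γ ≠ t then
        ((P.ζ.comp (P.N.r γ)).comp (LinearMap.fst k P.N.X Q.N.X)).smulRight Q.z else 0)

theorem twoR_apply (P : PRep k G v s) (Q : PRep k G v t) (γ : G.A) (x : P.N.X × Q.N.X) :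
    twoR P Q γ x =
      (P.N.r γ x.1 + (if G.tgt γ = v ∧ G.si γ ≠ s then Q.ζ (Q.N.r γ x.2) else 0) • P.z,
        Q.N.r γ x.2 + (if G.tgt γ = v ∧ G.si γ ≠ t then P.ζ (P.N.r γ x.1) else 0) • Q.z) := by
  unfold twoR
  refine Prod.ext ?_ ?_
  · change P.N.r γ x.1 + (if G.tgt γ = v ∧ G.si γ ≠ s then _ else (0 : _ →ₗ[k] _)) x =
      P.N.r γ x.1 + (if G.tgt γ = v ∧ G.si γ ≠ s then Q.ζ (Q.N.r γ x.2) else 0) • P.z
    split_ifs
    · rfl
    · simp
  · change Q.N.r γ x.2 + (if G.tgt γ = v ∧ G.si γ ≠ t then _ else (0 : _ →ₗ[k] _)) x =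
      Q.N.r γ x.2 + (if G.tgt γ = v ∧ G.si γ ≠ t then P.ζ (P.N.r γ x.1) else 0) • Q.z
    split_ifs
    · rfl
    · simp

/-- the fibre product -/
def twoX (P : PRep k G v s) (Q : PRep k G v t) : Submodule k (P.N.X × Q.N.X) :=
  LinearMap.ker (P.ζ.comp (LinearMap.fst k P.N.X Q.N.X) - Q.ζ.comp (LinearMap.snd k P.N.X Q.N.X))

theorem mem_twoX {P : PRep k G v s} {Q : PRep k G v t} {x : P.N.X × Q.N.X} :
    x ∈ twoX P Q ↔ P.ζ x.1 = Q.ζ x.2 := by
  change P.ζ x.1 - Q.ζ x.2 = 0 ↔ _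
  rw [sub_eq_zero]

theorem twoE_mem (P : PRep k G v s) (Q : PRep k G v t) (u : G.V) (x : P.N.X × Q.N.X)
    (hx : x ∈ twoX P Q) : ((P.N.e u).prodMap (Q.N.e u)) x ∈ twoX P Q := by
  rw [mem_twoX] at hx ⊢
  change P.ζ (P.N.e u x.1) = Q.ζ (Q.N.e u x.2)
  by_cases hu : u = v
  · subst hu
    rw [P.ζ_e, Q.ζ_e, hx]
  · rw [P.ζ_e_ne hu, Q.ζ_e_ne hu]

theorem twoR_mem (hst : s ≠ t) (P : PRep k G v s) (Q : PRep k G v t) (γ : G.A)
    (x : P.N.X × Q.N.X) : twoR P Q γ x ∈ twoX P Q := by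
  rw [mem_twoX, twoR_apply]
  simp only [map_add, map_smul, P.ζ_z, Q.ζ_z, smul_eq_mul, mul_one]
  by_cases hγ : G.tgt γ = v
  · rcases bool_cases hst (G.si γ) with ⟨h1, h2⟩ | ⟨h1, h2⟩
    · rw [if_neg (fun h => h.2 h1), if_pos ⟨hγ, h2⟩, Q.ζ_in γ hγ h2, add_zero, zero_add]
    · rw [if_pos ⟨hγ, h1⟩, if_neg (fun h => h.2 h2), P.ζ_in γ hγ h1, add_zero, zero_add]
  · rw [if_neg (fun h => hγ h.1), if_neg (fun h => hγ h.1), P.ζ_r_ne hγ, Q.ζ_r_ne hγ]

/-- the representation of two words at the two sides of a vertex -/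
def twoRep (hst : s ≠ t) (P : PRep k G v s) (Q : PRep k G v t) : Rep k G where
  X := twoX P Q
  e u := ((P.N.e u).prodMap (Q.N.e u)).restrict (twoE_mem P Q u)
  r γ := (twoR P Q γ).restrict (fun x _ => twoR_mem hst P Q γ x)
  e_idem u x := by
    apply Subtype.ext
    exact Prod.ext (P.N.e_idem u x.1.1) (Q.N.e_idem u x.1.2)
  e_orth u u' h x := by
    apply Subtype.ext
    exact Prod.ext (P.N.e_orth u u' h x.1.1) (Q.N.e_orth u u' h x.1.2)
  e_sum x := by
    apply Subtype.ext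
    rw [AddSubmonoidClass.coe_finsetSum]
    refine Prod.ext ?_ ?_
    · rw [Prod.fst_sum]
      exact P.N.e_sum x.1.1
    · rw [Prod.snd_sum]
      exact Q.N.e_sum x.1.2
  r_src γ x := by
    apply Subtype.ext
    change twoR P Q γ (P.N.e (G.src γ) x.1.1, Q.N.e (G.src γ) x.1.2) = twoR P Q γ x.1
    rw [twoR_apply, twoR_apply]
    simp only [P.N.r_src, Q.N.r_src]
  e_tgt γ x := by
    apply Subtype.ext
    change ((P.N.e (G.tgt γ)).prodMap (Q.N.e (G.tgt γ))) (twoR P Q γ x.1) = twoR P Q γ x.1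
    rw [twoR_apply]
    refine Prod.ext ?_ ?_
    · change P.N.e (G.tgt γ) (_ + _ • P.z) = _ + _ • P.z
      rw [map_add, map_smul, P.N.e_tgt]
      split_ifs with h
      · rw [h.1, P.e_z]
      · rw [zero_smul, zero_smul]
    · change Q.N.e (G.tgt γ) (_ + _ • Q.z) = _ + _ • Q.z
      rw [map_add, map_smul, Q.N.e_tgt]
      split_ifs with h
      · rw [h.1, Q.e_z]
      · rw [zero_smul, zero_smul]
  rel γ β h1 h2 x := by
    apply Subtype.ext
    change twoR P Q β (twoR P Q γ x.1) = 0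
    rw [twoR_apply P Q γ, twoR_apply]
    have e1 : P.N.r β (P.N.r γ x.1.1 +
        (if G.tgt γ = v ∧ G.si γ ≠ s then Q.ζ (Q.N.r γ x.1.2) else 0) • P.z) = 0 := by
      rw [map_add, map_smul, P.N.rel γ β h1 h2, zero_add]
      split_ifs with h
      · rw [P.z_out β (h1.symm.trans h.1) (h2 ▸ h.2), smul_zero]
      · rw [zero_smul]
    have e2 : Q.N.r β (Q.N.r γ x.1.2 +
        (if G.tgt γ = v ∧ G.si γ ≠ t then P.ζ (P.N.r γ x.1.1) else 0) • Q.z) = 0 := by
      rw [map_add, map_smul, Q.N.rel γ β h1 h2, zero_add]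
      split_ifs with h
      · rw [Q.z_out β (h1.symm.trans h.1) (h2 ▸ h.2), smul_zero]
      · rw [zero_smul]
    simp only [e1, e2, map_zero, ite_self, zero_smul, add_zero]
    rfl

/-- the vector of `twoRep` -/
def twoZ (hst : s ≠ t) (P : PRep k G v s) (Q : PRep k G v t) : (twoRep hst P Q).X :=
  (⟨(P.z, Q.z), mem_twoX.2 (P.ζ_z.trans Q.ζ_z.symm)⟩ : twoX P Q)

/-- the first projection -/
def twoFst (hst : s ≠ t) (P : PRep k G v s) (Q : PRep k G v t) :
    (twoRep hst P Q).X →ₗ[k] P.N.X :=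
  ((LinearMap.fst k P.N.X Q.N.X).comp (twoX P Q).subtype)

/-- the second projection -/
def twoSnd (hst : s ≠ t) (P : PRep k G v s) (Q : PRep k G v t) :
    (twoRep hst P Q).X →ₗ[k] Q.N.X :=
  ((LinearMap.snd k P.N.X Q.N.X).comp (twoX P Q).subtype)

/-- the covector of `twoRep` -/
def twoζ (hst : s ≠ t) (P : PRep k G v s) (Q : PRep k G v t) : (twoRep hst P Q).X →ₗ[k] k :=
  P.ζ.comp (twoFst hst P Q)

theorem twoFst_z (hst : s ≠ t) (P : PRep k G v s) (Q : PRep k G v t) :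
    twoFst hst P Q (twoZ hst P Q) = P.z := rfl

theorem twoSnd_z (hst : s ≠ t) (P : PRep k G v s) (Q : PRep k G v t) :
    twoSnd hst P Q (twoZ hst P Q) = Q.z := rfl

theorem twoζ_z (hst : s ≠ t) (P : PRep k G v s) (Q : PRep k G v t) :
    twoζ hst P Q (twoZ hst P Q) = 1 := P.ζ_z

theorem twoζ_fst (hst : s ≠ t) (P : PRep k G v s) (Q : PRep k G v t) (x : (twoRep hst P Q).X) :
    P.ζ (twoFst hst P Q x) = twoζ hst P Q x := rfl

theorem twoζ_snd (hst : s ≠ t) (P : PRep k G v s) (Q : PRep k G v t) (x : (twoRep hst P Q).X) :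
    Q.ζ (twoSnd hst P Q x) = twoζ hst P Q x :=
  (mem_twoX.1 (Subtype.property (p := (· ∈ twoX P Q)) x)).symm

theorem two_ext (hst : s ≠ t) (P : PRep k G v s) (Q : PRep k G v t) {x y : (twoRep hst P Q).X}
    (h1 : twoFst hst P Q x = twoFst hst P Q y) (h2 : twoSnd hst P Q x = twoSnd hst P Q y) :
    x = y := Subtype.ext (Prod.ext h1 h2)

theorem two_e_z (hst : s ≠ t) (P : PRep k G v s) (Q : PRep k G v t) :
    (twoRep hst P Q).e v (twoZ hst P Q) = twoZ hst P Q :=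
  two_ext hst P Q P.e_z Q.e_z

theorem twoFst_e (hst : s ≠ t) (P : PRep k G v s) (Q : PRep k G v t) (u : G.V)
    (x : (twoRep hst P Q).X) :
    twoFst hst P Q ((twoRep hst P Q).e u x) = P.N.e u (twoFst hst P Q x) := rfl

theorem twoSnd_e (hst : s ≠ t) (P : PRep k G v s) (Q : PRep k G v t) (u : G.V)
    (x : (twoRep hst P Q).X) :
    twoSnd hst P Q ((twoRep hst P Q).e u x) = Q.N.e u (twoSnd hst P Q x) := rfl

theorem twoFst_r (hst : s ≠ t) (P : PRep k G v s) (Q : PRep k G v t) (γ : G.A)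
    (x : (twoRep hst P Q).X) :
    twoFst hst P Q ((twoRep hst P Q).r γ x) = P.N.r γ (twoFst hst P Q x) +
      (if G.tgt γ = v ∧ G.si γ ≠ s then Q.ζ (Q.N.r γ (twoSnd hst P Q x)) else 0) • P.z :=
  congrArg Prod.fst (twoR_apply P Q γ (show twoX P Q from x).1)

theorem twoSnd_r (hst : s ≠ t) (P : PRep k G v s) (Q : PRep k G v t) (γ : G.A)
    (x : (twoRep hst P Q).X) :
    twoSnd hst P Q ((twoRep hst P Q).r γ x) = Q.N.r γ (twoSnd hst P Q x) +
      (if G.tgt γ = v ∧ G.si γ ≠ t then P.ζ (P.N.r γ (twoFst hst P Q x)) else 0) • Q.z :=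
  congrArg Prod.snd (twoR_apply P Q γ (show twoX P Q from x).1)

/-- the first projection is a twisted map -/
theorem twoFst_tw (hst : s ≠ t) (P : PRep k G v s) (Q : PRep k G v t) :
    TwC P (twoRep hst P Q) (twoFst hst P Q) := by
  refine ⟨fun u x => rfl, fun γ x => ?_⟩
  rw [twoFst_r]
  congr 1
  by_cases h : G.tgt γ = v ∧ G.si γ ≠ s
  · rw [if_pos h, if_pos h, map_add, P.ζ_in γ h.1 h.2, zero_add, map_smul, P.ζ_z, smul_eq_mul,
      mul_one]
  · rw [if_neg h, if_neg h, zero_smul]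

/-- the second projection is a twisted map -/
theorem twoSnd_tw (hst : s ≠ t) (P : PRep k G v s) (Q : PRep k G v t) :
    TwC Q (twoRep hst P Q) (twoSnd hst P Q) := by
  refine ⟨fun u x => rfl, fun γ x => ?_⟩
  rw [twoSnd_r]
  congr 1
  by_cases h : G.tgt γ = v ∧ G.si γ ≠ t
  · rw [if_pos h, if_pos h, map_add, Q.ζ_in γ h.1 h.2, zero_add, map_smul, Q.ζ_z, smul_eq_mul,
      mul_one]
  · rw [if_neg h, if_neg h, zero_smul]

/-- (b2) -/
theorem exB2 (hst : s ≠ t) (P : PRep k G v s) (Q : PRep k G v t) {X : Rep k G}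
    {f₁ : P.N.X →ₗ[k] X.X} {f₂ : Q.N.X →ₗ[k] X.X} (h₁ : TwB P X f₁) (h₂ : TwB Q X f₂)
    (hz : f₁ P.z = f₂ Q.z) : ∃ φ : twoRep hst P Q ⟶ X, φ.f (twoZ hst P Q) = f₁ P.z := by
  have hxv : X.e v (f₁ P.z) = f₁ P.z := by rw [← h₁.1, P.e_z]
  let f : (twoRep hst P Q).X →ₗ[k] X.X := f₁.comp (twoFst hst P Q) + f₂.comp (twoSnd hst P Q) -
    (twoζ hst P Q).smulRight (f₁ P.z)
  have hf : ∀ x, f x = f₁ (twoFst hst P Q x) + f₂ (twoSnd hst P Q x) -
      twoζ hst P Q x • f₁ P.z := fun x => rfl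
  refine ⟨mkHom f (fun u x => ?_) (fun γ x => ?_), ?_⟩
  · rw [hf, hf, twoFst_e, twoSnd_e, h₁.1, h₂.1, map_sub, map_add, map_smul, ← twoζ_fst,
      ← twoζ_fst, twoFst_e]
    by_cases hu : u = v
    · subst hu
      rw [P.ζ_e, hxv]
    · rw [P.ζ_e_ne hu, e_other hu hxv, zero_smul, smul_zero]
  · rw [hf, hf, twoFst_r, twoSnd_r, ← twoζ_fst, twoFst_r, map_add, map_add, map_smul, map_smul,
      h₁.2, h₂.2, ← hz, map_sub, map_add, map_smul, map_add, map_smul, P.ζ_z, smul_eq_mul, mul_one,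
      ← twoζ_fst hst P Q x]
    have hζ2 : Q.ζ (twoSnd hst P Q x) = P.ζ (twoFst hst P Q x) := by
      rw [twoζ_snd, twoζ_fst]
    rw [hζ2]
    -- the corrections for the arrows leaving `v`
    have key1 : (P.ζ (twoFst hst P Q x) • X.r γ (f₁ P.z) : X.X) =
        (if G.src γ = v ∧ G.so γ ≠ s then P.ζ (twoFst hst P Q x) • X.r γ (f₁ P.z) else 0) +
        (if G.src γ = v ∧ G.so γ ≠ t then P.ζ (twoFst hst P Q x) • X.r γ (f₁ P.z) else 0) := by
      by_cases hγ : G.src γ = v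
      · rcases bool_cases hst (G.so γ) with ⟨h1, h2⟩ | ⟨h1, h2⟩
        · rw [if_neg (fun h => h.2 h1), if_pos ⟨hγ, h2⟩, zero_add]
        · rw [if_pos ⟨hγ, h1⟩, if_neg (fun h => h.2 h2), add_zero]
      · rw [r_other hγ hxv, smul_zero, if_neg (fun h => hγ h.1), if_neg (fun h => hγ h.1), add_zero]
    have key2 : P.ζ (P.N.r γ (twoFst hst P Q x)) =
        (if G.tgt γ = v ∧ G.si γ ≠ t then P.ζ (P.N.r γ (twoFst hst P Q x)) else 0) := by
      by_cases hγ : G.tgt γ = v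
      · rcases bool_cases hst (G.si γ) with ⟨h1, h2⟩ | ⟨h1, h2⟩
        · rw [if_pos ⟨hγ, h2⟩]
        · rw [if_neg (fun h => h.2 h2), P.ζ_in γ hγ h1]
      · rw [if_neg (fun h => hγ h.1), P.ζ_r_ne hγ]
    rw [add_smul, ← key2]
    generalize (if G.src γ = v ∧ G.so γ ≠ s then P.ζ (twoFst hst P Q x) • X.r γ (f₁ P.z) else 0) = A
      at key1 ⊢
    generalize (if G.src γ = v ∧ G.so γ ≠ t then P.ζ (twoFst hst P Q x) • X.r γ (f₁ P.z) else 0) = B
      at key1 ⊢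
    rw [key1]
    abel
  · change f (twoZ hst P Q) = f₁ P.z
    rw [hf, twoFst_z, twoSnd_z, twoζ_z, ← hz, one_smul, add_sub_cancel_right]

/-- (c2) -/
theorem exC2 (hst : s ≠ t) (P : PRep k G v s) (Q : PRep k G v t) {X : Rep k G}
    {f₁ : X.X →ₗ[k] P.N.X} {f₂ : X.X →ₗ[k] Q.N.X} (h₁ : TwC P X f₁) (h₂ : TwC Q X f₂)
    (hζ : ∀ x, P.ζ (f₁ x) = Q.ζ (f₂ x)) :
    ∃ φ : X ⟶ twoRep hst P Q, (∀ x, twoFst hst P Q (φ.f x) = f₁ x) ∧
      ∀ x, twoSnd hst P Q (φ.f x) = f₂ x := by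
  let f : X.X →ₗ[k] (twoRep hst P Q).X :=
    (f₁.prod f₂).codRestrict (twoX P Q) (fun x => mem_twoX.2 (hζ x))
  have hf1 : ∀ x, twoFst hst P Q (f x) = f₁ x := fun x => rfl
  have hf2 : ∀ x, twoSnd hst P Q (f x) = f₂ x := fun x => rfl
  refine ⟨mkHom f (fun u x => ?_) (fun γ x => ?_), hf1, hf2⟩
  · apply two_ext
    · rw [hf1, twoFst_e, hf1, h₁.1]
    · rw [hf2, twoSnd_e, hf2, h₂.1]
  · apply two_ext
    · rw [hf1, twoFst_r, hf1, hf2, h₁.2]
      congr 1
      by_cases h : G.tgt γ = v ∧ G.si γ ≠ s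
      · have h' : G.si γ = t := by
          rcases bool_cases hst (G.si γ) with ⟨h1, h2⟩ | ⟨h1, h2⟩
          · exact absurd h1 h.2
          · exact h2
        rw [if_pos h, if_pos h, hζ, h₂.2, if_neg (fun h => h.2 h'), add_zero]
      · rw [if_neg h, if_neg h, zero_smul]
    · rw [hf2, twoSnd_r, hf1, hf2, h₂.2]
      congr 1
      by_cases h : G.tgt γ = v ∧ G.si γ ≠ t
      · have h' : G.si γ = s := by
          rcases bool_cases hst (G.si γ) with ⟨h1, h2⟩ | ⟨h1, h2⟩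
          · exact h1
          · exact absurd h2 h.2
        rw [if_pos h, if_pos h, ← hζ, h₁.2, if_neg (fun h => h.2 h'), add_zero]
      · rw [if_neg h, if_neg h, zero_smul]

/-- the twisted inclusion of the first factor -/
theorem two_inl (hst : s ≠ t) (P : PRep k G v s) (Q : PRep k G v t) :
    ∃ f, TwB P (twoRep hst P Q) f ∧ f P.z = twoZ hst P Q := by
  let f : P.N.X →ₗ[k] (twoRep hst P Q).X :=
    (LinearMap.id.prod (P.ζ.smulRight Q.z)).codRestrict (twoX P Q) (fun x => by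
      rw [mem_twoX]
      change P.ζ x = Q.ζ (P.ζ x • Q.z)
      rw [map_smul, Q.ζ_z, smul_eq_mul, mul_one])
  have hf1 : ∀ x, twoFst hst P Q (f x) = x := fun x => rfl
  have hf2 : ∀ x, twoSnd hst P Q (f x) = P.ζ x • Q.z := fun x => rfl
  have hfz : f P.z = twoZ hst P Q := by
    apply two_ext
    · rw [hf1, twoFst_z]
    · rw [hf2, twoSnd_z, P.ζ_z, one_smul]
  refine ⟨f, ⟨fun u x => ?_, fun γ x => ?_⟩, hfz⟩
  · apply two_ext
    · rw [hf1, twoFst_e, hf1]
    · rw [hf2, twoSnd_e, hf2, map_smul]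
      by_cases hu : u = v
      · subst hu
        rw [P.ζ_e, Q.e_z]
      · rw [P.ζ_e_ne hu, e_other hu Q.e_z, zero_smul, smul_zero]
  · rw [hfz]
    have hzz : ∀ γ, G.src γ = v → Q.ζ (Q.N.r γ Q.z) = 0 := by
      intro γ hγ
      refine Q.ζ_r_ne ?_ _
      rw [← hγ]
      exact (src_ne_tgt γ).symm
    have hz1 : ∀ γ, Q.ζ (Q.N.r γ Q.z) = 0 := by
      intro γ
      by_cases hγ : G.src γ = v
      · exact hzz γ hγ
      · rw [Q.r_z_ne hγ, map_zero]
    have hp1 : ∀ γ, P.ζ (P.N.r γ P.z) = 0 := by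
      intro γ
      by_cases hγ : G.src γ = v
      · refine P.ζ_r_ne ?_ _
        rw [← hγ]
        exact (src_ne_tgt γ).symm
      · rw [P.r_z_ne hγ, map_zero]
    apply two_ext
    · rw [hf1, map_sub, twoFst_r, hf1, hf2, map_smul, map_smul, hz1, smul_zero, ite_self,
        zero_smul, add_zero]
      split_ifs with h
      · rw [map_smul, twoFst_r, twoFst_z, P.z_out γ h.1 h.2, twoSnd_z, hz1, ite_self, zero_smul,
          add_zero, smul_zero, sub_zero]
      · rw [map_zero, sub_zero]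
    · rw [hf2, map_sub, twoSnd_r, hf1, hf2, map_smul]
      have e1 : P.ζ (P.N.r γ x) =
          (if G.tgt γ = v ∧ G.si γ ≠ t then P.ζ (P.N.r γ x) else 0) := by
        by_cases hγ : G.tgt γ = v
        · rcases bool_cases hst (G.si γ) with ⟨h1, h2⟩ | ⟨h1, h2⟩
          · rw [if_pos ⟨hγ, h2⟩]
          · rw [if_neg (fun h => h.2 h2), P.ζ_in γ hγ h1]
        · rw [if_neg (fun h => hγ h.1), P.ζ_r_ne hγ]
      rw [← e1]
      split_ifs with h
      · rw [map_smul, twoSnd_r, twoSnd_z, twoFst_z, hp1, ite_self, zero_smul, add_zero,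
          add_sub_cancel_left]
      · rw [map_zero, sub_zero]
        have e2 : Q.N.r γ Q.z = 0 := by
          by_cases hγ : G.src γ = v
          · have h' : G.so γ = s := by
              by_contra h'
              exact h ⟨hγ, h'⟩
            exact Q.z_out γ hγ (h' ▸ hst)
          · exact Q.r_z_ne hγ
        rw [e2, smul_zero, zero_add]

/-- the twisted inclusion of the second factor -/
theorem two_inr (hst : s ≠ t) (P : PRep k G v s) (Q : PRep k G v t) :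
    ∃ f, TwB Q (twoRep hst P Q) f ∧ f Q.z = twoZ hst P Q := by
  let f : Q.N.X →ₗ[k] (twoRep hst P Q).X :=
    ((Q.ζ.smulRight P.z).prod LinearMap.id).codRestrict (twoX P Q) (fun x => by
      rw [mem_twoX]
      change P.ζ (Q.ζ x • P.z) = Q.ζ x
      rw [map_smul, P.ζ_z, smul_eq_mul, mul_one])
  have hf1 : ∀ x, twoFst hst P Q (f x) = Q.ζ x • P.z := fun x => rfl
  have hf2 : ∀ x, twoSnd hst P Q (f x) = x := fun x => rfl
  have hfz : f Q.z = twoZ hst P Q := by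
    apply two_ext
    · rw [hf1, twoFst_z, Q.ζ_z, one_smul]
    · rw [hf2, twoSnd_z]
  have hz1 : ∀ γ, Q.ζ (Q.N.r γ Q.z) = 0 := by
    intro γ
    by_cases hγ : G.src γ = v
    · refine Q.ζ_r_ne ?_ _
      rw [← hγ]
      exact (src_ne_tgt γ).symm
    · rw [Q.r_z_ne hγ, map_zero]
  have hp1 : ∀ γ, P.ζ (P.N.r γ P.z) = 0 := by
    intro γ
    by_cases hγ : G.src γ = v
    · refine P.ζ_r_ne ?_ _
      rw [← hγ]
      exact (src_ne_tgt γ).symm
    · rw [P.r_z_ne hγ, map_zero]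
  refine ⟨f, ⟨fun u x => ?_, fun γ x => ?_⟩, hfz⟩
  · apply two_ext
    · rw [hf1, twoFst_e, hf1, map_smul]
      by_cases hu : u = v
      · subst hu
        rw [Q.ζ_e, P.e_z]
      · rw [Q.ζ_e_ne hu, e_other hu P.e_z, zero_smul, smul_zero]
    · rw [hf2, twoSnd_e, hf2]
  · rw [hfz]
    apply two_ext
    · rw [hf1, map_sub, twoFst_r, hf1, hf2, map_smul]
      have e1 : Q.ζ (Q.N.r γ x) =
          (if G.tgt γ = v ∧ G.si γ ≠ s then Q.ζ (Q.N.r γ x) else 0) := by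
        by_cases hγ : G.tgt γ = v
        · rcases bool_cases hst (G.si γ) with ⟨h1, h2⟩ | ⟨h1, h2⟩
          · rw [if_neg (fun h => h.2 h1), Q.ζ_in γ hγ h2]
          · rw [if_pos ⟨hγ, h1⟩]
        · rw [if_neg (fun h => hγ h.1), Q.ζ_r_ne hγ]
      rw [← e1]
      split_ifs with h
      · rw [map_smul, twoFst_r, twoSnd_z, twoFst_z, hz1, ite_self, zero_smul, add_zero,
          add_sub_cancel_left]
      · rw [map_zero, sub_zero]
        have e2 : P.N.r γ P.z = 0 := by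
          by_cases hγ : G.src γ = v
          · have h' : G.so γ = t := by
              by_contra h'
              exact h ⟨hγ, h'⟩
            exact P.z_out γ hγ (h' ▸ hst.symm)
          · exact P.r_z_ne hγ
        rw [e2, smul_zero, zero_add]
    · rw [hf2, map_sub, twoSnd_r, hf1, hf2, map_smul, map_smul, hp1, smul_zero, ite_self,
        zero_smul, add_zero]
      split_ifs with h
      · rw [map_smul, twoSnd_r, twoSnd_z, Q.z_out γ h.1 h.2, twoFst_z, hp1, ite_self, zero_smul,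
          add_zero, smul_zero, sub_zero]
      · rw [map_zero, sub_zero]

end Pool.Agent.H56.UDs
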