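import Pool.Agent.H56.UD.Sol

/-!
# Uniserial dimension (MP_404602_al): the functor `e_P` is uniserial modulo `ker a`
-/

open CategoryTheory

namespace Pool.Agent.H56.UDs

variable {m : ℕ} {k : Type} [Field k] {s : Bool} {j : Fin m}
variable {S : (Rep k (GM m) ⥤ AddCommGrpCat.{0}) → Prop}

/-- the vectors killed by a product of shifts -/
def KL (s : Bool) (j : Fin m) : List k → Sub (U k (GM m))
  | [] => ⊥
  | c :: l => stS s j (bN k c s j) (rN k (G := GM m) (MA.a s j)) (KL s j l)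

theorem KL_fg (l : List k) : (KL s j l).FG := by
  induction l with
  | nil => exact bot_fg U_fp
  | cons c l ih => exact stS_fg ih

theorem KL_mem {X : Rep k (GM m)} {D : Submodule k X.X} (hD : D ≤ VP X s j) (τ : D →ₗ[k] D)
    (hτ : ∀ x : D, ra X s j (τ x) = rb X s j x) (l : List k) :
    ∀ x : D, shl τ l x = 0 → (x : X.X) ∈ sat (KL s j l) X := by
  induction l with
  | nil =>
    intro x hx
    have h1 : x = 0 := hx
    rw [h1]
    exact zero_mem (sat (KL s j []) X)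
  | cons c l ih =>
    intro x hx
    refine ⟨⟨_, ih _ hx, ?_⟩, hD x.2⟩
    change ra X s j ((τ x : X.X) - c • (x : X.X)) = rb X s j x - c • ra X s j x
    rw [map_sub, map_smul, hτ]

theorem KL_sm (hS : IsSerre S) (hk : ∀ c : k, Sm S (Ev k (G := GM m) (MV.P s j) ⊓
    (⊥ : Sub (U k (GM m))).comap (bN k c s j).n) ⊥) (l : List k) : Sm S (KL s j l) ⊥ := by
  induction l with
  | nil => exact sm_of_le hS U_fp (bot_fg U_fp) (bot_fg U_fp) le_rfl
  | cons c l ih => exact sm_stS_bot hS (hk c) (KL_fg l) ih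

/-- the hypotheses for the block -/
structure Hyp (S : (Rep k (GM m) ⥤ AddCommGrpCat.{0}) → Prop) (s : Bool) (j : Fin m) : Prop where
  ser : IsSerre S
  ka : Sm S (Ev k (G := GM m) (MV.P s j) ⊓
    (⊥ : Sub (U k (GM m))).comap (rN k (G := GM m) (MA.a s j)).n) ⊥
  kb : ∀ c : k, Sm S (Ev k (G := GM m) (MV.P s j) ⊓
    (⊥ : Sub (U k (GM m))).comap (bN k c s j).n) ⊥
  qb : ∀ c : k, Sm S (Ev k (G := GM m) (MV.Q s j)) ((⊤ : Sub (U k (GM m))).map (bN k c s j).n)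

/-- `(a⁻¹ b)^n 0` -/
abbrev BM (k : Type) [Field k] {m : ℕ} (s : Bool) (j : Fin m) (n : ℕ) : Sub (U k (GM m)) :=
  (stS s j (rN k (G := GM m) (MA.a s j)) (rN k (G := GM m) (MA.b s j)))^[n] ⊥

theorem BM_fg (n : ℕ) : (BM k s j n).FG := stS_it_fg (bot_fg U_fp) n

theorem sat_BM (X : Rep k (GM m)) (n : ℕ) : sat (BM k s j n) X =
    (stp (ra X s j) (rb X s j) (VP X s j))^[n] ⊥ := by
  refine (sat_stS_it _ X n).trans ?_
  have h1 : sat (⊥ : Sub (U k (GM m))) X = ⊥ := by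
    ext x
    exact mem_sat_bot
  rw [h1]
  rfl

theorem bN_zero_T (X : Rep k (GM m)) : (bN k 0 s j).T X = rb X s j := by
  ext x
  change rb X s j x - (0 : k) • ra X s j x = rb X s j x
  rw [zero_smul, sub_zero]

/-- smallness of elements -/
theorem gen_small [IsAlgClosed k] (h : Hyp S s j) {X : Rep k (GM m)} {x : X.X} {M : ℕ}
    (hr : ∀ n, Rch (sat (BM k s j M) X) x
      ((stp (rb X s j) (ra X s j) (VP X s j))^[n] (VP X s j))) :
    Sm S (gen (F := U k (GM m)) (X := X) x) ⊥ := by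
  have hS := h.ser
  obtain ⟨n, hn⟩ := anti_stab _ (stp_anti (φ := rb X s j) (ψ := ra X s j) (V := VP X s j))
  set D := (stp (rb X s j) (ra X s j) (VP X s j))^[n] (VP X s j) with hD
  have hDV : D ≤ VP X s j := stp_it_le n
  have hDD : D ≤ stp (rb X s j) (ra X s j) (VP X s j) D := by
    have := hn (n + 1) (Nat.le_succ n)
    simp only [Function.iterate_succ_apply'] at this
    rw [← hD] at this
    exact this.ge
  obtain ⟨τ, hτ⟩ := exists_sec hDD
  obtain ⟨z, hz, hzx⟩ := hr n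
  obtain ⟨l, hl⟩ := exists_shl' τ ⟨z, hz⟩
  have hzl := KL_mem hDV τ hτ l ⟨z, hz⟩ hl
  have hb : (⊥ : Sub (U k (GM m))).FG := bot_fg U_fp
  have e1 : Sm S (KL s j l ⊔ BM k s j M) ⊥ :=
    sm_sup hS U_fp (KL_fg l) (BM_fg M) hb (KL_sm hS h.kb l) (sm_stS_it_bot hS h.ka M)
  refine sm_gen_bot hS hb e1 (mem_sat_sup.2 ⟨z, hzl, -(z - x), neg_mem hzx, ?_⟩)
  abel

/-- elements which are not small are equivalent to words -/
theorem gen_word [IsAlgClosed k] (h : Hyp S s j) {X : Rep k (GM m)} {x : X.X}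
    (hx : x ∈ VP X s j) :
    Sm S (gen (F := U k (GM m)) (X := X) x) ⊥ ∨
      ∃ w : Word (GM m) (MV.P s j) false, Sm S (gen (F := U k (GM m)) (X := X) x) (pl k w) ∧
        Sm S (pl k w) (gen (F := U k (GM m)) (X := X) x) := by
  have hS := h.ser
  have hEv : (Ev k (G := GM m) (MV.P s j)).FG := Ev_fg _
  set V := VP X s j with hV
  obtain ⟨M, hM⟩ := mono_stab _ (stp_bot_mono (φ := ra X s j) (ψ := rb X s j) (V := V))
  have hBs : sat (BM k s j M) X = (stp (ra X s j) (rb X s j) V)^[M] ⊥ := sat_BM X M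
  set B := sat (BM k s j M) X with hB
  by_cases hr : ∀ n, Rch B x ((stp (rb X s j) (ra X s j) V)^[n] V)
  · exact Or.inl (gen_small h hr)
  refine Or.inr ?_
  push Not at hr
  obtain ⟨n0, hn0⟩ := hr
  have hBV : B ≤ V := by
    rw [hBs]
    cases M with
    | zero => exact bot_le
    | succ M =>
      rw [Function.iterate_succ_apply']
      exact stp_le
  have hBi : ∀ i, (stp (ra X s j) (rb X s j) V)^[i] ⊥ ≤ B := by
    intro i
    rw [hBs]
    rcases le_total M i with h1 | h1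
    · exact (hM i h1).le
    · exact stp_bot_mono h1
  obtain ⟨w, ⟨n, Z, hZ, rfl⟩, ⟨y, hy, hyx⟩, hmi⟩ := pc_DD (innC s j) X n0 B x hBV hx
    ⟨x, hx, by rw [sub_self]; exact zero_mem _⟩ hn0
  set D := DD s j Z n with hD
  refine ⟨D, ?_⟩
  have hye : X.e (MV.P s j) y = y := pl_e _ hy
  -- the functional
  obtain ⟨g, hg1, hg2, hg3⟩ := exists_sep (G := GM m) (W := sat (mi k D) X ⊔ B)
    (v := (MV.P s j : MV m))
    (sup_le (fun x hx => mem_Ev.2 (mi_e _ hx)) hBV) hye (by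
      intro h1
      obtain ⟨a, ha, b, hb, hab⟩ := Submodule.mem_sup.1 h1
      refine hmi ⟨a, ha, ?_⟩
      have h2 : a - x = (y - x) - b := by rw [← hab]; abel
      rw [h2]
      exact sub_mem hyx hb)
  obtain ⟨r, i, hri⟩ := gap3 (rb X s j) (ra X s j) V (n + 1)
  have hgC : ∀ x ∈ sat (mi k (CC s j r)) X, g x = 0 := by
    intro x hx
    have h1 := hri (stp_anti (Nat.le_succ r) (cc_mi X r hx))
    have h3 : (stp (ra X s j) (rb X s j) V)^[i] ⊥ ⊔ (stp (rb X s j) (ra X s j) V)^[n + 1] V ≤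
        sat (mi k D) X ⊔ B :=
      sup_le ((hBi i).trans le_sup_right) ((dd_mi_ge hZ X n).trans le_sup_left)
    exact hg2 x (h3 h1)
  obtain ⟨f₁, hf₁, hf₁g⟩ := exC (CC s j r) g hg1 hgC
  obtain ⟨f₂, hf₂, hf₂g⟩ := exC D g hg1 fun x hx => hg2 x (Submodule.mem_sup_left hx)
  obtain ⟨φ, hφ1, hφ2⟩ := exC2 tf_ne (germ k (CC s j r)) (germ k D) hf₁ hf₂
    fun x => (hf₁g x).trans (hf₂g x).symm
  -- the second component
  have hf₂y : f₂ y = (germ k D).z := by
    have h1 := stp_it_map (s := s) (j := j) f₂ (fun x => hf₂.1 _ x)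
      (fun x => by
        have h2 := hf₂.2 (MA.a s j) x
        rw [if_neg (fun h => P_ne_Q s s j j h.1.symm), add_zero] at h2
        exact h2)
      (fun x => by
        have h2 := hf₂.2 (MA.b s j) x
        rw [if_neg (fun h => P_ne_Q s s j j h.1.symm), add_zero] at h2
        exact h2) n y (dd_pl_le Z X n hy)
    obtain ⟨c, hc⟩ := gc (k := k) hZ n (f₂ y) h1
    have h2 := hf₂g y
    rw [hc, map_smul, (germ k D).ζ_z, hg3, smul_eq_mul, mul_one] at h2
    rw [hc, h2, one_smul]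
  -- the polynomial of the first component
  have hq0 : (polc k s j r (f₁ y)).coeff 0 = 1 := by
    rw [polc_coeff, hf₁g, hg3]
  obtain ⟨A, hA, hAE, hAS, hAw⟩ := solv hS hZ h.qb (n := n) _ hq0
  have hf₁e : (germ k (CC s j r)).N.e (MV.P s j) (f₁ y) = f₁ y :=
    (hf₁.1 _ y).symm.trans (congrArg f₁ hye)
  -- the map to an arbitrary representation
  set Kr : Sub (U k (GM m)) :=
    (stS s j (rN k (G := GM m) (MA.a s j)) (rN k (G := GM m) (MA.b s j)))^[r]
      (Ev k (G := GM m) (MV.P s j)) with hKr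
  have hKfg : Kr.FG := stS_it_fg hEv r
  have hgen : (A ⊓ Kr) ⊓ pl k D ≤ gen (F := U k (GM m)) (X := X) y := by
    refine le_of_sat fun Y y' hy' => ?_
    obtain ⟨⟨hy1, hy2⟩, hy3⟩ := hy'
    have hy2' : y' ∈ (stp (ra Y s j) (rb Y s j) (VP Y s j))^[r] (VP Y s j) := by
      have h1 : y' ∈ sat Kr Y := hy2
      rw [hKr, sat_stS_it] at h1
      exact h1
    obtain ⟨w, hw1, hw2, rfl⟩ := exists_chain Y r y' hy2'
    obtain ⟨v, hv1, hv2, hv3, hv4⟩ := hAw Y w r hw1 hw2 hy1 hy3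
    obtain ⟨h₁, hh₁, hh₁z, hh₁n⟩ := chain_tw r Y v hv1 hv2
    obtain ⟨h₂, hh₂, hh₂z⟩ := exB D (v 0) hv3
    obtain ⟨ψ, hψ⟩ := exB2f tf_ne (germ k (CC s j r)) (germ k D) hh₁ hh₂ (hh₁z.trans hh₂z.symm)
    refine mem_sat_gen.2 ⟨φ ≫ ψ, ?_⟩
    have h1 : twoζ tf_ne (germ k (CC s j r)) (germ k D) (φ.f y) = 1 :=
      (twoζ_fst tf_ne (germ k (CC s j r)) (germ k D) (φ.f y)).symm.trans
        ((congrArg (germ k (CC s j r)).ζ (hφ1 y)).trans ((hf₁g y).trans hg3))
    have h2 : ψ.f (φ.f y) = w 0 := by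
      rw [hψ, hφ1, hφ2, hf₂y, h1, one_smul, hh₁z, hh₂z, add_sub_cancel_right, hh₁n _ hf₁e, hv4]
    exact h2
  have e2 : Sm S (Ev k (G := GM m) (MV.P s j)) Kr := by
    refine sm_stS_it hS (fun X x => ra_mem x) ?_ (fun X x => rb_e x) r
    have h1 : (⊤ : Sub (U k (GM m))).map (bN k 0 s j).n =
        (⊤ : Sub (U k (GM m))).map (rN k (G := GM m) (MA.b s j)).n := by
      refine sub_ext fun X x => ?_
      rw [mem_sat_map, mem_sat_map, bN_zero_T]
      rfl
    have h2 := h.qb 0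
    rw [h1] at h2
    exact h2
  have e3 : Sm S (Ev k (G := GM m) (MV.P s j)) (A ⊓ Kr) := by
    refine sm_trans hS U_fp hEv hKfg (inf_fg U_fp hA hKfg) e2 ?_
    refine sm_mono hS U_fp (inf_fg U_fp hA hKfg) hKfg (inf_fg U_fp hA hKfg)
      (sm_inf hS U_fp hEv hA hKfg hAS) (le_inf (stS_it_le r) le_rfl) le_rfl
  have hDfg : (pl k D).FG := pl_fg _
  have hDE : pl k D ≤ Ev k (G := GM m) (MV.P s j) :=
    le_of_sat fun X x hx => mem_Ev.2 (pl_e _ hx)
  have hgx : (gen (F := U k (GM m)) (X := X) x).FG := gen_fg _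
  have hgy : (gen (F := U k (GM m)) (X := X) y).FG := gen_fg _
  have e5 : Sm S (pl k D) (gen (F := U k (GM m)) (X := X) y) :=
    sm_mono hS U_fp (inf_fg U_fp (inf_fg U_fp hA hKfg) hDfg) hDfg hgy
      (sm_inf hS U_fp hEv (inf_fg U_fp hA hKfg) hDfg e3) (le_inf hDE le_rfl) hgen
  have hBMfg : (BM k s j M).FG := BM_fg M
  have hBM : Sm S (BM k s j M) ⊥ := sm_stS_it_bot hS h.ka M
  constructor
  · -- `x ∈ D⁺ + B`
    have e6 : Sm S (pl k D ⊔ BM k s j M) (pl k D) :=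
      sm_sup hS U_fp hDfg hBMfg hDfg (sm_of_le hS U_fp hDfg hDfg le_rfl)
        (sm_mono hS U_fp (bot_fg U_fp) hBMfg hDfg hBM le_rfl bot_le)
    refine sm_mono hS U_fp hDfg hgx hDfg e6 (gen_le_sat.2 ?_) le_rfl
    refine mem_sat_sup.2 ⟨y, hy, -(y - x), neg_mem hyx, ?_⟩
    abel
  · have e6 : Sm S (gen (F := U k (GM m)) (X := X) x ⊔ BM k s j M)
        (gen (F := U k (GM m)) (X := X) x) :=
      sm_sup hS U_fp hgx hBMfg hgx (sm_of_le hS U_fp hgx hgx le_rfl)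
        (sm_mono hS U_fp (bot_fg U_fp) hBMfg hgx hBM le_rfl bot_le)
    refine sm_trans hS U_fp hDfg hgy hgx e5 ?_
    refine sm_mono hS U_fp hgx hgy hgx e6 (gen_le_sat.2 ?_) le_rfl
    refine mem_sat_sup.2 ⟨x, ⟨𝟙 X, rfl⟩, y - x, hyx, ?_⟩
    abel

/-- `e_P` is uniserial modulo `S` -/
theorem uni_P [IsAlgClosed k] (h : Hyp S s j) :
    Uni S ((Ev k (G := GM m) (MV.P s j)).quot ⊥) := by
  have hS := h.ser
  refine uni_crit hS U_fp (Ev_fg _) (bot_fg U_fp) bot_le ?_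
  intro X Y x y hx hy
  have hgx : (gen (F := U k (GM m)) (X := X) x).FG := gen_fg _
  have hgy : (gen (F := U k (GM m)) (X := Y) y).FG := gen_fg _
  have hb : (⊥ : Sub (U k (GM m))).FG := bot_fg U_fp
  rcases gen_word h hx with h1 | ⟨w, h1, h2⟩
  · exact Or.inl (sm_mono hS U_fp hb hgx (sup_fg hgy hb) h1 le_rfl bot_le)
  rcases gen_word h hy with h3 | ⟨w', h3, h4⟩
  · exact Or.inr (sm_mono hS U_fp hb hgy (sup_fg hgx hb) h3 le_rfl bot_le)
  rcases pl_total (k := k) w w' with hw | hw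
  · left
    have e1 := sm_trans hS U_fp (pl_fg w) (pl_fg w') hgy
      (sm_of_le hS U_fp (pl_fg w) (pl_fg w') hw) h4
    have e2 := sm_trans hS U_fp hgx (pl_fg w) hgy h1 e1
    exact sm_mono hS U_fp hgy hgx (sup_fg hgy hb) e2 le_rfl le_sup_left
  · right
    have e1 := sm_trans hS U_fp (pl_fg w') (pl_fg w) hgx
      (sm_of_le hS U_fp (pl_fg w') (pl_fg w) hw) h2
    have e2 := sm_trans hS U_fp hgy (pl_fg w') hgx h3 e1
    exact sm_mono hS U_fp hgx hgy (sup_fg hgx hb) e2 le_rfl le_sup_left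

end Pool.Agent.H56.UDs
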