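import Pool.Agent.H56.UD.Comp2
import Pool.Agent.H56.UD.LowM

/-!
# Uniserial dimension (MP_404602_al): uniserial functors
-/

open CategoryTheory

namespace Pool.Agent.H56.UDs

variable {m : ℕ} {k : Type} [Field k]

theorem nilPf_mi {X : Rep k (GM m)} {s : Bool} {j : Fin m} {x : X.X}
    (hx : x ∈ sat (mi k (Word.nil (G := GM m) (MV.P s j) false)) X) : x = 0 := by
  rcases mem_mi_nil.1 hx with rfl | ⟨α, hα, hs, y, rfl⟩
  · rfl
  · obtain ⟨hj, rfl⟩ := tgt_P hα
    exact absurd hs (by simp [GM, MA.si])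

theorem nilQf_mi {X : Rep k (GM m)} {s : Bool} {j : Fin m} {x : X.X} :
    x ∈ sat (mi k (Word.nil (G := GM m) (MV.Q s j) false)) X ↔ ∃ y, rb X s j y = x := by
  constructor
  · intro hx
    rcases mem_mi_nil.1 hx with rfl | ⟨α, hα, hs, y, rfl⟩
    · exact ⟨0, map_zero _⟩
    · rcases tgt_Q hα with rfl | rfl
      · exact absurd hs (by simp [GM, MA.si])
      · exact ⟨y, rfl⟩
  · rintro ⟨y, rfl⟩
    exact mem_mi_nil.2 (Or.inr ⟨MA.b s j, rfl, rfl, y, rfl⟩)

theorem nilPf_pl {X : Rep k (GM m)} {s : Bool} {j : Fin m} {x : X.X} :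
    x ∈ sat (pl k (Word.nil (G := GM m) (MV.P s j) false)) X ↔ x ∈ VP X s j ∧ rb X s j x = 0 := by
  refine (mem_pl_nil (G := GM m)).trans ?_
  constructor
  · rintro ⟨h1, h2⟩
    exact ⟨mem_Ev.2 h1, h2 (MA.b s j) rfl rfl⟩
  · rintro ⟨h1, h2⟩
    refine ⟨mem_Ev.1 h1, fun α hα hs => ?_⟩
    rcases src_P hα with rfl | rfl
    · exact absurd hs (by simp [GM, MA.so])
    · exact h2

theorem nilPt_pl {X : Rep k (GM m)} {s : Bool} {j : Fin m} {x : X.X} :
    x ∈ sat (pl k (Word.nil (G := GM m) (MV.P s j) true)) X ↔ x ∈ VP X s j ∧ ra X s j x = 0 := by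
  refine (mem_pl_nil (G := GM m)).trans ?_
  constructor
  · rintro ⟨h1, h2⟩
    exact ⟨mem_Ev.2 h1, h2 (MA.a s j) rfl rfl⟩
  · rintro ⟨h1, h2⟩
    refine ⟨mem_Ev.1 h1, fun α hα hs => ?_⟩
    rcases src_P hα with rfl | rfl
    · exact h2
    · exact absurd hs (by simp [GM, MA.so])

/-- the step `a b⁻¹` -/
theorem pc_R' {X : Rep k (GM m)} {s : Bool} {j : Fin m}
    {W : Word (GM m) (MV.Q s j) true → Prop} {Z Z' : Submodule k X.X}
    (h : PC W X Z Z') :
    PC (G := GM m) (v := (MV.Q s j : MV m)) (s := true) (fun _ => True) X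
      (rtp (ra X s j) (rb X s j) (VP X s j) Z) (rtp (ra X s j) (rb X s j) (VP X s j) Z') := by
  have h1 : PC (G := GM m) (v := (MV.P s j : MV m)) (s := false) (fun _ => True) X
      (Z.comap (rb X s j) ⊓ VP X s j) (Z'.comap (rb X s j) ⊓ VP X s j) :=
    pc_inv (G := GM m) (α := MA.b s j) (W' := fun _ => True) h fun _ _ => trivial
  exact pc_dir (G := GM m) (α := MA.a s j) (W' := fun _ => True) h1 inf_le_right
    fun _ _ => trivial

/-- completeness at `(Q s j, true)` modulo the image of `b` -/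
theorem innQ (s : Bool) (j : Fin m) (X : Rep k (GM m)) (N : Submodule k X.X) (q : X.X)
    (hN : N ≤ VQ X s j) (hb : ∀ x, rb X s j x ∈ N) (hq : q ∈ VQ X s j) (hqN : q ∉ N) :
    ∃ w : Word (GM m) (MV.Q s j) true, Cpl X N q w := by
  set V := VP X s j with hV
  set R := rtp (ra X s j) (rb X s j) V with hR
  have hup0 : PC (G := GM m) (v := (MV.Q s j : MV m)) (s := true) (fun _ => True) X ⊤ (R ⊤) := by
    refine (pc_top (pc_Qt (innC s j) X)).mono (fun _ _ => trivial) le_rfl ?_
    rintro _ ⟨x, hx, rfl⟩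
    exact ⟨x, ⟨trivial, hx⟩, rfl⟩
  have hup1 : ∀ n, PC (G := GM m) (v := (MV.Q s j : MV m)) (s := true) (fun _ => True) X
      (R^[n] ⊤) (R^[n + 1] ⊤) := by
    intro n
    induction n with
    | zero => exact hup0
    | succ n ih =>
      have h2 := pc_R' ih
      rw [← hV, ← hR, ← Function.iterate_succ_apply' R n,
        ← Function.iterate_succ_apply' R (n + 1)] at h2
      exact h2
  have hup : ∀ n, PC (G := GM m) (v := (MV.Q s j : MV m)) (s := true) (fun _ => True) X
      ⊤ (R^[n] ⊤) := by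
    intro n
    induction n with
    | zero => exact PC.refl
    | succ n ih => exact ih.trans (hup1 n)
  have hlo0 : PC (G := GM m) (v := (MV.Q s j : MV m)) (s := true) (fun _ => True) X
      (R ⊥) ⊥ := by
    have h0 : PC (G := GM m) (v := (MV.P s j : MV m)) (s := false) (fun _ => True) X
        (LinearMap.ker (rb X s j) ⊓ V) ⊥ := by
      refine (pc_word (W := fun _ => True) (G := GM m)
        (Word.nil (G := GM m) (MV.P s j) false) trivial).mono (fun _ _ => trivial) ?_ ?_
      · rintro x ⟨hx1, hx2⟩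
        exact nilPf_pl.2 ⟨hx2, hx1⟩
      · intro x hx
        rw [nilPf_mi hx]
        exact zero_mem _
    have h1 := pc_dir (G := GM m) (α := MA.a s j) (W' := fun _ => True)
      h0 inf_le_right fun _ _ => trivial
    refine h1.mono (fun _ _ => trivial) ?_ ?_
    · rintro _ ⟨x, ⟨hx1, hx2⟩, rfl⟩
      exact ⟨x, ⟨hx1, hx2⟩, rfl⟩
    · rw [Submodule.map_bot]
  have hlo1 : ∀ n, PC (G := GM m) (v := (MV.Q s j : MV m)) (s := true) (fun _ => True) X
      (R^[n + 1] ⊥) (R^[n] ⊥) := by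
    intro n
    induction n with
    | zero => exact hlo0
    | succ n ih =>
      have h2 := pc_R' ih
      rw [← hV, ← hR, ← Function.iterate_succ_apply' R n,
        ← Function.iterate_succ_apply' R (n + 1)] at h2
      exact h2
  have hlo : ∀ n, PC (G := GM m) (v := (MV.Q s j : MV m)) (s := true) (fun _ => True) X
      (R^[n] ⊥) ⊥ := by
    intro n
    induction n with
    | zero => exact PC.refl
    | succ n ih => exact (hlo1 n).trans ih
  obtain ⟨r, n, hrn⟩ := gap1 (ra X s j) (rb X s j) V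
  by_cases hr : Rch N q (R^[r] ⊤)
  · obtain ⟨z, hz, hzN⟩ := hr
    obtain ⟨y, hy, _, ⟨p, hp, rfl⟩, hyp⟩ := Submodule.mem_sup.1 (hrn hz)
    obtain ⟨w, _, hw⟩ := hlo n N q hN hq ⟨y, hy, by
      have h1 : y - q = (z - q) - rb X s j p := by
        rw [← hyp]
        abel
      rw [h1]
      exact sub_mem hzN (hb p)⟩ (not_rch_bot hqN)
    exact ⟨w, hw⟩
  · obtain ⟨w, _, hw⟩ := hup r N q hN hq ⟨q, trivial, by rw [sub_self]; exact zero_mem _⟩ hr
    exact ⟨w, hw⟩

/-- completeness at `(P s j, true)` for the elements of the kernel of `b` -/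
theorem outP_b (s : Bool) (j : Fin m) (X : Rep k (GM m)) (N : Submodule k X.X) (x : X.X)
    (hN : N ≤ LinearMap.ker (rb X s j) ⊓ VP X s j) (hx : x ∈ LinearMap.ker (rb X s j) ⊓ VP X s j)
    (hxN : x ∉ N) : ∃ w : Word (GM m) (MV.P s j) true, Cpl X N x w := by
  set V := VP X s j with hV
  set K := stp (ra X s j) (rb X s j) V with hK
  have hNV : N ≤ V := hN.trans inf_le_right
  have hup0 : PC (G := GM m) (v := (MV.P s j : MV m)) (s := true) (fun _ => True) X V (K V) := by
    have h1 := pc_inv (G := GM m) (α := MA.a s j) (W' := fun _ => True) (pc_Qf X s j)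
      fun _ _ => trivial
    refine h1.mono (fun _ h => h) ?_ le_rfl
    exact fun x hx => ⟨ra_mem x, hx⟩
  have hup1 : ∀ n, PC (G := GM m) (v := (MV.P s j : MV m)) (s := true) (fun _ => True) X
      (K^[n] V) (K^[n + 1] V) := by
    intro n
    induction n with
    | zero => exact hup0
    | succ n ih =>
      have h2 := pc_K (stp_it_le n) ih
      rw [← hV, ← hK, ← Function.iterate_succ_apply' K n,
        ← Function.iterate_succ_apply' K (n + 1)] at h2
      exact h2
  have hup : ∀ n, PC (G := GM m) (v := (MV.P s j : MV m)) (s := true) (fun _ => True) X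
      V (K^[n] V) := by
    intro n
    induction n with
    | zero => exact PC.refl
    | succ n ih => exact ih.trans (hup1 n)
  have hlo0 : PC (G := GM m) (v := (MV.P s j : MV m)) (s := true) (fun _ => True) X (K ⊥) ⊥ := by
    refine (pc_A (X := X) s j fun h => outQ s _).mono (fun _ h => h) ?_ le_rfl
    rintro x ⟨⟨y, hy, hyx⟩, hx⟩
    rw [(Submodule.mem_bot k).1 hy, map_zero] at hyx
    exact ⟨hyx.symm, hx⟩
  have hlo1 : ∀ n, PC (G := GM m) (v := (MV.P s j : MV m)) (s := true) (fun _ => True) X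
      (K^[n + 1] ⊥) (K^[n] ⊥) := by
    intro n
    induction n with
    | zero => exact hlo0
    | succ n ih =>
      have h2 := pc_K (by
        rw [Function.iterate_succ_apply']
        exact stp_le) ih
      rw [← hV, ← hK, ← Function.iterate_succ_apply' K n,
        ← Function.iterate_succ_apply' K (n + 1)] at h2
      exact h2
  have hlo : ∀ n, PC (G := GM m) (v := (MV.P s j : MV m)) (s := true) (fun _ => True) X
      (K^[n] ⊥) ⊥ := by
    intro n
    induction n with
    | zero => exact PC.refl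
    | succ n ih => exact (hlo1 n).trans ih
  by_cases hr : ∀ n, Rch N x (K^[n] V)
  · obtain ⟨n, hn⟩ := anti_stab _ (stp_anti (φ := ra X s j) (ψ := rb X s j) (V := V))
    obtain ⟨z, hz, hzN⟩ := hr n
    have hz' : ∀ i, z ∈ K^[i] V := by
      intro i
      rcases le_total n i with h1 | h1
      · have := hn i h1
        simp only [← hK] at this
        rw [this]
        exact hz
      · exact stp_anti h1 hz
    have hz0 : rb X s j z = 0 := by
      have h1 : rb X s j (z - x) = 0 := (hN hzN).1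
      have h2 : rb X s j x = 0 := hx.1
      rw [map_sub, h2, sub_zero] at h1
      exact h1
    obtain ⟨i, hi⟩ := gap2 (ra X s j) (rb X s j) V z hz' hz0
    obtain ⟨w, _, hw⟩ := hlo i N x hNV hx.2 ⟨z, hi, hzN⟩ (not_rch_bot hxN)
    exact ⟨w, hw⟩
  · push Not at hr
    obtain ⟨n, hn⟩ := hr
    obtain ⟨w, _, hw⟩ := hup n N x hNV hx.2 ⟨x, hx.2, by rw [sub_self]; exact zero_mem _⟩ hn
    exact ⟨w, hw⟩

variable {S : (Rep k (GM m) ⥤ AddCommGrpCat.{0}) → Prop}

/-- the cokernel of `b` is uniserial -/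
theorem uni_cokb (hS : IsSerre S) (s : Bool) (j : Fin m) :
    Uni S ((pl k (Word.nil (G := GM m) (MV.Q s j) false)).quot
      (mi k (Word.nil (G := GM m) (MV.Q s j) false))) := by
  refine uni_nil (G := GM m) hS (MV.Q s j) true (fun X x hx hxN => ?_) (fun w n hn => ?_)
  · refine innQ s j X _ x (fun y hy => mem_Ev.2 (mi_e _ hy)) (fun y => nilQf_mi.2 ⟨y, rfl⟩)
      (mem_Ev.2 (pl_e _ hx)) hxN
  · obtain ⟨c, p, _, hp⟩ := ((innP (k := k) s j w).2 rfl rfl).2 n (pl_e _ hn)
    refine ⟨c, nilQf_mi.2 ⟨p, ?_⟩⟩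
    rw [hp, add_sub_cancel_left]

/-- the kernel of `b` is uniserial -/
theorem uni_kerb (hS : IsSerre S) (s : Bool) (j : Fin m) :
    Uni S ((pl k (Word.nil (G := GM m) (MV.P s j) false)).quot
      (mi k (Word.nil (G := GM m) (MV.P s j) false))) := by
  refine uni_nil (G := GM m) hS (MV.P s j) true (fun X x hx hxN => ?_) (fun w n hn => ?_)
  · have h1 := nilPf_pl.1 hx
    refine outP_b s j X _ x (fun y hy => ?_) ⟨h1.2, h1.1⟩ hxN
    rw [nilPf_mi hy]
    exact zero_mem _
  · have h1 := nilPf_pl.1 hn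
    obtain ⟨c, hc⟩ := (outP (k := k) s j w).1 rfl rfl n (mem_Ev.1 h1.1) h1.2
    refine ⟨c, ?_⟩
    rw [← hc, sub_self]
    exact zero_mem _

/-- `ker a / im c` is uniserial -/
theorem uni_kera (hS : IsSerre S) (s : Bool) (j : Fin m) :
    Uni S ((pl k (Word.nil (G := GM m) (MV.P s j) true)).quot
      (mi k (Word.nil (G := GM m) (MV.P s j) true))) := by
  refine uni_nil (G := GM m) hS (MV.P s j) false (fun X x hx hxN => ?_) (fun w n hn => ?_)
  · have h1 := nilPt_pl.1 hx
    refine innK s j X _ x (fun y hy => ?_) ⟨h1.2, h1.1⟩ hxN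
    have h2 := nilPt_pl.1 (mi_le_pl _ X hy)
    exact ⟨h2.2, h2.1⟩
  · have h1 := nilPt_pl.1 hn
    obtain ⟨c, hc⟩ := ((innP (k := k) s j w).1 rfl rfl).1 n (mem_Ev.1 h1.1) h1.2
    refine ⟨c, ?_⟩
    rw [← hc, sub_self]
    exact zero_mem _

/-- `E_w / im c` is uniserial -/
theorem uni_w (hS : IsSerre S) :
    Uni S ((pl k (Word.nil (G := GM m) MV.w false)).quot
      (mi k (Word.nil (G := GM m) MV.w false))) := by
  refine uni_nil (G := GM m) hS MV.w true (fun X x hx hxN => ?_) (fun w n hn => ?_)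
  · exact inn_w true X _ x (mem_Ev.2 (pl_e _ hx)) hxN
  · obtain ⟨c, hc⟩ := w_oneD (k := k) true w n (pl_e _ hn)
    refine ⟨c, ?_⟩
    rw [← hc, sub_self]
    exact zero_mem _

end Pool.Agent.H56.UDs
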