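import Pool.Agent.H56.UD.SubU

/-!
# Uniserial dimension (MP_404602_al): words and their subfunctors
-/

open CategoryTheory

namespace Pool.Agent.H56.UDs

/-- words starting at the vertex `v` at the side `s` -/
inductive Word (G : Gentle) : G.V → Bool → Type
  | nil (v : G.V) (s : Bool) : Word G v s
  | dir (α : G.A) (w : Word G (G.src α) (!G.so α)) : Word G (G.tgt α) (G.si α)
  | inv (α : G.A) (w : Word G (G.tgt α) (!G.si α)) : Word G (G.src α) (G.so α)

variable {k : Type} [Field k] {G : Gentle}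

/-- the larger subfunctor of a word -/
def pl (k : Type) [Field k] {G : Gentle} : ∀ {v : G.V} {s : Bool}, Word G v s → Sub (U k G)
  | _, _, .nil v s => Ev k v ⊓ (⊥ : Sub (U k G)).comap (outN k v s).n
  | _, _, .dir α w => (pl k w).map (rN k α).n
  | _, _, .inv α w => (pl k w).comap (rN k α).n ⊓ Ev k (G.src α)

/-- the smaller subfunctor of a word -/
def mi (k : Type) [Field k] {G : Gentle} : ∀ {v : G.V} {s : Bool}, Word G v s → Sub (U k G)
  | _, _, .nil v s => (⊤ : Sub (U k G)).map (inN k v s).n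
  | _, _, .dir α w => (mi k w).map (rN k α).n
  | _, _, .inv α w => (mi k w).comap (rN k α).n ⊓ Ev k (G.src α)

theorem pl_fg : ∀ {v : G.V} {s : Bool} (w : Word G v s), (pl k w).FG := by
  intro v s w
  induction w with
  | nil v s => exact inf_fg U_fp (Ev_fg v) (comap_fg U_fp U_fp (bot_fg U_fp))
  | dir α w ih => exact map_fg ih
  | inv α w ih => exact inf_fg U_fp (comap_fg U_fp U_fp ih) (Ev_fg _)

theorem mi_fg : ∀ {v : G.V} {s : Bool} (w : Word G v s), (mi k w).FG := by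
  intro v s w
  induction w with
  | nil v s => exact map_fg (top_fg U_fp)
  | dir α w ih => exact map_fg ih
  | inv α w ih => exact inf_fg U_fp (comap_fg U_fp U_fp ih) (Ev_fg _)

/-! ## Membership -/

theorem mem_pl_nil {v : G.V} {s : Bool} {M : Rep k G} {x : M.X} :
    x ∈ sat (pl k (Word.nil v s)) M ↔
      M.e v x = x ∧ ∀ α, G.src α = v → G.so α = s → M.r α x = 0 := by
  change x ∈ sat (Ev k v) M ∧ (outN k v s).T M x ∈ sat (⊥ : Sub (U k G)) M ↔ _
  rw [mem_Ev, mem_sat_bot]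
  constructor
  · rintro ⟨h1, h2⟩
    refine ⟨h1, fun α hα hs => ?_⟩
    subst hα hs
    rwa [outN_eq] at h2
  · rintro ⟨h1, h2⟩
    refine ⟨h1, ?_⟩
    by_cases h : ∃ α, G.src α = v ∧ G.so α = s
    · obtain ⟨α, rfl, rfl⟩ := h
      rw [outN_eq]
      exact h2 α rfl rfl
    · push Not at h
      rw [outN_zero h]
      rfl

theorem mem_mi_nil {v : G.V} {s : Bool} {M : Rep k G} {x : M.X} :
    x ∈ sat (mi k (Word.nil v s)) M ↔
      x = 0 ∨ ∃ α, G.tgt α = v ∧ G.si α = s ∧ ∃ y, M.r α y = x := by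
  change (∃ y ∈ sat (⊤ : Sub (U k G)) M, (inN k v s).T M y = x) ↔ _
  constructor
  · rintro ⟨y, _, rfl⟩
    by_cases h : ∃ α, G.tgt α = v ∧ G.si α = s
    · obtain ⟨α, rfl, rfl⟩ := h
      rw [inN_eq]
      exact Or.inr ⟨α, rfl, rfl, y, rfl⟩
    · push Not at h
      rw [inN_zero h]
      exact Or.inl rfl
  · rintro (rfl | ⟨α, rfl, rfl, y, rfl⟩)
    · exact ⟨0, mem_sat_top, map_zero _⟩
    · exact ⟨y, mem_sat_top, by rw [inN_eq]⟩

theorem mem_pl_dir {α : G.A} {w : Word G (G.src α) (!G.so α)} {M : Rep k G} {x : M.X} :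
    x ∈ sat (pl k (Word.dir α w)) M ↔ ∃ y ∈ sat (pl k w) M, M.r α y = x := Iff.rfl

theorem mem_mi_dir {α : G.A} {w : Word G (G.src α) (!G.so α)} {M : Rep k G} {x : M.X} :
    x ∈ sat (mi k (Word.dir α w)) M ↔ ∃ y ∈ sat (mi k w) M, M.r α y = x := Iff.rfl

theorem mem_pl_inv {α : G.A} {w : Word G (G.tgt α) (!G.si α)} {M : Rep k G} {x : M.X} :
    x ∈ sat (pl k (Word.inv α w)) M ↔ M.r α x ∈ sat (pl k w) M ∧ M.e (G.src α) x = x := by
  change M.r α x ∈ sat (pl k w) M ∧ x ∈ sat (Ev k _) M ↔ _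
  rw [mem_Ev]

theorem mem_mi_inv {α : G.A} {w : Word G (G.tgt α) (!G.si α)} {M : Rep k G} {x : M.X} :
    x ∈ sat (mi k (Word.inv α w)) M ↔ M.r α x ∈ sat (mi k w) M ∧ M.e (G.src α) x = x := by
  change M.r α x ∈ sat (mi k w) M ∧ x ∈ sat (Ev k _) M ↔ _
  rw [mem_Ev]

theorem pl_e {v : G.V} {s : Bool} (w : Word G v s) {M : Rep k G} {x : M.X}
    (hx : x ∈ sat (pl k w) M) : M.e v x = x := by
  induction w with
  | nil v s => exact (mem_pl_nil.1 hx).1
  | dir α w ih =>
    obtain ⟨y, _, rfl⟩ := mem_pl_dir.1 hx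
    exact M.e_tgt α y
  | inv α w ih => exact (mem_pl_inv.1 hx).2

theorem mi_e {v : G.V} {s : Bool} (w : Word G v s) {M : Rep k G} {x : M.X}
    (hx : x ∈ sat (mi k w) M) : M.e v x = x := by
  induction w with
  | nil v s =>
    rcases mem_mi_nil.1 hx with rfl | ⟨α, rfl, _, y, rfl⟩
    · exact map_zero _
    · exact M.e_tgt α y
  | dir α w ih =>
    obtain ⟨y, _, rfl⟩ := mem_mi_dir.1 hx
    exact M.e_tgt α y
  | inv α w ih => exact (mem_mi_inv.1 hx).2

theorem mi_le_pl {v : G.V} {s : Bool} (w : Word G v s) (M : Rep k G) :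
    sat (mi k w) M ≤ sat (pl k w) M := by
  induction w with
  | nil v s =>
    intro x hx
    refine mem_pl_nil.2 ⟨mi_e _ hx, fun β h1 h2 => ?_⟩
    rcases mem_mi_nil.1 hx with rfl | ⟨α, hα, hs, y, rfl⟩
    · exact map_zero _
    · exact M.rel α β (hα.trans h1.symm) (hs.trans h2.symm) y
  | dir α w ih =>
    rintro x ⟨y, hy, rfl⟩
    exact ⟨y, ih hy, rfl⟩
  | inv α w ih =>
    intro x hx
    rw [mem_mi_inv] at hx
    exact mem_pl_inv.2 ⟨ih hx.1, hx.2⟩

/-! ## Order -/

/-- the lexicographic order of words -/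
inductive WLt {G : Gentle} : ∀ {v : G.V} {s : Bool}, Word G v s → Word G v s → Prop
  | dir_nil (α : G.A) (w : Word G (G.src α) (!G.so α)) :
      WLt (Word.dir α w) (Word.nil (G.tgt α) (G.si α))
  | nil_inv (α : G.A) (w : Word G (G.tgt α) (!G.si α)) :
      WLt (Word.nil (G.src α) (G.so α)) (Word.inv α w)
  | dir_inv {v : G.V} {s : Bool} (α β : G.A) (w : Word G (G.src α) (!G.so α))
      (w' : Word G (G.tgt β) (!G.si β)) (x y : Word G v s) (hv : G.tgt α = G.src β)
      (hs : G.si α = G.so β) (hx : HEq x (Word.dir α w)) (hy : HEq y (Word.inv β w'))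
      (hv' : v = G.src β) (hs' : s = G.so β) : WLt x y
  | dir_congr (α : G.A) {w w' : Word G (G.src α) (!G.so α)} (h : WLt w w') :
      WLt (Word.dir α w) (Word.dir α w')
  | inv_congr (α : G.A) {w w' : Word G (G.tgt α) (!G.si α)} (h : WLt w w') :
      WLt (Word.inv α w) (Word.inv α w')

theorem pl_nonempty_zero {v : G.V} {s : Bool} (w : Word G v s) (M : Rep k G) :
    (0 : M.X) ∈ sat (mi k w) M := zero_mem _

/-- smaller words have smaller subfunctors -/
theorem wlt_le {v : G.V} {s : Bool} {w w' : Word G v s} (h : WLt w w') (M : Rep k G) :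
    sat (pl k w) M ≤ sat (mi k w') M := by
  induction h with
  | dir_nil α w =>
    rintro x ⟨y, _, rfl⟩
    exact mem_mi_nil.2 (Or.inr ⟨α, rfl, rfl, y, rfl⟩)
  | nil_inv α w =>
    intro x hx
    rw [mem_pl_nil] at hx
    rw [mem_mi_inv, hx.2 α rfl rfl]
    exact ⟨zero_mem _, hx.1⟩
  | dir_inv α β w w' x y hv hs hx hy hv' hs' =>
    subst hv' hs'
    have hy' : y = Word.inv β w' := eq_of_heq hy
    subst hy'
    intro t ht
    have h1 : ∃ z, M.r α z = t := by
      revert ht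
      generalize hpt : pl k x = p
      have key : ∀ (v : G.V) (s : Bool) (x : Word G v s), v = G.tgt α → s = G.si α →
          HEq x (Word.dir α w) → ∀ t, t ∈ sat (pl k x) M → ∃ z, M.r α z = t := by
        rintro v s x rfl rfl hx t ht
        have hx' : x = Word.dir α w := eq_of_heq hx
        subst hx'
        obtain ⟨z, _, hz⟩ := mem_pl_dir.1 ht
        exact ⟨z, hz⟩
      intro ht
      rw [← hpt] at ht
      exact key _ _ x hv.symm hs.symm hx t ht
    obtain ⟨z, rfl⟩ := h1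
    rw [mem_mi_inv, M.rel α β hv hs, ← hv]
    exact ⟨zero_mem _, M.e_tgt α z⟩
  | dir_congr α h ih =>
    rintro x ⟨y, hy, rfl⟩
    exact ⟨y, ih hy, rfl⟩
  | inv_congr α h ih =>
    intro x hx
    rw [mem_pl_inv] at hx
    exact mem_mi_inv.2 ⟨ih hx.1, hx.2⟩

end Pool.Agent.H56.UDs
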